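import Pool.Agent.H20.Q1.BDc

set_option autoImplicit false
open Finset

/-!
# Uniform bound for complex weights near one: families with several walls

`RunsW` : the ties of one wall of a family, cut in runs. `RunsK` : a family with at most `K` walls.
`tot_bdK` : `‖Tot‖ ≤ M (number of families) K 2 ^ J` if
`C 4 ^ (number of families) 2 ^ K θ L ^ (2/3) ≤ 1`.
-/

namespace Pool.Agent.H20.Q1

open Pool.Agent.H75.Perc Pool.Agent.H75.TwoArm Pool.Agent.H75.Four Pool.Agent.H49.Perc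
open Pool.Agent.H99.NC Pool.Agent.H60.Q1 Pool.Agent.Q1 Pool.Agent.H39.Q1 Pool.Agent.H25.Q1.Add
open Pool.Agent.H46.G1 Pool.Agent.Q1.M6b Pool.Agent.Q1.M6c
open Pool.Agent.H59.Q1 (W1)
open Pool.Agent.H69.Q1

/-- The ties `T'` of one wall of a family with the ties `T`, cut in `J` runs of length at most `L`. -/
def RunsW (W Bb TT T T' Wi Li : Finset (ℤ × ℤ)) (b o : ℤ × ℤ → ℤ × ℤ) (c : Bool) (L J : ℕ) :
    Prop :=
  ∃ (ε : Bool × Bool) (δ z : ℤ × ℤ) (N : Fin J → ℕ) (off : Fin J → ℤ)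
    (tie : Fin J × ℤ → ℤ × ℤ),
    (∀ a, N a ≤ L) ∧ (∀ a a', a < a' → off a + N a ≤ off a') ∧
    (∀ e ∈ T', ∃ x ∈ Wp N, tie x = e) ∧
    ∀ x ∈ Wp N, tie x ∈ T ∧ gm ε (b (tie x)) = wpt 1 z (off x.1 + x.2) ∧
      ∀ ρ : ℤ, 1 ≤ ρ → 2 * ρ ≤ x.2 → 2 * ρ < N x.1 - x.2 →
        FlatL W Bb TT T Wi Li b o c ε δ (b (tie x)) (ρ + 1)

/-- The ties `T` of a family lie on `K` walls. -/
def RunsK (W Bb TT T Wi Li : Finset (ℤ × ℤ)) (b o : ℤ × ℤ → ℤ × ℤ) (c : Bool) (L J K : ℕ) :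
    Prop :=
  ∃ T' : Fin K → Finset (ℤ × ℤ), (∀ e ∈ T, ∃ k, e ∈ T' k) ∧
    ∀ k, RunsW W Bb TT T (T' k) Wi Li b o c L J

variable {ι : Type*} [DecidableEq ι] {X : Pool.Agent.Q1.Env} {W Bb B TT Cs ω : Finset (ℤ × ℤ)}
  {fm : ℤ × ℤ → ι} {co : ι → Bool} {Wl La : ι → Finset (ℤ × ℤ)}
  {b o : ℤ × ℤ → ℤ × ℤ} {a : ℤ × ℤ → ℂ} {s : ℤ × ℤ → ℂ} {e w : ℤ × ℤ} {R : ℤ}
  {ε : Bool × Bool} {δ : ℤ × ℤ} {T T' Wi Li : Finset (ℤ × ℤ)} {c : Bool} {L J K : ℕ}

/-- no ties -/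
lemma RunsW.empty : RunsW W Bb TT T ∅ Wi Li b o c L J :=
  ⟨(false, false), 0, 0, fun _ => 0, fun _ => 0, fun _ => 0, fun _ => Nat.zero_le _,
    fun _ _ _ => by simp, fun e he => absurd he (notMem_empty e), fun x hx => by
      have := mem_Wp.1 hx
      omega⟩

lemma RunsW.mono (h : RunsW W Bb TT T T' Wi Li b o c L J) {T'' : Finset (ℤ × ℤ)}
    (hs : T'' ⊆ T') : RunsW W Bb TT T T'' Wi Li b o c L J := by
  obtain ⟨ε, δ, z, N, off, tie, h1, h2, h3, h4⟩ := h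
  exact ⟨ε, δ, z, N, off, tie, h1, h2, fun e he => h3 e (hs he), h4⟩

/-- a list of walls -/
lemma RunsK.of_list (l : List (Finset (ℤ × ℤ))) (hcov : ∀ e ∈ T, ∃ A ∈ l, e ∈ A)
    (hl : ∀ A ∈ l, RunsW W Bb TT T A Wi Li b o c L J) (hK : l.length ≤ K) :
    RunsK W Bb TT T Wi Li b o c L J K := by
  classical
  refine ⟨fun k => if h : (k : ℕ) < l.length then l.get ⟨k, h⟩ else ∅, fun e he => ?_, fun k => ?_⟩
  · obtain ⟨A, hA, heA⟩ := hcov e he
    obtain ⟨n, hn⟩ := List.get_of_mem hA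
    have h1 : (n : ℕ) < K := n.2.trans_le hK
    refine ⟨⟨n, h1⟩, ?_⟩
    simp only [n.2, dif_pos]
    rw [Fin.eta, hn]
    exact heA
  · simp only
    split_ifs with h1
    · exact hl _ (List.get_mem _ _)
    · exact RunsW.empty

/-- **one wall of one family** -/
theorem wall_expW : ∃ C : ℝ, 1 ≤ C ∧ ∀ {ι : Type} [DecidableEq ι] (X : Pool.Agent.Q1.Env)
    (W Bb B TT : Finset (ℤ × ℤ)) (fm : ℤ × ℤ → ι) (co : ι → Bool)
    (Wl La : ι → Finset (ℤ × ℤ)) (b o : ℤ × ℤ → ℤ × ℤ) (i : ι) (T' : Finset (ℤ × ℤ))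
    (L J : ℕ) (θ : ℝ),
    Multi X W Bb B TT fm co Wl La b o →
    RunsW W Bb TT (TF TT fm i) T' (Wl i) (La i) b o (co i) L J → 0 ≤ θ →
    C * θ * cr ((L + 1 : ℕ) : ℝ) ^ 2 ≤ 1 →
    Ex hf B (fun ω => (1 + θ) ^ (nfi W TT fm co Wl La b o i ω ∩ T').card) ≤ 2 ^ J := by
  classical
  obtain ⟨C, hC, harm⟩ := arms_exp
  refine ⟨C, hC, ?_⟩
  intro ι _ X W Bb B TT fm co Wl La b o i T' L J θ h hR hθ hsm
  obtain ⟨ε, δ, z, N, off, tie, hN, hoff, hcov, hx⟩ := hR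
  set c := co i with hc
  set A : Finset (ℤ × ℤ) → Finset (Fin J × ℤ) := fun ω =>
    (Wp N).filter fun x => ¬ fre W TT fm co Wl La b o (pull c ε B ω) (tie x) with hA
  have key := harm 1 (Or.inr rfl) J z N off L θ (B.map (lm c ε)) A hN hoff hθ hsm
    (by
      intro x hxm ρ h1 h2 h3
      obtain ⟨g1, g2, g3⟩ := hx x hxm
      have hF := g3 ρ h1 h2 h3
      have hfm : fm (tie x) = i := (mem_TF.1 g1).2
      have hE := env_of_flat h hF
      rw [← g2]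
      refine hE.sub.trans ?_
      exact map_subset_map.2 (h.la i))
    (by
      intro ω hω
      refine ⟨filter_subset _ _, fun x hxA ρ h1 h2 h3 => ?_⟩
      obtain ⟨hxm, hnf⟩ := mem_filter.1 hxA
      obtain ⟨g1, g2, g3⟩ := hx x hxm
      have hF := g3 ρ h1 h2 h3
      have hfm : fm (tie x) = i := (mem_TF.1 g1).2
      have h4 := nfr_arm (e := tie x) (ε := ε) (δ := δ) (ρ := ρ) h (by rw [hfm]; exact hF) h1
        (pull_sub (c := c) (ε := ε) (B := B) (ω := ω)) hnf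
      rw [g2, hfm, ← hc, push_pull hω] at h4
      exact h4)
  rw [Ex_push] at key
  refine le_trans ?_ key
  refine Ex_mono hf_Pb fun ω hω => ?_
  have h1 : (nfi W TT fm co Wl La b o i ω ∩ T').card ≤ (A (push c ε B ω)).card := by
    have h2 : nfi W TT fm co Wl La b o i ω ∩ T' ⊆ (A (push c ε B ω)).image tie := by
      intro e he
      obtain ⟨he1, he2⟩ := mem_inter.1 he
      obtain ⟨h3, h4⟩ := mem_filter.1 he1
      obtain ⟨x, h5, h6⟩ := hcov e he2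
      refine mem_image.2 ⟨x, mem_filter.2 ⟨h5, ?_⟩, h6⟩
      rw [pull_push hω, h6]
      exact h4
    exact (card_le_card h2).trans card_image_le
  exact pow_le_pow_right₀ (by linarith) h1

/-- **one family with several walls** -/
theorem fam_expK : ∃ C : ℝ, 1 ≤ C ∧ ∀ {ι : Type} [DecidableEq ι] (X : Pool.Agent.Q1.Env)
    (W Bb B TT : Finset (ℤ × ℤ)) (fm : ℤ × ℤ → ι) (co : ι → Bool)
    (Wl La : ι → Finset (ℤ × ℤ)) (b o : ℤ × ℤ → ℤ × ℤ) (i : ι) (L J K : ℕ) (θ : ℝ), 1 ≤ K →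
    Multi X W Bb B TT fm co Wl La b o →
    RunsK W Bb TT (TF TT fm i) (Wl i) (La i) b o (co i) L J K → 0 ≤ θ →
    C * 2 ^ K * θ * cr ((L + 1 : ℕ) : ℝ) ^ 2 ≤ 1 →
    Ex hf B (fun ω => (1 + θ) ^ (nfi W TT fm co Wl La b o i ω).card) ≤ K * 2 ^ J := by
  classical
  obtain ⟨C, hC, hw⟩ := wall_expW
  refine ⟨C, hC, ?_⟩
  intro ι _ X W Bb B TT fm co Wl La b o i L J K θ hK h hR hθ hsm
  obtain ⟨T', hcov, hT'⟩ := hR
  have hcr1 : 1 ≤ cr ((L + 1 : ℕ) : ℝ) ^ 2 := by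
    refine one_le_pow₀ ?_
    unfold cr
    exact Real.one_le_rpow (by exact_mod_cast (by omega : 1 ≤ L + 1)) (by norm_num)
  have h2 : (1 : ℝ) ≤ 2 ^ K := one_le_pow₀ (by norm_num)
  have hθ1 : θ ≤ 1 := by
    have h1 : θ ≤ C * 2 ^ K * θ * cr ((L + 1 : ℕ) : ℝ) ^ 2 := by
      have h2' : 1 ≤ C * 2 ^ K := by nlinarith
      have h3 : θ ≤ C * 2 ^ K * θ := by nlinarith
      nlinarith
    linarith
  have hpt : ∀ ω, ω ⊆ B → (1 + θ) ^ (nfi W TT fm co Wl La b o i ω).card ≤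
      ∑ k : Fin K, (1 + 2 ^ K * θ) ^ (nfi W TT fm co Wl La b o i ω ∩ T' k).card := by
    intro ω _
    set A := nfi W TT fm co Wl La b o i ω with hA
    have h3 : A.card ≤ ∑ k : Fin K, (A ∩ T' k).card := by
      have h4 : A ⊆ univ.biUnion fun k : Fin K => A ∩ T' k := by
        intro e he
        obtain ⟨k, hk⟩ := hcov e (mem_filter.1 he).1
        exact mem_biUnion.2 ⟨k, mem_univ _, mem_inter.2 ⟨he, hk⟩⟩
      exact (card_le_card h4).trans card_biUnion_le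
    refine (pow_le_pow_right₀ (by linarith) h3).trans ?_
    rw [← prod_pow_eq_pow_sum]
    refine (prod_le_sum _ (fun k => one_le_pow₀ (by linarith)) ⟨⟨0, hK⟩⟩).trans ?_
    refine sum_le_sum fun k _ => ?_
    rw [Fintype.card_fin, ← pow_mul, mul_comm, pow_mul]
    refine pow_le_pow_left₀ (by positivity) ?_ _
    have h5 := pow_near hθ hθ1 K
    nlinarith
  refine (Ex_mono hf_Pb hpt).trans ?_
  rw [Ex_sum]
  refine (sum_le_sum fun k _ => hw X W Bb B TT fm co Wl La b o i (T' k) L J (2 ^ K * θ) h (hT' k)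
    (by positivity) (by nlinarith)).trans (le_of_eq ?_)
  rw [sum_const, card_univ, Fintype.card_fin, nsmul_eq_mul]

/-- a weight which is near one, or real between zero and one -/
def Nr (θ : ℝ) (z : ℂ) : Prop := ‖1 - z‖ ≤ θ ∨ ∃ y : ℝ, 0 ≤ y ∧ y ≤ 1 ∧ z = y

/-- products of weights near one or between zero and one -/
lemma prod_nr {α : Type*} [DecidableEq α] {s : α → ℂ} {k : Finset α} {θ : ℝ} (hθ : 0 ≤ θ)
    (h : ∀ e ∈ k, Nr θ (s e)) : ∃ (x : ℂ) (y : ℝ), 0 ≤ y ∧ y ≤ 1 ∧ ∏ e ∈ k, s e = x * y ∧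
      ‖x‖ ≤ (1 + θ) ^ k.card ∧ ‖1 - x‖ ≤ (1 + θ) ^ k.card - 1 := by
  induction k using Finset.induction_on with
  | empty => exact ⟨1, 1, by norm_num, le_rfl, by simp, by simp, by simp⟩
  | insert a k ha ih =>
    obtain ⟨x, y, hy0, hy1, hp, h1, h2⟩ := ih fun e he => h e (mem_insert_of_mem he)
    have hpos : 0 ≤ (1 + θ) ^ k.card := pow_nonneg (by linarith) _
    have hle : (1 + θ) ^ k.card ≤ (1 + θ) ^ k.card * (1 + θ) := by nlinarith
    rw [prod_insert ha, card_insert_of_notMem ha, pow_succ, hp]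
    rcases h a (mem_insert_self _ _) with h3 | ⟨z, hz0, hz1, hz⟩
    · have h4 : ‖s a‖ ≤ 1 + θ := by
        have e1 : s a = 1 - (1 - s a) := by ring
        rw [e1]
        refine (norm_sub_le _ _).trans ?_
        rw [norm_one]
        linarith
      refine ⟨s a * x, y, hy0, hy1, by ring, ?_, ?_⟩
      · rw [norm_mul, mul_comm]
        exact mul_le_mul h1 h4 (norm_nonneg _) hpos
      · have e1 : 1 - s a * x = (1 - s a) * x + (1 - x) := by ring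
        rw [e1]
        refine (norm_add_le _ _).trans ?_
        rw [norm_mul]
        have h5 : ‖1 - s a‖ * ‖x‖ ≤ θ * (1 + θ) ^ k.card :=
          mul_le_mul h3 h1 (norm_nonneg _) hθ
        nlinarith
    · refine ⟨x, z * y, mul_nonneg hz0 hy0, mul_le_one₀ hz1 hy0 hy1, ?_, h1.trans hle, by linarith⟩
      rw [hz]
      push_cast
      ring

/-- total variation of one class -/
lemma tv_nr {α : Type*} [DecidableEq α] {s : α → ℂ} {k : Finset α} {θ : ℝ} (hθ : 0 ≤ θ)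
    (h : ∀ e ∈ k, Nr θ (s e)) :
    ‖∏ e ∈ k, s e‖ + ‖1 - ∏ e ∈ k, s e‖ ≤ ((1 + θ) ^ 2) ^ k.card := by
  obtain ⟨x, y, hy0, hy1, hp, h1, h2⟩ := prod_nr hθ h
  rw [hp, ← pow_mul, mul_comm 2, pow_mul]
  have e1 : (1 : ℂ) - x * y = ((1 - y : ℝ) : ℂ) + (y : ℂ) * (1 - x) := by push_cast; ring
  have e2 : ‖(1 : ℂ) - x * y‖ ≤ (1 - y) + y * ‖1 - x‖ := by
    rw [e1]
    refine (norm_add_le _ _).trans (le_of_eq ?_)
    rw [norm_mul, Complex.norm_real, Complex.norm_real, Real.norm_of_nonneg (by linarith),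
      Real.norm_of_nonneg hy0]
  have e3 : ‖x * (y : ℂ)‖ = ‖x‖ * y := by
    rw [norm_mul, Complex.norm_real, Real.norm_of_nonneg hy0]
  rw [e3]
  have e4 : (1 : ℝ) ≤ (1 + θ) ^ k.card := one_le_pow₀ (by linarith)
  have e5 : ‖x‖ * y + ((1 - y) + y * ‖1 - x‖) ≤ (1 - y) + y * (2 * (1 + θ) ^ k.card - 1) := by
    nlinarith
  nlinarith [sq_nonneg ((1 + θ) ^ k.card - 1)]

/-- **uniform bound for complex weights near one or between zero and one** -/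
theorem tot_leN (h : Multi X W Bb B TT fm co Wl La b o)
    (hc : ∀ c ∈ Cs, FarM X TT fm co Wl La b o c) {M θ : ℝ} (hθ : 0 ≤ θ)
    (hM : ∀ ω ⊆ B, ∀ P ⊆ TT, ‖VM X Cs a Bb B TT fm co ω P‖ ≤ M)
    (hs : ∀ e ∈ TT, Nr θ (s e)) :
    ‖Tot X Cs a Bb TT fm co s‖ ≤
      M * Ex hf B (fun ω => ((1 + θ) ^ 2) ^ (nfr W TT fm co Wl La b o ω).card) := by
  classical
  have e1 : Tot X Cs a Bb TT fm co s = Eh B (fun ω =>
      cE (fun k => ∏ e ∈ k, s e) (JM W TT fm co Wl La b o ω)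
        (fun A => VM X Cs a Bb B TT fm co ω (unc TT fm co La b ω A))) := by
    unfold Tot
    refine (Ec_split _ h.bB _).trans (Ec_congr fun ω hω => ?_)
    rw [← h.classes hc hω]
    exact Ec_swap (fun _ => (1 / 2 : ℂ)) (fun e => 1 - s e) (Bb \ B) TT
      (fun ω' P => U X Cs a (ω ∪ ω' ∪ opn TT fm co P))
  rw [e1]
  have hM0 : 0 ≤ M := (norm_nonneg _).trans (hM ∅ (empty_subset _) ∅ (empty_subset _))
  have hb : ∀ ω, ω ⊆ B → ‖cE (fun k => ∏ e ∈ k, s e) (JM W TT fm co Wl La b o ω)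
        (fun A => VM X Cs a Bb B TT fm co ω (unc TT fm co La b ω A))‖ ≤
      M * ((1 + θ) ^ 2) ^ (nfr W TT fm co Wl La b o ω).card := by
    intro ω hω
    refine (norm_cE_le (M := M) fun A _ => hM ω hω _ (filter_subset _ _)).trans ?_
    refine mul_le_mul_of_nonneg_left ?_ hM0
    unfold tv
    have h1 : ∀ k ∈ JM W TT fm co Wl La b o ω, ‖∏ e ∈ k, s e‖ + ‖1 - ∏ e ∈ k, s e‖ ≤
        ((1 + θ) ^ 2) ^ k.card := by
      intro k hk
      unfold JM at hk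
      obtain ⟨e, he, rfl⟩ := mem_image.1 hk
      exact tv_nr hθ fun e' he' => hs e' (cls_sub he')
    refine (prod_le_prod (fun k _ => by positivity) h1).trans ?_
    rw [prod_pow_eq_pow_sum]
    have h2 : (1 : ℝ) ≤ (1 + θ) ^ 2 := one_le_pow₀ (by linarith)
    exact pow_le_pow_right₀ h2 (sum_card_le h)
  refine (Ec_half_norm hb).trans (le_of_eq ?_)
  exact Ex_smul _ _ _ _

/-- **Uniform bound for complex weights near one**, several families with several walls. -/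
theorem tot_bdK : ∃ C : ℝ, 1 ≤ C ∧ ∀ {ι : Type} [Fintype ι] [DecidableEq ι]
    (X : Pool.Agent.Q1.Env) (W Bb B TT Cs : Finset (ℤ × ℤ)) (fm : ℤ × ℤ → ι) (co : ι → Bool)
    (Wl La : ι → Finset (ℤ × ℤ)) (b o : ℤ × ℤ → ℤ × ℤ) (a : ℤ × ℤ → ℂ) (s : ℤ × ℤ → ℂ)
    (L J K : ℕ) (M θ : ℝ), Nonempty ι → 1 ≤ K →
    Multi X W Bb B TT fm co Wl La b o → (∀ c ∈ Cs, FarM X TT fm co Wl La b o c) →
    (∀ i, RunsK W Bb TT (TF TT fm i) (Wl i) (La i) b o (co i) L J K) → 0 ≤ θ →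
    (∀ ω ⊆ B, ∀ P ⊆ TT, ‖VM X Cs a Bb B TT fm co ω P‖ ≤ M) →
    (∀ e ∈ TT, Nr θ (s e)) →
    C * 4 ^ Fintype.card ι * 2 ^ K * θ * cr ((L + 1 : ℕ) : ℝ) ^ 2 ≤ 1 →
    ‖Tot X Cs a Bb TT fm co s‖ ≤ M * (Fintype.card ι * (K * 2 ^ J)) := by
  classical
  obtain ⟨C, hC, harm⟩ := fam_expK
  refine ⟨C, hC, ?_⟩
  intro ι _ _ X W Bb B TT Cs fm co Wl La b o a s L J K M θ hne hK h hFar hR hθ hM hs hsm
  set k := Fintype.card ι with hk
  have hM0 : 0 ≤ M := (norm_nonneg _).trans (hM ∅ (empty_subset _) ∅ (empty_subset _))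
  have hcr1 : 1 ≤ cr ((L + 1 : ℕ) : ℝ) ^ 2 := by
    refine one_le_pow₀ ?_
    unfold cr
    exact Real.one_le_rpow (by exact_mod_cast (by omega : 1 ≤ L + 1)) (by norm_num)
  have h4 : (1 : ℝ) ≤ 4 ^ k := one_le_pow₀ (by norm_num)
  have h2K : (1 : ℝ) ≤ 2 ^ K := one_le_pow₀ (by norm_num)
  have hθ1 : θ ≤ 1 := by
    have h1 : θ ≤ C * 4 ^ k * 2 ^ K * θ * cr ((L + 1 : ℕ) : ℝ) ^ 2 := by
      have h2 : 1 ≤ C * 4 ^ k := by nlinarith
      have h2' : 1 ≤ C * 4 ^ k * 2 ^ K := by nlinarith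
      have h3 : θ ≤ C * 4 ^ k * 2 ^ K * θ := by nlinarith
      nlinarith
    linarith
  refine (tot_leN h hFar hθ hM hs).trans (mul_le_mul_of_nonneg_left ?_ hM0)
  have hpt : ∀ ω, ω ⊆ B → ((1 + θ) ^ 2) ^ (nfr W TT fm co Wl La b o ω).card ≤
      ∑ i : ι, (1 + 4 ^ k * θ) ^ (nfi W TT fm co Wl La b o i ω).card := by
    intro ω _
    rw [card_nfr, ← prod_pow_eq_pow_sum]
    refine (prod_le_sum _ (fun i => one_le_pow₀ (one_le_pow₀ (by linarith))) hne).trans ?_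
    refine sum_le_sum fun i _ => ?_
    rw [← hk, ← pow_mul, ← pow_mul]
    have e1 : 2 * ((nfi W TT fm co Wl La b o i ω).card * k) =
        (2 * k) * (nfi W TT fm co Wl La b o i ω).card := by ring
    rw [e1, pow_mul]
    refine pow_le_pow_left₀ (by positivity) ?_ _
    have h5 := pow_near hθ hθ1 (2 * k)
    have e2 : (2 : ℝ) ^ (2 * k) = 4 ^ k := by rw [pow_mul]; norm_num
    rw [e2] at h5
    nlinarith
  refine (Ex_mono hf_Pb hpt).trans ?_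
  rw [Ex_sum]
  refine (sum_le_sum fun i _ => harm X W Bb B TT fm co Wl La b o i L J K (4 ^ k * θ) hK h (hR i)
    (by positivity) (by
      have e3 : C * 2 ^ K * (4 ^ k * θ) = C * 4 ^ k * 2 ^ K * θ := by ring
      rw [e3]
      exact hsm)).trans (le_of_eq ?_)
  rw [sum_const, card_univ, nsmul_eq_mul]

/-- **Runs of a flat wall** of a family with several walls -/
theorem RunsW.mk' {n : ℕ} {z : ℤ × ℤ}
    (tie : ℤ → ℤ × ℤ) (hn : n ≤ J * L) (hcov : ∀ e ∈ T', ∃ p : ℤ, (0 ≤ p ∧ p < n) ∧ tie p = e)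
    (hx : ∀ p : ℤ, 0 ≤ p → p < n → tie p ∈ T ∧ gm ε (b (tie p)) = wpt 1 z p)
    (hflat : ∀ p ρ : ℤ, 1 ≤ ρ → 2 * ρ ≤ p → 2 * ρ < n - p → 2 * ρ < L →
      FlatL W Bb TT T Wi Li b o c ε δ (b (tie p)) (ρ + 1)) :
    RunsW W Bb TT T T' Wi Li b o c L J := by
  classical
  have hmem : ∀ x : Fin J × ℤ, x ∈ Wp (fun a : Fin J => min L (n - a * L)) →
      (0 ≤ x.2 ∧ x.2 < L) ∧ (0 ≤ (x.1 : ℕ) * (L : ℤ) + x.2 ∧ (x.1 : ℕ) * (L : ℤ) + x.2 < n) ∧
      ((min L (n - x.1 * L) : ℕ) : ℤ) ≤ n - (x.1 : ℕ) * (L : ℤ) := by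
    intro x hx1
    have h1 := mem_Wp.1 hx1
    have h2 : (0 : ℤ) ≤ (x.1 : ℕ) * (L : ℤ) := by positivity
    have h3 : ((x.1 : ℕ) * L : ℕ) = (x.1 : ℕ) * (L : ℤ) := by push_cast; ring
    omega
  refine ⟨ε, δ, z, fun a => min L (n - a * L), fun a => (a : ℕ) * (L : ℤ),
    fun x => tie ((x.1 : ℕ) * (L : ℤ) + x.2), fun a => min_le_left _ _, ?_, ?_, ?_⟩
  · intro a a' haa
    have h1 : (a : ℕ) + 1 ≤ a' := haa
    have h2 : ((a : ℕ) + 1) * L ≤ (a' : ℕ) * L := Nat.mul_le_mul_right _ h1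
    have h3 : (((a : ℕ) + 1) * L : ℕ) = (a : ℕ) * (L : ℤ) + L := by push_cast; ring
    have h4 : (((a' : ℕ) * L : ℕ) : ℤ) = (a' : ℕ) * (L : ℤ) := by push_cast; ring
    simp only
    rw [← h4]
    generalize ((a : ℕ) : ℤ) * (L : ℤ) = A at h3 ⊢
    generalize (a' : ℕ) * L = A' at h2 ⊢
    generalize ((a : ℕ) + 1) * L = A'' at h2 h3
    omega
  · intro e he
    obtain ⟨p, ⟨h1, h2⟩, h3⟩ := hcov e he
    have hL : 0 < L := by
      rcases Nat.eq_zero_or_pos L with h4 | h4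
      · rw [h4, mul_zero] at hn; omega
      · exact h4
    obtain ⟨q, hq⟩ : ∃ q : ℕ, (q : ℤ) = p := ⟨p.toNat, by omega⟩
    have hqn : q < n := by omega
    have h5 : q / L < J := by
      rw [Nat.div_lt_iff_lt_mul hL]
      omega
    have h6 : q / L * L + q % L = q := Nat.div_add_mod' q L
    have h7 : q % L < L := Nat.mod_lt _ hL
    refine ⟨(⟨q / L, h5⟩, ((q % L : ℕ) : ℤ)), mem_Wp.2 ?_, ?_⟩
    · simp only
      generalize q / L * L = A at h6 ⊢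
      generalize q % L = r at h6 h7 ⊢
      omega
    · simp only
      have h8 : (((q / L * L + q % L : ℕ)) : ℤ) = (q / L : ℕ) * (L : ℤ) + (q % L : ℕ) := by
        push_cast; ring
      rw [← h8, h6, hq, h3]
  · intro x hx1
    have h1 := hmem x hx1
    obtain ⟨h2, h3⟩ := hx _ h1.2.1.1 h1.2.1.2
    refine ⟨h2, h3, fun ρ h4 h5 h6 => hflat _ ρ h4 ?_ ?_ ?_⟩
    · have h7 : (0 : ℤ) ≤ (x.1 : ℕ) * (L : ℤ) := by positivity
      omega
    · have := h1.2.2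
      simp only at h6
      omega
    · omega

/-- **An isolated tie** (corner cells): nothing is needed -/
theorem RunsW.single (he : e ∈ T) (hL : 1 ≤ L) (hJ : 1 ≤ J) :
    RunsW W Bb TT T {e} Wi Li b o c L J := by
  refine RunsW.mk' (ε := (false, false)) (δ := 0) (n := 1) (z := gm (false, false) (b e))
    (fun _ => e) (Nat.mul_le_mul hJ hL) (fun e' he' => ⟨0, by omega, (mem_singleton.1 he').symm⟩)
    (fun p h1 h2 => ⟨he, ?_⟩) (fun p ρ h1 h2 h3 => by omega)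
  have : p = 0 := by omega
  subst this
  unfold wpt
  refine Prod.ext ?_ ?_ <;> simp

/-- at most `n` isolated ties -/
theorem RunsK.of_walls {κ : Type*} [Fintype κ] {A : κ → Finset (ℤ × ℤ)} {I : Finset (ℤ × ℤ)}
    (hI : I ⊆ T) (hcov : ∀ e ∈ T, (∃ k, e ∈ A k) ∨ e ∈ I)
    (hA : ∀ k, RunsW W Bb TT T (A k) Wi Li b o c L J) (hL : 1 ≤ L) (hJ : 1 ≤ J)
    (hK : Fintype.card κ + I.card ≤ K) : RunsK W Bb TT T Wi Li b o c L J K := by
  classical
  refine RunsK.of_list ((univ : Finset κ).toList.map A ++ I.toList.map fun e => {e}) ?_ ?_ ?_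
  · intro e he
    rcases hcov e he with ⟨k, hk⟩ | hk
    · exact ⟨A k, List.mem_append_left _ (List.mem_map.2 ⟨k, mem_toList.2 (mem_univ _), rfl⟩), hk⟩
    · exact ⟨{e}, List.mem_append_right _ (List.mem_map.2 ⟨e, mem_toList.2 hk, rfl⟩),
        mem_singleton_self e⟩
  · intro B hB
    rcases List.mem_append.1 hB with h | h
    · obtain ⟨k, -, rfl⟩ := List.mem_map.1 h
      exact hA k
    · obtain ⟨e, he, rfl⟩ := List.mem_map.1 h
      exact RunsW.single (hI (mem_toList.1 he)) hL hJ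
  · rw [List.length_append, List.length_map, List.length_map, length_toList, length_toList,
      card_univ]
    exact hK

end Pool.Agent.H20.Q1
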