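import Mathlib
import Pool.Agent.H60.Q1.CountP
import Pool.Agent.H99.NC.RingP
import Pool.Agent.H60.Q1.Ann

set_option autoImplicit false
open Finset

/-!
# The half plane with a hole: deterministic part

Sharp upper bound for three arms in a half annulus, deterministic lemmas.
`HH κ E w b` : labels of `E` above the wall through `w`, outside the box of radius `b` around `w`.
-/

namespace Pool.Agent.H20.Q1

open Pool.Agent.H75.Perc Pool.Agent.H75.TwoArm Pool.Agent.H75.Four Pool.Agent.H49.Perc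
open Pool.Agent.H99.NC Pool.Agent.H60.Q1

/-- disjoint clusters with far arms: their expected number is bounded -/
theorem count_dis {ι : Type*} {q : ℤ × ℤ → ℝ} (hq : Pb q) (E : Finset (ℤ × ℤ)) (o : ℤ × ℤ)
    (ρ M : ℤ) {r : ℝ} (hr : PrP q E (Arm1 o ρ M) ≤ r) (hr1 : r < 1) (T : Finset ι)
    (Λ : ι → Finset (ℤ × ℤ)) (pos : ι → ℤ × ℤ) (A : ι → Finset (ℤ × ℤ) → Prop)
    (hV : ∀ x ∈ T, |(pos x).1 - o.1| ≤ ρ ∧ |(pos x).2 - o.2| ≤ ρ)
    (hfar : ∀ ω, ω ⊆ E → ∀ x ∈ T, A x ω → ∃ v : ℤ × ℤ,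
      (M ≤ |v.1 - o.1| ∨ M ≤ |v.2 - o.2|) ∧ Co (ω ∩ Λ x) (pos x) v)
    (hsep : ∀ ω, ω ⊆ E → ∀ x ∈ T, ∀ y ∈ T, x ≠ y → A x ω → A y ω →
      Disjoint (H60.Q1.cmp (ω ∩ Λ x) (pos x)) (H60.Q1.cmp (ω ∩ Λ y) (pos y))) :
    ∑ x ∈ T, PrP q E (A x) ≤ r / (1 - r) := by
  classical
  have hr0 : 0 ≤ r := (PrP_nonneg hq _ _).trans hr
  refine sum_PrP_le hq T E A hr0 hr1 fun k => ?_
  refine le_trans (PrP_mono hq fun ω hω h3 => ?_) ((PrP_Arms_le hq E (Arm1_inc o ρ M) k).trans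
    (pow_le_pow_left₀ (PrP_nonneg hq _ _) hr k))
  obtain ⟨t, ht1, ht2, ht3⟩ := h3
  set e := (t.equivFinOfCardEq ht2).symm with he
  refine ⟨fun i => H60.Q1.cmp (ω ∩ Λ (e i)) (pos (e i)), fun i => (cmp_sub _ _).trans inter_subset_left,
    ?_, ?_⟩
  · intro i j hij
    have hne : ((e i : t) : ι) ≠ (e j : t) := fun h => hij (e.injective (Subtype.ext h))
    exact hsep ω hω _ (ht1 (e i).2) _ (ht1 (e j).2) hne (ht3 _ (e i).2) (ht3 _ (e j).2)
  · intro i
    obtain ⟨v, hv1, hv2⟩ := hfar ω hω _ (ht1 (e i).2) (ht3 _ (e i).2)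
    have hp := hV _ (ht1 (e i).2)
    exact ⟨_, v, hp.1, hp.2, hv1, cmp_co hv2⟩

lemma cmp_co' {ω : Finset (ℤ × ℤ)} {x l : ℤ × ℤ} (h : l ∈ H60.Q1.cmp ω x) : l ∈ ω ∧ Co ω x (eu l) := by
  classical
  unfold H60.Q1.cmp at h
  exact mem_filter.1 h

/-! ### definitions -/

/-- labels above the wall, with a hole -/
noncomputable def HH (κ : ℤ) (E : Finset (ℤ × ℤ)) (w : ℤ × ℤ) (b : ℤ) : Finset (ℤ × ℤ) :=
  E.filter (fun l => 2 * ht κ w ≤ ht κ l ∧ l ∉ BR w b)

/-- the sphere of radius `m` -/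
noncomputable def Sph (o : ℤ × ℤ) (m : ℤ) : Finset (ℤ × ℤ) :=
  (Finset.Icc (o.1 - m) (o.1 + m) ×ˢ Finset.Icc (o.2 - m) (o.2 + m)).filter
    (fun x => m ≤ |x.1 - o.1| ∨ m ≤ |x.2 - o.2|)

/-- `x` is the first vertex on the sphere of its outer cluster, which reaches far -/
def Ou (κ : ℤ) (E : Finset (ℤ × ℤ)) (o : ℤ × ℤ) (N : ℤ) (w x : ℤ × ℤ) (ω : Finset (ℤ × ℤ)) : Prop :=
  (∃ v, Far o (8 * N) v ∧ Co (ω ∩ HH κ E w N) x v) ∧
  ∀ y ∈ Sph o (2 * N), Co (ω ∩ HH κ E w N) x y → Encodable.encode x ≤ Encodable.encode y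

/-- a cluster above the wall comes from far to the hole of radius `b` -/
def Bv (κ : ℤ) (E : Finset (ℤ × ℤ)) (o : ℤ × ℤ) (N : ℤ) (w : ℤ × ℤ) (b : ℤ) (x : ℤ × ℤ)
    (ω : Finset (ℤ × ℤ)) : Prop :=
  Ou κ E o N w x ω ∧ (∃ u, inR w b u ∧ Co (ω ∩ HH κ E w b) x u) ∧
  ∀ y, Co (ω ∩ HH κ E w b) x y → ht κ w < ht κ y

/-- the explored labels of the cluster of `x` outside the hole -/
noncomputable abbrev UV (κ : ℤ) (E : Finset (ℤ × ℤ)) (w : ℤ × ℤ) (b : ℤ) (x : ℤ × ℤ)
    (ω : Finset (ℤ × ℤ)) : Finset (ℤ × ℤ) := Ux (fun y => y = x) (HH κ E w b) ω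

/-- the cluster of `x` outside the hole -/
abbrev CV (κ : ℤ) (E : Finset (ℤ × ℤ)) (w : ℤ × ℤ) (b : ℤ) (x : ℤ × ℤ)
    (ω : Finset (ℤ × ℤ)) (y : ℤ × ℤ) : Prop := Cl (fun y => y = x) (HH κ E w b) ω y

/-- a fresh path in the box of radius `c` from the cluster of `x` to the box of radius `b'` -/
def Jv (κ : ℤ) (E : Finset (ℤ × ℤ)) (w : ℤ × ℤ) (b b' c : ℤ) (x : ℤ × ℤ)
    (ω ω' : Finset (ℤ × ℤ)) : Prop :=
  ∃ u u', CV κ E w b x ω u ∧ inR w b' u' ∧ Co ((ω' \ UV κ E w b x ω) ∩ BR w c) u u'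

/-- the full cluster of `x` has points at or below the wall, all of them in a box -/
def Dv (κ : ℤ) (E : Finset (ℤ × ℤ)) (o : ℤ × ℤ) (N : ℤ) (w : ℤ × ℤ) (m : ℤ) (x : ℤ × ℤ)
    (ω : Finset (ℤ × ℤ)) : Prop :=
  Ou κ E o N w x ω ∧ (∃ y, Co ω x y ∧ ht κ y ≤ ht κ w) ∧
  ∀ y, Co ω x y → ht κ y ≤ ht κ w → inR w m y

/-- labels of the box below the wall -/
noncomputable def LOW (κ : ℤ) (w : ℤ × ℤ) (b : ℤ) : Finset (ℤ × ℤ) :=
  (BR w b).filter (fun l => ht κ l < 2 * ht κ w)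

/-- ring event with the labels below the wall declared open -/
def RingL (κ : ℤ) (w : ℤ × ℤ) (b a : ℤ) (ω : Finset (ℤ × ℤ)) : Prop :=
  Ring w a ((ω ∩ BR w b) ∪ LOW κ w b)

/-- no path from the box of radius `c` to distance `4c` outside this box -/
def Seal (w : ℤ × ℤ) (c : ℤ) (ω : Finset (ℤ × ℤ)) : Prop := ¬ Arm1 w c (4 * c) (ω \ BR w c)

variable {κ : ℤ} {E ω ω' : Finset (ℤ × ℤ)} {o w x : ℤ × ℤ} {N b b' c : ℤ}

lemma mem_HH {l : ℤ × ℤ} : l ∈ HH κ E w b ↔ l ∈ E ∧ 2 * ht κ w ≤ ht κ l ∧ l ∉ BR w b := by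
  unfold HH; rw [mem_filter]

lemma BR_mono {b b' : ℤ} (h : b ≤ b') : BR w b ⊆ BR w b' := by
  unfold BR
  exact Bx_sub (by omega) (by omega) (by omega) (by omega)

lemma HH_anti (h : b' ≤ b) : HH κ E w b ⊆ HH κ E w b' := by
  intro l hl
  rw [mem_HH] at hl ⊢
  exact ⟨hl.1, hl.2.1, fun h' => hl.2.2 (BR_mono h h')⟩

lemma mem_Sph {m : ℤ} {y : ℤ × ℤ} : y ∈ Sph o m ↔ (|y.1 - o.1| ≤ m ∧ |y.2 - o.2| ≤ m) ∧
    (m ≤ |y.1 - o.1| ∨ m ≤ |y.2 - o.2|) := by
  unfold Sph
  rw [mem_filter, mem_product, mem_Icc, mem_Icc, abs_le, abs_le]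
  constructor
  · rintro ⟨⟨h1, h2⟩, h3⟩
    exact ⟨⟨by omega, by omega⟩, h3⟩
  · rintro ⟨⟨h1, h2⟩, h3⟩
    exact ⟨⟨by omega, by omega⟩, h3⟩

/-- a label of the box has both ends in the box -/
lemma BR_ends {y z : ℤ × ℤ} (h : IsUnit4 (z - y)) (hl : y + z ∈ BR w b) : inR w b y ∧ inR w b z := by
  unfold BR at hl
  rw [mem_Bx] at hl
  have h1 := unit_cases h
  rw [inR_iff, inR_iff]
  simp only [Prod.fst_add, Prod.snd_add] at hl
  omega

lemma BR_of_ends {y z : ℤ × ℤ} (h : IsUnit4 (z - y)) (hy : inR w b y) (hz : inR w b z) :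
    y + z ∈ BR w b := add_mem_Bx h hy hz

lemma ht_step (hκ : κ = 0 ∨ κ = 1) {y z : ℤ × ℤ} (h : IsUnit4 (z - y)) :
    ht κ y - 1 ≤ ht κ z ∧ ht κ z ≤ ht κ y + 1 ∧ ht κ (y + z) = ht κ y + ht κ z := by
  have h1 := unit_cases h
  unfold ht
  simp only [Prod.fst_add, Prod.snd_add]
  rcases hκ with rfl | rfl <;> omega

lemma CV_iff {y : ℤ × ℤ} : CV κ E w b x ω y ↔ Co (ω ∩ HH κ E w b) x y := by
  unfold CV Cl
  constructor
  · rintro ⟨w0, rfl, h⟩; exact h
  · intro h; exact ⟨x, rfl, h⟩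

/-- path inside a box or exit -/
lemma box_or_exit {η : Finset (ℤ × ℤ)} {u v : ℤ × ℤ} (h : Co η u v) (hu : inR w c u) :
    (inR w c v ∧ Co (η ∩ BR w c) u v) ∨ ∃ v', ¬ inR w c v' ∧ Co η u v' := by
  induction h with
  | refl => exact Or.inl ⟨hu, Co.refl _ _⟩
  | @tail y z hy hyz ih =>
    rcases ih with ⟨h1, h2⟩ | h1
    · by_cases hz : inR w c z
      · exact Or.inl ⟨hz, h2.tail ⟨hyz.1, mem_inter.2 ⟨hyz.2, BR_of_ends hyz.1 h1 hz⟩⟩⟩
      · exact Or.inr ⟨z, hz, hy.tail hyz⟩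
    · exact Or.inr h1

/-- last exit from a box -/
lemma last_exit {η : Finset (ℤ × ℤ)} {u v : ℤ × ℤ} (h : Co η u v) (hu : inR w c u)
    (hv : ¬ inR w c v) : ∃ u', inR w c u' ∧ Co (η \ BR w c) u' v := by
  obtain ⟨z, z', h1, h2, h3, h4, -⟩ := exit_co (X := fun y => ¬ inR w c y) h.symm hv (by tauto)
  rw [not_not] at h2
  refine ⟨z', h2, ?_⟩
  have key : ∀ y, CoX η (fun y => ¬ inR w c y) v y → Co (η \ BR w c) v y := by
    intro y hy
    induction hy with
    | refl => exact Co.refl _ _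
    | @tail p q _ hpq ih =>
      refine ih.tail ⟨hpq.1.1, mem_sdiff.2 ⟨hpq.1.2, fun hl => hpq.2 (BR_ends hpq.1.1 hl).2⟩⟩
  have h5 : Co (η \ BR w c) v z' :=
    (key z h4).tail ⟨h3.1, mem_sdiff.2 ⟨h3.2, fun hl => h1 (BR_ends h3.1 hl).1⟩⟩
  exact h5.symm

/-- vertices of the outer cluster which lie deep in the hole are trivial -/
lemma CV_hole {y : ℤ × ℤ} (h : CV κ E w b x ω y) (hy : inR w (b - 1) y) : y = x := by
  rw [CV_iff] at h
  rcases Relation.ReflTransGen.cases_tail h with h1 | ⟨z, -, h1⟩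
  · exact h1
  · exfalso
    have h2 := (mem_HH.1 (mem_inter.1 h1.2).2).2.2
    apply h2
    have h3 := unit_cases h1.1
    refine BR_of_ends h1.1 ?_ ?_
    · rw [inR_iff] at hy ⊢; omega
    · rw [inR_iff] at hy ⊢; omega

/-- **first deterministic step**: from the hole of radius `b'` to the hole of radius `b` -/
theorem step1 (hb : b' < b) (hx : ¬ inR w (b - 1) x) (hc : b ≤ c)
    (h : Bv κ E o N w b' x ω) :
    Bv κ E o N w b x ω ∧ (Jv κ E w b b' c x ω ω ∨ Arm1 w b c (ω \ UV κ E w b x ω)) := by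
  obtain ⟨h1, ⟨u0, hu0, h2⟩, h3⟩ := h
  have hsub : ω ∩ HH κ E w b ⊆ ω ∩ HH κ E w b' := inter_subset_inter_left (HH_anti hb.le)
  -- from the cluster of `x` to the small hole
  have key : ∀ y, Co (ω ∩ HH κ E w b') x y → CV κ E w b x ω y ∨
      ∃ u, inR w b u ∧ CV κ E w b x ω u ∧ Co (ω \ UV κ E w b x ω) u y := by
    intro y hy
    induction hy with
    | refl => exact Or.inl (Cl.self rfl)
    | @tail y z hxy hyz ih =>
      obtain ⟨hl1, hl2⟩ := mem_inter.1 hyz.2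
      by_cases hz : CV κ E w b x ω z
      · exact Or.inl hz
      right
      by_cases hy : CV κ E w b x ω y
      · have hn : y + z ∉ HH κ E w b := fun hl => hz
          (hy.trans ((Co.refl _ _).tail ⟨hyz.1, mem_inter.2 ⟨hl1, hl⟩⟩))
        have hbr : y + z ∈ BR w b := by
          by_contra h'
          rw [mem_HH] at hl2
          exact hn (mem_HH.2 ⟨hl2.1, hl2.2.1, h'⟩)
        refine ⟨y, (BR_ends hyz.1 hbr).1, hy, (Co.refl _ _).tail ⟨hyz.1, mem_sdiff.2 ⟨hl1, ?_⟩⟩⟩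
        intro hl
        exact hn (Ux_sub hl)
      · rcases ih with ih | ⟨u, hu1, hu2, hu3⟩
        · exact absurd ih hy
        · refine ⟨u, hu1, hu2, hu3.tail ⟨hyz.1, mem_sdiff.2 ⟨hl1, ?_⟩⟩⟩
          intro hl
          rcases ((mem_Ux_of hyz.1).1 hl).2 with h' | h'
          · exact hy h'
          · exact hz h'
  have hu0' : ¬ CV κ E w b x ω u0 := by
    intro h'
    have h4 := CV_hole h' (by rw [inR_iff] at hu0 ⊢; omega)
    rw [h4] at hu0
    exact hx (by rw [inR_iff] at hu0 ⊢; omega)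
  rcases key u0 h2 with h4 | ⟨u, hu1, hu2, hu3⟩
  · exact absurd h4 hu0'
  refine ⟨⟨h1, ⟨u, hu1, CV_iff.1 hu2⟩, fun y hy => h3 y (hy.mono hsub)⟩, ?_⟩
  rcases box_or_exit (w := w) (c := c) hu3 (by rw [inR_iff] at hu1 ⊢; omega) with ⟨-, h5⟩ | ⟨v', hv', h5⟩
  · exact Or.inl ⟨u, u0, hu2, hu0, h5⟩
  · right
    refine ⟨u, v', ?_, ?_, ?_, h5⟩
    · rw [inR_iff] at hu1; rw [abs_le]; omega
    · rw [inR_iff] at hu1; rw [abs_le]; omega
    · rw [inR_iff] at hv'
      rw [le_abs, le_abs]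
      omega

lemma Ou_mix (hbN : b ≤ N) (h : Ou κ E o N w x ω) :
    Ou κ E o N w x (mix (UV κ E w b x ω) ω ω') := by
  have hs : HH κ E w N ⊆ HH κ E w b := HH_anti hbN
  have key : ∀ y, Co (mix (UV κ E w b x ω) ω ω' ∩ HH κ E w N) x y ↔ Co (ω ∩ HH κ E w N) x y := by
    intro y
    constructor
    · intro hy
      induction hy with
      | refl => exact Co.refl _ _
      | @tail y z _ hyz ih =>
        obtain ⟨hl1, hl2⟩ := mem_inter.1 hyz.2
        have hU : y + z ∈ UV κ E w b x ω := (mem_Ux_of hyz.1).2 ⟨hs hl2, Or.inl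
          (CV_iff.2 (Co.mono (inter_subset_inter_left hs) ih))⟩
        rw [mem_mix] at hl1
        exact ih.tail ⟨hyz.1, mem_inter.2 ⟨by tauto, hl2⟩⟩
    · intro hy
      induction hy with
      | refl => exact Co.refl _ _
      | @tail y z hxy hyz ih =>
        obtain ⟨hl1, hl2⟩ := mem_inter.1 hyz.2
        have hU : y + z ∈ UV κ E w b x ω := (mem_Ux_of hyz.1).2 ⟨hs hl2, Or.inl
          (CV_iff.2 (Co.mono (inter_subset_inter_left hs) hxy))⟩
        exact ih.tail ⟨hyz.1, mem_inter.2 ⟨mem_mix.2 (Or.inl ⟨hl1, hU⟩), hl2⟩⟩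
  obtain ⟨⟨v, hv1, hv2⟩, h2⟩ := h
  exact ⟨⟨v, hv1, (key v).2 hv2⟩, fun y hy hxy => h2 y hy ((key y).1 hxy)⟩

/-- **second deterministic step**: sealing a cluster -/
theorem step2 (hκ : κ = 0 ∨ κ = 1) {a : ℤ} (ha : 1 ≤ a) (hb : b = 2 * a) (hb' : b' = a - 1)
    (hbN : b ≤ N) (hx : ¬ inR w (b - 1) x) (hbc : b ≤ c) (hωE : ω ⊆ E)
    (hω'E : ω' ⊆ E)
    (h : Bv κ E o N w b x ω) (hJ : Jv κ E w b b' c x ω ω') (hR : RingL κ w b a ω')
    (hS : Seal w c ω') : Dv κ E o N w (4 * c) x (mix (UV κ E w b x ω) ω ω') := by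
  obtain ⟨h1, h2, h3⟩ := h
  set U := UV κ E w b x ω with hU
  set η := mix U ω ω' with hη
  have hηE : η ⊆ E := by
    intro l hl
    rw [hη, mem_mix] at hl
    rcases hl with hl | hl
    · exact hωE hl.1
    · exact hω'E hl.1
  -- the structure of the cluster
  have str : ∀ y, Co η x y → CV κ E w b x ω y ∨ ∃ u, inR w b u ∧ Co ω' u y := by
    intro y hy
    induction hy with
    | refl => exact Or.inl (Cl.self rfl)
    | @tail y z _ hyz ih =>
      by_cases hz : CV κ E w b x ω z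
      · exact Or.inl hz
      right
      by_cases hy : CV κ E w b x ω y
      · have hn : y + z ∉ HH κ E w b := by
          intro hl
          have hlU : y + z ∈ U := (mem_Ux_of hyz.1).2 ⟨hl, Or.inl hy⟩
          have hlω : y + z ∈ ω := by
            have := hyz.2
            rw [hη, mem_mix] at this
            tauto
          exact hz (hy.trans ((Co.refl _ _).tail ⟨hyz.1, mem_inter.2 ⟨hlω, hl⟩⟩))
        have hnU : y + z ∉ U := fun hl => hn (Ux_sub hl)
        have hl' : y + z ∈ ω' := by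
          have := hyz.2
          rw [hη, mem_mix] at this
          tauto
        have hht := h3 y (CV_iff.1 hy)
        have hst := ht_step hκ hyz.1
        have hbr : y + z ∈ BR w b := by
          by_contra h'
          exact hn (mem_HH.2 ⟨hηE hyz.2, by omega, h'⟩)
        exact ⟨y, (BR_ends hyz.1 hbr).1, (Co.refl _ _).tail ⟨hyz.1, hl'⟩⟩
      · rcases ih with ih | ⟨u, hu1, hu2⟩
        · exact absurd ih hy
        · refine ⟨u, hu1, hu2.tail ⟨hyz.1, ?_⟩⟩
          have hnU : y + z ∉ U := by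
            intro hl
            rcases ((mem_Ux_of hyz.1).1 hl).2 with h' | h'
            · exact hy h'
            · exact hz h'
          have := hyz.2
          rw [hη, mem_mix] at this
          tauto
  refine ⟨Ou_mix hbN h1, ?_, ?_⟩
  · -- the cluster reaches the wall
    by_contra hcon
    push Not at hcon
    obtain ⟨u, u', hu1, hu2, hu3⟩ := hJ
    have hxu : Co η x u := by
      refine ((Cl_mix (ω' := ω')).2 hu1 |> CV_iff.1).mono ?_
      exact inter_subset_left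
    have huu : Co η u u' := by
      refine hu3.mono fun l hl => ?_
      obtain ⟨hl1, hl2⟩ := mem_sdiff.1 (mem_inter.1 hl).1
      rw [hη, mem_mix]
      exact Or.inr ⟨hl1, hl2⟩
    have hxu' : Co η x u' := hxu.trans huu
    -- the ring
    set θ := η ∪ LOW κ w b with hθ
    have hRθ : Ring w a θ := by
      refine Ring_inc w a _ _ ?_ hR
      intro l hl
      rcases mem_union.1 hl with hl | hl
      · obtain ⟨hl1, hl2⟩ := mem_inter.1 hl
        refine mem_union_left _ ?_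
        rw [hη, mem_mix]
        exact Or.inr ⟨hl1, fun h' => (mem_HH.1 (Ux_sub h')).2.2 hl2⟩
      · exact mem_union_right _ hl
    obtain ⟨r, hr⟩ := hRθ.spec ha
    have e1 : Co θ u' r := by
      refine hr u' x (by rw [hb'] at hu2; exact hu2) (by rw [hb] at hx; exact hx) ?_
      exact (hxu'.mono subset_union_left).symm
    -- the path below the wall
    have e2 : ∀ n : ℕ, (n : ℤ) ≤ b → Co θ w (w.1, w.2 - n) := by
      intro n
      induction n with
      | zero =>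
        intro _
        have : ((w.1, w.2 - ((0 : ℕ) : ℤ)) : ℤ × ℤ) = w := by simp
        rw [this]
        exact Co.refl _ _
      | succ n ih =>
        intro hn
        push_cast at hn
        refine (ih (by omega)).tail ⟨?_, mem_union_right _ ?_⟩
        · unfold IsUnit4
          simp only [Prod.ext_iff, Prod.fst_sub, Prod.snd_sub]
          push_cast
          omega
        · unfold LOW BR
          rw [mem_filter, mem_Bx]
          unfold ht
          simp only [Prod.fst_add, Prod.snd_add]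
          push_cast
          rcases hκ with rfl | rfl <;> omega
    have e3 : Co θ w r := by
      have h5 := e2 b.toNat (by omega)
      refine hr w _ (by rw [inR_iff]; omega) ?_ h5
      rw [inR_iff]
      simp only
      rw [Int.toNat_of_nonneg (by omega)]
      omega
    have e4 : Co θ x w := ((hxu'.mono subset_union_left).trans e1).trans e3.symm
    have e5 : ∀ y, Co θ x y → Co η x y := by
      intro y hy
      induction hy with
      | refl => exact Co.refl _ _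
      | @tail y z _ hyz ih =>
        refine ih.tail ⟨hyz.1, ?_⟩
        rcases mem_union.1 hyz.2 with h' | h'
        · exact h'
        · exfalso
          unfold LOW at h'
          have h6 := (mem_filter.1 h').2
          have h7 := hcon y ih
          have h8 := ht_step hκ hyz.1
          omega
    have e6 := hcon w (e5 w e4)
    omega
  · intro y hy hty
    rcases str y hy with h4 | ⟨u, hu1, hu2⟩
    · have := h3 y (CV_iff.1 h4)
      omega
    · by_contra h5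
      have hcu : inR w c u := by rw [inR_iff] at hu1 ⊢; omega
      have hcy : ¬ inR w c y := by rw [inR_iff] at h5 ⊢; omega
      obtain ⟨u', hu', h6⟩ := last_exit hu2 hcu hcy
      apply hS
      refine ⟨u', y, ?_, ?_, ?_, h6⟩
      · rw [inR_iff] at hu'; rw [abs_le]; omega
      · rw [inR_iff] at hu'; rw [abs_le]; omega
      · rw [inR_iff] at h5
        rw [le_abs, le_abs]
        omega

end Pool.Agent.H20.Q1
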