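import Mathlib
import Pool.Agent.H99.NC.RectP

set_option autoImplicit false
open Finset

/-! Harris inequality for events which increase in the fresh labels and decrease in the explored set. -/

namespace Pool.Agent.H20.Q1

open Pool.Agent.H75.Perc Pool.Agent.H99.NC

variable {α : Type*} [DecidableEq α]

/-- decreasing functions -/
def DecF (f : Finset α → ℝ) : Prop := ∀ ω ω', ω ⊆ ω' → f ω' ≤ f ω

/-- Harris inequality for decreasing functions -/
theorem Ex_harris_dec {q : α → ℝ} (hq : Pb q) (E : Finset α) {f g : Finset α → ℝ} (hf : DecF f)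
    (hg : DecF g) : Ex q E f * Ex q E g ≤ Ex q E (fun ω => f ω * g ω) := by
  have h1 : IncF (fun ω => (-1 : ℝ) * f ω) := fun ω ω' h => by have := hf ω ω' h; linarith
  have h2 : IncF (fun ω => (-1 : ℝ) * g ω) := fun ω ω' h => by have := hg ω ω' h; linarith
  have h3 := Ex_harris hq E h1 h2
  rw [Ex_smul, Ex_smul] at h3
  have h4 : Ex q E (fun ω => -1 * f ω * (-1 * g ω)) = Ex q E (fun ω => f ω * g ω) :=
    Ex_congr fun ω _ => by ring
  rw [h4] at h3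
  linarith

/-- **Harris inequality off an explored set** -/
theorem nt_harris {q : α → ℝ} (hq : Pb q) (E : Finset α) (U : Finset α → Finset α)
    (hU : ∀ ω ω', ω ⊆ E → ω' ⊆ E → U (mix (U ω) ω ω') = U ω)
    (A B Q G : Finset α → Prop) (A' B' G' : Finset α → Finset α → Prop)
    (hA : ∀ ω ω', ω ⊆ E → ω' ⊆ E → (A (mix (U ω) ω ω') ↔ A' ω ω'))
    (hB : ∀ ω ω', ω ⊆ E → ω' ⊆ E → (B (mix (U ω) ω ω') ↔ B' ω ω'))
    (hQ : ∀ ω ω', ω ⊆ E → ω' ⊆ E → (Q (mix (U ω) ω ω') ↔ Q ω))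
    (hG : ∀ ω ω', ω ⊆ E → ω' ⊆ E → (G (mix (U ω) ω ω') ↔ G' ω ω'))
    (iA : ∀ ω, Inc (A' ω)) (iB : ∀ ω, Inc (B' ω)) (iG : ∀ ω, Inc (G' ω))
    (dA : ∀ ω1 ω2 ω', ω1 ⊆ ω2 → A' ω2 ω' → A' ω1 ω')
    (dB : ∀ ω1 ω2 ω', ω1 ⊆ ω2 → B' ω2 ω' → B' ω1 ω')
    (dQ : ∀ ω1 ω2, ω1 ⊆ ω2 → Q ω2 → Q ω1) {c : ℝ} (hc0 : 0 ≤ c)
    (hc : ∀ ω, ω ⊆ E → c ≤ PrP q E (G' ω)) :
    c * (PrP q E A * PrP q E B * PrP q E Q) ≤ PrP q E (fun ω => A ω ∧ B ω ∧ Q ω ∧ G ω) := by
  have eA : PrP q E A = Ex q E (fun ω => PrP q E (A' ω)) := by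
    unfold PrP
    rw [← Ex_resample1 q E U hU (fun ω => ind (A ω))]
    exact Ex_congr fun ω hω => Ex_congr fun ω' hω' => ind_congr (hA ω ω' hω hω')
  have eB : PrP q E B = Ex q E (fun ω => PrP q E (B' ω)) := by
    unfold PrP
    rw [← Ex_resample1 q E U hU (fun ω => ind (B ω))]
    exact Ex_congr fun ω hω => Ex_congr fun ω' hω' => ind_congr (hB ω ω' hω hω')
  have eAll : PrP q E (fun ω => A ω ∧ B ω ∧ Q ω ∧ G ω) =
      Ex q E (fun ω => ind (Q ω) * PrP q E (fun ω' => A' ω ω' ∧ (B' ω ω' ∧ G' ω ω'))) := by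
    unfold PrP
    rw [← Ex_resample1 q E U hU (fun ω => ind (A ω ∧ B ω ∧ Q ω ∧ G ω))]
    refine Ex_congr fun ω hω => ?_
    rw [← Ex_smul]
    refine Ex_congr fun ω' hω' => ?_
    rw [← ind_and]
    refine ind_congr ?_
    rw [hA ω ω' hω hω', hB ω ω' hω hω', hQ ω ω' hω hω', hG ω ω' hω hω']
    tauto
  rw [eAll]
  have h1 : Ex q E (fun ω => ind (Q ω) * (PrP q E (A' ω) * (PrP q E (B' ω) * c))) ≤
      Ex q E (fun ω => ind (Q ω) * PrP q E (fun ω' => A' ω ω' ∧ (B' ω ω' ∧ G' ω ω'))) := by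
    refine Ex_mono hq fun ω hω => mul_le_mul_of_nonneg_left ?_ (ind_nonneg _)
    have e1 := PrP_harris hq E (iB ω) (iG ω)
    have e2 := PrP_harris hq E (iA ω) (Inc.and (iB ω) (iG ω))
    refine le_trans ?_ e2
    refine mul_le_mul_of_nonneg_left ?_ (PrP_nonneg hq _ _)
    exact (mul_le_mul_of_nonneg_left (hc ω hω) (PrP_nonneg hq _ _)).trans e1
  refine le_trans ?_ h1
  have dfA : DecF (fun ω => PrP q E (A' ω)) := fun ω ω' h =>
    PrP_mono hq fun ω'' _ h' => dA ω ω' ω'' h h'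
  have dfB : DecF (fun ω => PrP q E (B' ω)) := fun ω ω' h =>
    PrP_mono hq fun ω'' _ h' => dB ω ω' ω'' h h'
  have dfQ : DecF (fun ω => ind (Q ω)) := fun ω ω' h => ind_mono fun h' => dQ ω ω' h h'
  have dfAB : DecF (fun ω => PrP q E (A' ω) * PrP q E (B' ω)) := fun ω ω' h =>
    mul_le_mul (dfA ω ω' h) (dfB ω ω' h) (PrP_nonneg hq _ _) (PrP_nonneg hq _ _)
  have h2 := Ex_harris_dec hq E dfA dfB
  have h3 := Ex_harris_dec hq E dfAB dfQ
  have h4 : Ex q E (fun ω => ind (Q ω) * (PrP q E (A' ω) * (PrP q E (B' ω) * c))) =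
      c * Ex q E (fun ω => PrP q E (A' ω) * PrP q E (B' ω) * ind (Q ω)) := by
    rw [← Ex_smul]
    exact Ex_congr fun ω _ => by ring
  rw [h4, eA, eB]
  refine mul_le_mul_of_nonneg_left ?_ hc0
  refine le_trans ?_ h3
  exact mul_le_mul_of_nonneg_right h2 (PrP_nonneg hq E Q)

/-- a finite family of decreasing events -/
theorem PrP_all_ge {ι : Type*} {q : α → ℝ} (hq : Pb q) (E : Finset α) (s : Finset ι)
    (A : ι → Finset α → Prop) (hA : ∀ i ∈ s, Inc (A i)) {δ : ℝ} (hδ : 0 ≤ δ)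
    (h : ∀ i ∈ s, δ ≤ PrP q E (fun ω => ¬ A i ω)) :
    δ ^ s.card ≤ PrP q E (fun ω => ∀ i ∈ s, ¬ A i ω) := by
  classical
  induction s using Finset.induction_on with
  | empty =>
    simp
  | insert i s hi ih =>
    rw [card_insert_of_notMem hi, pow_succ]
    have h1 := ih (fun j hj => hA j (mem_insert_of_mem hj)) (fun j hj => h j (mem_insert_of_mem hj))
    have h2 := h i (mem_insert_self _ _)
    have d1 : DecF (fun ω => ind (∀ j ∈ s, ¬ A j ω)) := fun ω ω' hω => ind_mono fun h' j hj h'' =>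
      h' j hj (hA j (mem_insert_of_mem hj) _ _ hω h'')
    have d2 : DecF (fun ω => ind (¬ A i ω)) := fun ω ω' hω => ind_mono fun h' h'' =>
      h' (hA i (mem_insert_self _ _) _ _ hω h'')
    have h3 := Ex_harris_dec hq E d1 d2
    have h4 : PrP q E (fun ω => ∀ j ∈ insert i s, ¬ A j ω) =
        Ex q E (fun ω => ind (∀ j ∈ s, ¬ A j ω) * ind (¬ A i ω)) := by
      unfold PrP
      refine Ex_congr fun ω _ => ?_
      rw [← ind_and]
      refine ind_congr ?_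
      simp only [mem_insert, forall_eq_or_imp]
      tauto
    rw [h4]
    refine le_trans ?_ h3
    exact mul_le_mul h1 h2 hδ (PrP_nonneg hq _ _)

end Pool.Agent.H20.Q1
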