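import Mathlib
import Pool.Agent.H20.Q1.MxHarris
import Pool.Agent.H20.Q1.Hole
import Pool.Agent.H60.Q1.Win

set_option autoImplicit false
open Finset

/-!
# Gluing at a flat natural wall: deterministic part

`WC Wv η v` : `v` is joined to a wall vertex. A cluster which comes from outside to the box of radius
`a` and a cluster which comes from inside to distance `b`, both not joined to the wall, are the same
cluster as soon as there is a half ring of labels which are open or touch a cluster of the wall, and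
the clusters of the wall do not cross the annuli next to the ring.
-/

namespace Pool.Agent.H20.Q1

open Pool.Agent.H75.Perc Pool.Agent.H75.TwoArm Pool.Agent.H75.Four Pool.Agent.H49.Perc
open Pool.Agent.H99.NC Pool.Agent.H60.Q1

/-- vertices joined to the wall -/
def WC (Wv : ℤ × ℤ → Prop) (η : Finset (ℤ × ℤ)) (v : ℤ × ℤ) : Prop := ∃ v0, Wv v0 ∧ Co η v0 v

/-- inside the box the labels are above the wall -/
def Abv (κ : ℤ) (w : ℤ × ℤ) (b : ℤ) (η : Finset (ℤ × ℤ)) : Prop :=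
  ∀ l ∈ η, l ∈ BR w b → 2 * ht κ w ≤ ht κ l

/-- inside the box the wall vertices are those of the flat wall -/
def Flat (κ : ℤ) (w : ℤ × ℤ) (b : ℤ) (Wv : ℤ × ℤ → Prop) : Prop :=
  ∀ v, inR w b v → ht κ w ≤ ht κ v → (Wv v ↔ ht κ v = ht κ w)

variable {κ : ℤ} {Wv : ℤ × ℤ → Prop} {η θ ω ω' fr : Finset (ℤ × ℤ)} {w x c0 : ℤ × ℤ}
  {a b m1 m2 ρ R M : ℤ}

lemma near_iff {u : ℤ × ℤ} : Near w ρ u ↔ inR w ρ u := by
  unfold Near
  rw [inR_iff, abs_le, abs_le]
  omega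

lemma far_iff {u : ℤ × ℤ} : Far w ρ u ↔ ¬ inR w (ρ - 1) u := by
  unfold Far
  rw [inR_iff, le_abs, le_abs]
  omega

lemma mem_AL' {l : ℤ × ℤ} : l ∈ AL κ w ρ R ↔ l ∈ BR w R ∧ l ∉ BR w ρ ∧ 2 * ht κ w ≤ ht κ l := by
  unfold AL HL BR
  rw [mem_sdiff, mem_filter]
  tauto

lemma WC.trans {u v : ℤ × ℤ} (h : WC Wv η u) (h' : Co η u v) : WC Wv η v := by
  obtain ⟨v0, h1, h2⟩ := h
  exact ⟨v0, h1, Relation.ReflTransGen.trans h2 h'⟩

lemma WC.mono (h : η ⊆ θ) {u : ℤ × ℤ} (hu : WC Wv η u) : WC Wv θ u := by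
  obtain ⟨v0, h1, h2⟩ := hu
  exact ⟨v0, h1, h2.mono h⟩

/-- a path which crosses an annulus -/
lemma cross_of {u v : ℤ × ℤ} (h : Co η u v) (hu : inR w ρ u) (hv : Far w R v) (hρR : ρ < R)
    (hRb : R ≤ b) (habv : Abv κ w b η) :
    ∃ u' v', Near w ρ u' ∧ Far w R v' ∧ Co (η ∩ AL κ w ρ R) u' v' ∧ Co η u u' := by
  have hu' := hu
  rw [inR_iff] at hu'
  have hus : |u.1 - w.1| < R ∧ |u.2 - w.2| < R := by rw [abs_lt, abs_lt]; omega
  obtain ⟨v', h1, h2⟩ := open_exit h hus hv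
  have hv' : ¬ inR w ρ v' := by
    rw [inR_iff]
    rw [le_abs, le_abs] at h1
    omega
  obtain ⟨u', h3, h4⟩ := last_exit h2 hu hv'
  refine ⟨u', v', near_iff.2 h3, h1, h4.mono ?_, ?_⟩
  · intro l hl
    obtain ⟨h5, h6⟩ := mem_sdiff.1 hl
    obtain ⟨h7, h8⟩ := mem_inter.1 h5
    exact mem_inter.2 ⟨h7, mem_AL'.2 ⟨h8, h6, habv l h7 (BR_mono hRb h8)⟩⟩
  · have h5 : Co η u v' := h2.mono inter_subset_left
    have h6 : Co η u' v' := h4.mono (sdiff_subset.trans inter_subset_left)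
    exact h5.trans h6.symm

lemma wall_side (hκ : κ = 0 ∨ κ = 1) (ha : 1 ≤ a) {p : ℤ × ℤ} (h : ht κ p = ht κ w)
    (hr : Reg κ w a b p) : WS κ w (-1) p ∨ WS κ w 1 p := by
  obtain ⟨-, -, h1⟩ := hr
  unfold WS
  rw [le_abs, le_abs] at h1
  unfold ht at h ⊢
  rcases hκ with rfl | rfl
  · have h2 : p.1 - w.1 ≠ 0 := by omega
    rcases lt_or_gt_of_ne h2 with h3 | h3
    · left; exact ⟨h, by omega⟩
    · right; exact ⟨h, by omega⟩
  · have h2 : p.1 - w.1 ≠ 0 := by omega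
    rcases lt_or_gt_of_ne h2 with h3 | h3
    · left; exact ⟨h, by omega⟩
    · right; exact ⟨h, by omega⟩

/-- vertices of the clusters of the wall near the ring are attached inside the annulus -/
lemma attached (hκ : κ = 0 ∨ κ = 1) (h1 : a < m1) (h2 : m2 < b)
    (hW : Flat κ w b Wv) (habv : Abv κ w b η)
    (hQ1 : ¬ ∃ u v, WC Wv η u ∧ Near w a u ∧ Far w m1 v ∧ Co (η ∩ AL κ w a m1) u v)
    (hQ2 : ¬ ∃ u v, WC Wv η u ∧ Near w m2 u ∧ Far w b v ∧ Co (η ∩ AL κ w m2 b) u v)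
    {v : ℤ × ℤ} (hv : WC Wv η v) (hr : Reg κ w m1 m2 v) :
    ∃ p, Reg κ w a b p ∧ ht κ p = ht κ w ∧ Co (η ∩ AL κ w a b) v p := by
  have hWv := hv
  obtain ⟨p, hp, hpv⟩ := hv
  obtain ⟨hr1, hr2, hr3⟩ := hr
  have hvm : inR w m2 v := near_iff.1 hr2
  have hvf : Far w m1 v := hr3
  have hm12 : m1 ≤ m2 := by
    rw [inR_iff] at hvm
    unfold Far at hvf
    rw [le_abs, le_abs] at hvf
    omega
  have hall : ∀ q, Co η v q → inR w b q ∧ ¬ inR w a q := by
    intro q hq1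
    by_contra hq2
    by_cases hb : inR w b q
    · have ha' : inR w a q := by tauto
      obtain ⟨u', v', g1, g2, g3, g4⟩ := cross_of (κ := κ) hq1.symm ha' hvf h1
        (show m1 ≤ b by omega) habv
      exact hQ1 ⟨u', v', hWv.trans (hq1.trans g4), g1, g2, g3⟩
    · have hb' : Far w b q := by
        rw [far_iff]
        rw [inR_iff] at hb ⊢
        omega
      obtain ⟨u', v', g1, g2, g3, g4⟩ := cross_of (κ := κ) hq1 hvm hb' h2 le_rfl habv
      exact hQ2 ⟨u', v', hWv.trans g4, g1, g2, g3⟩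
  have key : ∀ q, Co η v q → Co (η ∩ AL κ w a b) v q := by
    intro q hq
    induction hq with
    | refl => exact Co.refl _ _
    | @tail y z hy hyz ih =>
      have hz := hall z (hy.tail hyz)
      have hy' := hall y hy
      have hbr := BR_of_ends hyz.1 hy'.1 hz.1
      exact ih.tail ⟨hyz.1, mem_inter.2 ⟨hyz.2, mem_AL'.2 ⟨hbr, fun hl => hz.2
        (BR_ends hyz.1 hl).2, habv _ hyz.2 hbr⟩⟩⟩
  have h3 := key p hpv.symm
  have hRv : Reg κ w a b v := by
    refine ⟨hr1, ?_, ?_⟩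
    · exact near_iff.2 (hall v (Co.refl _ _)).1
    · omega
  have hRp := Co.reg' hκ inter_subset_right h3 hRv
  exact ⟨p, hRp, (hW p (hall p hpv.symm).1 hRp.1).1 hp, h3⟩

/-- closing lemma: a path from the left wall to the right wall whose vertices are joined to the wall
or to `v` -/
lemma close_up (hκ : κ = 0 ∨ κ = 1) (ha : 1 ≤ a) {A : ℤ × ℤ → Prop} {p p' v uK vK uC vC : ℤ × ℤ}
    (hA : Pth A p p') (hAp : A p) (hAr : ∀ u, A u → Reg κ w a b u)
    (hAc : ∀ u, A u → WC Wv η u ∨ Co η v u)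
    (hp : WS κ w (-1) p) (hp' : WS κ w 1 p')
    (hK : ¬ WC Wv η x) (hxu : Co η x uK) (hk1 : Near w a uK) (hk2 : Far w b vK)
    (hk3 : Co (η ∩ AL κ w a b) uK vK)
    (hC : ¬ WC Wv η c0) (hcu : Co η c0 uC) (hc1 : Near w a uC) (hc2 : Far w b vC)
    (hc3 : Co (η ∩ AL κ w a b) uC vC) (hab : a < b) : Co η x c0 := by
  have gen : ∀ {y u0 v0 : ℤ × ℤ}, ¬ WC Wv η y → Co η y u0 → Near w a u0 → Far w b v0 →
      Co (η ∩ AL κ w a b) u0 v0 → Co η y v := by
    intro y u0 v0 g1 g2 g3 g4 g5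
    have hne : u0 ≠ v0 := near_ne_far hab g3 g4
    obtain ⟨q, hq1, hq2⟩ := PL hκ ha hA hAp (Co.pth g5) (Co.refl _ _) hAr
      (fun u hu => (Co.reg hκ inter_subset_right g5 hne).2 u hu) hp hp' g3 g4
    have hyq : Co η y q := g2.trans (hq2.mono inter_subset_left)
    rcases hAc q hq1 with h | h
    · exact absurd (h.trans hyq.symm) g1
    · exact hyq.trans h.symm
  exact (gen hK hxu hk1 hk2 hk3).trans (gen hC hcu hc1 hc2 hc3).symm

/-- **gluing lemma** -/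
theorem glue_det (hκ : κ = 0 ∨ κ = 1) (ha : 1 ≤ a) (h1 : a < m1) (h2 : m2 < b) {U : Finset (ℤ × ℤ)}
    (hW : Flat κ w b Wv) (habv : Abv κ w b η)
    (hK : ¬ WC Wv η x) (hKu : ∃ u, inR w a u ∧ Co η x u) (hx : Far w b x)
    (hC : ¬ WC Wv η c0) (hCv : ∃ v, Far w b v ∧ Co η c0 v) (hc : inR w a c0)
    (hQ1 : ¬ ∃ u v, WC Wv η u ∧ Near w a u ∧ Far w m1 v ∧ Co (η ∩ AL κ w a m1) u v)
    (hQ2 : ¬ ∃ u v, WC Wv η u ∧ Near w m2 u ∧ Far w b v ∧ Co (η ∩ AL κ w m2 b) u v)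
    (hU : ∀ u v, IsUnit4 (v - u) → u + v ∈ U → WC Wv η u ∨ WC Wv η v)
    (hR : RO κ w m1 m2 M (η ∪ U)) : Co η x c0 := by
  obtain ⟨p, p', hp, hp', -, -, hpp⟩ := hR
  have hpne : p ≠ p' := by
    rintro rfl
    have h3 := hp.2
    have h4 := hp'.2
    linarith
  have hreg := Co.reg hκ inter_subset_right hpp hpne
  have hm12 : m1 ≤ m2 := by
    obtain ⟨-, h3, h4⟩ := hreg.1
    rw [abs_le, abs_le] at h3
    rw [le_abs, le_abs] at h4
    omega
  have hab : a < b := by omega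
  have hsub : ∀ u, Reg κ w m1 m2 u → Reg κ w a b u := by
    rintro u ⟨g1, g2, g3⟩
    exact ⟨g1, by omega, by omega⟩
  obtain ⟨uk, hk1, hk2⟩ := hKu
  obtain ⟨uK, vK, k1, k2, k3, k4⟩ := cross_of (κ := κ) hk2.symm hk1 hx hab le_rfl habv
  have hxK : Co η x uK := hk2.trans k4
  obtain ⟨vc, hc1, hc2⟩ := hCv
  obtain ⟨uC, vC, l1', l2, l3, l4⟩ := cross_of (κ := κ) hc2 hc hc1 hab le_rfl habv
  have cl : ∀ {A : ℤ × ℤ → Prop} {q q' v : ℤ × ℤ}, Pth A q q' → A q → (∀ u, A u → Reg κ w a b u) →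
      (∀ u, A u → WC Wv η u ∨ Co η v u) → WS κ w (-1) q → WS κ w 1 q' → Co η x c0 :=
    fun g1 g2 g3 g4 g5 g6 => close_up hκ ha g1 g2 g3 g4 g5 g6 hK hxK k1 k2 k3 hC l4 l1' l2 l3 hab
  -- the invariant
  have key : ∀ v, Co ((η ∪ U) ∩ AL κ w m1 m2) p v → Co η x c0 ∨
      ∃ q, WS κ w (-1) q ∧ (Reg κ w a b q ∧ (WC Wv η q ∨ Co η v q)) ∧
        Pth (fun u => Reg κ w a b u ∧ (WC Wv η u ∨ Co η v u)) q v := by
    intro v hv
    induction hv with
    | refl =>
      right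
      exact ⟨p, hp, ⟨hsub _ hreg.1, Or.inr (Co.refl _ _)⟩, Relation.ReflTransGen.refl⟩
    | @tail v v' hv hvv ih =>
      rcases ih with ih | ⟨q, hq1, hq2, hq3⟩
      · exact Or.inl ih
      have hrv' : Reg κ w m1 m2 v' := hreg.2 v' (Relation.ReflTransGen.tail hv hvv)
      have hst : IsUnit4 (v' - v) := hvv.1
      by_cases hw' : WC Wv η v'
      · obtain ⟨r, hr1, hr2, hr3⟩ := attached hκ h1 h2 hW habv hQ1 hQ2 hw' hrv'
        rcases wall_side hκ ha hr2 hr1 with hs | hs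
        · right
          have hA : ∀ u, Co (η ∩ AL κ w a b) r u → Reg κ w a b u ∧ (WC Wv η u ∨ Co η v' u) :=
            fun u hu => ⟨Co.reg' hκ inter_subset_right hu hr1,
              Or.inr ((hr3.trans hu).mono inter_subset_left)⟩
          exact ⟨r, hs, hA r (Co.refl _ _), Pth.mono hA (Co.pth hr3.symm)⟩
        · left
          have hA : ∀ u, Co (η ∩ AL κ w a b) v' u → Reg κ w a b u ∧ (WC Wv η u ∨ Co η v u) :=
            fun u hu => ⟨Co.reg' hκ inter_subset_right hu (hsub _ hrv'),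
              Or.inl (hw'.trans (hu.mono inter_subset_left))⟩
          have hP : Pth (fun u => Reg κ w a b u ∧ (WC Wv η u ∨ Co η v u)) q r :=
            Relation.ReflTransGen.trans (hq3.tail ⟨hst, hsub _ hrv', Or.inl hw'⟩)
              (Pth.mono hA (Co.pth hr3))
          exact cl hP hq2 (fun u hu => hu.1) (fun u hu => hu.2) hq1 hs
      · right
        have hA : ∀ u, (Reg κ w a b u ∧ (WC Wv η u ∨ Co η v u)) →
            Reg κ w a b u ∧ (WC Wv η u ∨ Co η v' u) := by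
          rintro u ⟨g1, g2⟩
          refine ⟨g1, ?_⟩
          rcases g2 with g2 | g2
          · exact Or.inl g2
          by_cases hwv : WC Wv η v
          · exact Or.inl (hwv.trans g2)
          · right
            have hl := (mem_inter.1 hvv.2).1
            rcases mem_union.1 hl with hl | hl
            · exact Co.trans (Co.symm ((Co.refl _ _).tail ⟨hst, hl⟩)) g2
            · exact absurd (hU v v' hst hl) (by tauto)
        exact ⟨q, hq1, hA q hq2, (Pth.mono hA hq3).tail ⟨hst, hsub _ hrv', Or.inr (Co.refl _ _)⟩⟩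
  rcases key p' hpp with h | ⟨q, hq1, hq2, hq3⟩
  · exact h
  · exact cl hq3 hq2 (fun u hu => hu.1) (fun u hu => hu.2) hq1 hp'

end Pool.Agent.H20.Q1
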