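import Mathlib
import Pool.Agent.H20.Q1.Hole

set_option autoImplicit false
open Finset

/-! The half plane with a hole: probabilities (general densities). -/

namespace Pool.Agent.H20.Q1

open Pool.Agent.H75.Perc Pool.Agent.H75.TwoArm Pool.Agent.H75.Four Pool.Agent.H49.Perc
open Pool.Agent.H99.NC Pool.Agent.H60.Q1

/-- conditional lower bound -/
theorem cond_gen {α : Type*} [DecidableEq α] {q : α → ℝ} (hq : Pb q) (E : Finset α)
    (U : Finset α → Finset α)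
    (hU : ∀ ω ω', ω ⊆ E → ω' ⊆ E → U (mix (U ω) ω ω') = U ω)
    (A D : Finset α → Prop) (A' : Finset α → Finset α → Prop) (G : Finset α → Prop) {c : ℝ}
    (hA : ∀ ω ω', ω ⊆ E → ω' ⊆ E → (A (mix (U ω) ω ω') ↔ A' ω ω'))
    (hD : ∀ ω ω', ω ⊆ E → ω' ⊆ E → A' ω ω' → G ω' → D (mix (U ω) ω ω'))
    (hG : ∀ ω, ω ⊆ E → PrP q E (A' ω) * c ≤ PrP q E (fun ω' => A' ω ω' ∧ G ω')) :
    PrP q E A * c ≤ PrP q E D := by
  have h1 : PrP q E A = Ex q E (fun ω => PrP q E (A' ω)) := by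
    unfold PrP
    rw [← Ex_resample1 q E U hU (fun ω => ind (A ω))]
    exact Ex_congr fun ω hω => Ex_congr fun ω' hω' => ind_congr (hA ω ω' hω hω')
  have h2 : PrP q E D = Ex q E (fun ω => Ex q E (fun ω' => ind (D (mix (U ω) ω ω')))) :=
    (Ex_resample1 q E U hU (fun ω => ind (D ω))).symm
  rw [h1, h2, ← Ex_smul']
  refine Ex_mono hq fun ω hω => ?_
  refine (hG ω hω).trans ?_
  unfold PrP
  exact Ex_mono hq fun ω' hω' => ind_mono fun h => hD ω ω' hω hω' h.1 h.2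

variable {κ : ℤ} {E ω ω' : Finset (ℤ × ℤ)} {o w x : ℤ × ℤ} {N b b' c : ℤ} {q : ℤ × ℤ → ℝ}

lemma UV_mix : UV κ E w b x (mix (UV κ E w b x ω) ω ω') = UV κ E w b x ω := Ux_mix

lemma mix_back {α : Type*} [DecidableEq α] (U ω ω' : Finset α) : mix U (mix U ω ω') ω = ω := by
  ext l
  rw [mem_mix, mem_mix]
  tauto

lemma Ou_mix_iff (hbN : b ≤ N) :
    Ou κ E o N w x (mix (UV κ E w b x ω) ω ω') ↔ Ou κ E o N w x ω := by
  refine ⟨fun h => ?_, Ou_mix hbN⟩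
  have h1 := Ou_mix (ω' := ω) hbN h
  rwa [UV_mix, mix_back] at h1

lemma CV_mix {y : ℤ × ℤ} : CV κ E w b x (mix (UV κ E w b x ω) ω ω') y ↔ CV κ E w b x ω y := Cl_mix

lemma Bv_mix (hbN : b ≤ N) :
    Bv κ E o N w b x (mix (UV κ E w b x ω) ω ω') ↔ Bv κ E o N w b x ω := by
  unfold Bv
  rw [Ou_mix_iff hbN]
  have h : ∀ y, Co (mix (UV κ E w b x ω) ω ω' ∩ HH κ E w b) x y ↔ Co (ω ∩ HH κ E w b) x y := by
    intro y
    rw [← CV_iff, ← CV_iff, CV_mix]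
  simp only [h]

lemma Jv_mix : Jv κ E w b b' c x (mix (UV κ E w b x ω) ω ω') (mix (UV κ E w b x ω) ω ω') ↔
    Jv κ E w b b' c x ω ω' := by
  unfold Jv
  rw [UV_mix]
  have h : mix (UV κ E w b x ω) ω ω' \ UV κ E w b x ω = ω' \ UV κ E w b x ω := by
    ext l
    rw [mem_sdiff, mem_sdiff, mem_mix]
    tauto
  rw [h]
  simp only [CV_mix]

/-- the fresh part -/
theorem fresh_bound (hq : Pb q) (hbc : b ≤ c) (hE : BR w b ⊆ E) {a : ℤ} {c1 c2 : ℝ}
    (hc2 : 0 ≤ c2) (h1 : c1 ≤ PrP q (BR w b) (Ring w a))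
    (h2 : PrP q (E \ BR w c) (Arm1 w c (4 * c)) ≤ 1 - c2) (ω : Finset (ℤ × ℤ)) :
    PrP q E (Jv κ E w b b' c x ω) * (c1 * c2) ≤
      PrP q E (fun ω' => Jv κ E w b b' c x ω ω' ∧ (RingL κ w b a ω' ∧ Seal w c ω')) := by
  set E1 := E ∩ BR w c with hE1
  have hE1E : E1 ⊆ E := inter_subset_left
  have hbE1 : BR w b ⊆ E1 := subset_inter hE (BR_mono hbc)
  -- localisation
  have l1 : ∀ ω', ω' ⊆ E → (Jv κ E w b b' c x ω ω' ↔ Jv κ E w b b' c x ω (ω' ∩ E1)) := by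
    intro ω' hω'
    unfold Jv
    have : (ω' ∩ E1) \ UV κ E w b x ω ∩ BR w c = ω' \ UV κ E w b x ω ∩ BR w c := by
      ext l
      simp only [mem_inter, mem_sdiff, hE1]
      constructor
      · tauto
      · rintro ⟨⟨h3, h4⟩, h5⟩
        exact ⟨⟨⟨h3, hω' h3, h5⟩, h4⟩, h5⟩
    rw [this]
  have l2 : ∀ ω', ω' ⊆ E → (RingL κ w b a ω' ↔ RingL κ w b a (ω' ∩ E1)) := by
    intro ω' hω'
    unfold RingL
    have : ω' ∩ E1 ∩ BR w b = ω' ∩ BR w b := by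
      rw [inter_assoc, inter_eq_right.2 hbE1]
    rw [this]
  have l3 : ∀ ω', ω' ⊆ E → ω' \ E1 = ω' \ BR w c := by
    intro ω' hω'
    ext l
    simp only [mem_inter, mem_sdiff, hE1]
    constructor
    · rintro ⟨h3, h4⟩
      exact ⟨h3, fun h5 => h4 ⟨hω' h3, h5⟩⟩
    · rintro ⟨h3, h4⟩
      exact ⟨h3, fun h5 => h4 h5.2⟩
  have e1 : PrP q E (fun ω' => Jv κ E w b b' c x ω ω' ∧ (RingL κ w b a ω' ∧ Seal w c ω')) =
      PrP q E1 (fun η => Jv κ E w b b' c x ω η ∧ RingL κ w b a η) *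
        PrP q (E \ E1) (fun η => ¬ Arm1 w c (4 * c) η) := by
    rw [← PrP_split q hE1E]
    refine PrP_congr fun ω' hω' => ?_
    rw [← l1 ω' hω', ← l2 ω' hω', l3 ω' hω']
    unfold Seal
    tauto
  have e2 : PrP q E (Jv κ E w b b' c x ω) = PrP q E1 (Jv κ E w b b' c x ω) := by
    rw [← PrP_restrict q hE1E]
    exact PrP_congr l1
  have iJ : Inc (Jv κ E w b b' c x ω) := by
    rintro η η' h ⟨u, u', h3, h4, h5⟩
    exact ⟨u, u', h3, h4, h5.mono (inter_subset_inter_right (sdiff_subset_sdiff h le_rfl))⟩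
  have iR : Inc (RingL κ w b a) := by
    intro η η' h h3
    exact Ring_inc w a _ _ (union_subset_union_left (inter_subset_inter_right h)) h3
  have e3 := PrP_harris hq E1 iJ iR
  have e4 : c1 ≤ PrP q E1 (RingL κ w b a) := by
    refine h1.trans ?_
    rw [← PrP_restrict q hbE1]
    exact PrP_mono hq fun η _ h => Ring_inc w a _ _ subset_union_left h
  have e5 : c2 ≤ PrP q (E \ E1) (fun η => ¬ Arm1 w c (4 * c) η) := by
    rw [PrP_not]
    have : E \ E1 = E \ BR w c := l3 E (subset_refl E)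
    rw [this]
    linarith
  rw [e1, e2]
  have n1 := PrP_nonneg hq E1 (Jv κ E w b b' c x ω)
  have n2 := PrP_nonneg hq E1 (RingL κ w b a)
  calc PrP q E1 (Jv κ E w b b' c x ω) * (c1 * c2)
      = (PrP q E1 (Jv κ E w b b' c x ω) * c1) * c2 := by ring
    _ ≤ PrP q E1 (fun η => Jv κ E w b b' c x ω η ∧ RingL κ w b a η) * c2 := by
        refine mul_le_mul_of_nonneg_right ?_ hc2
        exact (mul_le_mul_of_nonneg_left e4 n1).trans e3
    _ ≤ _ := mul_le_mul_of_nonneg_left e5 (PrP_nonneg hq _ _)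

/-- sealing a cluster costs a constant -/
theorem step3 (hq : Pb q) (hκ : κ = 0 ∨ κ = 1) {a : ℤ} (ha : 1 ≤ a) (hb : b = 2 * a)
    (hb' : b' = a - 1) (hbN : b ≤ N) (hx : ¬ inR w (b - 1) x) (hbc : b ≤ c) (hE : BR w b ⊆ E)
    {c1 c2 : ℝ} (hc2 : 0 ≤ c2) (h1 : c1 ≤ PrP q (BR w b) (Ring w a))
    (h2 : PrP q (E \ BR w c) (Arm1 w c (4 * c)) ≤ 1 - c2) :
    PrP q E (fun ω => Bv κ E o N w b x ω ∧ Jv κ E w b b' c x ω ω) * (c1 * c2) ≤
      PrP q E (Dv κ E o N w (4 * c) x) := by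
  refine cond_gen hq E (UV κ E w b x) (fun ω ω' _ _ => UV_mix) _ _
    (fun ω ω' => Bv κ E o N w b x ω ∧ Jv κ E w b b' c x ω ω')
    (fun ω' => RingL κ w b a ω' ∧ Seal w c ω') ?_ ?_ ?_
  · intro ω ω' _ _
    rw [Bv_mix hbN, Jv_mix]
  · intro ω ω' hω hω' h3 h4
    exact step2 hκ ha hb hb' hbN hx hbc hω hω' h3.1 h3.2 h4.1 h4.2
  · intro ω _
    by_cases hB : Bv κ E o N w b x ω
    · have e1 : PrP q E (fun ω' => Bv κ E o N w b x ω ∧ Jv κ E w b b' c x ω ω') =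
          PrP q E (Jv κ E w b b' c x ω) := PrP_congr fun ω' _ => by tauto
      have e2 : PrP q E (fun ω' => (Bv κ E o N w b x ω ∧ Jv κ E w b b' c x ω ω') ∧
          (RingL κ w b a ω' ∧ Seal w c ω')) = PrP q E (fun ω' => Jv κ E w b b' c x ω ω' ∧
          (RingL κ w b a ω' ∧ Seal w c ω')) := PrP_congr fun ω' _ => by tauto
      rw [e1, e2]
      exact fresh_bound hq hbc hE hc2 h1 h2 ω
    · have e1 : PrP q E (fun ω' => Bv κ E o N w b x ω ∧ Jv κ E w b b' c x ω ω') = 0 := by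
        unfold PrP
        rw [show (fun ω' => ind (Bv κ E o N w b x ω ∧ Jv κ E w b b' c x ω ω')) = fun _ => 0 from
          funext fun _ => ind_false (by tauto)]
        exact Ex_const q E 0
      rw [e1, zero_mul]
      exact PrP_nonneg hq _ _

/-- a fresh arm costs `ε` -/
theorem step4 (hq : Pb q) (hbN : b ≤ N) {ε : ℝ} (h : PrP q E (Arm1 w b c) ≤ ε) :
    PrP q E (fun ω => Arm1 w b c (ω \ UV κ E w b x ω) ∧ Bv κ E o N w b x ω) ≤
      PrP q E (Bv κ E o N w b x) * ε := by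
  refine resampleP_le hq E (UV κ E w b x) (fun ω ω' _ _ => UV_mix) _ _
    (fun ω ω' => Arm1 w b c (ω' \ UV κ E w b x ω)) ε ?_ ?_ ?_
  · intro ω ω' _ _ h1
    exact (Bv_mix hbN).1 h1
  · intro ω _ _
    exact (PrP_mono hq fun ω' _ h1 => Arm1_inc w b c _ _ sdiff_subset h1).trans h
  · intro ω ω' _ _ _ h1
    rw [UV_mix] at h1
    have h2 : mix (UV κ E w b x ω) ω ω' \ UV κ E w b x ω = ω' \ UV κ E w b x ω := by
      ext l
      rw [mem_sdiff, mem_sdiff, mem_mix]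
      tauto
    rwa [h2] at h1

/-- expected number of clusters at the hole `w` of radius `b` -/
noncomputable def nB (κ : ℤ) (q : ℤ × ℤ → ℝ) (E : Finset (ℤ × ℤ)) (o : ℤ × ℤ) (N : ℤ) (w : ℤ × ℤ)
    (b : ℤ) : ℝ := ∑ x ∈ Sph o (2 * N), PrP q E (Bv κ E o N w b x)

/-- expected number of sealed clusters -/
noncomputable def nD (κ : ℤ) (q : ℤ × ℤ → ℝ) (E : Finset (ℤ × ℤ)) (o : ℤ × ℤ) (N : ℤ) (w : ℤ × ℤ)
    (m : ℤ) : ℝ := ∑ x ∈ Sph o (2 * N), PrP q E (Dv κ E o N w m x)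

lemma nD_nonneg (hq : Pb q) {m : ℤ} : 0 ≤ nD κ q E o N w m :=
  sum_nonneg fun _ _ => PrP_nonneg hq _ _

lemma nB_nonneg (hq : Pb q) : 0 ≤ nB κ q E o N w b :=
  sum_nonneg fun _ _ => PrP_nonneg hq _ _

/-- one step of the recursion at a fixed wall -/
theorem step5 (hq : Pb q) (hκ : κ = 0 ∨ κ = 1) {a : ℤ} (ha : 1 ≤ a) (hb : b = 2 * a)
    (hb' : b' = a - 1) (hbN : b ≤ N) (hw : inR o N w) (hbc : b ≤ c) (hE : BR w b ⊆ E)
    {c1 c2 ε : ℝ} (hc1 : 0 < c1) (hc2 : 0 < c2) (h1 : c1 ≤ PrP q (BR w b) (Ring w a))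
    (h2 : PrP q (E \ BR w c) (Arm1 w c (4 * c)) ≤ 1 - c2) (h : PrP q E (Arm1 w b c) ≤ ε) :
    nB κ q E o N w b' ≤ nD κ q E o N w (4 * c) / (c1 * c2) + nB κ q E o N w b * ε := by
  unfold nB nD
  rw [sum_div, sum_mul, ← sum_add_distrib]
  refine sum_le_sum fun x hx => ?_
  rw [mem_Sph] at hx
  have hxw : ¬ inR w (b - 1) x := by
    rw [inR_iff] at hw ⊢
    have hx2 := hx.2
    rw [le_abs, le_abs] at hx2
    omega
  have e1 := step3 (o := o) hq hκ ha hb hb' hbN hxw hbc hE hc2.le h1 h2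
  have e2 := step4 (κ := κ) (o := o) (x := x) hq hbN h
  have e3 : PrP q E (Bv κ E o N w b' x) ≤
      PrP q E (fun ω => Bv κ E o N w b x ω ∧ Jv κ E w b b' c x ω ω) +
      PrP q E (fun ω => Arm1 w b c (ω \ UV κ E w b x ω) ∧ Bv κ E o N w b x ω) := by
    refine le_trans (PrP_mono hq fun ω _ h3 => ?_) (PrP_or_le hq E _ _)
    have h4 := step1 (b := b) (c := c) (by omega) hxw hbc h3
    tauto
  have e4 : PrP q E (fun ω => Bv κ E o N w b x ω ∧ Jv κ E w b b' c x ω ω) ≤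
      PrP q E (Dv κ E o N w (4 * c) x) / (c1 * c2) := by
    rw [le_div_iff₀ (by positivity)]
    exact e1
  linarith

/-- sealed clusters on a sparse set of walls -/
theorem step6 (hq : Pb q) {m : ℤ} {r : ℝ}
    (hr : PrP q E (Arm1 o (2 * N) (8 * N)) ≤ r) (hr1 : r < 1) (T : Finset (ℤ × ℤ))
    (hT : ∀ w ∈ T, ∀ w' ∈ T, w ≠ w' → 2 * m < |w.1 - w'.1| ∨ 2 * m < |w.2 - w'.2|) :
    ∑ w ∈ T, nD κ q E o N w m ≤ r / (1 - r) := by
  unfold nD
  rw [← sum_product' (f := fun w x => PrP q E (Dv κ E o N w m x))]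
  refine count_dis hq E o (2 * N) (8 * N) hr hr1 (T ×ˢ Sph o (2 * N))
    (fun p => HH κ E p.1 N) (fun p => p.2) (fun p => Dv κ E o N p.1 m p.2) ?_ ?_ ?_
  · rintro ⟨w, x⟩ hp
    rw [mem_product] at hp
    exact (mem_Sph.1 hp.2).1
  · rintro ω - ⟨w, x⟩ - h
    obtain ⟨⟨⟨v, hv1, hv2⟩, -⟩, -⟩ := h
    exact ⟨v, hv1, hv2⟩
  · rintro ω - ⟨w, x⟩ hp ⟨w', x'⟩ hp' hne h h'
    rw [mem_product] at hp hp'
    rw [disjoint_left]
    intro l hl hl'
    obtain ⟨-, c1⟩ := cmp_co' hl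
    obtain ⟨-, c2⟩ := cmp_co' hl'
    by_cases hw : w = w'
    · subst hw
      have c3 : Co (ω ∩ HH κ E w N) x x' := c1.trans c2.symm
      have e1 := h.1.2 x' hp'.2 c3
      have e2 := h'.1.2 x hp.2 c3.symm
      have e3 : x = x' := Encodable.encode_injective (le_antisymm e1 e2)
      exact hne (by rw [e3])
    · have c3 : Co ω x x' := (c1.mono inter_subset_left).trans (c2.mono inter_subset_left).symm
      have hd := hT w hp.1 w' hp'.1 hw
      have key : ∃ y, inR w m y ∧ inR w' m y := by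
        rcases le_total (ht κ w) (ht κ w') with hle | hle
        · obtain ⟨y, y1, y2⟩ := h.2.1
          exact ⟨y, h.2.2 y y1 y2, h'.2.2 y (c3.symm.trans y1) (y2.trans hle)⟩
        · obtain ⟨y, y1, y2⟩ := h'.2.1
          exact ⟨y, h.2.2 y (c3.trans y1) (y2.trans hle), h'.2.2 y y1 y2⟩
      obtain ⟨y, y1, y2⟩ := key
      rw [inR_iff] at y1 y2
      rw [lt_abs, lt_abs] at hd
      omega

/-- trivial bound -/
theorem step7 (hq : Pb q) {r : ℝ} (hr : PrP q E (Arm1 o (2 * N) (8 * N)) ≤ r) (hr1 : r < 1) :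
    nB κ q E o N w b ≤ r / (1 - r) := by
  unfold nB
  refine count_dis hq E o (2 * N) (8 * N) hr hr1 (Sph o (2 * N))
    (fun _ => HH κ E w N) (fun x => x) (fun x => Bv κ E o N w b x) ?_ ?_ ?_
  · intro x hx
    exact (mem_Sph.1 hx).1
  · rintro ω - x - h
    obtain ⟨⟨⟨v, hv1, hv2⟩, -⟩, -⟩ := h
    exact ⟨v, hv1, hv2⟩
  · rintro ω - x hx x' hx' hne h h'
    refine cmp_disj fun c3 => hne ?_
    have e1 := h.1.2 x' hx' c3
    have e2 := h'.1.2 x hx c3.symm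
    exact Encodable.encode_injective (le_antisymm e1 e2)

/-- all walls -/
noncomputable def WW (o : ℤ × ℤ) (N : ℤ) : Finset (ℤ × ℤ) :=
  Finset.Icc (o.1 - N) (o.1 + N) ×ˢ Finset.Icc (o.2 - N) (o.2 + N)

lemma mem_WW {o w : ℤ × ℤ} {N : ℤ} : w ∈ WW o N ↔ inR o N w := by
  unfold WW
  rw [mem_product, mem_Icc, mem_Icc, inR_iff]

lemma card_WW {o : ℤ × ℤ} {N : ℤ} (hN : 0 ≤ N) : ((WW o N).card : ℝ) = (2 * N + 1) ^ 2 := by
  unfold WW
  rw [card_product, Int.card_Icc, Int.card_Icc]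
  rw [show o.1 + N + 1 - (o.1 - N) = 2 * N + 1 by ring, show o.2 + N + 1 - (o.2 - N) = 2 * N + 1 by ring]
  push_cast
  have h1 : (((2 * N + 1).toNat : ℕ) : ℝ) = 2 * N + 1 := by
    rw [← Int.cast_natCast, Int.toNat_of_nonneg (by omega)]
    push_cast
    ring
  rw [h1]
  ring

theorem step8 (hq : Pb q) {m : ℤ} (hm : 0 ≤ m) {r : ℝ}
    (hr : PrP q E (Arm1 o (2 * N) (8 * N)) ≤ r) (hr1 : r < 1) :
    ∑ w ∈ WW o N, nD κ q E o N w m ≤ (2 * m + 1) ^ 2 * (r / (1 - r)) := by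
  classical
  set M := 2 * m + 1 with hM
  have hM0 : 0 < M := by omega
  have hmap : ∀ w ∈ WW o N, ((w.1 % M, w.2 % M) : ℤ × ℤ) ∈ Finset.Ico (0 : ℤ) M ×ˢ Finset.Ico (0 : ℤ) M := by
    intro w _
    rw [mem_product, mem_Ico, mem_Ico]
    exact ⟨⟨Int.emod_nonneg _ hM0.ne', Int.emod_lt_of_pos _ hM0⟩,
      ⟨Int.emod_nonneg _ hM0.ne', Int.emod_lt_of_pos _ hM0⟩⟩
  rw [← sum_fiberwise_of_maps_to hmap]
  have hb : ∀ p ∈ Finset.Ico (0 : ℤ) M ×ˢ Finset.Ico (0 : ℤ) M,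
      ∑ w ∈ (WW o N).filter (fun w => ((w.1 % M, w.2 % M) : ℤ × ℤ) = p), nD κ q E o N w m ≤
        r / (1 - r) := by
    intro p _
    refine step6 hq hr hr1 _ ?_
    intro w hw w' hw' hne
    rw [mem_filter] at hw hw'
    have e : ((w.1 % M, w.2 % M) : ℤ × ℤ) = (w'.1 % M, w'.2 % M) := hw.2.trans hw'.2.symm
    rw [Prod.ext_iff] at e
    simp only at e
    have d1 : M ∣ w.1 - w'.1 := Int.dvd_of_emod_eq_zero (by
      rw [Int.sub_emod, e.1, sub_self, Int.zero_emod])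
    have d2 : M ∣ w.2 - w'.2 := Int.dvd_of_emod_eq_zero (by
      rw [Int.sub_emod, e.2, sub_self, Int.zero_emod])
    by_contra hcon
    push Not at hcon
    have z1 : w.1 - w'.1 = 0 := Int.eq_zero_of_abs_lt_dvd d1 (by omega)
    have z2 : w.2 - w'.2 = 0 := Int.eq_zero_of_abs_lt_dvd d2 (by omega)
    exact hne (Prod.ext (by omega) (by omega))
  refine (sum_le_sum hb).trans ?_
  rw [sum_const, card_product, Int.card_Ico, nsmul_eq_mul]
  rw [sub_zero]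
  push_cast
  have h1 : ((M.toNat : ℕ) : ℝ) = (M : ℝ) := by
    rw [← Int.cast_natCast, Int.toNat_of_nonneg hM0.le]
  rw [h1, hM]
  push_cast
  rw [pow_two]

end Pool.Agent.H20.Q1
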