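import Mathlib
import Pool.Agent.H20.Q1.Step
import Pool.Agent.H60.Q1.Win

set_option autoImplicit false
open Finset

/-!
# Three arms in a half annulus: the sharp upper bound

`U3 κ z ρ R` : some open cluster of the half annulus `A⁺(z; ρ, R)` crosses it and does not meet the
wall. `U3_le` : its probability (`p = 1/2`) is at most `C (ρ/R)²`, for the walls `y = const` (`κ = 0`)
and `x + y = const` (`κ = 1`).
-/

namespace Pool.Agent.H20.Q1

open Pool.Agent.H75.Perc Pool.Agent.H75.TwoArm Pool.Agent.H75.Four Pool.Agent.H49.Perc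
open Pool.Agent.H99.NC Pool.Agent.H60.Q1

/-- density one half -/
noncomputable abbrev hf : ℤ × ℤ → ℝ := fun _ => 1 / 2

lemma hf_Pb : Pb hf := fun _ => by norm_num

lemma hf_Qh : Qh hf := fun _ => by norm_num

lemma hf_Pr (E : Finset (ℤ × ℤ)) (A : Finset (ℤ × ℤ) → Prop) : PrP hf E A = Pr E A := PrP_half E A

lemma BR_odd {o : ℤ × ℤ} {m : ℤ} : ∀ e ∈ BR o m, (e.1 + e.2) % 2 = 1 := by
  intro e he
  unfold BR at he
  rw [mem_Bx] at he
  exact he.2.2

/-- **recursion over the radius of the hole** -/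
theorem rec_bound : ∃ A : ℝ, 0 < A ∧ ∀ κ : ℤ, (κ = 0 ∨ κ = 1) → ∀ (o : ℤ × ℤ) (N : ℤ), 1 ≤ N →
    ∀ b : ℤ, 0 ≤ b → b ≤ N →
    ∑ w ∈ WW o N, nB κ hf (BR o (8 * N)) o N w b ≤ A * (b + 2) ^ 2 := by
  obtain ⟨δ, hδ0, hδ1, hdec⟩ := open_arm_decay
  obtain ⟨c1, hc1, hring⟩ := ring_q
  obtain ⟨k, hk⟩ := exists_pow_lt_of_lt_one (show (0 : ℝ) < 1 / 8 by norm_num)
    (show 1 - δ < 1 by linarith)
  have hK1 : (1 : ℤ) ≤ 4 ^ k := one_le_pow₀ (by norm_num)
  set K : ℤ := 4 ^ k with hK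
  set C0 : ℝ := (1 - δ) / (1 - (1 - δ)) with hC0
  have hC0p : 0 < C0 := by
    rw [hC0]
    apply div_pos <;> linarith
  set A : ℝ := 648 * (K : ℝ) ^ 2 * C0 / (c1 * δ) + 16 * C0 + 1 with hA
  have hKR : (1 : ℝ) ≤ (K : ℝ) := by exact_mod_cast hK1
  have hA0 : 0 < A := by
    rw [hA]
    positivity
  refine ⟨A, hA0, fun κ hκ o N hN => ?_⟩
  set E := BR o (8 * N) with hE
  have hEo : ∀ e ∈ E, (e.1 + e.2) % 2 = 1 := BR_odd
  -- the arm bound for the counts
  have hr : PrP hf E (Arm1 o (2 * N) (8 * N)) ≤ 1 - δ := by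
    rw [hf_Pr]
    have h := hdec E hEo o (2 * N) (by omega) 1
    rw [pow_one, pow_one, show (4 : ℤ) * (2 * N) = 8 * N by ring] at h
    exact h
  have hr1 : 1 - δ < 1 := by linarith
  have main : ∀ n : ℕ, ∀ b : ℤ, 0 ≤ b → b ≤ N → N - b ≤ n →
      ∑ w ∈ WW o N, nB κ hf E o N w b ≤ A * (b + 2) ^ 2 := by
    intro n
    induction n with
    | zero =>
      intro b hb0 hbN hn
      push_cast at hn
      have hbN' : b = N := by omega
      have h1 : ∑ w ∈ WW o N, nB κ hf E o N w b ≤ ∑ w ∈ WW o N, C0 :=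
        sum_le_sum fun w _ => step7 hf_Pb hr hr1
      refine h1.trans ?_
      rw [sum_const, nsmul_eq_mul, card_WW (by omega), hbN']
      have hNR : (0 : ℝ) ≤ N := by exact_mod_cast (by omega : (0 : ℤ) ≤ N)
      have h2 : (2 * (N : ℝ) + 1) ^ 2 ≤ 16 * (N + 2) ^ 2 := by
        nlinarith only [hNR, mul_nonneg hNR hNR]
      have h3 : 16 * C0 ≤ A := by
        rw [hA]
        have : 0 ≤ 648 * (K : ℝ) ^ 2 * C0 / (c1 * δ) := by positivity
        linarith
      calc (2 * (N : ℝ) + 1) ^ 2 * C0 ≤ (16 * (N + 2) ^ 2) * C0 :=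
            mul_le_mul_of_nonneg_right h2 hC0p.le
        _ = (16 * C0) * (N + 2) ^ 2 := by ring
        _ ≤ A * (N + 2) ^ 2 := mul_le_mul_of_nonneg_right h3 (by positivity)
    | succ n ih =>
      intro b hb0 hbN hn
      push_cast at hn
      have hbR : (0 : ℝ) ≤ b := by exact_mod_cast hb0
      by_cases hcase : N < 2 * b + 2
      · have h1 : ∑ w ∈ WW o N, nB κ hf E o N w b ≤ ∑ w ∈ WW o N, C0 :=
          sum_le_sum fun w _ => step7 hf_Pb hr hr1
        refine h1.trans ?_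
        rw [sum_const, nsmul_eq_mul, card_WW (by omega)]
        have hNR : (0 : ℝ) ≤ N := by exact_mod_cast (by omega : (0 : ℤ) ≤ N)
        have hNb : (N : ℝ) ≤ 2 * b + 1 := by exact_mod_cast (by omega : N ≤ 2 * b + 1)
        have h2 : (2 * (N : ℝ) + 1) ^ 2 ≤ 16 * (b + 2) ^ 2 := by
          nlinarith only [hNb, hNR, hbR]
        have h3 : 16 * C0 ≤ A := by
          rw [hA]
          have : 0 ≤ 648 * (K : ℝ) ^ 2 * C0 / (c1 * δ) := by positivity
          linarith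
        calc (2 * (N : ℝ) + 1) ^ 2 * C0 ≤ (16 * (b + 2) ^ 2) * C0 :=
              mul_le_mul_of_nonneg_right h2 hC0p.le
          _ = (16 * C0) * (b + 2) ^ 2 := by ring
          _ ≤ A * (b + 2) ^ 2 := mul_le_mul_of_nonneg_right h3 (by positivity)
      · push Not at hcase
        set b2 := 2 * b + 2 with hb2
        have ih2 := ih b2 (by omega) hcase (by omega)
        set c := K * b2 with hc
        have hbc : b2 ≤ c := by
          rw [hc]
          nlinarith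
        -- one step
        have hstep : ∀ w ∈ WW o N, nB κ hf E o N w b ≤
            nD κ hf E o N w (4 * c) / (c1 * δ) + nB κ hf E o N w b2 * (1 / 8) := by
          intro w hw
          rw [mem_WW] at hw
          have hbE : BR w b2 ⊆ E := by
            rw [hE]
            unfold BR
            rw [inR_iff] at hw
            exact Bx_sub (by omega) (by omega) (by omega) (by omega)
          refine step5 hf_Pb hκ (a := b + 1) (by omega) (by omega) (by omega) hcase hw hbc hbE hc1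
            hδ0 ?_ ?_ ?_
          · refine hring hf hf_Qh _ w (b + 1) (by omega) ?_
            rw [show 2 * (b + 1) = b2 by rw [hb2]; ring]
          · rw [hf_Pr]
            have h := hdec (E \ BR w c) (fun e he => hEo e (mem_sdiff.1 he).1) w c (by omega) 1
            rw [pow_one, pow_one] at h
            exact h
          · rw [hf_Pr]
            have h := hdec E hEo w b2 (by omega) k
            exact h.trans hk.le
        have h1 := sum_le_sum hstep
        rw [sum_add_distrib, ← sum_div, ← sum_mul] at h1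
        have h2 := step8 (κ := κ) (E := E) (o := o) (N := N) hf_Pb (m := 4 * c) (by omega) hr hr1
        refine h1.trans ?_
        have hcR : ((c : ℤ) : ℝ) = K * (2 * b + 2) := by
          rw [hc, hb2]
          push_cast
          ring
        have h3 : (2 * ((4 * c : ℤ) : ℝ) + 1) ^ 2 ≤ 324 * (K : ℝ) ^ 2 * (b + 2) ^ 2 := by
          push_cast
          rw [hcR]
          have h4 : 2 * (4 * ((K : ℝ) * (2 * b + 2))) + 1 ≤ 18 * K * (b + 2) := by
            nlinarith only [hbR, hKR]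
          have h5 : 0 ≤ 2 * (4 * ((K : ℝ) * (2 * b + 2))) + 1 := by positivity
          calc (2 * (4 * ((K : ℝ) * (2 * b + 2))) + 1) ^ 2 ≤ (18 * K * (b + 2)) ^ 2 :=
                pow_le_pow_left₀ h5 h4 2
            _ = 324 * (K : ℝ) ^ 2 * (b + 2) ^ 2 := by ring
        have h4 : (∑ w ∈ WW o N, nD κ hf E o N w (4 * c)) / (c1 * δ) ≤
            324 * (K : ℝ) ^ 2 * (b + 2) ^ 2 * C0 / (c1 * δ) := by
          refine div_le_div_of_nonneg_right (h2.trans ?_) (by positivity)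
          exact mul_le_mul_of_nonneg_right h3 hC0p.le
        have h5 : (∑ w ∈ WW o N, nB κ hf E o N w b2) * (1 / 8) ≤ A * (b + 2) ^ 2 * (1 / 2) := by
          have h6 : ((b2 : ℤ) : ℝ) + 2 = 2 * (b + 2) := by
            rw [hb2]; push_cast; ring
          rw [h6] at ih2
          nlinarith only [ih2]
        have h7 : 324 * (K : ℝ) ^ 2 * (b + 2) ^ 2 * C0 / (c1 * δ) ≤ A * (b + 2) ^ 2 * (1 / 2) := by
          have h8 : 324 * (K : ℝ) ^ 2 * (b + 2) ^ 2 * C0 / (c1 * δ) =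
              (648 * (K : ℝ) ^ 2 * C0 / (c1 * δ)) * (b + 2) ^ 2 * (1 / 2) := by
            field_simp
            ring
          rw [h8]
          have h9 : 648 * (K : ℝ) ^ 2 * C0 / (c1 * δ) ≤ A := by
            rw [hA]
            linarith
          have h10 : (0 : ℝ) ≤ (b + 2) ^ 2 := by positivity
          nlinarith only [h9, h10]
        linarith
  intro b hb0 hbN
  exact main (N - b).toNat b hb0 hbN (by omega)

/-! ### the event -/

/-- three arms: an open cluster of the half annulus crosses it and does not meet the wall -/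
def U3 (κ : ℤ) (z : ℤ × ℤ) (ρ R : ℤ) (ω : Finset (ℤ × ℤ)) : Prop :=
  ∃ u v, Near z ρ u ∧ Far z R v ∧ Co (ω ∩ AL κ z ρ R) u v ∧
    ∀ y, Co (ω ∩ AL κ z ρ R) u y → ht κ y ≠ ht κ z

variable {κ : ℤ} {ω : Finset (ℤ × ℤ)} {o w z : ℤ × ℤ} {N ρ R : ℤ}

lemma HH_inter {E : Finset (ℤ × ℤ)} {b : ℤ} : ω ∩ E ∩ HH κ E w b = ω ∩ HH κ E w b := by
  have : HH κ E w b ⊆ E := fun l hl => (mem_HH.1 hl).1
  rw [inter_assoc, inter_eq_right.2 this]

/-- from the half annulus to the hole -/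
theorem U3_Bv (hκ : κ = 0 ∨ κ = 1) (hρN : ρ ≤ N) (hN : 1 ≤ N) (hR : 9 * N ≤ R)
    (hw : inR o N w) (h : U3 κ w ρ R ω) :
    ∃ x ∈ Sph o (2 * N), Bv κ (BR o (8 * N)) o N w ρ x (ω ∩ BR o (8 * N)) := by
  obtain ⟨u, v, hu, hv, huv, hcu⟩ := h
  set a := AL κ w ρ R with ha
  set E := BR o (8 * N) with hE
  rw [inR_iff] at hw
  have hu' := hu
  unfold Near at hu'
  rw [abs_le, abs_le] at hu'
  have huo : |u.1 - o.1| < 8 * N ∧ |u.2 - o.2| < 8 * N := by
    rw [abs_lt, abs_lt]; omega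
  have hvo : 8 * N ≤ |v.1 - o.1| ∨ 8 * N ≤ |v.2 - o.2| := by
    unfold Far at hv
    rw [le_abs, le_abs] at hv ⊢
    omega
  obtain ⟨v', hv', h1⟩ := open_exit huv huo hvo
  have h2 : Co (ω ∩ a ∩ E) u v' := h1
  -- last exit from the box of radius `2N`
  obtain ⟨z, z', h3, h4, h5, h6, h7⟩ := exit_co (X := fun y => ¬ inR o (2 * N) y) h2.symm
    (by rw [inR_iff]; rw [le_abs, le_abs] at hv'; omega) (by rw [inR_iff]; omega)
  rw [not_not] at h4
  have hz' : z' ∈ Sph o (2 * N) := by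
    rw [mem_Sph, abs_le, abs_le, le_abs, le_abs]
    have := unit_cases h5.1
    rw [inR_iff] at h3 h4
    omega
  have hout : ∀ y, CoX (ω ∩ a ∩ E) (fun y => ¬ inR o (2 * N) y) v' y →
      Co (ω ∩ HH κ E w N) v' y := by
    intro y hy
    induction hy with
    | refl => exact Co.refl _ _
    | @tail p r _ hpr ih =>
      obtain ⟨g1, g2⟩ := mem_inter.1 hpr.1.2
      obtain ⟨g3, g4⟩ := mem_inter.1 g1
      refine ih.tail ⟨hpr.1.1, mem_inter.2 ⟨g3, mem_HH.2 ⟨g2, ?_, fun hl => hpr.2 ?_⟩⟩⟩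
      · have := (mem_AL.1 g4).1.2
        unfold ht; linarith
      · have := (BR_ends hpr.1.1 hl).2
        rw [inR_iff] at this ⊢
        omega
  have h8 : Co (ω ∩ HH κ E w N) v' z' := by
    obtain ⟨g1, g2⟩ := mem_inter.1 h5.2
    obtain ⟨g3, g4⟩ := mem_inter.1 g1
    refine (hout z h6).tail ⟨h5.1, mem_inter.2 ⟨g3, mem_HH.2 ⟨g2, ?_, fun hl => h3 ?_⟩⟩⟩
    · have := (mem_AL.1 g4).1.2
      unfold ht; linarith
    · have := (BR_ends h5.1 hl).1
      rw [inR_iff] at this ⊢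
      omega
  -- the first vertex on the sphere
  classical
  obtain ⟨x, hx, hmin⟩ := exists_min_image ((Sph o (2 * N)).filter
    (fun y => Co (ω ∩ HH κ E w N) z' y)) (fun y => Encodable.encode y)
    ⟨z', mem_filter.2 ⟨hz', Co.refl _ _⟩⟩
  rw [mem_filter] at hx
  have hNρ : HH κ E w N ⊆ HH κ E w ρ := HH_anti hρN
  have hxu : Co (ω ∩ HH κ E w ρ) x u := by
    have g1 : Co (ω ∩ HH κ E w ρ) x z' := (hx.2.mono (inter_subset_inter_left hNρ)).symm
    refine g1.trans ((h7.symm.trans h2.symm).mono ?_)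
    intro l hl
    obtain ⟨g1, g2⟩ := mem_inter.1 hl
    obtain ⟨g3, g4⟩ := mem_inter.1 g1
    refine mem_inter.2 ⟨g3, mem_HH.2 ⟨g2, ?_, ?_⟩⟩
    · have := (mem_AL.1 g4).1.2
      unfold ht; linarith
    · intro hl
      exact (mem_sdiff.1 g4).2 hl
  refine ⟨x, hx.1, ⟨⟨v', hv', ?_⟩, ?_⟩, ⟨u, ?_, ?_⟩, ?_⟩
  · rw [HH_inter]
    exact (hx.2.symm).trans h8.symm
  · intro y hy hxy
    rw [HH_inter] at hxy
    exact hmin y (mem_filter.2 ⟨hy, hx.2.trans hxy⟩)
  · rw [inR_iff]; omega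
  · rw [HH_inter]; exact hxu
  · intro y hy
    rw [HH_inter] at hy
    have hsub : ω ∩ HH κ E w ρ ⊆ ω ∩ a := by
      refine inter_subset_inter_left fun l hl => ?_
      obtain ⟨g1, g2, g3⟩ := mem_HH.1 hl
      rw [ha]
      unfold AL
      refine mem_sdiff.2 ⟨?_, g3⟩
      rw [hE] at g1
      unfold BR at g1
      rw [mem_Bx] at g1
      rw [mem_HL]
      unfold ht at g2
      omega
    have huy : Co (ω ∩ a) u y := (hxu.symm.trans hy).mono hsub
    have hne : u ≠ v := near_ne_far (by omega) hu hv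
    have hreg := (Co.reg hκ inter_subset_right huv hne).2 y huy
    have g1 := hcu y huy
    have g2 := hreg.1
    omega

/-! ### translation invariance -/

lemma AL_shift (t : ℤ × ℤ) (e : ℤ × ℤ) : e ∈ AL κ (z + t) ρ R ↔ (syT t).G' e ∈ AL κ z ρ R := by
  rw [mem_AL, mem_AL]
  simp only [syT, Prod.fst_add, Prod.snd_add]
  have h1 : 2 * (z.2 + t.2 + κ * (z.1 + t.1)) ≤ e.2 + κ * e.1 ↔
      2 * (z.2 + κ * z.1) ≤ e.2 - 2 * t.2 + κ * (e.1 - 2 * t.1) := by
    constructor <;> intro h <;> linarith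
  rw [h1]
  have h2 : (e.1 + e.2) % 2 = 1 ↔ (e.1 - 2 * t.1 + (e.2 - 2 * t.2)) % 2 = 1 := by omega
  rw [h2]
  constructor
  · rintro ⟨⟨h3, h4⟩, h5⟩
    exact ⟨⟨by omega, h4⟩, by omega⟩
  · rintro ⟨⟨h3, h4⟩, h5⟩
    exact ⟨⟨by omega, h4⟩, by omega⟩

lemma ht_add (u t : ℤ × ℤ) : ht κ (u + t) = ht κ u + ht κ t := by
  unfold ht
  simp only [Prod.fst_add, Prod.snd_add]
  ring

lemma U3_shift (t : ℤ × ℤ) : U3 κ (z + t) ρ R (ω.map (syT t).G) ↔ U3 κ z ρ R ω := by
  unfold U3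
  rw [(syT t).map_inter ω (AL_shift t)]
  have hg : ∀ u, (syT t).g u = u + t := fun u => rfl
  have hN : ∀ u, Near (z + t) ρ (u + t) ↔ Near z ρ u := fun u => by
    unfold Near
    simp only [Prod.fst_add, Prod.snd_add, add_sub_add_right_eq_sub]
  have hF : ∀ u, Far (z + t) R (u + t) ↔ Far z R u := fun u => by
    unfold Far
    simp only [Prod.fst_add, Prod.snd_add, add_sub_add_right_eq_sub]
  constructor
  · rintro ⟨u, v, h1, h2, h3, h4⟩
    refine ⟨u - t, v - t, ?_, ?_, ?_, ?_⟩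
    · rw [← hN, sub_add_cancel]; exact h1
    · rw [← hF, sub_add_cancel]; exact h2
    · rw [← (syT t).co_iff, hg, hg, sub_add_cancel, sub_add_cancel]; exact h3
    · intro y hy
      rw [← (syT t).co_iff, hg, hg, sub_add_cancel] at hy
      have := h4 _ hy
      rw [ht_add, ht_add] at this
      intro h5
      exact this (by rw [h5])
  · rintro ⟨u, v, h1, h2, h3, h4⟩
    refine ⟨u + t, v + t, (hN u).2 h1, (hF v).2 h2, ?_, ?_⟩
    · rw [← hg, ← hg, (syT t).co_iff]; exact h3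
    · intro y hy
      have h5 : Co (ω ∩ AL κ z ρ R) u (y - t) := by
        rw [← (syT t).co_iff, hg, hg, sub_add_cancel]; exact hy
      have h6 := h4 _ h5
      have h7 := ht_add (κ := κ) (y - t) t
      rw [sub_add_cancel] at h7
      rw [ht_add, h7]
      omega

/-- the probability of three arms -/
noncomputable def u3 (κ : ℤ) (z : ℤ × ℤ) (ρ R : ℤ) : ℝ := Pr (AL κ z ρ R) (U3 κ z ρ R)

lemma U3_local {ω : Finset (ℤ × ℤ)} : U3 κ z ρ R ω ↔ U3 κ z ρ R (ω ∩ AL κ z ρ R) := by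
  unfold U3
  rw [inter_assoc, inter_self]

lemma Pr_U3 {E : Finset (ℤ × ℤ)} (hE : AL κ z ρ R ⊆ E) : Pr E (U3 κ z ρ R) = u3 κ z ρ R := by
  unfold u3
  rw [← Pr_restrict hE]
  exact Pr_congr fun ω _ => U3_local

lemma u3_shift (t : ℤ × ℤ) : u3 κ (z + t) ρ R = u3 κ z ρ R := by
  unfold u3
  rw [← hf_Pr, ← hf_Pr]
  have h := Sy_PrP (syT t) (1 / 2) (E1 := AL κ z ρ R) (E2 := AL κ (z + t) ρ R)
    (fun e => AL_shift t e) (U3 κ (z + t) ρ R)
  refine h.trans ?_
  exact PrP_congr fun ω _ => U3_shift t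

lemma u3_eq (z z' : ℤ × ℤ) : u3 κ z ρ R = u3 κ z' ρ R := by
  have h := u3_shift (κ := κ) (z := z) (ρ := ρ) (R := R) (z' - z)
  rw [← h]
  congr 1
  ring

lemma u3_nonneg : 0 ≤ u3 κ z ρ R := Pr_nonneg _ _

lemma u3_le_one : u3 κ z ρ R ≤ 1 := Pr_le_one _ _

/-- **three arms at a flat wall, annulus form, sharp upper bound** -/
theorem u3_le : ∃ C : ℝ, 0 < C ∧ ∀ κ : ℤ, (κ = 0 ∨ κ = 1) → ∀ (z : ℤ × ℤ) (ρ R : ℤ), 1 ≤ ρ →
    1 ≤ R → u3 κ z ρ R ≤ C * (ρ / R) ^ 2 := by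
  obtain ⟨A, hA, h⟩ := rec_bound
  refine ⟨(9 * A + 1) * 324, by positivity, fun κ hκ z ρ R hρ hR1 => ?_⟩
  have hρR : (1 : ℝ) ≤ ρ := by exact_mod_cast hρ
  have hRR : (1 : ℝ) ≤ R := by exact_mod_cast hR1
  set N := R / 9 with hN
  by_cases hcase : ρ ≤ N
  · have hN1 : 1 ≤ N := by omega
    have h9 : 9 * N ≤ R := by omega
    have hNR : (R : ℝ) ≤ 18 * N := by
      have : R ≤ 18 * N := by omega
      exact_mod_cast this
    have hN0 : (0 : ℝ) < N := by exact_mod_cast (by omega : (0 : ℤ) < N)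
    set E := BR z (8 * N) with hE
    have h1 : ∀ w ∈ WW z N, u3 κ z ρ R ≤ nB κ hf E z N w ρ := by
      intro w hw
      rw [mem_WW] at hw
      rw [u3_eq z w]
      have h2 : Pr (AL κ w ρ R ∪ E) (U3 κ w ρ R) = u3 κ w ρ R := Pr_U3 subset_union_left
      rw [← h2, ← hf_Pr]
      refine le_trans (PrP_mono hf_Pb fun ω _ h3 => U3_Bv hκ hcase hN1 h9 hw h3) ?_
      refine (PrP_exists_le hf_Pb _ _ _).trans ?_
      unfold nB
      refine sum_le_sum fun x _ => ?_
      exact (PrP_restrict hf (E := AL κ w ρ R ∪ E) (E1 := E) subset_union_right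
        (Bv κ E z N w ρ x)).le
    have h2 := (sum_le_sum h1).trans (h κ hκ z N hN1 ρ (by omega) hcase)
    rw [sum_const, nsmul_eq_mul, card_WW (by omega)] at h2
    have h3 : A * ((ρ : ℝ) + 2) ^ 2 ≤ A * (9 * ρ ^ 2) :=
      mul_le_mul_of_nonneg_left (by nlinarith) hA.le
    have h4 : (N : ℝ) ^ 2 * u3 κ z ρ R ≤ 9 * A * ρ ^ 2 := by
      have h5 : (N : ℝ) ^ 2 * u3 κ z ρ R ≤ (2 * N + 1) ^ 2 * u3 κ z ρ R :=
        mul_le_mul_of_nonneg_right (by nlinarith) u3_nonneg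
      linarith
    have h5 : u3 κ z ρ R ≤ 9 * A * ρ ^ 2 / N ^ 2 := by
      rw [le_div_iff₀ (by positivity)]
      linarith
    refine h5.trans ?_
    rw [div_pow, mul_div_assoc']
    rw [div_le_div_iff₀ (by positivity) (by positivity)]
    have h6 : (R : ℝ) ^ 2 ≤ 324 * N ^ 2 := by nlinarith
    have h7 : (0 : ℝ) ≤ 9 * A * ρ ^ 2 := by positivity
    nlinarith [mul_le_mul_of_nonneg_left h6 h7, sq_nonneg ((ρ : ℝ) * N)]
  · push Not at hcase
    have hR : (R : ℝ) ≤ 18 * ρ := by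
      have : R ≤ 18 * ρ := by omega
      exact_mod_cast this
    refine u3_le_one.trans ?_
    rw [div_pow, mul_div_assoc', le_div_iff₀ (by positivity)]
    nlinarith [sq_nonneg (ρ : ℝ), mul_nonneg hA.le (sq_nonneg (ρ : ℝ))]

end Pool.Agent.H20.Q1
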