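import Mathlib
import Pool.Agent.H20.Q1.MxGlue
import Pool.Agent.H20.Q1.Sharp
import Pool.Agent.H60.Q1.RingH

set_option autoImplicit false
open Finset

/-!
# Gluing at a flat natural wall: probability

`fr` : frozen open labels, `ω ⊆ 𝒜` : fresh labels. `WU` : the fresh labels which touch a cluster of
the wall.
-/

namespace Pool.Agent.H20.Q1

open Pool.Agent.H75.Perc Pool.Agent.H75.TwoArm Pool.Agent.H75.Four Pool.Agent.H49.Perc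
open Pool.Agent.H99.NC Pool.Agent.H60.Q1

open Classical in
/-- fresh labels which touch a cluster of the wall -/
noncomputable def WU (Wv : ℤ × ℤ → Prop) (fr 𝒜 ω : Finset (ℤ × ℤ)) : Finset (ℤ × ℤ) :=
  𝒜.filter (fun l => WC Wv (fr ∪ ω) (eu l) ∨ WC Wv (fr ∪ ω) (ev l))

variable {κ : ℤ} {Wv : ℤ × ℤ → Prop} {η θ ω ω' fr 𝒜 : Finset (ℤ × ℤ)} {w x c0 : ℤ × ℤ}
  {a b m1 m2 ρ R M : ℤ}

lemma mem_WU {u v : ℤ × ℤ} (h : IsUnit4 (v - u)) : u + v ∈ WU Wv fr 𝒜 ω ↔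
    u + v ∈ 𝒜 ∧ (WC Wv (fr ∪ ω) u ∨ WC Wv (fr ∪ ω) v) := by
  classical
  unfold WU
  rw [mem_filter]
  rcases ends_of h with ⟨h1, h2⟩ | ⟨h1, h2⟩ <;> rw [h1, h2]
  tauto

lemma WU_sub : WU Wv fr 𝒜 ω ⊆ 𝒜 := by
  classical
  unfold WU
  exact filter_subset _ _

lemma WU_mono (h : ω ⊆ ω') : WU Wv fr 𝒜 ω ⊆ WU Wv fr 𝒜 ω' := by
  classical
  intro l hl
  unfold WU at hl ⊢
  rw [mem_filter] at hl ⊢
  refine ⟨hl.1, ?_⟩
  rcases hl.2 with h1 | h1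
  · exact Or.inl (h1.mono (union_subset_union_right h))
  · exact Or.inr (h1.mono (union_subset_union_right h))

/-- paths in the clusters of the wall are the same after resampling -/
lemma co_mix_WC {L : Finset (ℤ × ℤ)} (hω : ω ⊆ 𝒜) (hω' : ω' ⊆ 𝒜) {u v : ℤ × ℤ}
    (hu : WC Wv (fr ∪ ω) u)
    (h : Co ((fr ∪ mix (WU Wv fr 𝒜 ω) ω ω') ∩ L) u v) : Co ((fr ∪ ω) ∩ L) u v := by
  induction h with
  | refl => exact Co.refl _ _
  | @tail y z _ hyz ih =>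
    obtain ⟨h1, h2⟩ := mem_inter.1 hyz.2
    have hy : WC Wv (fr ∪ ω) y := hu.trans (ih.mono inter_subset_left)
    refine ih.tail ⟨hyz.1, mem_inter.2 ⟨?_, h2⟩⟩
    rcases mem_union.1 h1 with h3 | h3
    · exact mem_union_left _ h3
    · rw [mem_mix] at h3
      have hA : y + z ∈ 𝒜 := by
        rcases h3 with h3 | h3
        · exact hω h3.1
        · exact hω' h3.1
      have hU : y + z ∈ WU Wv fr 𝒜 ω := (mem_WU hyz.1).2 ⟨hA, Or.inl hy⟩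
      exact mem_union_right _ (by tauto)

lemma co_mix_WC' {L : Finset (ℤ × ℤ)} (hω : ω ⊆ 𝒜) {u v : ℤ × ℤ}
    (hu : WC Wv (fr ∪ ω) u) (h : Co ((fr ∪ ω) ∩ L) u v) :
    Co ((fr ∪ mix (WU Wv fr 𝒜 ω) ω ω') ∩ L) u v := by
  induction h with
  | refl => exact Co.refl _ _
  | @tail y z hy hyz ih =>
    obtain ⟨h1, h2⟩ := mem_inter.1 hyz.2
    have hy : WC Wv (fr ∪ ω) y := hu.trans (Co.mono inter_subset_left hy)
    refine ih.tail ⟨hyz.1, mem_inter.2 ⟨?_, h2⟩⟩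
    rcases mem_union.1 h1 with h3 | h3
    · exact mem_union_left _ h3
    · refine mem_union_right _ (mem_mix.2 (Or.inl ⟨h3, ?_⟩))
      exact (mem_WU hyz.1).2 ⟨hω h3, Or.inl hy⟩

lemma WC_mix (hω : ω ⊆ 𝒜) (hω' : ω' ⊆ 𝒜) {v : ℤ × ℤ} :
    WC Wv (fr ∪ mix (WU Wv fr 𝒜 ω) ω ω') v ↔ WC Wv (fr ∪ ω) v := by
  constructor
  · rintro ⟨v0, h1, h2⟩
    refine ⟨v0, h1, ?_⟩
    have h3 := co_mix_WC (L := fr ∪ mix (WU Wv fr 𝒜 ω) ω ω') hω hω'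
      (show WC Wv (fr ∪ ω) v0 from ⟨v0, h1, Co.refl _ _⟩) (by rwa [inter_self])
    exact h3.mono inter_subset_left
  · rintro ⟨v0, h1, h2⟩
    refine ⟨v0, h1, ?_⟩
    have h3 := co_mix_WC' (ω' := ω') (L := fr ∪ ω) hω
      (show WC Wv (fr ∪ ω) v0 from ⟨v0, h1, Co.refl _ _⟩) (by rwa [inter_self])
    exact h3.mono inter_subset_left

lemma WU_mix (hω : ω ⊆ 𝒜) (hω' : ω' ⊆ 𝒜) :
    WU Wv fr 𝒜 (mix (WU Wv fr 𝒜 ω) ω ω') = WU Wv fr 𝒜 ω := by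
  classical
  unfold WU
  refine filter_congr fun l _ => ?_
  have := fun v => WC_mix (Wv := Wv) (fr := fr) (v := v) hω hω'
  unfold WU at this
  rw [this, this]

/-- off the clusters of the wall the connections are by fresh labels -/
lemma co_mix_fresh (hω : ω ⊆ 𝒜) (hω' : ω' ⊆ 𝒜) {u v : ℤ × ℤ} (hu : ¬ WC Wv (fr ∪ ω) u) :
    Co (fr ∪ mix (WU Wv fr 𝒜 ω) ω ω') u v ↔ Co (fr ∪ (ω' \ WU Wv fr 𝒜 ω)) u v := by
  constructor
  · intro h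
    induction h with
    | refl => exact Co.refl _ _
    | @tail y z hy hyz ih =>
      refine ih.tail ⟨hyz.1, ?_⟩
      rcases mem_union.1 hyz.2 with h3 | h3
      · exact mem_union_left _ h3
      · have hWy : ¬ WC Wv (fr ∪ ω) y := fun h => hu
          ((WC_mix hω hω').1 (((WC_mix hω hω').2 h).trans (Co.symm hy)))
        have hWz : ¬ WC Wv (fr ∪ ω) z := fun h => hu
          ((WC_mix hω hω').1 (((WC_mix hω hω').2 h).trans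
            (Co.symm (Relation.ReflTransGen.tail hy hyz))))
        have hU : y + z ∉ WU Wv fr 𝒜 ω := by
          rw [mem_WU hyz.1]
          tauto
        rw [mem_mix] at h3
        exact mem_union_right _ (mem_sdiff.2 ⟨by tauto, hU⟩)
  · intro h
    refine h.mono (union_subset_union_right fun l hl => ?_)
    obtain ⟨h1, h2⟩ := mem_sdiff.1 hl
    exact mem_mix.2 (Or.inr ⟨h1, h2⟩)

/-- the cluster of `y` is not joined to the wall and contains a vertex of `T` -/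
def JJ (Wv : ℤ × ℤ → Prop) (fr : Finset (ℤ × ℤ)) (y : ℤ × ℤ) (T : ℤ × ℤ → Prop)
    (ω : Finset (ℤ × ℤ)) : Prop :=
  ¬ WC Wv (fr ∪ ω) y ∧ ∃ u, T u ∧ Co (fr ∪ ω) y u

/-- the clusters of the wall do not cross the annulus -/
def QQ (κ : ℤ) (w : ℤ × ℤ) (ρ R : ℤ) (Wv : ℤ × ℤ → Prop) (fr : Finset (ℤ × ℤ))
    (ω : Finset (ℤ × ℤ)) : Prop :=
  ¬ ∃ u v, WC Wv (fr ∪ ω) u ∧ Near w ρ u ∧ Far w R v ∧ Co ((fr ∪ ω) ∩ AL κ w ρ R) u v

lemma JJ_mix {y : ℤ × ℤ} {T : ℤ × ℤ → Prop} (hω : ω ⊆ 𝒜) (hω' : ω' ⊆ 𝒜) :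
    JJ Wv fr y T (mix (WU Wv fr 𝒜 ω) ω ω') ↔
      (¬ WC Wv (fr ∪ ω) y ∧ ∃ u, T u ∧ Co (fr ∪ (ω' \ WU Wv fr 𝒜 ω)) y u) := by
  unfold JJ
  rw [WC_mix hω hω']
  constructor
  · rintro ⟨h1, u, h2, h3⟩
    exact ⟨h1, u, h2, (co_mix_fresh hω hω' h1).1 h3⟩
  · rintro ⟨h1, u, h2, h3⟩
    exact ⟨h1, u, h2, (co_mix_fresh hω hω' h1).2 h3⟩

lemma QQ_mix (hω : ω ⊆ 𝒜) (hω' : ω' ⊆ 𝒜) :
    QQ κ w ρ R Wv fr (mix (WU Wv fr 𝒜 ω) ω ω') ↔ QQ κ w ρ R Wv fr ω := by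
  unfold QQ
  rw [not_iff_not]
  constructor
  · rintro ⟨u, v, h1, h2, h3, h4⟩
    rw [WC_mix hω hω'] at h1
    exact ⟨u, v, h1, h2, h3, co_mix_WC hω hω' h1 h4⟩
  · rintro ⟨u, v, h1, h2, h3, h4⟩
    exact ⟨u, v, (WC_mix hω hω').2 h1, h2, h3, co_mix_WC' hω h1 h4⟩

lemma QQ_dec (h : ω ⊆ ω') (hQ : QQ κ w ρ R Wv fr ω') : QQ κ w ρ R Wv fr ω := by
  rintro ⟨u, v, h1, h2, h3, h4⟩
  exact hQ ⟨u, v, h1.mono (union_subset_union_right h), h2, h3,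
    h4.mono (inter_subset_inter_right (union_subset_union_right h))⟩

/-- probability that the clusters of the wall do not cross -/
lemma QQ_ge : ∃ δ : ℝ, 0 < δ ∧ ∀ (κ : ℤ) (w : ℤ × ℤ) (ρ : ℤ) (Wv : ℤ × ℤ → Prop)
    (fr 𝒜 : Finset (ℤ × ℤ)), 1 ≤ ρ → (∀ e ∈ 𝒜, (e.1 + e.2) % 2 = 1) →
    Disjoint fr (AL κ w ρ (4 * ρ)) →
    ∃ A : Finset (ℤ × ℤ) → Prop, Inc A ∧ (∀ ω, ¬ A ω → QQ κ w ρ (4 * ρ) Wv fr ω) ∧
      δ ≤ PrP hf 𝒜 (fun ω => ¬ A ω) := by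
  obtain ⟨δ, h0, h1, hdec⟩ := open_arm_decay
  refine ⟨δ, h0, fun κ w ρ Wv fr 𝒜 hρ hodd hfr => ⟨Arm1 w ρ (4 * ρ), Arm1_inc _ _ _, ?_, ?_⟩⟩
  · rintro ω hA ⟨u, v, -, h3, h4, h5⟩
    apply hA
    refine ⟨u, v, h3.1, h3.2, h4, h5.mono ?_⟩
    intro l hl
    obtain ⟨h6, h7⟩ := mem_inter.1 hl
    rcases mem_union.1 h6 with h8 | h8
    · exact absurd h7 (disjoint_left.1 hfr h8)
    · exact h8
  · rw [PrP_not, hf_Pr]
    have h := hdec 𝒜 hodd w ρ hρ 1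
    rw [pow_one, pow_one] at h
    have h' : Pr 𝒜 (Arm1 w ρ (4 * ρ)) ≤ 1 - δ := h
    linarith

/-- **gluing, probability**: two clusters which are not joined to the wall are the same one with
positive conditional probability -/
theorem glue_prob : ∃ c : ℝ, 0 < c ∧ ∀ (κ : ℤ), (κ = 0 ∨ κ = 1) → ∀ (w : ℤ × ℤ) (a : ℤ)
    (Wv : ℤ × ℤ → Prop) (fr 𝒜 : Finset (ℤ × ℤ)) (x c0 : ℤ × ℤ), 1 ≤ a →
    (∀ e ∈ 𝒜, (e.1 + e.2) % 2 = 1) → Disjoint fr 𝒜 → AL κ w a (60 * a) ⊆ 𝒜 →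
    Flat κ w (60 * a) Wv → Abv κ w (60 * a) fr → Abv κ w (60 * a) 𝒜 →
    Far w (60 * a) x → inR w a c0 →
    c * (PrP hf 𝒜 (JJ Wv fr x (fun u => inR w a u)) * PrP hf 𝒜 (JJ Wv fr c0 (fun v => Far w (60 * a) v)))
      ≤ PrP hf 𝒜 (fun ω => ¬ WC Wv (fr ∪ ω) x ∧ Co (fr ∪ ω) x c0) := by
  classical
  obtain ⟨c, hc, hRO⟩ := RO_prob
  obtain ⟨δ, hδ, hQQ⟩ := QQ_ge
  refine ⟨c * δ ^ 2, by positivity, ?_⟩
  intro κ hκ w a Wv fr 𝒜 x c0 ha hodd hdis hsub hflat habf habA hx hc0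
  have hsub1 : AL κ w a (4 * a) ⊆ 𝒜 := fun l hl => hsub (by
    rw [mem_AL'] at hl ⊢
    exact ⟨BR_mono (by omega) hl.1, hl.2⟩)
  have hsub2 : AL κ w (15 * a) (4 * (15 * a)) ⊆ 𝒜 := fun l hl => hsub (by
    rw [mem_AL'] at hl ⊢
    exact ⟨BR_mono (by omega) hl.1, fun h => hl.2.1 (BR_mono (by omega) h), hl.2.2⟩)
  have hsub3 : AL κ w (4 * a) (15 * a) ⊆ 𝒜 := fun l hl => hsub (by
    rw [mem_AL'] at hl ⊢
    exact ⟨BR_mono (by omega) hl.1, fun h => hl.2.1 (BR_mono (by omega) h), hl.2.2⟩)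
  obtain ⟨A1, iA1, hA1, pA1⟩ := hQQ κ w a Wv fr 𝒜 ha hodd
    (disjoint_of_subset_right hsub1 hdis)
  obtain ⟨A2, iA2, hA2, pA2⟩ := hQQ κ w (15 * a) Wv fr 𝒜 (by omega) hodd
    (disjoint_of_subset_right hsub2 hdis)
  have hQ : δ ^ 2 ≤ PrP hf 𝒜 (fun ω => QQ κ w a (4 * a) Wv fr ω ∧ QQ κ w (15 * a) (4 * (15 * a)) Wv fr ω) := by
    have h1 := PrP_all_ge hf_Pb 𝒜 (Finset.univ : Finset (Fin 2))
      (fun i => if i = 0 then A1 else A2) (fun i _ => by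
        by_cases hi : i = 0
        · simpa [hi] using iA1
        · simpa [hi] using iA2) hδ.le (fun i _ => by
        by_cases hi : i = 0
        · simpa [hi] using pA1
        · simpa [hi] using pA2)
    rw [Finset.card_univ, Fintype.card_fin] at h1
    refine h1.trans (PrP_mono hf_Pb fun ω _ h => ?_)
    have e1 := h 0 (Finset.mem_univ _)
    have e2 := h 1 (Finset.mem_univ _)
    simp only [if_true] at e1
    simp only [one_ne_zero, if_false] at e2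
    exact ⟨hA1 ω e1, hA2 ω e2⟩
  have main := nt_harris hf_Pb 𝒜 (WU Wv fr 𝒜) (fun ω ω' h h' => WU_mix h h')
    (JJ Wv fr x (fun u => inR w a u)) (JJ Wv fr c0 (fun v => Far w (60 * a) v))
    (fun ω => QQ κ w a (4 * a) Wv fr ω ∧ QQ κ w (15 * a) (4 * (15 * a)) Wv fr ω)
    (fun ω => RO κ w (4 * a) (15 * a) (3 * (5 * a)) ((fr ∪ ω) ∪ WU Wv fr 𝒜 ω))
    (fun ω ω' => ¬ WC Wv (fr ∪ ω) x ∧ ∃ u, inR w a u ∧ Co (fr ∪ (ω' \ WU Wv fr 𝒜 ω)) x u)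
    (fun ω ω' => ¬ WC Wv (fr ∪ ω) c0 ∧ ∃ u, Far w (60 * a) u ∧
      Co (fr ∪ (ω' \ WU Wv fr 𝒜 ω)) c0 u)
    (fun ω ω' => RO κ w (4 * a) (15 * a) (3 * (5 * a)) (fr ∪ ω' ∪ WU Wv fr 𝒜 ω))
    (fun ω ω' h h' => JJ_mix h h') (fun ω ω' h h' => JJ_mix h h')
    (fun ω ω' h h' => by simp only [QQ_mix h h'])
    (fun ω ω' h h' => by
      simp only [WU_mix h h']
      have : (fr ∪ mix (WU Wv fr 𝒜 ω) ω ω') ∪ WU Wv fr 𝒜 ω = fr ∪ ω' ∪ WU Wv fr 𝒜 ω := by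
        ext l
        simp only [mem_union, mem_mix]
        tauto
      rw [this])
    (fun ω ω1 ω2 h h' => ⟨h'.1, by
      obtain ⟨-, u, h1, h2⟩ := h'
      exact ⟨u, h1, h2.mono (union_subset_union_right (sdiff_subset_sdiff h (Subset.refl _)))⟩⟩)
    (fun ω ω1 ω2 h h' => ⟨h'.1, by
      obtain ⟨-, u, h1, h2⟩ := h'
      exact ⟨u, h1, h2.mono (union_subset_union_right (sdiff_subset_sdiff h (Subset.refl _)))⟩⟩)
    (fun ω ω1 ω2 h h' => RO_inc _ _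
      (union_subset_union_left (union_subset_union_right h)) h')
    (fun ω1 ω2 ω' h h' => ⟨fun h1 => h'.1 (h1.mono (union_subset_union_right h)), by
      obtain ⟨-, u, h1, h2⟩ := h'
      exact ⟨u, h1, h2.mono (union_subset_union_right (sdiff_subset_sdiff (Subset.refl _)
        (WU_mono h)))⟩⟩)
    (fun ω1 ω2 ω' h h' => ⟨fun h1 => h'.1 (h1.mono (union_subset_union_right h)), by
      obtain ⟨-, u, h1, h2⟩ := h'
      exact ⟨u, h1, h2.mono (union_subset_union_right (sdiff_subset_sdiff (Subset.refl _)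
        (WU_mono h)))⟩⟩)
    (fun ω1 ω2 h h' => ⟨QQ_dec h h'.1, QQ_dec h h'.2⟩) hc.le
    (fun ω hω => (hRO hf hf_Qh κ hκ w (4 * a) (15 * a) (5 * a) 𝒜 (by omega) (by omega) (by omega)
      hsub3).trans (PrP_mono hf_Pb fun ω' _ h => RO_inc _ _
        (subset_union_right.trans subset_union_left) h))
  have h2 : PrP hf 𝒜 (fun ω => JJ Wv fr x (fun u => inR w a u) ω ∧
      JJ Wv fr c0 (fun v => Far w (60 * a) v) ω ∧
      (QQ κ w a (4 * a) Wv fr ω ∧ QQ κ w (15 * a) (4 * (15 * a)) Wv fr ω) ∧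
      RO κ w (4 * a) (15 * a) (3 * (5 * a)) ((fr ∪ ω) ∪ WU Wv fr 𝒜 ω)) ≤
      PrP hf 𝒜 (fun ω => ¬ WC Wv (fr ∪ ω) x ∧ Co (fr ∪ ω) x c0) := by
    refine PrP_mono hf_Pb fun ω hω h => ⟨h.1.1, ?_⟩
    obtain ⟨⟨h1, h2⟩, ⟨h3, h4⟩, ⟨h5, h6⟩, h7⟩ := h
    have habv : Abv κ w (60 * a) (fr ∪ ω) := by
      intro l hl hl'
      rcases mem_union.1 hl with h8 | h8
      · exact habf l h8 hl'
      · exact habA l (hω h8) hl'
    have h6' : ¬ ∃ u v, WC Wv (fr ∪ ω) u ∧ Near w (15 * a) u ∧ Far w (60 * a) v ∧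
        Co ((fr ∪ ω) ∩ AL κ w (15 * a) (60 * a)) u v := by
      have : 4 * (15 * a) = 60 * a := by ring
      unfold QQ at h6
      rwa [this] at h6
    exact glue_det hκ ha (by omega) (by omega) hflat habv h1 h2 hx h3 h4 hc0 h5 h6'
      (fun u v huv hU => ((mem_WU huv).1 hU).2) h7
  refine le_trans ?_ (main.trans h2)
  have h3 : 0 ≤ PrP hf 𝒜 (JJ Wv fr x (fun u => inR w a u)) *
      PrP hf 𝒜 (JJ Wv fr c0 (fun v => Far w (60 * a) v)) :=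
    mul_nonneg (PrP_nonneg hf_Pb _ _) (PrP_nonneg hf_Pb _ _)
  have h4 := mul_le_mul_of_nonneg_left hQ h3
  nlinarith [mul_le_mul_of_nonneg_left h4 hc.le]

end Pool.Agent.H20.Q1
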