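import Mathlib
import Pool.Agent.H20.Q1.MxProb

set_option autoImplicit false
open Finset

/-!
# Sealing a cluster off the wall

`KG` : the cluster of `y` in the explored labels `L` does not meet the wall, reaches `T` and avoids the
two corners of the sphere of radius `M`. `seal_prob` : then, with positive conditional probability, the
full cluster of `y` does not meet the wall.
-/

namespace Pool.Agent.H20.Q1

open Pool.Agent.H75.Perc Pool.Agent.H75.TwoArm Pool.Agent.H75.Four Pool.Agent.H49.Perc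
open Pool.Agent.H99.NC Pool.Agent.H60.Q1

variable {κ : ℤ} {Wv : ℤ × ℤ → Prop} {η θ ω ω' fr 𝒜 L : Finset (ℤ × ℤ)} {w x y c0 : ℤ × ℤ}
  {a b m1 m2 ρ R M h : ℤ}

lemma fr_mix {U : Finset (ℤ × ℤ)} : fr ∪ mix U ω ω' = mix U (fr ∪ ω) (fr ∪ ω') := by
  ext l
  simp only [mem_union, mem_mix]
  tauto

/-- good explored cluster -/
def KG (κ : ℤ) (w : ℤ × ℤ) (M h : ℤ) (Wv : ℤ × ℤ → Prop) (fr L : Finset (ℤ × ℤ)) (y : ℤ × ℤ)
    (T : ℤ × ℤ → Prop) (ω : Finset (ℤ × ℤ)) : Prop :=
  (∀ v, Co ((fr ∪ ω) ∩ L) y v → ¬ Wv v) ∧ (∃ u, T u ∧ Co ((fr ∪ ω) ∩ L) y u) ∧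
  ∀ v, Co ((fr ∪ ω) ∩ L) y v → inR w M v → Far w M v →
    ¬ Near (wp κ w M) (10 * h) v ∧ ¬ Near (wp κ w (-M)) (10 * h) v

/-- a path which crosses an annulus, arm form -/
lemma arm_of {o u v : ℤ × ℤ} (hh : Co (fr ∪ ω) u v) (hu : inR o ρ u) (hv : Far o R v) (hρR : ρ < R)
    (hfr : ∀ l ∈ fr, l ∈ BR o R → l ∈ BR o ρ) : Arm1 o ρ R ω := by
  have hu' := hu
  rw [inR_iff] at hu'
  have hus : |u.1 - o.1| < R ∧ |u.2 - o.2| < R := by rw [abs_lt, abs_lt]; omega
  obtain ⟨v', h1, h2⟩ := open_exit hh hus hv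
  have hv' : ¬ inR o ρ v' := by
    rw [inR_iff]
    rw [le_abs, le_abs] at h1
    omega
  obtain ⟨u', h3, h4⟩ := last_exit h2 hu hv'
  have h5 := near_iff.2 h3
  refine ⟨u', v', h5.1, h5.2, h1, h4.mono ?_⟩
  intro l hl
  obtain ⟨h6, h7⟩ := mem_sdiff.1 hl
  obtain ⟨h8, h9⟩ := mem_inter.1 h6
  rcases mem_union.1 h8 with h10 | h10
  · exact absurd (hfr l h10 h9) h7
  · exact h10

lemma above_ends (hκ : κ = 0 ∨ κ = 1) {u v : ℤ × ℤ} (huv : IsUnit4 (v - u))
    (hl : 2 * ht κ w ≤ ht κ (u + v)) : ht κ w ≤ ht κ u ∧ ht κ w ≤ ht κ v := by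
  have := ht_step hκ huv
  omega

/-- **sealing, deterministic part** -/
theorem seal_det (hκ : κ = 0 ∨ κ = 1) (hh : 1 ≤ h) (hM : 32 * h ≤ M)
    (hflat : Flat κ w (8 * M + 5 * h) Wv)
    (hfr : ∀ l ∈ fr, l ∈ BR w (8 * M + 5 * h) → l ∈ BR w h ∧ 2 * ht κ w ≤ ht κ l)
    (hω' : Abv κ w (8 * M + 5 * h) ω')
    {e v0 : ℤ × ℤ} (he1 : inR w M e) (he2 : Far w M e) (he3 : ht κ w ≤ ht κ e)
    (he4 : ¬ Near (wp κ w M) (10 * h) e ∧ ¬ Near (wp κ w (-M)) (10 * h) e)
    (hp : Co (fr ∪ ω') e v0) (hv0 : Wv v0)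
    (hS1 : ¬ Arm1 w (2 * M) (8 * M) ω') (hS2 : ¬ Arm1 w (8 * h) (32 * h) ω')
    (hS3 : ∀ k : ℤ, |k| * h ≤ 8 * M + h → ¬ Arm1 (wp κ w (k * h)) h (4 * h) ω') : False := by
  have hfr' : ∀ l ∈ fr, l ∈ BR w (8 * M) → l ∈ BR w (2 * M) := fun l hl hl' =>
    BR_mono (by omega) (hfr l hl (BR_mono (by omega) hl')).1
  have hin : ∀ q, Co (fr ∪ ω') e q → inR w (8 * M - 1) q := by
    intro q hq
    by_contra hq'
    refine hS1 (arm_of hq ?_ ?_ (by omega) hfr')
    · rw [inR_iff] at he1 ⊢; omega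
    · exact far_iff.2 hq'
  have habove : ∀ q, Co (fr ∪ ω') e q → ht κ w ≤ ht κ q := by
    intro q hq
    induction hq with
    | refl => exact he3
    | @tail y z hy hyz ih =>
      have h1 := hin y hy
      have h2 := hin z (hy.tail hyz)
      have h3 : y + z ∈ BR w (8 * M + 5 * h) :=
        BR_mono (by omega) (BR_of_ends hyz.1 h1 h2)
      have h4 : 2 * ht κ w ≤ ht κ (y + z) := by
        rcases mem_union.1 hyz.2 with h5 | h5
        · exact (hfr _ h5 h3).2
        · exact hω' _ h5 h3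
      exact (above_ends hκ hyz.1 h4).2
  have hv1 := hin v0 hp
  have hv2 := habove v0 hp
  have hv3 : ht κ v0 = ht κ w := (hflat v0 (by rw [inR_iff] at hv1 ⊢; omega) hv2).1 hv0
  set t := v0.1 - w.1 with ht'
  have hv4 : v0.1 = w.1 + t ∧ v0.2 = w.2 - κ * t := by
    unfold ht at hv3
    refine ⟨by omega, ?_⟩
    rcases hκ with rfl | rfl <;> omega
  clear_value t
  by_cases hcase : |t| ≤ 8 * h
  · refine hS2 (arm_of hp.symm (o := w) (ρ := 8 * h) (R := 32 * h) ?_ ?_ (by omega) ?_)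
    · rw [abs_le] at hcase
      rw [inR_iff]
      rcases hκ with rfl | rfl <;> omega
    · unfold Far at he2 ⊢; omega
    · intro l hl hl'
      exact BR_mono (by omega) (hfr l hl (BR_mono (by omega) hl')).1
  · set k := t / h with hk
    have hk1 : k * h ≤ t := by
      rw [hk]; exact Int.ediv_mul_le t (by omega)
    have hk2 : t < k * h + h := by
      rw [hk]
      have := Int.lt_ediv_add_one_mul_self t (show 0 < h by omega)
      linarith
    clear_value k
    have habs : |t| < 8 * M := by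
      rw [inR_iff] at hv1
      rw [abs_lt]
      omega
    rw [abs_lt] at habs
    have hkh : |k| * h = |k * h| := by
      rw [abs_mul, abs_of_pos (show 0 < h by omega)]
    have hk3 : |k| * h ≤ 8 * M + h := by
      rw [hkh, abs_le]
      omega
    have hk4 : 7 * h ≤ |k * h| := by
      rw [le_abs]
      rw [not_le, lt_abs] at hcase
      omega
    generalize hkk : k * h = s at *
    refine hS3 k hk3 ?_
    rw [hkk]
    refine arm_of hp.symm (ρ := h) (R := 4 * h) ?_ ?_ (by omega) ?_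
    · unfold wp
      rw [inR_iff]
      simp only
      rcases hκ with rfl | rfl <;> omega
    · -- the exit is far from the wall
      by_contra hnf
      unfold Far wp at hnf
      unfold Near wp at he4
      unfold Far at he2
      unfold ht at he3
      rw [inR_iff] at he1
      simp only [not_or, not_le, le_abs, abs_le, not_and] at hnf he4 he2
      rcases hκ with rfl | rfl
      · simp only [zero_mul, sub_zero, add_zero] at hnf he4 he3
        omega
      · simp only [one_mul] at hnf he4 he3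
        omega
    · intro l hl hl'
      exfalso
      have h1 : l ∈ BR w (8 * M + 5 * h) := by
        unfold BR at hl' ⊢
        unfold wp at hl'
        rw [mem_Bx] at hl' ⊢
        simp only at hl'
        rw [← hkh] at hk4
        rw [hkh, abs_le] at hk3
        rcases hκ with rfl | rfl
        · simp only [zero_mul, sub_zero] at hl'
          omega
        · simp only [one_mul] at hl'
          omega
      have h2 := (hfr l hl h1).1
      unfold BR at hl' h2
      unfold wp at hl'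
      rw [mem_Bx] at hl' h2
      simp only at hl'
      rw [le_abs] at hk4
      rcases hκ with rfl | rfl
      · simp only [zero_mul, sub_zero] at hl'
        omega
      · simp only [one_mul] at hl'
        omega

/-- structure of the resampled cluster -/
lemma seal_str (hω : ω ⊆ 𝒜) (hω' : ω' ⊆ 𝒜)
    (hexit : ∀ v v', Co ((fr ∪ ω) ∩ L) y v → IsUnit4 (v' - v) → v + v' ∈ fr ∪ 𝒜 → v + v' ∉ L →
      inR w M v ∧ Far w M v) {v : ℤ × ℤ}
    (hv : Co (fr ∪ mix (Ux (fun v => v = y) L (fr ∪ ω)) ω ω') y v) :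
    Co ((fr ∪ ω) ∩ L) y v ∨ ∃ e e', Co ((fr ∪ ω) ∩ L) y e ∧ inR w M e ∧ Far w M e ∧
      IsUnit4 (e' - e) ∧ e + e' ∈ fr ∪ ω' ∧ Co (fr ∪ ω') e v := by
  have hCl : ∀ u, Cl (fun v => v = y) L (fr ∪ ω) u ↔ Co ((fr ∪ ω) ∩ L) y u := by
    intro u
    unfold Cl
    constructor
    · rintro ⟨w0, rfl, h⟩; exact h
    · intro h; exact ⟨y, rfl, h⟩
  rw [fr_mix] at hv
  induction hv with
  | refl => exact Or.inl (Co.refl _ _)
  | @tail p z _ hpz ih =>
    have hU : p + z ∈ Ux (fun v => v = y) L (fr ∪ ω) ↔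
        p + z ∈ L ∧ (Co ((fr ∪ ω) ∩ L) y p ∨ Co ((fr ∪ ω) ∩ L) y z) := by
      rw [mem_Ux_of hpz.1, hCl, hCl]
    have hl := hpz.2
    rw [mem_mix, hU] at hl
    by_cases hp : Co ((fr ∪ ω) ∩ L) y p
    · by_cases hL : p + z ∈ L
      · left
        exact hp.tail ⟨hpz.1, mem_inter.2 ⟨by tauto, hL⟩⟩
      · right
        have hA : p + z ∈ fr ∪ 𝒜 := by
          rcases hl with hl | hl
          · exact union_subset_union_right hω hl.1
          · exact union_subset_union_right hω' hl.1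
        obtain ⟨h1, h2⟩ := hexit p z hp hpz.1 hA hL
        have h3 : p + z ∈ fr ∪ ω' := by tauto
        exact ⟨p, z, hp, h1, h2, hpz.1, h3, (Co.refl _ _).tail ⟨hpz.1, h3⟩⟩
    · rcases ih with ih | ⟨e, e', h1, h2, h3, h4, h5, h6⟩
      · exact absurd ih hp
      by_cases hz : Co ((fr ∪ ω) ∩ L) y z
      · exact Or.inl hz
      · right
        exact ⟨e, e', h1, h2, h3, h4, h5, h6.tail ⟨hpz.1, by tauto⟩⟩

/-- the seals -/
def SL (κ : ℤ) (w : ℤ × ℤ) (M h : ℤ) (N : ℕ) (k : ℤ) (ω : Finset (ℤ × ℤ)) : Prop :=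
  if k ≤ N then Arm1 (wp κ w (k * h)) h (4 * h) ω else
    if k = N + 1 then Arm1 w (2 * M) (8 * M) ω else Arm1 w (8 * h) (32 * h) ω

/-- **sealing**: a good explored cluster is not joined to the wall, with positive conditional
probability -/
theorem seal_prob : ∃ δ : ℝ, 0 < δ ∧ δ ≤ 1 ∧ ∀ (κ : ℤ), (κ = 0 ∨ κ = 1) → ∀ (w : ℤ × ℤ) (M h : ℤ)
    (D : ℕ) (Wv : ℤ × ℤ → Prop) (fr 𝒜 L : Finset (ℤ × ℤ)) (y : ℤ × ℤ) (T : ℤ × ℤ → Prop),
    1 ≤ h → 32 * h ≤ M → M ≤ D * h → (∀ e ∈ 𝒜, (e.1 + e.2) % 2 = 1) →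
    Flat κ w (8 * M + 5 * h) Wv →
    (∀ l ∈ fr, l ∈ BR w (8 * M + 5 * h) → l ∈ BR w h ∧ 2 * ht κ w ≤ ht κ l) →
    Abv κ w (8 * M + 5 * h) 𝒜 →
    (∀ ω, ω ⊆ 𝒜 → ∀ v v', Co ((fr ∪ ω) ∩ L) y v → IsUnit4 (v' - v) → v + v' ∈ fr ∪ 𝒜 →
      v + v' ∉ L → inR w M v ∧ Far w M v) →
    PrP hf 𝒜 (KG κ w M h Wv fr L y T) * δ ^ (16 * D + 5) ≤ PrP hf 𝒜 (JJ Wv fr y T) := by
  obtain ⟨δ, h0, h1, hdec⟩ := open_arm_decay
  refine ⟨δ, h0, h1.le, ?_⟩
  intro κ hκ w M h D Wv fr 𝒜 L y T hh hM hMD hodd hflat hfr h𝒜 hexit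
  have hCl : ∀ ω u, Cl (fun v => v = y) L (fr ∪ ω) u ↔ Co ((fr ∪ ω) ∩ L) y u := by
    intro ω u
    unfold Cl
    constructor
    · rintro ⟨w0, rfl, h⟩; exact h
    · intro h; exact ⟨y, rfl, h⟩
  set N : ℕ := 8 * D + 1 with hN
  have harm : ∀ (o : ℤ × ℤ) (ρ : ℤ), 1 ≤ ρ → δ ≤ PrP hf 𝒜 (fun ω => ¬ Arm1 o ρ (4 * ρ) ω) := by
    intro o ρ hρ
    rw [PrP_not, hf_Pr]
    have h := hdec 𝒜 hodd o ρ hρ 1
    rw [pow_one, pow_one] at h
    have h' : Pr 𝒜 (Arm1 o ρ (4 * ρ)) ≤ 1 - δ := h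
    linarith
  have hSL : δ ^ (16 * D + 5) ≤
      PrP hf 𝒜 (fun ω => ∀ k ∈ Finset.Icc (-(N : ℤ)) (N + 2), ¬ SL κ w M h N k ω) := by
    have hc : (Finset.Icc (-(N : ℤ)) (N + 2)).card = 16 * D + 5 := by
      rw [Int.card_Icc, hN]
      push_cast
      omega
    rw [← hc]
    refine PrP_all_ge hf_Pb 𝒜 _ (SL κ w M h N) ?_ h0.le ?_
    · intro k _
      unfold SL
      by_cases hk1 : k ≤ N
      · simp only [hk1, if_true]; exact Arm1_inc _ _ _
      · by_cases hk2 : k = N + 1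
        · simp only [hk1, if_false]
          simp only [hk2, if_true]
          exact Arm1_inc _ _ _
        · simp only [hk1, hk2, if_false]; exact Arm1_inc _ _ _
    · intro k _
      unfold SL
      by_cases hk1 : k ≤ N
      · simp only [hk1, if_true]; exact harm _ _ hh
      · by_cases hk2 : k = N + 1
        · simp only [hk1, if_false]
          simp only [hk2, if_true]
          rw [show 8 * M = 4 * (2 * M) by ring]
          exact harm _ _ (by omega)
        · simp only [hk1, hk2, if_false]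
          rw [show 32 * h = 4 * (8 * h) by ring]
          exact harm _ _ (by omega)
  refine resampleP hf_Pb 𝒜 (fun ω => Ux (fun v => v = y) L (fr ∪ ω)) ?_ _ _
    (fun _ ω' => ∀ k ∈ Finset.Icc (-(N : ℤ)) (N + 2), ¬ SL κ w M h N k ω') _
    (fun ω _ _ => hSL) ?_
  · intro ω ω' _ _
    rw [fr_mix, Ux_mix]
  · intro ω ω' hω hω' hB hS
    obtain ⟨hB1, ⟨u, hu1, hu2⟩, hB3⟩ := hB
    refine ⟨?_, u, hu1, ?_⟩
    · rintro ⟨v0, hv0, hv1⟩
      rcases seal_str (w := w) (M := M) hω hω' (hexit ω hω) hv1.symm with h2 | h2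
      · exact hB1 v0 h2 hv0
      · obtain ⟨e, e', g1, g2, g3, g4, g5, g6⟩ := h2
        have hup : ht κ w ≤ ht κ e := by
          have h3 : e + e' ∈ BR w (8 * M + 5 * h) := by
            refine BR_of_ends g4 ?_ ?_
            · rw [inR_iff] at g2 ⊢; omega
            · have := unit_cases g4
              rw [inR_iff] at g2 ⊢
              omega
          have h4 : 2 * ht κ w ≤ ht κ (e + e') := by
            rcases mem_union.1 g5 with h5 | h5
            · exact (hfr _ h5 h3).2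
            · exact h𝒜 _ (hω' h5) h3
          exact (above_ends hκ g4 h4).1
        refine seal_det hκ hh hM hflat hfr (fun l hl hl' => h𝒜 l (hω' hl) hl') g2 g3 hup
          (hB3 e g1 g2 g3) g6 hv0 ?_ ?_ ?_
        · have h5 := hS (N + 1) (by rw [Finset.mem_Icc]; omega)
          unfold SL at h5
          rw [if_neg (by omega), if_pos rfl] at h5
          exact h5
        · have h5 := hS (N + 2) (by rw [Finset.mem_Icc]; omega)
          unfold SL at h5
          rw [if_neg (by omega), if_neg (by omega)] at h5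
          exact h5
        · intro k hk
          have hk' : |k| ≤ N := by
            have h6 : |k| * h ≤ (8 * D + 1) * h := by nlinarith
            have h7 := le_of_mul_le_mul_right h6 (by omega)
            rw [hN]
            push_cast
            exact h7
          rw [abs_le] at hk'
          have h5 := hS k (by rw [Finset.mem_Icc]; omega)
          unfold SL at h5
          rw [if_pos (by omega)] at h5
          exact h5
    · rw [fr_mix]
      have h3 := (Cl_mix (W := fun v => v = y) (a := L) (ω := fr ∪ ω) (ω' := fr ∪ ω') (w := u)).2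
        ((hCl ω u).2 hu2)
      obtain ⟨w0, rfl, h4⟩ := h3
      exact h4.mono inter_subset_left

end Pool.Agent.H20.Q1
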