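import Mathlib
import Pool.Agent.H20.Q1.MxSeal

set_option autoImplicit false
open Finset

/-!
# Linking a good outer state with a good inner state
-/

namespace Pool.Agent.H20.Q1

open Pool.Agent.H75.Perc Pool.Agent.H75.TwoArm Pool.Agent.H75.Four Pool.Agent.H49.Perc
open Pool.Agent.H99.NC Pool.Agent.H60.Q1

/-- the cluster of `x` does not meet the wall and reaches the box of radius `a` -/
def RK (Wv : ℤ × ℤ → Prop) (y : Finset (ℤ × ℤ)) (x w : ℤ × ℤ) (a : ℤ) (ω : Finset (ℤ × ℤ)) : Prop :=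
  (∀ v, Co (y ∪ ω) x v → ¬ Wv v) ∧ ∃ u, inR w a u ∧ Co (y ∪ ω) x u

/-- the cluster of `c0` does not meet the wall and reaches distance `b` -/
def RC (κ : ℤ) (w : ℤ × ℤ) (b : ℤ) (ζ : Finset (ℤ × ℤ)) (c0 : ℤ × ℤ) (ω : Finset (ℤ × ℤ)) : Prop :=
  (∀ v, Co (ζ ∪ ω) c0 v → ht κ v ≠ ht κ w) ∧ ∃ u, Far w b u ∧ Co (ζ ∪ ω) c0 u

variable {κ : ℤ} {Wv : ℤ × ℤ → Prop} {η θ ω ω' fr 𝒜 L ζ Y : Finset (ℤ × ℤ)} {w x y c0 : ℤ × ℤ}
  {a b m1 m2 ρ R M h r P : ℤ}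

lemma AL_odd : ∀ e ∈ AL κ w ρ R, (e.1 + e.2) % 2 = 1 := by
  intro e he
  rw [mem_AL'] at he
  exact BR_odd e he.1

lemma four_pow_ge {k : ℕ} (hk : 1 ≤ k) : (4 : ℤ) ≤ 4 ^ k := by
  calc (4 : ℤ) = 4 ^ 1 := by norm_num
    _ ≤ 4 ^ k := pow_le_pow_right₀ (by norm_num) hk

/-- **outer half of the link** -/
theorem sealK : ∃ δ : ℝ, 0 < δ ∧ δ < 1 ∧ ∀ (κ : ℤ), (κ = 0 ∨ κ = 1) → ∀ (w : ℤ × ℤ) (r h a P : ℤ)
    (k : ℕ) (Wv : ℤ × ℤ → Prop) (Y ζ : Finset (ℤ × ℤ)) (x : ℤ × ℤ),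
    1 ≤ h → 1 ≤ k → r ≤ h → a = 2 * (4 ^ k * (10 * h)) → 8 * a + 5 * h ≤ P →
    Flat κ w P Wv → (∀ l ∈ Y, l ∉ BR w P) → (∀ l ∈ ζ, l ∈ BR w r ∧ 2 * ht κ w ≤ ht κ l) →
    Far w P x →
    (PrP hf (AL κ w a P) (RK Wv Y x w a) - 2 * (1 - δ) ^ k) * δ ^ (16 * (20 * 4 ^ k) + 5) ≤
      PrP hf (AL κ w r P) (JJ Wv (Y ∪ ζ) x (fun u => inR w a u)) := by
  classical
  obtain ⟨δ1, h10, h11, hseal⟩ := seal_prob
  obtain ⟨δ2, h20, h21, hdec⟩ := open_arm_decay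
  set δ := min δ1 δ2 with hδ
  have hδ0 : 0 < δ := lt_min h10 h20
  have hδ1 : δ < 1 := (min_le_right _ _).trans_lt h21
  refine ⟨δ, hδ0, hδ1, ?_⟩
  intro κ hκ w r h a P k Wv Y ζ x hh hk hrh ha haP hflat hY hζ hx
  have h4k := four_pow_ge hk
  set s : ℤ := 4 ^ k * (10 * h) with hs
  have hs4 : 40 * h ≤ s := by rw [hs]; nlinarith
  set 𝒜 := AL κ w r P with h𝒜
  set fr := Y ∪ ζ with hfr
  set L := (fr ∪ 𝒜) \ BR w a with hL
  -- the explored cluster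
  have hset : ∀ ω, ω ⊆ 𝒜 → (fr ∪ ω) ∩ L = Y ∪ (ω ∩ AL κ w a P) := by
    intro ω hω
    ext l
    rw [hfr, hL]
    simp only [mem_inter, mem_union, mem_sdiff]
    constructor
    · rintro ⟨(h1 | h1) | h1, -, h3⟩
      · exact Or.inl h1
      · exact absurd (BR_mono (by omega) (hζ l h1).1) h3
      · have h4 := mem_AL'.1 (hω h1)
        exact Or.inr ⟨h1, mem_AL'.2 ⟨h4.1, h3, h4.2.2⟩⟩
    · rintro (h1 | ⟨h1, h2⟩)
      · exact ⟨Or.inl (Or.inl h1), Or.inl (by rw [hfr]; exact mem_union_left _ h1),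
          fun h3 => hY l h1 (BR_mono (by omega) h3)⟩
      · exact ⟨Or.inr h1, Or.inr (hω h1), (mem_AL'.1 h2).2.1⟩
  have hexit : ∀ ω, ω ⊆ 𝒜 → ∀ v v', Co ((fr ∪ ω) ∩ L) x v → IsUnit4 (v' - v) →
      v + v' ∈ fr ∪ 𝒜 → v + v' ∉ L → inR w a v ∧ Far w a v := by
    intro ω hω v v' hxv hvv h1 h2
    have h3 : v + v' ∈ BR w a := by
      by_contra h3
      exact h2 (by rw [hL]; exact mem_sdiff.2 ⟨h1, h3⟩)
    refine ⟨(BR_ends hvv h3).1, ?_⟩
    rcases Relation.ReflTransGen.cases_tail hxv with h4 | ⟨z, -, h4⟩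
    · rw [h4]
      unfold Far at hx ⊢
      omega
    · have h5 : z + v ∉ BR w a := by
        have := (mem_inter.1 h4.2).2
        rw [hL] at this
        exact (mem_sdiff.1 this).2
      by_contra h6
      rw [far_iff, not_not] at h6
      apply h5
      have h7 := unit_cases h4.1
      refine BR_of_ends h4.1 ?_ ?_
      · rw [inR_iff] at h6 ⊢; omega
      · rw [inR_iff] at h6 ⊢; omega
  have hS := hseal κ hκ w a h (20 * 4 ^ k) Wv fr 𝒜 L x (fun u => inR w a u) hh (by omega)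
    (by push_cast; rw [ha, hs]; linarith) AL_odd
    (fun v hv hv' => hflat v (by rw [inR_iff] at hv ⊢; omega) hv')
    (by
      intro l hl hl'
      rw [hfr] at hl
      rcases mem_union.1 hl with h1 | h1
      · exact absurd (BR_mono (by omega) hl') (hY l h1)
      · exact ⟨BR_mono hrh (hζ l h1).1, (hζ l h1).2⟩)
    (fun l hl _ => (mem_AL'.1 hl).2.2) hexit
  -- the corners
  have hwp : wp κ w a = (w.1 + a, w.2 - κ * a) ∧ wp κ w (-a) = (w.1 + -a, w.2 - κ * -a) := ⟨rfl, rfl⟩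
  have hcorner : ∀ ω, ω ⊆ 𝒜 → ∀ t, (t = a ∨ t = -a) → ∀ v, Co (Y ∪ (ω ∩ AL κ w a P)) x v →
      Near (wp κ w t) (10 * h) v → Arm1 (wp κ w t) (10 * h) s ω := by
    intro ω hω t ht v hv hn
    refine Arm1_inc _ _ _ _ _ (inter_subset_left (s₂ := AL κ w a P))
      (arm_of hv.symm (near_iff.1 hn) ?_ (by omega) ?_)
    · unfold Far wp at *
      simp only [le_abs] at hx ⊢
      rcases hκ with rfl | rfl <;> rcases ht with rfl | rfl <;> omega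
    · intro l hl hl'
      exfalso
      refine hY l hl ?_
      unfold BR wp at *
      rw [mem_Bx] at hl' ⊢
      simp only at hl'
      rcases hκ with rfl | rfl <;> rcases ht with rfl | rfl <;> omega
  have harm : ∀ t, PrP hf 𝒜 (Arm1 (wp κ w t) (10 * h) s) ≤ (1 - δ) ^ k := by
    intro t
    have h1 : PrP hf 𝒜 (Arm1 (wp κ w t) (10 * h) s) ≤ (1 - δ2) ^ k := by
      rw [hf_Pr]
      exact hdec 𝒜 AL_odd (wp κ w t) (10 * h) (by omega) k
    exact h1.trans (pow_le_pow_left₀ (by linarith) (by linarith [min_le_right δ1 δ2]) k)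
  have hlow : PrP hf (AL κ w a P) (RK Wv Y x w a) - 2 * (1 - δ) ^ k ≤
      PrP hf 𝒜 (KG κ w a h Wv fr L x (fun u => inR w a u)) := by
    have hsub : AL κ w a P ⊆ 𝒜 := fun l hl => by
      rw [h𝒜, mem_AL']
      rw [mem_AL'] at hl
      exact ⟨hl.1, fun h => hl.2.1 (BR_mono (by omega) h), hl.2.2⟩
    rw [← PrP_restrict hf hsub]
    have h1 : PrP hf 𝒜 (fun ω => RK Wv Y x w a (ω ∩ AL κ w a P)) ≤
        PrP hf 𝒜 (fun ω => KG κ w a h Wv fr L x (fun u => inR w a u) ω ∨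
          (Arm1 (wp κ w a) (10 * h) s ω ∨ Arm1 (wp κ w (-a)) (10 * h) s ω)) := by
      refine PrP_mono hf_Pb fun ω hω hRK => ?_
      by_cases hA : Arm1 (wp κ w a) (10 * h) s ω ∨ Arm1 (wp κ w (-a)) (10 * h) s ω
      · exact Or.inr hA
      · left
        push Not at hA
        unfold KG
        rw [hset ω hω]
        refine ⟨hRK.1, hRK.2, fun v hv _ _ => ⟨fun hn => hA.1 ?_, fun hn => hA.2 ?_⟩⟩
        · exact hcorner ω hω a (Or.inl rfl) v hv hn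
        · exact hcorner ω hω (-a) (Or.inr rfl) v hv hn
    have h2 := PrP_or_le hf_Pb 𝒜 (KG κ w a h Wv fr L x (fun u => inR w a u))
      (fun ω => Arm1 (wp κ w a) (10 * h) s ω ∨ Arm1 (wp κ w (-a)) (10 * h) s ω)
    have h3 := PrP_or_le hf_Pb 𝒜 (Arm1 (wp κ w a) (10 * h) s) (Arm1 (wp κ w (-a)) (10 * h) s)
    have h4 := harm a
    have h5 := harm (-a)
    linarith
  have hpow : δ ^ (16 * (20 * 4 ^ k) + 5) ≤ δ1 ^ (16 * (20 * 4 ^ k) + 5) :=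
    pow_le_pow_left₀ hδ0.le (min_le_left _ _) _
  calc (PrP hf (AL κ w a P) (RK Wv Y x w a) - 2 * (1 - δ) ^ k) * δ ^ (16 * (20 * 4 ^ k) + 5)
      ≤ PrP hf 𝒜 (KG κ w a h Wv fr L x (fun u => inR w a u)) * δ ^ (16 * (20 * 4 ^ k) + 5) :=
        mul_le_mul_of_nonneg_right hlow (by positivity)
    _ ≤ PrP hf 𝒜 (KG κ w a h Wv fr L x (fun u => inR w a u)) * δ1 ^ (16 * (20 * 4 ^ k) + 5) :=
        mul_le_mul_of_nonneg_left hpow (PrP_nonneg hf_Pb _ _)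
    _ ≤ _ := hS

/-- arm form, with the labels of the box -/
lemma arm_of2 {o u v : ℤ × ℤ} (hh : Co (fr ∪ ω) u v) (hu : inR o ρ u) (hv : Far o R v) (hρR : ρ < R)
    (hfr : ∀ l ∈ fr, l ∈ BR o R → l ∈ BR o ρ) : Arm1 o ρ R (ω ∩ BR o R) := by
  have hu' := hu
  rw [inR_iff] at hu'
  have hus : |u.1 - o.1| < R ∧ |u.2 - o.2| < R := by rw [abs_lt, abs_lt]; omega
  obtain ⟨v', h1, h2⟩ := open_exit hh hus hv
  have hv' : ¬ inR o ρ v' := by
    rw [inR_iff]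
    rw [le_abs, le_abs] at h1
    omega
  obtain ⟨u', h3, h4⟩ := last_exit h2 hu hv'
  have h5 := near_iff.2 h3
  refine ⟨u', v', h5.1, h5.2, h1, h4.mono ?_⟩
  intro l hl
  obtain ⟨h6, h7⟩ := mem_sdiff.1 hl
  obtain ⟨h8, h9⟩ := mem_inter.1 h6
  rcases mem_union.1 h8 with h10 | h10
  · exact absurd (hfr l h10 h9) h7
  · exact mem_inter.2 ⟨h10, h9⟩

lemma co_above (hκ : κ = 0 ∨ κ = 1) (hη : ∀ l ∈ η, 2 * ht κ w ≤ ht κ l) {u v : ℤ × ℤ}
    (hu : ht κ w ≤ ht κ u) (h : Co η u v) : ht κ w ≤ ht κ v := by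
  rcases Relation.ReflTransGen.cases_tail h with h4 | ⟨z, -, h4⟩
  · rw [h4]; exact hu
  · exact (above_ends hκ h4.1 (hη _ h4.2)).2

/-- **inner half of the link** -/
theorem sealC : ∃ δ : ℝ, 0 < δ ∧ δ < 1 ∧ ∀ (κ : ℤ), (κ = 0 ∨ κ = 1) → ∀ (w : ℤ × ℤ)
    (r h b b4 P : ℤ) (k : ℕ) (Wv : ℤ × ℤ → Prop) (Y ζ : Finset (ℤ × ℤ)) (c0 : ℤ × ℤ),
    1 ≤ r → 1 ≤ k → r ≤ h → b = 2 * (4 ^ k * (10 * h)) → b = 4 * b4 → 8 * b + 5 * h ≤ P →
    Flat κ w P Wv → (∀ l ∈ Y, l ∉ BR w P) → (∀ l ∈ ζ, l ∈ BR w r ∧ 2 * ht κ w ≤ ht κ l) →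
    inR w r c0 → ht κ w ≤ ht κ c0 →
    (PrP hf (AL κ w r b) (RC κ w b ζ c0) - 2 * u3 κ w r b4 * (1 - δ) ^ k) *
      δ ^ (16 * (20 * 4 ^ k) + 5) ≤
      PrP hf (AL κ w r P) (JJ Wv (Y ∪ ζ) c0 (fun v => Far w b v)) := by
  classical
  obtain ⟨δ1, h10, h11, hseal⟩ := seal_prob
  obtain ⟨δ2, h20, h21, hdec⟩ := open_arm_decay
  set δ := min δ1 δ2 with hδ
  have hδ0 : 0 < δ := lt_min h10 h20
  have hδ1 : δ < 1 := (min_le_right _ _).trans_lt h21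
  refine ⟨δ, hδ0, hδ1, ?_⟩
  intro κ hκ w r h b b4 P k Wv Y ζ c0 hr hk hrh hb hb4 hbP hflat hY hζ hc0 hc0'
  have h4k := four_pow_ge hk
  set s : ℤ := 4 ^ k * (10 * h) with hs
  have hs4 : 40 * h ≤ s := by rw [hs]; nlinarith
  set 𝒜 := AL κ w r P with h𝒜
  set fr := Y ∪ ζ with hfr
  set L := (fr ∪ 𝒜) ∩ BR w b with hL
  have hsub : AL κ w r b ⊆ 𝒜 := fun l hl => by
    rw [h𝒜, mem_AL']
    rw [mem_AL'] at hl
    exact ⟨BR_mono (by omega) hl.1, hl.2⟩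
  -- the explored cluster
  have hset : ∀ ω, ω ⊆ 𝒜 → (fr ∪ ω) ∩ L = ζ ∪ (ω ∩ AL κ w r b) := by
    intro ω hω
    ext l
    rw [hfr, hL]
    simp only [mem_inter, mem_union]
    constructor
    · rintro ⟨(h1 | h1) | h1, -, h3⟩
      · exact absurd (BR_mono (by omega) h3) (hY l h1)
      · exact Or.inl h1
      · have h4 := mem_AL'.1 (hω h1)
        exact Or.inr ⟨h1, mem_AL'.2 ⟨h3, h4.2⟩⟩
    · rintro (h1 | ⟨h1, h2⟩)
      · exact ⟨Or.inl (Or.inr h1), Or.inl (by rw [hfr]; exact mem_union_right _ h1),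
          BR_mono (by omega) (hζ l h1).1⟩
      · exact ⟨Or.inr h1, Or.inr (hω h1), (mem_AL'.1 h2).1⟩
  have hexit : ∀ ω, ω ⊆ 𝒜 → ∀ v v', Co ((fr ∪ ω) ∩ L) c0 v → IsUnit4 (v' - v) →
      v + v' ∈ fr ∪ 𝒜 → v + v' ∉ L → inR w b v ∧ Far w b v := by
    intro ω hω v v' hxv hvv h1 h2
    have h3 : v + v' ∉ BR w b := by
      intro h3
      exact h2 (by rw [hL]; exact mem_inter.2 ⟨h1, h3⟩)
    have hin : inR w b v := by
      rcases Relation.ReflTransGen.cases_tail hxv with h4 | ⟨z, -, h4⟩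
      · rw [h4]
        rw [inR_iff] at hc0 ⊢
        omega
      · have h5 : z + v ∈ BR w b := by
          have := (mem_inter.1 h4.2).2
          rw [hL] at this
          exact (mem_inter.1 this).2
        exact (BR_ends h4.1 h5).2
    refine ⟨hin, ?_⟩
    by_contra h6
    rw [far_iff, not_not] at h6
    apply h3
    have h7 := unit_cases hvv
    refine BR_of_ends hvv hin ?_
    rw [inR_iff] at h6 ⊢; omega
  have hS := hseal κ hκ w b h (20 * 4 ^ k) Wv fr 𝒜 L c0 (fun v => Far w b v) (by omega) (by omega)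
    (by push_cast; rw [hb, hs]; linarith) AL_odd
    (fun v hv hv' => hflat v (by rw [inR_iff] at hv ⊢; omega) hv')
    (by
      intro l hl hl'
      rw [hfr] at hl
      rcases mem_union.1 hl with h1 | h1
      · exact absurd (BR_mono (by omega) hl') (hY l h1)
      · exact ⟨BR_mono hrh (hζ l h1).1, (hζ l h1).2⟩)
    (fun l hl _ => (mem_AL'.1 hl).2.2) hexit
  have habove : ∀ ω, ∀ l ∈ ζ ∪ (ω ∩ AL κ w r b), 2 * ht κ w ≤ ht κ l := by
    intro ω l hl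
    rcases mem_union.1 hl with h1 | h1
    · exact (hζ l h1).2
    · exact (mem_AL'.1 (mem_inter.1 h1).2).2.2
  have hinb : ∀ ω v, Co (ζ ∪ (ω ∩ AL κ w r b)) c0 v → inR w b v := by
    intro ω v hv
    rcases Relation.ReflTransGen.cases_tail hv with h4 | ⟨z, -, h4⟩
    · rw [h4]
      rw [inR_iff] at hc0 ⊢
      omega
    · have h5 : z + v ∈ BR w b := by
        rcases mem_union.1 h4.2 with h6 | h6
        · exact BR_mono (by omega) (hζ _ h6).1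
        · exact (mem_AL'.1 (mem_inter.1 h6).2).1
      exact (BR_ends h4.1 h5).2
  -- the crossing
  set E1 := AL κ w r b4 with hE1
  have hE1s : E1 ⊆ 𝒜 := fun l hl => by
    rw [h𝒜, mem_AL']
    rw [hE1, mem_AL'] at hl
    exact ⟨BR_mono (by omega) hl.1, hl.2⟩
  have hE1b : E1 ⊆ AL κ w r b := fun l hl => by
    rw [mem_AL']
    rw [hE1, mem_AL'] at hl
    exact ⟨BR_mono (by omega) hl.1, hl.2⟩
  have hU3 : ∀ ω, RC κ w b ζ c0 (ω ∩ AL κ w r b) → U3 κ w r b4 (ω ∩ E1) := by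
    intro ω hRC
    obtain ⟨h1, u, h2, h3⟩ := hRC
    have h2' : Far w b4 u := by unfold Far at h2 ⊢; omega
    obtain ⟨u', v', g1, g2, g3, g4⟩ := cross_of (κ := κ) (b := b4) h3 hc0 h2' (by omega) le_rfl
      (fun l hl _ => habove ω l hl)
    have hsb : (ζ ∪ (ω ∩ AL κ w r b)) ∩ AL κ w r b4 = (ω ∩ E1) ∩ AL κ w r b4 := by
      ext l
      simp only [mem_inter, mem_union]
      constructor
      · rintro ⟨h5 | h5, h6⟩
        · exact absurd (hζ l h5).1 (mem_AL'.1 h6).2.1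
        · exact ⟨⟨h5.1, h6⟩, h6⟩
      · rintro ⟨⟨h5, h6⟩, h7⟩
        exact ⟨Or.inr ⟨h5, hE1b h6⟩, h7⟩
    rw [hsb] at g3
    refine ⟨u', v', g1, g2, g3, fun z hz => ?_⟩
    rw [← hsb] at hz
    exact h1 z (g4.trans (hz.mono inter_subset_left))
  -- the corners
  have hcorner : ∀ ω, ω ⊆ 𝒜 → ∀ t, (t = b ∨ t = -b) → ∀ v, Co (ζ ∪ (ω ∩ AL κ w r b)) c0 v →
      Near (wp κ w t) (10 * h) v → Arm1 (wp κ w t) (10 * h) s (ω \ E1) := by
    intro ω hω t ht v hv hn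
    refine Arm1_inc _ _ _ _ _ ?_
      (arm_of2 hv.symm (near_iff.1 hn) ?_ (by omega) ?_)
    · intro l hl
      obtain ⟨h1, h2⟩ := mem_inter.1 hl
      refine mem_sdiff.2 ⟨(mem_inter.1 h1).1, fun h3 => ?_⟩
      have h4 := (mem_AL'.1 h3).1
      unfold BR at h2 h4
      unfold wp at h2
      rw [mem_Bx] at h2 h4
      simp only at h2
      rcases hκ with rfl | rfl <;> rcases ht with rfl | rfl <;> omega
    · unfold Far wp
      rw [inR_iff] at hc0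
      simp only [le_abs]
      rcases hκ with rfl | rfl <;> rcases ht with rfl | rfl <;> omega
    · intro l hl hl'
      exfalso
      have h4 := (hζ l hl).1
      unfold BR at hl' h4
      unfold wp at hl'
      rw [mem_Bx] at hl' h4
      simp only at hl'
      rcases hκ with rfl | rfl <;> rcases ht with rfl | rfl <;> omega
  have harm : ∀ t, PrP hf (𝒜 \ E1) (Arm1 (wp κ w t) (10 * h) s) ≤ (1 - δ) ^ k := by
    intro t
    have h1 : PrP hf (𝒜 \ E1) (Arm1 (wp κ w t) (10 * h) s) ≤ (1 - δ2) ^ k := by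
      rw [hf_Pr]
      exact hdec (𝒜 \ E1) (fun e he => AL_odd e (mem_sdiff.1 he).1) (wp κ w t) (10 * h) (by omega) k
    exact h1.trans (pow_le_pow_left₀ (by linarith) (by linarith [min_le_right δ1 δ2]) k)
  have hlow : PrP hf (AL κ w r b) (RC κ w b ζ c0) - 2 * u3 κ w r b4 * (1 - δ) ^ k ≤
      PrP hf 𝒜 (KG κ w b h Wv fr L c0 (fun v => Far w b v)) := by
    rw [← PrP_restrict hf hsub]
    have h1 : PrP hf 𝒜 (fun ω => RC κ w b ζ c0 (ω ∩ AL κ w r b)) ≤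
        PrP hf 𝒜 (fun ω => KG κ w b h Wv fr L c0 (fun v => Far w b v) ω ∨
          ((U3 κ w r b4 (ω ∩ E1) ∧ Arm1 (wp κ w b) (10 * h) s (ω \ E1)) ∨
            (U3 κ w r b4 (ω ∩ E1) ∧ Arm1 (wp κ w (-b)) (10 * h) s (ω \ E1)))) := by
      refine PrP_mono hf_Pb fun ω hω hRC => ?_
      have hU := hU3 ω hRC
      by_cases hA : Arm1 (wp κ w b) (10 * h) s (ω \ E1) ∨ Arm1 (wp κ w (-b)) (10 * h) s (ω \ E1)
      · right
        rcases hA with hA | hA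
        · exact Or.inl ⟨hU, hA⟩
        · exact Or.inr ⟨hU, hA⟩
      · left
        push Not at hA
        unfold KG
        rw [hset ω hω]
        refine ⟨fun v hv hW => ?_, hRC.2, fun v hv _ _ => ⟨fun hn => hA.1 ?_, fun hn => hA.2 ?_⟩⟩
        · have h2 := hinb ω v hv
          have h3 := co_above hκ (habove ω) hc0' hv
          exact hRC.1 v hv ((hflat v (by rw [inR_iff] at h2 ⊢; omega) h3).1 hW)
        · exact hcorner ω hω b (Or.inl rfl) v hv hn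
        · exact hcorner ω hω (-b) (Or.inr rfl) v hv hn
    have h2 := PrP_or_le hf_Pb 𝒜 (KG κ w b h Wv fr L c0 (fun v => Far w b v))
      (fun ω => (U3 κ w r b4 (ω ∩ E1) ∧ Arm1 (wp κ w b) (10 * h) s (ω \ E1)) ∨
            (U3 κ w r b4 (ω ∩ E1) ∧ Arm1 (wp κ w (-b)) (10 * h) s (ω \ E1)))
    have h3 := PrP_or_le hf_Pb 𝒜
      (fun ω => U3 κ w r b4 (ω ∩ E1) ∧ Arm1 (wp κ w b) (10 * h) s (ω \ E1))
      (fun ω => U3 κ w r b4 (ω ∩ E1) ∧ Arm1 (wp κ w (-b)) (10 * h) s (ω \ E1))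
    rw [PrP_split hf hE1s, PrP_split hf hE1s] at h3
    have hu : PrP hf E1 (U3 κ w r b4) = u3 κ w r b4 := by rw [hf_Pr]; rfl
    rw [hu] at h3
    have h4 := mul_le_mul_of_nonneg_left (harm b) (u3_nonneg (κ := κ) (z := w) (ρ := r) (R := b4))
    have h5 := mul_le_mul_of_nonneg_left (harm (-b)) (u3_nonneg (κ := κ) (z := w) (ρ := r) (R := b4))
    linarith
  have hpow : δ ^ (16 * (20 * 4 ^ k) + 5) ≤ δ1 ^ (16 * (20 * 4 ^ k) + 5) :=
    pow_le_pow_left₀ hδ0.le (min_le_left _ _) _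
  calc (PrP hf (AL κ w r b) (RC κ w b ζ c0) - 2 * u3 κ w r b4 * (1 - δ) ^ k) *
        δ ^ (16 * (20 * 4 ^ k) + 5)
      ≤ PrP hf 𝒜 (KG κ w b h Wv fr L c0 (fun v => Far w b v)) * δ ^ (16 * (20 * 4 ^ k) + 5) :=
        mul_le_mul_of_nonneg_right hlow (by positivity)
    _ ≤ PrP hf 𝒜 (KG κ w b h Wv fr L c0 (fun v => Far w b v)) * δ1 ^ (16 * (20 * 4 ^ k) + 5) :=
        mul_le_mul_of_nonneg_left hpow (PrP_nonneg hf_Pb _ _)
    _ ≤ _ := hS

end Pool.Agent.H20.Q1
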