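import Mathlib
import Pool.Agent.H20.Q1.MxLink

set_option autoImplicit false
open Finset

/-!
# Local determination of the contacts

`CS Wv η x` : wall vertices of the cluster of `x`. `fv κ w ρ F Wv Y x` : expectation of `F (CS ..)` over
the labels of the half box of radius `ρ`, the labels `Y` outside being frozen. `Gd` : exactly one
cluster of `ζ` crosses the half annulus, and it does not meet the wall. `loc` : then the contacts of
a cluster which is linked with it are determined by `ζ` and the inner labels.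
-/

namespace Pool.Agent.H20.Q1

open Pool.Agent.H75.Perc Pool.Agent.H75.TwoArm Pool.Agent.H75.Four Pool.Agent.H49.Perc
open Pool.Agent.H99.NC Pool.Agent.H60.Q1

/-- contacts of the cluster of `x` -/
def CS (Wv : ℤ × ℤ → Prop) (η : Finset (ℤ × ℤ)) (x : ℤ × ℤ) : Set (ℤ × ℤ) := {v | Wv v ∧ Co η x v}

/-- the flat wall -/
def FW (κ : ℤ) (w : ℤ × ℤ) (v : ℤ × ℤ) : Prop := ht κ v = ht κ w

/-- expectation over the inner labels -/
noncomputable def fv (κ : ℤ) (w : ℤ × ℤ) (ρ : ℤ) (F : Set (ℤ × ℤ) → ℝ) (Wv : ℤ × ℤ → Prop)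
    (Y : Finset (ℤ × ℤ)) (x : ℤ × ℤ) : ℝ := Ex hf (HL κ w ρ) (fun ω => F (CS Wv (Y ∪ ω) x))

/-- exactly one cluster of `ζ` crosses, and it does not meet the wall -/
def Gd (κ : ℤ) (w : ℤ × ℤ) (ρ r : ℤ) (ζ : Finset (ℤ × ℤ)) (c0 : ℤ × ℤ) : Prop :=
  Far w r c0 ∧ (∃ u, Near w ρ u ∧ Co ζ u c0) ∧ (∀ v, Co ζ c0 v → ht κ v ≠ ht κ w) ∧
    ∀ u v, Near w ρ u → Far w r v → Co ζ u v → Co ζ c0 u

variable {κ : ℤ} {Wv : ℤ × ℤ → Prop} {η θ ω ω' fr 𝒜 L ζ Y z : Finset (ℤ × ℤ)} {w x y c0 : ℤ × ℤ}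
  {a b m1 m2 ρ R M h r P : ℤ} {F : Set (ℤ × ℤ) → ℝ}

lemma mem_HL' {l : ℤ × ℤ} : l ∈ HL κ w R ↔ l ∈ BR w R ∧ 2 * ht κ w ≤ ht κ l := by
  unfold HL BR
  rw [mem_filter]

lemma HL_split (h : ρ ≤ R) : HL κ w R = AL κ w ρ R ∪ HL κ w ρ := by
  ext l
  rw [mem_union, mem_AL', mem_HL', mem_HL']
  constructor
  · rintro ⟨h1, h2⟩
    by_cases h3 : l ∈ BR w ρ
    · exact Or.inr ⟨h3, h2⟩
    · exact Or.inl ⟨h1, h3, h2⟩
  · rintro (⟨h1, h2, h3⟩ | ⟨h1, h2⟩)
    · exact ⟨h1, h3⟩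
    · exact ⟨BR_mono h h1, h2⟩

lemma AL_HL_disj : Disjoint (AL κ w ρ R) (HL κ w ρ) := by
  rw [disjoint_left]
  intro l h1 h2
  rw [mem_AL'] at h1
  rw [mem_HL'] at h2
  exact h1.2.1 h2.1

lemma AL_split (h1 : ρ ≤ M) (h2 : M ≤ R) : AL κ w ρ R = AL κ w ρ M ∪ AL κ w M R := by
  ext l
  rw [mem_union, mem_AL', mem_AL', mem_AL']
  constructor
  · rintro ⟨h3, h4, h5⟩
    by_cases h6 : l ∈ BR w M
    · exact Or.inl ⟨h6, h4, h5⟩
    · exact Or.inr ⟨h3, h6, h5⟩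
  · rintro (⟨h3, h4, h5⟩ | ⟨h3, h4, h5⟩)
    · exact ⟨BR_mono h2 h3, h4, h5⟩
    · exact ⟨h3, fun h => h4 (BR_mono h1 h), h5⟩

lemma AL_AL_disj : Disjoint (AL κ w ρ M) (AL κ w M R) := by
  rw [disjoint_left]
  intro l h1 h2
  rw [mem_AL'] at h1 h2
  exact h2.2.1 h1.1

/-- change of level -/
lemma fv_level (h : ρ ≤ R) : fv κ w R F Wv Y x =
    Ex hf (AL κ w ρ R) (fun ω => fv κ w ρ F Wv (Y ∪ ω) x) := by
  unfold fv
  rw [HL_split h, Ex_union hf AL_HL_disj]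
  refine Ex_congr fun ω _ => Ex_congr fun ω' _ => ?_
  rw [union_assoc]

lemma end_in {u v : ℤ × ℤ} (h : Co η u v) (hne : u ≠ v) : ∃ p, IsUnit4 (v - p) ∧ p + v ∈ η ∧ Co η u p := by
  rcases Relation.ReflTransGen.cases_tail h with h4 | ⟨p, h5, h4⟩
  · exact absurd h4.symm hne
  · exact ⟨p, h4.1, h4.2, h5⟩

/-- a connection between far vertices is by labels of `ζ` or goes through the inner box -/
lemma zeta_or (hω : ω ⊆ HL κ w ρ) {v : ℤ × ℤ} (h : Co (ζ ∪ ω) c0 v) :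
    Co ζ c0 v ∨ ∃ p, inR w ρ p ∧ Co ζ p v := by
  induction h with
  | refl => exact Or.inl (Co.refl _ _)
  | @tail u v _ huv ih =>
    rcases mem_union.1 huv.2 with h1 | h1
    · rcases ih with ih | ⟨p, hp1, hp2⟩
      · exact Or.inl (ih.tail ⟨huv.1, h1⟩)
      · exact Or.inr ⟨p, hp1, hp2.tail ⟨huv.1, h1⟩⟩
    · right
      exact ⟨v, (BR_ends huv.1 (mem_HL'.1 (hω h1)).1).2, Co.refl _ _⟩

/-- **local determination** -/
theorem loc (hκ : κ = 0 ∨ κ = 1) (hρr : ρ < r) (hζ : ζ ⊆ AL κ w ρ r) (hG : Gd κ w ρ r ζ c0)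
    (hz : ∀ l ∈ BR w r, (l ∈ z ↔ l ∈ ζ)) (hω : ω ⊆ HL κ w ρ) (hflat : Flat κ w r Wv)
    (hx : Co z x c0) (hnt : ∀ v, Co z x v → ¬ Wv v) :
    CS Wv (z ∪ ω) x = CS (FW κ w) (ζ ∪ ω) c0 := by
  obtain ⟨hG1, ⟨u0, hG2, hG3⟩, hG4, hG5⟩ := hG
  have hζz : ζ ⊆ z := fun l hl => (hz l (mem_AL'.1 (hζ hl)).1).2 hl
  have hin : ∀ l ∈ ζ ∪ ω, l ∈ BR w r ∧ 2 * ht κ w ≤ ht κ l := by
    intro l hl
    rcases mem_union.1 hl with h1 | h1
    · have := mem_AL'.1 (hζ h1)
      exact ⟨this.1, this.2.2⟩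
    · have := mem_HL'.1 (hω h1)
      exact ⟨BR_mono hρr.le this.1, this.2⟩
  have hne : u0 ≠ c0 := near_ne_far hρr hG2 hG1
  obtain ⟨p0, hp1, hp2, -⟩ := end_in hG3 hne
  have hc0 : inR w r c0 ∧ ht κ w ≤ ht κ c0 := by
    have h1 := hin _ (mem_union_left _ hp2)
    exact ⟨(BR_ends hp1 h1.1).2, (above_ends hκ hp1 h1.2).2⟩
  have hloc : ∀ v, Co (ζ ∪ ω) c0 v → inR w r v ∧ ht κ w ≤ ht κ v := by
    intro v hv
    by_cases h1 : c0 = v
    · rw [← h1]; exact hc0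
    · obtain ⟨p, h2, h3, -⟩ := end_in hv h1
      have h4 := hin _ h3
      exact ⟨(BR_ends h2 h4.1).2, (above_ends hκ h2 h4.2).2⟩
  have key : ∀ v, Co (z ∪ ω) x v → Co z x v ∨ Co (ζ ∪ ω) c0 v := by
    intro v hv
    induction hv with
    | refl => exact Or.inl (Co.refl _ _)
    | @tail u v _ huv ih =>
      rcases mem_union.1 huv.2 with h1 | h1
      · rcases ih with ih | ih
        · exact Or.inl (ih.tail ⟨huv.1, h1⟩)
        · by_cases h2 : u + v ∈ BR w r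
          · exact Or.inr (ih.tail ⟨huv.1, mem_union_left _ ((hz _ h2).1 h1)⟩)
          · left
            have hu := (hloc u ih).1
            have hfar : Far w r u := by
              by_contra h3
              rw [far_iff, not_not] at h3
              apply h2
              have h4 := unit_cases huv.1
              refine BR_of_ends huv.1 hu ?_
              rw [inR_iff] at h3 ⊢; omega
            have h5 : Co ζ c0 u := by
              rcases zeta_or hω ih with h6 | ⟨p, h6, h7⟩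
              · exact h6
              · exact (hG5 p u (near_iff.2 h6) hfar h7).trans h7
            exact (hx.trans (h5.mono hζz)).tail ⟨huv.1, h1⟩
      · right
        have hu : inR w ρ u := (BR_ends huv.1 (mem_HL'.1 (hω h1)).1).1
        have h2 : Co (ζ ∪ ω) c0 u := by
          rcases ih with ih | ih
          · have h3 : Co z u c0 := ih.symm.trans hx
            have hu' := hu
            rw [inR_iff] at hu'
            obtain ⟨v', h4, h5⟩ := open_exit h3 (by rw [abs_lt, abs_lt]; omega :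
              |u.1 - w.1| < r ∧ |u.2 - w.2| < r) hG1
            have h6 : Co ζ u v' := h5.mono fun l hl => by
              obtain ⟨h7, h8⟩ := mem_inter.1 hl
              exact (hz l h8).1 h7
            exact (hG5 u v' (near_iff.2 hu) h4 h6).mono subset_union_left
          · exact ih
        exact h2.tail ⟨huv.1, mem_union_right _ h1⟩
  have hback : ∀ v, Co (ζ ∪ ω) c0 v → Co (z ∪ ω) x v := fun v hv =>
    (hx.mono subset_union_left).trans (hv.mono (union_subset_union_left hζz))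
  ext v
  unfold CS FW
  simp only [Set.mem_ofPred_eq]
  constructor
  · rintro ⟨h1, h2⟩
    rcases key v h2 with h3 | h3
    · exact absurd h1 (hnt v h3)
    · exact ⟨(hflat v (hloc v h3).1 (hloc v h3).2).1 h1, h3⟩
  · rintro ⟨h1, h2⟩
    exact ⟨(hflat v (hloc v h2).1 (hloc v h2).2).2 h1, hback v h2⟩

/-! ### functionals supported near the point `xi` of the wall -/

/-- `F` is supported on sets which contain `xi` and are contained in the box of radius `m` -/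
def Sup (w : ℤ × ℤ) (m : ℤ) (xi : ℤ × ℤ) (F : Set (ℤ × ℤ) → ℝ) : Prop :=
  ∀ S, F S ≠ 0 → xi ∈ S ∧ ∀ v ∈ S, inR w m v

/-- `F` is decreasing on sets which contain `xi` -/
def Dcr (xi : ℤ × ℤ) (F : Set (ℤ × ℤ) → ℝ) : Prop :=
  (∀ S, 0 ≤ F S) ∧ ∀ S S', S ⊆ S' → xi ∈ S → F S' ≤ F S

/-- mass of the cluster of `xi` in the half box of radius `r` -/
noncomputable def NN (κ : ℤ) (w xi : ℤ × ℤ) (F : Set (ℤ × ℤ) → ℝ) (r : ℤ) : ℝ :=
  Ex hf (HL κ w r) (fun ω => F (CS (FW κ w) ω xi) * ind (∃ v, Far w r v ∧ Co ω xi v))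

variable {xi : ℤ × ℤ} {m : ℤ}

/-- a contact set with positive weight: the cluster does not meet the wall outside the inner box -/
lemma alive_of (hS : Sup w m xi F) (hm : m < ρ) (hflat : Flat κ w ρ Wv) (hxi : inR w m xi)
    (hz : ∀ l ∈ z, l ∉ BR w ρ) (hω : ω ⊆ HL κ w ρ) (hx : Far w ρ x)
    (hF : F (CS Wv (z ∪ ω) x) ≠ 0) :
    (∀ v, Co z x v → ¬ Wv v) ∧ ∃ u, inR w ρ u ∧ Co z x u := by
  obtain ⟨h1, h2⟩ := hS _ hF
  refine ⟨fun v hv hW => ?_, ?_⟩
  · have h3 := h2 v ⟨hW, hv.mono subset_union_left⟩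
    by_cases h4 : x = v
    · rw [← h4] at h3
      rw [far_iff] at hx
      apply hx
      rw [inR_iff] at h3 ⊢
      omega
    · obtain ⟨p, h5, h6, -⟩ := end_in hv h4
      apply hz _ h6
      have h7 := unit_cases h5
      refine BR_of_ends h5 ?_ ?_
      · rw [inR_iff] at h3 ⊢; omega
      · rw [inR_iff] at h3 ⊢; omega
  · have h3 : Co (z ∪ ω) x xi := h1.2
    have key : ∀ v, Co (z ∪ ω) x v → Co z x v ∨ ∃ u, inR w ρ u ∧ Co z x u := by
      intro v hv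
      induction hv with
      | refl => exact Or.inl (Co.refl _ _)
      | @tail u v _ huv ih =>
        rcases ih with ih | ih
        · rcases mem_union.1 huv.2 with h4 | h4
          · exact Or.inl (ih.tail ⟨huv.1, h4⟩)
          · exact Or.inr ⟨u, (BR_ends huv.1 (mem_HL'.1 (hω h4)).1).1, ih⟩
        · exact Or.inr ih
    rcases key xi h3 with h4 | h4
    · exact ⟨xi, by rw [inR_iff] at hxi ⊢; omega, h4⟩
    · exact h4

/-- upper bound by the mass of the cluster of `xi` -/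
lemma fv_le (hD : Dcr xi F) (hS : Sup w m xi F) (hm : m < ρ) (hflat : Flat κ w ρ Wv)
    (hxi : inR w m xi) (hxw : ht κ xi = ht κ w) (hκ : κ = 0 ∨ κ = 1)
    (hz : ∀ l ∈ z, l ∉ BR w ρ) (hx : Far w ρ x) :
    fv κ w ρ F Wv z x ≤ NN κ w xi F ρ := by
  unfold fv NN
  refine Ex_mono hf_Pb fun ω hω => ?_
  by_cases hF : F (CS Wv (z ∪ ω) x) = 0
  · rw [hF]
    exact mul_nonneg (hD.1 _) (ind_nonneg _)
  · obtain ⟨h1, h2⟩ := hS _ hF
    have h3 : Co (z ∪ ω) xi x := h1.2.symm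
    have hxi' := hxi
    rw [inR_iff] at hxi'
    obtain ⟨v', h4, h5⟩ := open_exit h3 (by rw [abs_lt, abs_lt]; omega :
      |xi.1 - w.1| < ρ ∧ |xi.2 - w.2| < ρ) hx
    have h6 : Co ω xi v' := h5.mono fun l hl => by
      obtain ⟨h7, h8⟩ := mem_inter.1 hl
      rcases mem_union.1 h7 with h9 | h9
      · exact absurd h8 (hz l h9)
      · exact h9
    rw [ind_true ⟨v', h4, h6⟩, mul_one]
    refine hD.2 _ _ ?_ ⟨hxw, Co.refl _ _⟩
    rintro v ⟨hv1, hv2⟩
    have hv3 : inR w ρ v ∧ ht κ w ≤ ht κ v := by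
      by_cases h7 : xi = v
      · rw [← h7]
        exact ⟨by rw [inR_iff]; omega, by omega⟩
      · obtain ⟨p, h8, h9, -⟩ := end_in hv2 h7
        have h10 := mem_HL'.1 (hω h9)
        exact ⟨(BR_ends h8 h10.1).2, (above_ends hκ h8 h10.2).2⟩
    exact ⟨(hflat v hv3.1 hv3.2).2 hv1, Co.trans h1.2 (hv2.mono subset_union_right)⟩

/-- an alive state crosses the half annulus without touching the wall -/
lemma RK_U3 (hκ : κ = 0 ∨ κ = 1) (hρR : ρ < R) (hflat : Flat κ w R Wv) (hY : ∀ l ∈ Y, l ∉ BR w R)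
    (hx : Far w R x) (h : RK Wv Y x w ρ (ω ∩ AL κ w ρ R)) : U3 κ w ρ R ω := by
  obtain ⟨h1, u, h2, h3⟩ := h
  obtain ⟨u', v', g1, g2, g3, g4⟩ := cross_of (κ := κ) (b := R) h3.symm h2 hx hρR le_rfl (by
    intro l hl hl'
    rcases mem_union.1 hl with h4 | h4
    · exact absurd hl' (hY l h4)
    · exact (mem_AL'.1 (mem_inter.1 h4).2).2.2)
  have hsub : (Y ∪ ω ∩ AL κ w ρ R) ∩ AL κ w ρ R = ω ∩ AL κ w ρ R := by
    ext l
    simp only [mem_inter, mem_union]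
    constructor
    · rintro ⟨h5 | h5, h6⟩
      · exact absurd (mem_AL'.1 h6).1 (hY l h5)
      · exact h5
    · rintro ⟨h5, h6⟩
      exact ⟨Or.inr ⟨h5, h6⟩, h6⟩
  rw [hsub] at g3
  refine ⟨u', v', g1, g2, g3, fun y hy hht => ?_⟩
  have hne : u' ≠ v' := near_ne_far hρR g1 g2
  have hreg := (Co.reg hκ inter_subset_right g3 hne).2 y hy
  have hy' : inR w R y := near_iff.1 hreg.2.1
  refine h1 y ((h3.trans g4).trans (hy.mono subset_union_right)) ?_
  exact (hflat y hy' hreg.1).2 hht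

end Pool.Agent.H20.Q1
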