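import Mathlib
import Pool.Agent.H20.Q1.MxLoc

set_option autoImplicit false
open Finset

/-!
# One block: every good outer state is linked with every good inner state
-/

namespace Pool.Agent.H20.Q1

open Pool.Agent.H75.Perc Pool.Agent.H75.TwoArm Pool.Agent.H75.Four Pool.Agent.H49.Perc
open Pool.Agent.H99.NC Pool.Agent.H60.Q1

/-- **link** -/
theorem link {κa c1 : ℝ} (hκa : 0 < κa) (hc1 : 0 < c1) : ∃ (k2 k3 : ℕ) (α : ℝ), 0 < α ∧ α ≤ 1 ∧
    ∀ (κ : ℤ), (κ = 0 ∨ κ = 1) → ∀ (w : ℤ × ℤ) (r a : ℤ) (Wv : ℤ × ℤ → Prop)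
    (Y ζ : Finset (ℤ × ℤ)) (x c0 : ℤ × ℤ), 1 ≤ r → a = 2 * (4 ^ k2 * (10 * (4 ^ k3 * r))) →
    Flat κ w (512 * a) Wv → (∀ l ∈ Y, l ∉ BR w (512 * a)) → Far w (512 * a) x →
    (∀ l ∈ ζ, l ∈ BR w r ∧ 2 * ht κ w ≤ ht κ l) → inR w r c0 → ht κ w ≤ ht κ c0 →
    κa ≤ PrP hf (AL κ w a (512 * a)) (RK Wv Y x w a) →
    c1 * ((r : ℝ) / (60 * a : ℤ)) ^ 2 ≤ PrP hf (AL κ w r (60 * a)) (RC κ w (60 * a) ζ c0) →
    α ≤ PrP hf (AL κ w r (512 * a))
      (fun ω => ¬ WC Wv (Y ∪ ζ ∪ ω) x ∧ Co (Y ∪ ζ ∪ ω) x c0) := by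
  obtain ⟨δK, hK0, hK1, hK⟩ := sealK
  obtain ⟨δC, hC0, hC1, hC⟩ := sealC
  obtain ⟨cg, hcg, hglue⟩ := glue_prob
  obtain ⟨C3, hC3, hu3⟩ := u3_le
  obtain ⟨n2, hn2⟩ := exists_pow_lt_of_lt_one (show (0 : ℝ) < κa / 4 by positivity)
    (show 1 - δK < 1 by linarith)
  obtain ⟨n3, hn3⟩ := exists_pow_lt_of_lt_one (show (0 : ℝ) < c1 / (64 * C3) by positivity)
    (show 1 - δC < 1 by linarith)
  set k2 := n2 + 1 with hk2
  set k3 := n3 + 1 with hk3
  have hp2 : (1 - δK) ^ k2 ≤ κa / 4 := by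
    rw [hk2, pow_succ]
    have : 0 ≤ (1 - δK) ^ n2 := pow_nonneg (by linarith) _
    nlinarith
  have hp3 : (1 - δC) ^ k3 ≤ c1 / (64 * C3) := by
    rw [hk3, pow_succ]
    have : 0 ≤ (1 - δC) ^ n3 := pow_nonneg (by linarith) _
    nlinarith
  set s : ℝ := 1 / (1200 * 4 ^ (k2 + k3)) with hs
  have hs0 : 0 < s := by rw [hs]; positivity
  set αK : ℝ := κa / 2 * δK ^ (16 * (20 * 4 ^ k2) + 5) with hαK
  set αC : ℝ := c1 * s ^ 2 / 2 * δC ^ (16 * (20 * 4 ^ k3) + 5) with hαC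
  have hαK0 : 0 < αK := by rw [hαK]; positivity
  have hαC0 : 0 < αC := by rw [hαC]; positivity
  refine ⟨k2, k3, min (cg * (αK * αC)) 1, lt_min (by positivity) one_pos, min_le_right _ _, ?_⟩
  intro κ hκ w r a Wv Y ζ x c0 hr ha hflat hY hx hζ hc0 hc0' hgK hgC
  refine (min_le_left _ _).trans ?_
  have e2 : (4 : ℤ) ≤ 4 ^ k2 := four_pow_ge (by omega)
  have e3 : (4 : ℤ) ≤ 4 ^ k3 := four_pow_ge (by omega)
  set h1 : ℤ := 4 ^ k3 * r with hh1
  have hh1r : 4 * r ≤ h1 := by rw [hh1]; nlinarith only [e3, hr]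
  set h2 : ℤ := 60 * (4 ^ k2 * r) with hh2
  have hh2r : 240 * r ≤ h2 := by rw [hh2]; nlinarith only [e2, hr]
  have ha1 : a = 2 * (4 ^ k2 * (10 * h1)) := ha
  have ha80 : 80 * h1 ≤ a := by rw [ha1]; nlinarith only [e2, hr, hh1r]
  have hb2 : 60 * a = 2 * (4 ^ k3 * (10 * h2)) := by
    rw [ha, hh2]
    ring
  have hb80 : 80 * h2 ≤ 60 * a := by rw [hb2]; nlinarith only [e3, hr, hh2r]
  have hr0 : (0 : ℝ) < r := by exact_mod_cast (by omega : (0 : ℤ) < r)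
  have haR : (a : ℝ) = 20 * 4 ^ (k2 + k3) * r := by
    rw [ha, hh1]
    push_cast
    rw [pow_add]
    ring
  have hratio : (r : ℝ) / (60 * a : ℤ) = s := by
    rw [hs]
    push_cast
    rw [haR]
    field_simp
    norm_num
  -- the two halves
  have pK := hK κ hκ w r h1 a (512 * a) k2 Wv Y ζ x (by omega) (by omega) (by omega) ha1
    (by omega) hflat hY hζ hx
  have pC := hC κ hκ w r h2 (60 * a) (15 * a) (512 * a) k3 Wv Y ζ c0 hr (by omega) (by omega) hb2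
    (by ring) (by omega) hflat hY hζ hc0 hc0'
  have hK2 : αK ≤ PrP hf (AL κ w r (512 * a)) (JJ Wv (Y ∪ ζ) x (fun u => inR w a u)) := by
    refine le_trans ?_ pK
    rw [hαK]
    refine mul_le_mul_of_nonneg_right ?_ (by positivity)
    linarith
  have hC2 : αC ≤ PrP hf (AL κ w r (512 * a)) (JJ Wv (Y ∪ ζ) c0 (fun v => Far w (60 * a) v)) := by
    refine le_trans ?_ pC
    rw [hαC]
    refine mul_le_mul_of_nonneg_right ?_ (by positivity)
    rw [hratio] at hgC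
    have e4 := hu3 κ hκ w r (15 * a) hr (by omega)
    have e5 : (r : ℝ) / (15 * a : ℤ) = 4 * s := by
      rw [← hratio]
      push_cast
      have ha0 : (a : ℝ) ≠ 0 := by
        have : (1 : ℝ) ≤ a := by exact_mod_cast (by omega : (1 : ℤ) ≤ a)
        exact ne_of_gt (lt_of_lt_of_le one_pos this)
      field_simp
      norm_num
    rw [e5] at e4
    have e6 : 2 * u3 κ w r (15 * a) * (1 - δC) ^ k3 ≤ 2 * (C3 * (4 * s) ^ 2) * (c1 / (64 * C3)) := by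
      have h3 : (0 : ℝ) ≤ (1 - δC) ^ k3 := pow_nonneg (by linarith) _
      have h4 : (0 : ℝ) ≤ u3 κ w r (15 * a) := u3_nonneg
      exact mul_le_mul (by linarith) hp3 h3 (by positivity)
    have e7 : 2 * (C3 * (4 * s) ^ 2) * (c1 / (64 * C3)) = c1 * s ^ 2 / 2 := by
      field_simp
      ring
    linarith
  have hg := hglue κ hκ w a Wv (Y ∪ ζ) (AL κ w r (512 * a)) x c0 (by omega) AL_odd
    (by
      rw [disjoint_left]
      intro l hl hl'
      rw [mem_AL'] at hl'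
      rcases mem_union.1 hl with h3 | h3
      · exact hY l h3 hl'.1
      · exact hl'.2.1 (hζ l h3).1)
    (by
      intro l hl
      rw [mem_AL'] at hl ⊢
      exact ⟨BR_mono (by omega) hl.1, fun h3 => hl.2.1 (BR_mono (by omega) h3), hl.2.2⟩)
    (fun v hv hv' => hflat v (by rw [inR_iff] at hv ⊢; omega) hv')
    (by
      intro l hl hl'
      rcases mem_union.1 hl with h3 | h3
      · exact absurd (BR_mono (by omega) hl') (hY l h3)
      · exact (hζ l h3).2)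
    (fun l hl _ => (mem_AL'.1 hl).2.2)
    (by unfold Far at hx ⊢; omega) (by rw [inR_iff] at hc0 ⊢; omega)
  refine le_trans (mul_le_mul_of_nonneg_left ?_ hcg.le) hg
  exact mul_le_mul hK2 hC2 hαC0.le (hαK0.le.trans hK2)

end Pool.Agent.H20.Q1
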