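import Mathlib
import Pool.Agent.H20.Q1.MxBlock

set_option autoImplicit false
open Finset

/-!
# The inner states carry a positive part of the mass
-/

namespace Pool.Agent.H20.Q1

open Pool.Agent.H75.Perc Pool.Agent.H75.TwoArm Pool.Agent.H75.Four Pool.Agent.H49.Perc
open Pool.Agent.H99.NC Pool.Agent.H60.Q1

open Classical in
/-- a far vertex of the only crossing cluster -/
noncomputable def cG (κ : ℤ) (w : ℤ × ℤ) (ρ r : ℤ) (ζ : Finset (ℤ × ℤ)) : ℤ × ℤ :=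
  if h : ∃ c, Gd κ w ρ r ζ c then h.choose else w

/-- good inner states -/
def Zg (κ : ℤ) (w : ℤ × ℤ) (ρ r b : ℤ) (κ1 : ℝ) (ζ : Finset (ℤ × ℤ)) : Prop :=
  Gd κ w ρ r ζ (cG κ w ρ r ζ) ∧ κ1 ≤ PrP hf (AL κ w r b) (RC κ w b ζ (cG κ w ρ r ζ))

/-- two crossing clusters, one of which does not meet the wall -/
def TwoC (κ : ℤ) (w : ℤ × ℤ) (ρ R : ℤ) (ω : Finset (ℤ × ℤ)) : Prop :=
  ∃ u u' v v', Near w ρ u ∧ Far w R v ∧ Co (ω ∩ AL κ w ρ R) u v ∧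
    Near w ρ u' ∧ Far w R v' ∧ Co (ω ∩ AL κ w ρ R) u' v' ∧ ¬ Co (ω ∩ AL κ w ρ R) u u' ∧
    ∀ y, Co (ω ∩ AL κ w ρ R) u y → ht κ y ≠ ht κ w

/-- mean over the good inner states -/
noncomputable def UF (κ : ℤ) (w : ℤ × ℤ) (ρ r b : ℤ) (κ1 : ℝ) (F : Set (ℤ × ℤ) → ℝ) : ℝ :=
  Ex hf (AL κ w ρ r) (fun ζ => ind (Zg κ w ρ r b κ1 ζ) *
    fv κ w ρ F (FW κ w) ζ (cG κ w ρ r ζ))

variable {κ : ℤ} {Wv : ℤ × ℤ → Prop} {η θ ω ω0 ω2 ω' fr 𝒜 L ζ Y z : Finset (ℤ × ℤ)}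
  {w x y c0 xi : ℤ × ℤ} {a b m1 m2 ρ R M h r P m : ℤ} {F : Set (ℤ × ℤ) → ℝ} {κ1 : ℝ}

lemma cG_spec (h : ∃ c, Gd κ w ρ r ζ c) : Gd κ w ρ r ζ (cG κ w ρ r ζ) := by
  unfold cG
  rw [dif_pos h]
  exact h.choose_spec

/-- a vertex of a nontrivial cluster outside the box -/
lemma far_of {u v : ℤ × ℤ} (h : Co η u v) (hne : u ≠ v) (hη : ∀ l ∈ η, l ∉ BR w ρ) : Far w ρ v := by
  obtain ⟨p, h5, h6, -⟩ := end_in h hne
  by_contra h3
  rw [far_iff, not_not] at h3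
  apply hη _ h6
  have h7 := unit_cases h5
  refine BR_of_ends h5 ?_ ?_
  · rw [inR_iff] at h3 ⊢; omega
  · rw [inR_iff] at h3 ⊢; omega

/-- **pointwise decomposition** -/
theorem D1 (hκ : κ = 0 ∨ κ = 1) (hD : Dcr xi F) (hS : Sup w m xi F) (hm : m < ρ) (hρr : ρ < r)
    (hrb : r < b) (hxi : inR w m xi) (hxw : ht κ xi = ht κ w)
    (h2 : ω2 ⊆ AL κ w r b) (hζ : ζ ⊆ AL κ w ρ r) (h0 : ω0 ⊆ HL κ w ρ)
    (hF : F (CS (FW κ w) (ω2 ∪ (ζ ∪ ω0)) xi) ≠ 0)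
    (hreach : ∃ v, Far w b v ∧ Co (ω2 ∪ (ζ ∪ ω0)) xi v) :
    (Gd κ w ρ r ζ (cG κ w ρ r ζ) ∧ RC κ w b ζ (cG κ w ρ r ζ) ω2 ∧
      F (CS (FW κ w) (ω2 ∪ (ζ ∪ ω0)) xi) ≤ F (CS (FW κ w) (ζ ∪ ω0) (cG κ w ρ r ζ))) ∨
    (TwoC κ w ρ r ζ ∧ U3 κ w r b ω2 ∧ (∃ v, Far w ρ v ∧ Co ω0 xi v) ∧
      F (CS (FW κ w) (ω2 ∪ (ζ ∪ ω0)) xi) ≤ F (CS (FW κ w) ω0 xi)) := by
  set ω := ω2 ∪ (ζ ∪ ω0) with hω
  obtain ⟨vb, hvb1, hvb2⟩ := hreach
  obtain ⟨-, hsup⟩ := hS _ hF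
  have habv : ∀ l ∈ ω, 2 * ht κ w ≤ ht κ l := by
    intro l hl
    rw [hω] at hl
    rcases mem_union.1 hl with h3 | h3
    · exact (mem_AL'.1 (h2 h3)).2.2
    · rcases mem_union.1 h3 with h3 | h3
      · exact (mem_AL'.1 (hζ h3)).2.2
      · exact (mem_HL'.1 (h0 h3)).2
  have hbrr : ∀ l, l ∈ ω ∩ BR w r ↔ l ∈ ζ ∪ ω0 := by
    intro l
    rw [hω, mem_inter, mem_union]
    constructor
    · rintro ⟨h3 | h3, h4⟩
      · exact absurd h4 (mem_AL'.1 (h2 h3)).2.1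
      · exact h3
    · intro h3
      refine ⟨Or.inr h3, ?_⟩
      rcases mem_union.1 h3 with h4 | h4
      · exact (mem_AL'.1 (hζ h4)).1
      · exact BR_mono hρr.le (mem_HL'.1 (h0 h4)).1
  have hbrρ : ∀ l, l ∈ ω ∩ BR w ρ ↔ l ∈ ω0 := by
    intro l
    rw [hω, mem_inter, mem_union, mem_union]
    constructor
    · rintro ⟨h3 | h3 | h3, h4⟩
      · exact absurd (BR_mono hρr.le h4) (mem_AL'.1 (h2 h3)).2.1
      · exact absurd h4 (mem_AL'.1 (hζ h3)).2.1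
      · exact h3
    · intro h3
      exact ⟨Or.inr (Or.inr h3), (mem_HL'.1 (h0 h3)).1⟩
  have hsd : ∀ l, l ∈ ω \ BR w ρ ↔ l ∈ ζ ∪ ω2 := by
    intro l
    rw [hω, mem_sdiff, mem_union, mem_union, mem_union]
    constructor
    · rintro ⟨h3 | h3 | h3, h4⟩
      · exact Or.inr h3
      · exact Or.inl h3
      · exact absurd (mem_HL'.1 (h0 h3)).1 h4
    · rintro (h3 | h3)
      · exact ⟨Or.inr (Or.inl h3), (mem_AL'.1 (hζ h3)).2.1⟩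
      · exact ⟨Or.inl h3, fun h4 => (mem_AL'.1 (h2 h3)).2.1 (BR_mono hρr.le h4)⟩
  have hζω : ζ ⊆ ω := fun l hl => by
    rw [hω]
    exact mem_union_right _ (mem_union_left _ hl)
  have hζω0 : ζ ∪ ω0 ⊆ ω := fun l hl => mem_of_mem_inter_left ((hbrr l).2 hl)
  have hζω2 : ζ ∪ ω2 ⊆ ω := fun l hl => (mem_sdiff.1 ((hsd l).2 hl)).1
  have hω0ω : ω0 ⊆ ω := fun l hl => mem_of_mem_inter_left ((hbrρ l).2 hl)
  have hζAL : ζ ∩ AL κ w ρ r = ζ := inter_eq_left.2 hζ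
  have hxi' := hxi
  rw [inR_iff] at hxi'
  -- no contact outside the box
  have hnc : ∀ v, Co ω xi v → Far w ρ v → ht κ v ≠ ht κ w := by
    intro v h3 h4 h5
    have h6 := hsup v ⟨h5, h3⟩
    rw [far_iff] at h4
    apply h4
    rw [inR_iff] at h6 ⊢; omega
  -- the path up to distance r
  obtain ⟨vr, hvr1, hvr2⟩ := open_exit hvb2 (by rw [abs_lt, abs_lt]; omega :
    |xi.1 - w.1| < r ∧ |xi.2 - w.2| < r) (by unfold Far at hvb1; omega)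
  have hvr3 : Co (ζ ∪ ω0) xi vr := hvr2.mono fun l hl => (hbrr l).1 hl
  obtain ⟨u1, v1, g1, g2, g3, g4⟩ := cross_of (κ := κ) (w := w) (b := r) (ρ := ρ) (R := r)
    hvr3 (by rw [inR_iff]; omega)
    hvr1 hρr le_rfl (fun l hl _ => habv l (hζω0 hl))
  have hcap : (ζ ∪ ω0) ∩ AL κ w ρ r = ζ := by
    ext l
    rw [mem_inter, mem_union]
    constructor
    · rintro ⟨h3 | h3, h4⟩
      · exact h3
      · exact absurd (mem_HL'.1 (h0 h3)).1 (mem_AL'.1 h4).2.1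
    · intro h3
      exact ⟨Or.inl h3, hζ h3⟩
  rw [hcap] at g3
  have hne1 : u1 ≠ v1 := near_ne_far hρr g1 g2
  have hfar : ∀ q, Co ζ u1 q → Far w ρ q ∧ Co ω xi q := by
    intro q hq
    have h3 := (Co.reg (κ := κ) hκ hζ g3 hne1).2 q hq
    exact ⟨h3.2.2, (g4.mono hζω0).trans (hq.mono hζω)⟩
  by_cases huni : ∀ u v, Near w ρ u → Far w r v → Co ζ u v → Co ζ v1 u
  · -- unique crossing cluster
    left
    have hGd : Gd κ w ρ r ζ v1 := by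
      refine ⟨g2, ⟨u1, g1, g3⟩, fun v hv => ?_, huni⟩
      have h3 := hfar v (g3.trans hv)
      exact hnc v h3.2 h3.1
    have hG := cG_spec ⟨v1, hGd⟩
    set c := cG κ w ρ r ζ with hc
    have hcu : Co ζ c u1 := hG.2.2.2 u1 v1 g1 g2 g3
    have hcxi : Co (ζ ∪ ω0) c xi := (hcu.mono subset_union_left).trans g4.symm
    have hcω : Co ω xi c := (hcxi.mono hζω0).symm
    refine ⟨hG, ⟨fun v hv => ?_, vb, hvb1, ?_⟩, ?_⟩
    · by_cases h3 : c = v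
      · rw [← h3]
        exact hG.2.2.1 c (Co.refl _ _)
      · refine hnc v (hcω.trans (hv.mono hζω2)) (far_of hv h3 fun l hl hl' => ?_)
        exact (mem_sdiff.1 ((hsd l).2 hl)).2 hl'
    · obtain ⟨u', h3, h4⟩ := last_exit hvb2 (w := w) (c := ρ) (by rw [inR_iff]; omega)
        (by
          unfold Far at hvb1
          rw [le_abs, le_abs] at hvb1
          rw [inR_iff]; omega)
      have h4' : Co (ζ ∪ ω2) u' vb := h4.mono fun l hl => (hsd l).1 hl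
      have h3' := h3
      rw [inR_iff] at h3'
      obtain ⟨v'', h5, h6⟩ := open_exit h4' (by rw [abs_lt, abs_lt]; omega :
        |u'.1 - w.1| < r ∧ |u'.2 - w.2| < r) (by unfold Far at hvb1; omega)
      have h7 : Co ζ u' v'' := h6.mono fun l hl => by
        obtain ⟨h8, h9⟩ := mem_inter.1 hl
        rcases mem_union.1 h8 with h10 | h10
        · exact h10
        · exact absurd h9 (mem_AL'.1 (h2 h10)).2.1
      have h8 := hG.2.2.2 u' v'' (near_iff.2 h3) h5 h7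
      exact (h8.mono subset_union_left).trans h4'
    · refine hD.2 _ _ ?_ ⟨hxw, hcxi⟩
      rintro v ⟨hv1, hv2⟩
      exact ⟨hv1, hcω.trans (hv2.mono hζω0)⟩
  · right
    push Not at huni
    obtain ⟨u, v, n1, n2, n3, n4⟩ := huni
    refine ⟨⟨u1, u, v1, v, g1, g2, by rwa [hζAL], n1, n2, by rwa [hζAL], ?_, ?_⟩, ?_, ?_, ?_⟩
    · rw [hζAL]
      exact fun h3 => n4 (g3.symm.trans h3)
    · rw [hζAL]
      intro q hq
      have h3 := hfar q hq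
      exact hnc q h3.2 h3.1
    · obtain ⟨u2, v2, k1, k2, k3, k4⟩ := cross_of (κ := κ) (w := w) (b := b) (ρ := r) (R := b)
        hvb2 (by rw [inR_iff]; omega) hvb1 hrb le_rfl (fun l hl _ => habv l hl)
      have hcap2 : ω ∩ AL κ w r b = ω2 ∩ AL κ w r b := by
        ext l
        rw [mem_inter, mem_inter, hω, mem_union]
        constructor
        · rintro ⟨h3 | h3, h4⟩
          · exact ⟨h3, h4⟩
          · exact absurd (mem_inter.1 ((hbrr l).2 h3)).2 (mem_AL'.1 h4).2.1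
        · rintro ⟨h3, h4⟩
          exact ⟨Or.inl h3, h4⟩
      rw [hcap2] at k3
      refine ⟨u2, v2, k1, k2, k3, fun q hq => ?_⟩
      have hne2 : u2 ≠ v2 := near_ne_far hrb k1 k2
      have h3 := (Co.reg (κ := κ) hκ inter_subset_right k3 hne2).2 q hq
      refine hnc q (k4.trans (hq.mono ?_)) ?_
      · rw [← hcap2]; exact inter_subset_left
      · have := h3.2.2
        unfold Far
        omega
    · obtain ⟨v', h3, h4⟩ := open_exit hvb2 (by rw [abs_lt, abs_lt]; omega :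
        |xi.1 - w.1| < ρ ∧ |xi.2 - w.2| < ρ) (by unfold Far at hvb1; omega)
      exact ⟨v', h3, h4.mono fun l hl => (hbrρ l).1 hl⟩
    · refine hD.2 _ _ ?_ ⟨hxw, Co.refl _ _⟩
      rintro v ⟨hv1, hv2⟩
      exact ⟨hv1, hv2.mono hω0ω⟩

/-- the mass over the inner states with a unique crossing cluster -/
lemma gd_le (hD : Dcr xi F) (hS : Sup w m xi F) (hρr : ρ ≤ r) :
    Ex hf (AL κ w ρ r) (fun ζ => ind (Gd κ w ρ r ζ (cG κ w ρ r ζ)) *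
      fv κ w ρ F (FW κ w) ζ (cG κ w ρ r ζ)) ≤ NN κ w xi F r := by
  unfold NN fv
  rw [HL_split hρr, Ex_union hf AL_HL_disj]
  refine Ex_mono hf_Pb fun ζ _ => ?_
  rw [← Ex_smul]
  refine Ex_mono hf_Pb fun ω0 _ => ?_
  by_cases hG : Gd κ w ρ r ζ (cG κ w ρ r ζ)
  · rw [ind_true hG, one_mul]
    by_cases hF : F (CS (FW κ w) (ζ ∪ ω0) (cG κ w ρ r ζ)) = 0
    · rw [hF]
      exact mul_nonneg (hD.1 _) (ind_nonneg _)
    · obtain ⟨h1, -⟩ := hS _ hF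
      have h2 : CS (FW κ w) (ζ ∪ ω0) (cG κ w ρ r ζ) = CS (FW κ w) (ζ ∪ ω0) xi := by
        ext v
        constructor
        · rintro ⟨h3, h4⟩
          exact ⟨h3, (Co.symm h1.2).trans h4⟩
        · rintro ⟨h3, h4⟩
          exact ⟨h3, Co.trans h1.2 h4⟩
      rw [h2, ind_true ⟨_, hG.1, Co.symm h1.2⟩, mul_one]
  · rw [ind_false hG, zero_mul]
    exact mul_nonneg (hD.1 _) (ind_nonneg _)

/-- **mass of the good inner states** -/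
theorem Db1 (hκ : κ = 0 ∨ κ = 1) (hD : Dcr xi F) (hS : Sup w m xi F) (hm : m < ρ) (hρr : ρ < r)
    (hrb : r < b) (hxi : inR w m xi) (hxw : ht κ xi = ht κ w) (hκ1 : 0 ≤ κ1) :
    NN κ w xi F b ≤ UF κ w ρ r b κ1 F + κ1 * NN κ w xi F r +
      PrP hf (AL κ w ρ r) (TwoC κ w ρ r) * (u3 κ w r b * NN κ w xi F ρ) := by
  set c := fun ζ => cG κ w ρ r ζ with hc
  set N0 := NN κ w xi F ρ with hN0
  have e1 : NN κ w xi F b = Ex hf (AL κ w ρ r) (fun ζ => Ex hf (HL κ w ρ) (fun ω0 =>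
      Ex hf (AL κ w r b) (fun ω2 => F (CS (FW κ w) (ω2 ∪ (ζ ∪ ω0)) xi) *
        ind (∃ v, Far w b v ∧ Co (ω2 ∪ (ζ ∪ ω0)) xi v)))) := by
    unfold NN
    rw [HL_split hrb.le, union_comm, Ex_union hf AL_HL_disj.symm, HL_split hρr.le,
      Ex_union hf AL_HL_disj]
    refine Ex_congr fun ζ _ => Ex_congr fun ω0 _ => Ex_congr fun ω2 _ => ?_
    rw [union_comm (ζ ∪ ω0) ω2]
  have e2 : ∀ ζ, ζ ⊆ AL κ w ρ r → ∀ ω0, ω0 ⊆ HL κ w ρ →
      Ex hf (AL κ w r b) (fun ω2 => F (CS (FW κ w) (ω2 ∪ (ζ ∪ ω0)) xi) *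
        ind (∃ v, Far w b v ∧ Co (ω2 ∪ (ζ ∪ ω0)) xi v)) ≤
      ind (Zg κ w ρ r b κ1 ζ) * F (CS (FW κ w) (ζ ∪ ω0) (c ζ)) +
      κ1 * (ind (Gd κ w ρ r ζ (c ζ)) * F (CS (FW κ w) (ζ ∪ ω0) (c ζ))) +
      ind (TwoC κ w ρ r ζ) * (u3 κ w r b *
        (F (CS (FW κ w) ω0 xi) * ind (∃ v, Far w ρ v ∧ Co ω0 xi v))) := by
    intro ζ hζ ω0 h0
    set A := F (CS (FW κ w) (ζ ∪ ω0) (c ζ)) with hA
    set B := F (CS (FW κ w) ω0 xi) * ind (∃ v, Far w ρ v ∧ Co ω0 xi v) with hB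
    have hA0 : 0 ≤ A := hD.1 _
    have hB0 : 0 ≤ B := mul_nonneg (hD.1 _) (ind_nonneg _)
    have h1 : ∀ ω2, ω2 ⊆ AL κ w r b → F (CS (FW κ w) (ω2 ∪ (ζ ∪ ω0)) xi) *
        ind (∃ v, Far w b v ∧ Co (ω2 ∪ (ζ ∪ ω0)) xi v) ≤
        ind (Zg κ w ρ r b κ1 ζ) * A +
        (ind (Gd κ w ρ r ζ (c ζ) ∧ ¬ Zg κ w ρ r b κ1 ζ) * A) * ind (RC κ w b ζ (c ζ) ω2) +
        (ind (TwoC κ w ρ r ζ) * B) * ind (U3 κ w r b ω2) := by
      intro ω2 h2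
      have t1 : 0 ≤ ind (Zg κ w ρ r b κ1 ζ) * A := mul_nonneg (ind_nonneg _) hA0
      have t2 : 0 ≤ (ind (Gd κ w ρ r ζ (c ζ) ∧ ¬ Zg κ w ρ r b κ1 ζ) * A) * ind (RC κ w b ζ (c ζ) ω2) :=
        mul_nonneg (mul_nonneg (ind_nonneg _) hA0) (ind_nonneg _)
      have t3 : 0 ≤ (ind (TwoC κ w ρ r ζ) * B) * ind (U3 κ w r b ω2) :=
        mul_nonneg (mul_nonneg (ind_nonneg _) hB0) (ind_nonneg _)
      by_cases hF : F (CS (FW κ w) (ω2 ∪ (ζ ∪ ω0)) xi) = 0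
      · rw [hF, zero_mul]
        linarith
      by_cases hr : ∃ v, Far w b v ∧ Co (ω2 ∪ (ζ ∪ ω0)) xi v
      · rw [ind_true hr, mul_one]
        rcases D1 hκ hD hS hm hρr hrb hxi hxw h2 hζ h0 hF hr with ⟨g1, g2, g3⟩ | ⟨g1, g2, g3, g4⟩
        · by_cases hZ : Zg κ w ρ r b κ1 ζ
          · rw [ind_true hZ, one_mul]
            linarith
          · have e3 : ind (Gd κ w ρ r ζ (c ζ) ∧ ¬ Zg κ w ρ r b κ1 ζ) = 1 := ind_true ⟨g1, hZ⟩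
            have e4 : ind (RC κ w b ζ (c ζ) ω2) = 1 := ind_true g2
            rw [e3, e4, one_mul, mul_one]
            linarith
        · rw [ind_true g1, ind_true g2, one_mul, mul_one]
          have : B = F (CS (FW κ w) ω0 xi) := by rw [hB, ind_true g3, mul_one]
          linarith
      · rw [ind_false hr, mul_zero]
        linarith
    refine (Ex_mono hf_Pb h1).trans ?_
    rw [Ex_add, Ex_add, Ex_const, Ex_smul, Ex_smul]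
    have h3 : Ex hf (AL κ w r b) (fun ω2 => ind (U3 κ w r b ω2)) = u3 κ w r b := by
      have : PrP hf (AL κ w r b) (U3 κ w r b) = u3 κ w r b := by rw [hf_Pr]; rfl
      exact this
    rw [h3]
    have h4 : ind (Gd κ w ρ r ζ (c ζ) ∧ ¬ Zg κ w ρ r b κ1 ζ) * A *
        Ex hf (AL κ w r b) (fun ω2 => ind (RC κ w b ζ (c ζ) ω2)) ≤
        κ1 * (ind (Gd κ w ρ r ζ (c ζ)) * A) := by
      by_cases hg : Gd κ w ρ r ζ (c ζ) ∧ ¬ Zg κ w ρ r b κ1 ζ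
      · have h5 : PrP hf (AL κ w r b) (RC κ w b ζ (c ζ)) ≤ κ1 := by
          by_contra h6
          exact hg.2 ⟨hg.1, (not_le.1 h6).le⟩
        rw [ind_true hg, ind_true hg.1, one_mul]
        have h6 : Ex hf (AL κ w r b) (fun ω2 => ind (RC κ w b ζ (c ζ) ω2)) ≤ κ1 := h5
        nlinarith
      · rw [ind_false hg, zero_mul, zero_mul]
        exact mul_nonneg hκ1 (mul_nonneg (ind_nonneg _) hA0)
    have h5 : ind (TwoC κ w ρ r ζ) * B * u3 κ w r b = ind (TwoC κ w ρ r ζ) * (u3 κ w r b * B) := by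
      ring
    rw [h5]
    linarith
  rw [e1]
  refine (Ex_mono hf_Pb fun ζ hζ => Ex_mono hf_Pb fun ω0 h0 => e2 ζ hζ ω0 h0).trans ?_
  have e3 : ∀ ζ, Ex hf (HL κ w ρ) (fun ω0 => ind (Zg κ w ρ r b κ1 ζ) * F (CS (FW κ w) (ζ ∪ ω0) (c ζ)) +
      κ1 * (ind (Gd κ w ρ r ζ (c ζ)) * F (CS (FW κ w) (ζ ∪ ω0) (c ζ))) +
      ind (TwoC κ w ρ r ζ) * (u3 κ w r b *
        (F (CS (FW κ w) ω0 xi) * ind (∃ v, Far w ρ v ∧ Co ω0 xi v)))) =
      ind (Zg κ w ρ r b κ1 ζ) * fv κ w ρ F (FW κ w) ζ (c ζ) +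
      κ1 * (ind (Gd κ w ρ r ζ (c ζ)) * fv κ w ρ F (FW κ w) ζ (c ζ)) +
      (u3 κ w r b * N0) * ind (TwoC κ w ρ r ζ) := by
    intro ζ
    rw [Ex_add, Ex_add, Ex_smul, Ex_smul, Ex_smul, Ex_smul, Ex_smul]
    rw [hN0]
    unfold fv NN
    ring
  rw [Ex_congr fun ζ _ => e3 ζ, Ex_add, Ex_add, Ex_smul, Ex_smul]
  have e4 := gd_le (κ := κ) (ρ := ρ) (r := r) hD hS hρr.le
  have e5 := mul_le_mul_of_nonneg_left e4 hκ1
  have e6 : Ex hf (AL κ w ρ r) (fun ζ => ind (TwoC κ w ρ r ζ)) =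
      PrP hf (AL κ w ρ r) (TwoC κ w ρ r) := rfl
  rw [e6]
  have e7 : Ex hf (AL κ w ρ r) (fun ζ => ind (Zg κ w ρ r b κ1 ζ) * fv κ w ρ F (FW κ w) ζ (c ζ)) =
      UF κ w ρ r b κ1 F := rfl
  rw [e7]
  have e8 : u3 κ w r b * N0 * PrP hf (AL κ w ρ r) (TwoC κ w ρ r) =
      PrP hf (AL κ w ρ r) (TwoC κ w ρ r) * (u3 κ w r b * N0) := by ring
  rw [e8]
  linarith

end Pool.Agent.H20.Q1
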