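import Mathlib

set_option autoImplicit false
open Finset

/-!
# Two copies: coupling of two systems, abstract form
-/

namespace Pool.Agent.H20.Q1

variable {I : Type*}

/-- one step, general form -/
lemma step_bound (Ω : Finset I) {p r r' φ ψ φ' ψ' e e' : I → ℝ} {K W : ℝ}
    (hr : ∀ ω ∈ Ω, 0 ≤ r ω ∧ r ω ≤ p ω) (hr' : ∀ ω ∈ Ω, 0 ≤ r' ω ∧ r' ω ≤ p ω)
    (hz : (∑ ω ∈ Ω, r ω * φ ω) * (∑ ω ∈ Ω, r' ω * ψ' ω) -
      (∑ ω ∈ Ω, r' ω * φ' ω) * (∑ ω ∈ Ω, r ω * ψ ω) = 0)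
    (he : ∀ ω ∈ Ω, 0 ≤ e ω) (he' : ∀ ω ∈ Ω, 0 ≤ e' ω) (hW : 0 ≤ W)
    (hB : ∀ ω ∈ Ω, ∀ ω' ∈ Ω, |φ ω * ψ' ω' - φ' ω' * ψ ω| ≤
      K * (2 * (ψ ω * ψ' ω')) + W * (e ω * e' ω')) :
    |(∑ ω ∈ Ω, p ω * φ ω) * (∑ ω ∈ Ω, p ω * ψ' ω) - (∑ ω ∈ Ω, p ω * φ' ω) * (∑ ω ∈ Ω, p ω * ψ ω)| ≤
      K * (2 * ((∑ ω ∈ Ω, p ω * ψ ω) * (∑ ω ∈ Ω, p ω * ψ' ω) -
        (∑ ω ∈ Ω, r ω * ψ ω) * (∑ ω ∈ Ω, r' ω * ψ' ω))) +
      W * ((∑ ω ∈ Ω, p ω * e ω) * (∑ ω ∈ Ω, p ω * e' ω)) := by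
  have prod : ∀ (a b : I → ℝ), (∑ ω ∈ Ω, a ω) * (∑ ω ∈ Ω, b ω) = ∑ ω ∈ Ω, ∑ ω' ∈ Ω, a ω * b ω' :=
    fun a b => by rw [sum_mul_sum]
  have h1 : (∑ ω ∈ Ω, p ω * φ ω) * (∑ ω ∈ Ω, p ω * ψ' ω) -
      (∑ ω ∈ Ω, p ω * φ' ω) * (∑ ω ∈ Ω, p ω * ψ ω) =
      ∑ ω ∈ Ω, ∑ ω' ∈ Ω, (p ω * p ω' - r ω * r' ω') * (φ ω * ψ' ω' - φ' ω' * ψ ω) := by
    have e1 : (∑ ω ∈ Ω, p ω * φ' ω) * (∑ ω ∈ Ω, p ω * ψ ω) =
        (∑ ω ∈ Ω, p ω * ψ ω) * (∑ ω ∈ Ω, p ω * φ' ω) := mul_comm _ _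
    have e2 : (∑ ω ∈ Ω, r' ω * φ' ω) * (∑ ω ∈ Ω, r ω * ψ ω) =
        (∑ ω ∈ Ω, r ω * ψ ω) * (∑ ω ∈ Ω, r' ω * φ' ω) := mul_comm _ _
    rw [e2] at hz
    rw [e1, ← sub_zero ((∑ ω ∈ Ω, p ω * φ ω) * (∑ ω ∈ Ω, p ω * ψ' ω) -
      (∑ ω ∈ Ω, p ω * ψ ω) * (∑ ω ∈ Ω, p ω * φ' ω)), ← hz, prod, prod, prod, prod,
      ← sum_sub_distrib, ← sum_sub_distrib, ← sum_sub_distrib]
    refine sum_congr rfl fun ω _ => ?_
    rw [← sum_sub_distrib, ← sum_sub_distrib, ← sum_sub_distrib]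
    refine sum_congr rfl fun ω' _ => ?_
    ring
  have hpr : ∀ ω ∈ Ω, ∀ ω' ∈ Ω, 0 ≤ p ω * p ω' - r ω * r' ω' := fun ω hω ω' hω' => by
    have := mul_le_mul (hr ω hω).2 (hr' ω' hω').2 (hr' ω' hω').1
      ((hr ω hω).1.trans (hr ω hω).2)
    linarith
  rw [h1]
  refine (abs_sum_le_sum_abs _ _).trans ?_
  have h2 : ∀ ω ∈ Ω, |∑ ω' ∈ Ω, (p ω * p ω' - r ω * r' ω') * (φ ω * ψ' ω' - φ' ω' * ψ ω)| ≤
      ∑ ω' ∈ Ω, ((K * (2 * ((p ω * ψ ω) * (p ω' * ψ' ω') - (r ω * ψ ω) * (r' ω' * ψ' ω')))) +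
        W * ((p ω * e ω) * (p ω' * e' ω'))) := by
    intro ω hω
    refine (abs_sum_le_sum_abs _ _).trans (sum_le_sum fun ω' hω' => ?_)
    rw [abs_mul, abs_of_nonneg (hpr ω hω ω' hω')]
    refine (mul_le_mul_of_nonneg_left (hB ω hω ω' hω') (hpr ω hω ω' hω')).trans ?_
    have h3 : 0 ≤ r ω * r' ω' * (W * (e ω * e' ω')) :=
      mul_nonneg (mul_nonneg (hr ω hω).1 (hr' ω' hω').1)
        (mul_nonneg hW (mul_nonneg (he ω hω) (he' ω' hω')))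
    nlinarith
  refine (sum_le_sum h2).trans (le_of_eq ?_)
  rw [prod, prod, prod, ← sum_sub_distrib]
  rw [mul_sum, mul_sum, mul_sum, ← sum_add_distrib]
  refine sum_congr rfl fun ω _ => ?_
  rw [← sum_sub_distrib, mul_sum, mul_sum, mul_sum, ← sum_add_distrib]

/-- the error term -/
noncomputable def Wd (HJ σ t : ℝ) (m d : ℕ) : ℝ :=
  if m = 0 then 0 else 2 * HJ ^ 2 * σ ^ (2 * d) * t ^ (d + 1 - m)

/-- **two copies** -/
theorem two_copy {S : Type*} (J : ℕ) (V al : ℕ → S → Prop) (Ω : ℕ → Finset I) (p : ℕ → I → ℝ)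
    (nx : ℕ → S → I → S) (f g : ℕ → S → ℝ) {H Uf Ug : ℕ → ℝ} {θ σ t : ℝ} (hθ0 : 0 ≤ θ) (hθ1 : θ ≤ 1)
    (hσ : 0 ≤ σ) (ht0 : 0 ≤ t) (ht1 : t ≤ 1)
    (hp : ∀ j, ∀ ω ∈ Ω j, 0 ≤ p j ω)
    (hV : ∀ j s, j < J → V j s → ∀ ω ∈ Ω j, V (j + 1) (nx j s ω))
    (hf : ∀ j s, j < J → V j s → f j s = ∑ ω ∈ Ω j, p j ω * f (j + 1) (nx j s ω))
    (hg : ∀ j s, j < J → V j s → g j s = ∑ ω ∈ Ω j, p j ω * g (j + 1) (nx j s ω))
    (hfg : ∀ j s, j ≤ J → V j s → |f j s| ≤ g j s)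
    (hgH : ∀ j s, j ≤ J → V j s → g j s ≤ H j)
    (hal : ∀ j s, j ≤ J → V j s → ¬ al j s → g j s = 0)
    (hsur : ∀ j s, j < J → V j s → ∃ e : I → ℝ, (∀ ω ∈ Ω j, 0 ≤ e ω) ∧
      (∀ ω ∈ Ω j, al (j + 1) (nx j s ω) → 1 ≤ e ω) ∧ ∑ ω ∈ Ω j, p j ω * e ω ≤ σ ∧
      ((∑ ω ∈ Ω j, p j ω * e ω ≤ t * σ) ∨
        ∃ (r : I → ℝ) (a : ℝ), (∀ ω ∈ Ω j, 0 ≤ r ω ∧ r ω ≤ p j ω) ∧
          ∑ ω ∈ Ω j, r ω * f (j + 1) (nx j s ω) = a * Uf j ∧
          ∑ ω ∈ Ω j, r ω * g (j + 1) (nx j s ω) = a * Ug j ∧ θ * H j ≤ a * Ug j)) :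
    ∀ d j, j + d = J → ∀ m s s', V j s → V j s' →
      |f j s * g j s' - f j s' * g j s| ≤
        (1 - θ ^ 2) ^ m * (2 * (g j s * g j s')) + Wd (H J) σ t m d := by
  have hθ2 : 0 ≤ 1 - θ ^ 2 := by nlinarith
  have hg0 : ∀ j s, j ≤ J → V j s → 0 ≤ g j s := fun j s hj hs =>
    (abs_nonneg _).trans (hfg j s hj hs)
  have triv : ∀ j s s', j ≤ J → V j s → V j s' → |f j s * g j s' - f j s' * g j s| ≤
      2 * (g j s * g j s') := by
    intro j s s' hj hs hs'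
    have h1 := hfg j s hj hs
    have h2 := hfg j s' hj hs'
    have h3 := hg0 j s hj hs
    have h4 := hg0 j s' hj hs'
    rw [abs_le] at h1 h2 ⊢
    constructor <;> nlinarith
  have hWd : ∀ m d, 0 ≤ Wd (H J) σ t m d := by
    intro m d
    unfold Wd
    split_ifs
    · exact le_rfl
    · positivity
  intro d
  induction d with
  | zero =>
    intro j hj m s s' hs hs'
    have hj' : j = J := by omega
    subst hj'
    have h1 := triv j s s' le_rfl hs hs'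
    rcases Nat.eq_zero_or_pos m with hm | hm
    · subst hm
      simp only [pow_zero, one_mul]
      have := hWd 0 0
      linarith
    · have h2 : Wd (H j) σ t m 0 = 2 * H j ^ 2 := by
        unfold Wd
        rw [if_neg (by omega)]
        have : 0 + 1 - m = 0 := by omega
        rw [this]
        simp
      rw [h2]
      have h3 := hg0 j s le_rfl hs
      have h4 := hg0 j s' le_rfl hs'
      have h5 := hgH j s le_rfl hs
      have h6 := hgH j s' le_rfl hs'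
      have h7 : g j s * g j s' ≤ H j ^ 2 := by nlinarith
      have h8 : 0 ≤ (1 - θ ^ 2) ^ m * (2 * (g j s * g j s')) := by positivity
      linarith
  | succ d ih =>
    intro j hj m s s' hs hs'
    have hjJ : j < J := by omega
    rcases Nat.eq_zero_or_pos m with hm | hm
    · subst hm
      simp only [pow_zero, one_mul]
      have := hWd 0 (d + 1)
      have := triv j s s' hjJ.le hs hs'
      linarith
    obtain ⟨m, rfl⟩ : ∃ m', m = m' + 1 := ⟨m - 1, by omega⟩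
    have ih' := ih (j + 1) (by omega)
    obtain ⟨e, he0, he1, he2, he3⟩ := hsur j s hjJ hs
    obtain ⟨e', he0', he1', he2', he3'⟩ := hsur j s' hjJ hs'
    have hIH : ∀ m', ∀ ω ∈ Ω j, ∀ ω' ∈ Ω j,
        |f (j + 1) (nx j s ω) * g (j + 1) (nx j s' ω') -
          f (j + 1) (nx j s' ω') * g (j + 1) (nx j s ω)| ≤
        (1 - θ ^ 2) ^ m' * (2 * (g (j + 1) (nx j s ω) * g (j + 1) (nx j s' ω'))) +
          Wd (H J) σ t m' d * (e ω * e' ω') := by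
      intro m' ω hω ω' hω'
      have hv := hV j s hjJ hs ω hω
      have hv' := hV j s' hjJ hs' ω' hω'
      have h3 := hg0 (j + 1) _ hjJ hv
      have h4 := hg0 (j + 1) _ hjJ hv'
      by_cases ha : al (j + 1) (nx j s ω) ∧ al (j + 1) (nx j s' ω')
      · refine (ih' m' _ _ hv hv').trans ?_
        have h1 := he1 ω hω ha.1
        have h2 := he1' ω' hω' ha.2
        have h5 : 1 ≤ e ω * e' ω' := by nlinarith
        have := mul_le_mul_of_nonneg_left h5 (hWd m' d)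
        linarith
      · have h5 : |f (j + 1) (nx j s ω) * g (j + 1) (nx j s' ω') -
            f (j + 1) (nx j s' ω') * g (j + 1) (nx j s ω)| ≤ 0 := by
          refine (triv (j + 1) _ _ hjJ hv hv').trans ?_
          by_cases h6 : al (j + 1) (nx j s ω)
          · rw [hal (j + 1) (nx j s' ω') hjJ hv' (by tauto)]
            simp
          · rw [hal (j + 1) (nx j s ω) hjJ hv h6]
            simp
        refine h5.trans ?_
        have h7 := mul_nonneg (he0 ω hω) (he0' ω' hω')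
        have h8 := mul_nonneg (hWd m' d) h7
        have h9 : 0 ≤ (1 - θ ^ 2) ^ m' *
            (2 * (g (j + 1) (nx j s ω) * g (j + 1) (nx j s' ω'))) := by positivity
        linarith
    have hsum0 : 0 ≤ ∑ ω ∈ Ω j, p j ω * e ω := sum_nonneg fun ω hω => mul_nonneg (hp j ω hω) (he0 ω hω)
    have hsum0' : 0 ≤ ∑ ω ∈ Ω j, p j ω * e' ω :=
      sum_nonneg fun ω hω => mul_nonneg (hp j ω hω) (he0' ω hω)
    have h3 := hg0 j s hjJ.le hs
    have h4 := hg0 j s' hjJ.le hs'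
    -- the two cases
    by_cases hbad : (∑ ω ∈ Ω j, p j ω * e ω ≤ t * σ) ∨ (∑ ω ∈ Ω j, p j ω * e' ω ≤ t * σ)
    · -- a bad state
      have h1 := step_bound (Ω j) (p := p j) (r := fun _ => 0) (r' := fun _ => 0)
        (φ := fun ω => f (j + 1) (nx j s ω)) (ψ := fun ω => g (j + 1) (nx j s ω))
        (φ' := fun ω => f (j + 1) (nx j s' ω)) (ψ' := fun ω => g (j + 1) (nx j s' ω))
        (e := e) (e' := e') (K := (1 - θ ^ 2) ^ (m + 1)) (W := Wd (H J) σ t (m + 1) d)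
        (fun ω hω => ⟨le_rfl, hp j ω hω⟩) (fun ω hω => ⟨le_rfl, hp j ω hω⟩) (by simp) he0 he0'
        (hWd _ _) (hIH (m + 1))
      rw [← hf j s hjJ hs, ← hf j s' hjJ hs', ← hg j s hjJ hs, ← hg j s' hjJ hs'] at h1
      refine h1.trans ?_
      simp only [zero_mul, sum_const_zero, sub_zero]
      have h5 : (∑ ω ∈ Ω j, p j ω * e ω) * (∑ ω ∈ Ω j, p j ω * e' ω) ≤ t * σ ^ 2 := by
        rcases hbad with hb | hb
        · calc _ ≤ (t * σ) * σ := mul_le_mul hb he2' hsum0' (by positivity)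
            _ = t * σ ^ 2 := by ring
        · calc _ ≤ σ * (t * σ) := mul_le_mul he2 hb hsum0' hσ
            _ = t * σ ^ 2 := by ring
      have h6 := mul_le_mul_of_nonneg_left h5 (hWd (m + 1) d)
      have h7 : Wd (H J) σ t (m + 1) d * (t * σ ^ 2) ≤ Wd (H J) σ t (m + 1) (d + 1) := by
        unfold Wd
        rw [if_neg (by omega), if_neg (by omega)]
        have h8 : t ^ (d + 1 - (m + 1)) * t ≤ t ^ (d + 1 + 1 - (m + 1)) := by
          rw [← pow_succ]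
          exact pow_le_pow_of_le_one ht0 ht1 (by omega)
        have h9 : 0 ≤ 2 * H J ^ 2 * σ ^ (2 * (d + 1)) := by positivity
        calc 2 * H J ^ 2 * σ ^ (2 * d) * t ^ (d + 1 - (m + 1)) * (t * σ ^ 2)
            = 2 * H J ^ 2 * σ ^ (2 * (d + 1)) * (t ^ (d + 1 - (m + 1)) * t) := by ring
          _ ≤ 2 * H J ^ 2 * σ ^ (2 * (d + 1)) * t ^ (d + 1 + 1 - (m + 1)) :=
            mul_le_mul_of_nonneg_left h8 h9
      linarith
    · push Not at hbad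
      obtain ⟨r, a, hr1, hr2, hr3, hr4⟩ := he3.resolve_left (not_le.2 hbad.1)
      obtain ⟨r', a', hr1', hr2', hr3', hr4'⟩ := he3'.resolve_left (not_le.2 hbad.2)
      have h1 := step_bound (Ω j) (p := p j) (r := r) (r' := r')
        (φ := fun ω => f (j + 1) (nx j s ω)) (ψ := fun ω => g (j + 1) (nx j s ω))
        (φ' := fun ω => f (j + 1) (nx j s' ω)) (ψ' := fun ω => g (j + 1) (nx j s' ω))
        (e := e) (e' := e') (K := (1 - θ ^ 2) ^ m) (W := Wd (H J) σ t m d)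
        hr1 hr1' (by rw [hr2, hr3, hr2', hr3']; ring) he0 he0' (hWd _ _) (hIH m)
      rw [← hf j s hjJ hs, ← hf j s' hjJ hs', ← hg j s hjJ hs, ← hg j s' hjJ hs', hr3, hr3'] at h1
      refine h1.trans ?_
      have h5 : (∑ ω ∈ Ω j, p j ω * e ω) * (∑ ω ∈ Ω j, p j ω * e' ω) ≤ σ ^ 2 := by
        calc _ ≤ σ * σ := mul_le_mul he2 he2' hsum0' hσ
          _ = σ ^ 2 := by ring
      have h6 := mul_le_mul_of_nonneg_left h5 (hWd m d)
      have h7 : Wd (H J) σ t m d * σ ^ 2 ≤ Wd (H J) σ t (m + 1) (d + 1) := by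
        rcases Nat.eq_zero_or_pos m with hm0 | hm0
        · subst hm0
          have : Wd (H J) σ t 0 d = 0 := by unfold Wd; simp
          rw [this, zero_mul]
          exact hWd _ _
        · unfold Wd
          rw [if_neg (by omega), if_neg (by omega)]
          have : d + 1 + 1 - (m + 1) = d + 1 - m := by omega
          rw [this]
          apply le_of_eq
          ring
      have hH1 := hgH j s hjJ.le hs
      have hH2 := hgH j s' hjJ.le hs'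
      have hH0 : 0 ≤ H j := h3.trans hH1
      have h8 : θ ^ 2 * (g j s * g j s') ≤ (a * Ug j) * (a' * Ug j) := by
        have e1 : (θ * H j) * (θ * H j) ≤ (a * Ug j) * (a' * Ug j) :=
          mul_le_mul hr4 hr4' (by positivity) ((mul_nonneg hθ0 hH0).trans hr4)
        have e2 : g j s * g j s' ≤ H j * H j := mul_le_mul hH1 hH2 h4 hH0
        have e3 := mul_le_mul_of_nonneg_left e2 (sq_nonneg θ)
        nlinarith
      have h9 : (1 - θ ^ 2) ^ m * (2 * (g j s * g j s' - a * Ug j * (a' * Ug j))) ≤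
          (1 - θ ^ 2) ^ (m + 1) * (2 * (g j s * g j s')) := by
        have hps : (1 - θ ^ 2) ^ (m + 1) = (1 - θ ^ 2) ^ m * (1 - θ ^ 2) := pow_succ _ _
        rw [hps, mul_assoc ((1 - θ ^ 2) ^ m)]
        refine mul_le_mul_of_nonneg_left ?_ (pow_nonneg hθ2 _)
        nlinarith
      linarith

end Pool.Agent.H20.Q1
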