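import Mathlib
import Pool.Agent.H20.Q1.MxDb
import Pool.Agent.H20.Q1.MxTwo

set_option autoImplicit false
open Finset

/-!
# Survival and success kernel of one block
-/

namespace Pool.Agent.H20.Q1

open Pool.Agent.H75.Perc Pool.Agent.H75.TwoArm Pool.Agent.H75.Four Pool.Agent.H49.Perc
open Pool.Agent.H99.NC Pool.Agent.H60.Q1

variable {κ : ℤ} {Wv : ℤ × ℤ → Prop} {η θ ω ω0 ω2 ω' fr 𝒜 L ζ Y z : Finset (ℤ × ℤ)}
  {w x y c0 xi : ℤ × ℤ} {a b m1 m2 ρ R M h r P m : ℤ} {F : Set (ℤ × ℤ) → ℝ} {κ1 : ℝ}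

/-- survival of an arbitrary state -/
lemma surv (hκ : κ = 0 ∨ κ = 1) (hρP : ρ < P) (hflat : Flat κ w P Wv) (hY : ∀ l ∈ Y, l ∉ BR w P)
    (hx : Far w P x) : PrP hf (AL κ w ρ P) (RK Wv Y x w ρ) ≤ u3 κ w ρ P := by
  have h1 : PrP hf (AL κ w ρ P) (U3 κ w ρ P) = u3 κ w ρ P := by rw [hf_Pr]; rfl
  rw [← h1]
  refine PrP_mono hf_Pb fun ω hω h => ?_
  refine RK_U3 hκ hρP hflat hY hx ?_
  rwa [inter_eq_left.2 hω]

/-- survival of a bad state -/
lemma surv_bad (hκ : κ = 0 ∨ κ = 1) (hρa : ρ < a) (haP : a < P) (hflat : Flat κ w P Wv)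
    (hY : ∀ l ∈ Y, l ∉ BR w P) (hx : Far w P x) :
    PrP hf (AL κ w ρ P) (RK Wv Y x w ρ) ≤
      u3 κ w ρ a * PrP hf (AL κ w a P) (RK Wv Y x w a) := by
  set E1 := AL κ w ρ a with hE1
  have hsub : E1 ⊆ AL κ w ρ P := by
    rw [AL_split hρa.le haP.le]
    exact subset_union_left
  have hsd : AL κ w ρ P \ E1 = AL κ w a P := by
    rw [AL_split hρa.le haP.le, union_sdiff_left]
    exact sdiff_eq_self_of_disjoint AL_AL_disj.symm
  have h1 : PrP hf E1 (U3 κ w ρ a) = u3 κ w ρ a := by rw [hf_Pr]; rfl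
  rw [← h1, ← hsd, ← PrP_split hf hsub]
  refine PrP_mono hf_Pb fun ω hω h => ?_
  obtain ⟨h2, u, h3, h4⟩ := h
  have hYa : ∀ l ∈ Y ∪ (ω \ E1), l ∉ BR w a := by
    intro l hl hl'
    rcases mem_union.1 hl with h5 | h5
    · exact hY l h5 (BR_mono haP.le hl')
    · have h6 : l ∈ AL κ w ρ P \ E1 := mem_sdiff.2 ⟨hω (mem_sdiff.1 h5).1, (mem_sdiff.1 h5).2⟩
      rw [hsd, mem_AL'] at h6
      exact h6.2.1 hl'
  have hun : Y ∪ (ω \ E1) ∪ (ω ∩ AL κ w ρ a) = Y ∪ ω := by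
    rw [union_assoc, ← hE1, sdiff_union_inter]
  refine ⟨?_, fun v hv => h2 v (hv.mono (union_subset_union_right sdiff_subset)), ?_⟩
  · rw [← U3_local]
    refine RK_U3 (Y := Y ∪ (ω \ E1)) (Wv := Wv) (x := x) hκ hρa
      (fun v hv hv' => hflat v (by rw [inR_iff] at hv ⊢; omega) hv') hYa
      (by unfold Far at hx ⊢; omega) ?_
    unfold RK
    rw [hun]
    exact ⟨h2, u, h3, h4⟩
  · have key : ∀ v, Co (Y ∪ ω) x v → Co (Y ∪ (ω \ E1)) x v ∨
        ∃ u, inR w a u ∧ Co (Y ∪ (ω \ E1)) x u := by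
      intro v hv
      induction hv with
      | refl => exact Or.inl (Co.refl _ _)
      | @tail p q _ hpq ih =>
        rcases ih with ih | ih
        · rcases mem_union.1 hpq.2 with h5 | h5
          · exact Or.inl (ih.tail ⟨hpq.1, mem_union_left _ h5⟩)
          · by_cases h6 : p + q ∈ E1
            · exact Or.inr ⟨p, (BR_ends hpq.1 (mem_AL'.1 h6).1).1, ih⟩
            · exact Or.inl (ih.tail ⟨hpq.1, mem_union_right _ (mem_sdiff.2 ⟨h5, h6⟩)⟩)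
        · exact Or.inr ih
    rcases key u h4 with h5 | h5
    · exact ⟨u, by rw [inR_iff] at h3 ⊢; omega, h5⟩
    · exact h5

/-- **success kernel** -/
theorem kernel (hκ : κ = 0 ∨ κ = 1) (hρr : ρ < r) (hrP : r < P) {α : ℝ} (hα : 0 < α)
    (hflat : Flat κ w P Wv) (hY : ∀ l ∈ Y, l ∉ BR w P)
    (hlink : ∀ ζ, ζ ⊆ AL κ w ρ r → Zg κ w ρ r b κ1 ζ →
      α ≤ PrP hf (AL κ w r P) (fun ω => ¬ WC Wv (Y ∪ ζ ∪ ω) x ∧ Co (Y ∪ ζ ∪ ω) x (cG κ w ρ r ζ))) :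
    ∃ rr : Finset (ℤ × ℤ) → ℝ,
      (∀ ω ∈ (AL κ w ρ P).powerset, 0 ≤ rr ω ∧ rr ω ≤ wt hf (AL κ w ρ P) ω) ∧
      ∀ F : Set (ℤ × ℤ) → ℝ, ∑ ω ∈ (AL κ w ρ P).powerset, rr ω * fv κ w ρ F Wv (Y ∪ ω) x =
        α * UF κ w ρ r b κ1 F := by
  classical
  set E := AL κ w ρ r with hE
  set Lk := fun (ζ ω : Finset (ℤ × ℤ)) =>
    ¬ WC Wv (Y ∪ ζ ∪ ω) x ∧ Co (Y ∪ ζ ∪ ω) x (cG κ w ρ r ζ) with hLk
  set L := fun ζ => PrP hf (AL κ w r P) (Lk ζ) with hL
  set S := fun (ζ ω : Finset (ℤ × ℤ)) =>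
    ind (Zg κ w ρ r b κ1 ζ) * ind (Lk ζ ω) * (α / L ζ) with hS
  have hS0 : ∀ ζ, ζ ⊆ E → ∀ ω, 0 ≤ S ζ ω ∧ S ζ ω ≤ 1 := by
    intro ζ hζ ω
    simp only [hS]
    by_cases hZ : Zg κ w ρ r b κ1 ζ
    · have h1 : α ≤ L ζ := hlink ζ hζ hZ
      have h2 : 0 < L ζ := hα.trans_le h1
      have h3 : α / L ζ ≤ 1 := (div_le_one h2).2 h1
      have h4 : 0 ≤ α / L ζ := by positivity
      rw [ind_true hZ, one_mul]
      have h5 := ind_nonneg (Lk ζ ω)
      have h6 := ind_le_one (Lk ζ ω)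
      exact ⟨mul_nonneg h5 h4, mul_le_one₀ h6 h4 h3⟩
    · rw [ind_false hZ, zero_mul, zero_mul]
      exact ⟨le_rfl, zero_le_one⟩
  refine ⟨fun ω => wt hf (AL κ w ρ P) ω * S (ω ∩ E) (ω \ E), fun ω _ => ?_, fun F => ?_⟩
  · obtain ⟨h1, h2⟩ := hS0 (ω ∩ E) inter_subset_right (ω \ E)
    have h3 := wt_nonneg hf_Pb (AL κ w ρ P) ω
    exact ⟨mul_nonneg h3 h1, mul_le_of_le_one_right h3 h2⟩
  · have e1 : ∑ ω ∈ (AL κ w ρ P).powerset, wt hf (AL κ w ρ P) ω * S (ω ∩ E) (ω \ E) *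
        fv κ w ρ F Wv (Y ∪ ω) x =
        Ex hf (AL κ w ρ P) (fun ω => S (ω ∩ E) (ω \ E) * fv κ w ρ F Wv (Y ∪ ω) x) := by
      unfold Ex
      exact sum_congr rfl fun ω _ => by ring
    rw [e1, AL_split hρr.le hrP.le, Ex_union hf AL_AL_disj]
    unfold UF
    rw [← Ex_smul]
    refine Ex_congr fun ζ hζ => ?_
    have e2 : Ex hf (AL κ w r P) (fun ω2 => S ((ζ ∪ ω2) ∩ E) ((ζ ∪ ω2) \ E) *
        fv κ w ρ F Wv (Y ∪ (ζ ∪ ω2)) x) =
        Ex hf (AL κ w r P) (fun ω2 => (ind (Zg κ w ρ r b κ1 ζ) * (α / L ζ) *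
          fv κ w ρ F (FW κ w) ζ (cG κ w ρ r ζ)) * ind (Lk ζ ω2)) := by
      refine Ex_congr fun ω2 h2 => ?_
      have hd : Disjoint ω2 E := by
        have := (AL_AL_disj (κ := κ) (w := w) (ρ := ρ) (M := r) (R := P)).symm
        exact disjoint_of_subset_left h2 this
      have e3 : (ζ ∪ ω2) ∩ E = ζ := by
        rw [union_inter_distrib_right, inter_eq_left.2 hζ, disjoint_iff_inter_eq_empty.1 hd,
          union_empty]
      have e4 : (ζ ∪ ω2) \ E = ω2 := by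
        rw [union_sdiff_distrib, sdiff_eq_empty_iff_subset.2 hζ, empty_union,
          sdiff_eq_self_of_disjoint hd]
      rw [e3, e4, ← union_assoc]
      simp only [hS]
      by_cases hZ : Zg κ w ρ r b κ1 ζ
      · by_cases hk : Lk ζ ω2
        · have e5 : fv κ w ρ F Wv (Y ∪ ζ ∪ ω2) x = fv κ w ρ F (FW κ w) ζ (cG κ w ρ r ζ) := by
            unfold fv
            refine Ex_congr fun ω0 h0 => ?_
            rw [loc hκ hρr hζ hZ.1 ?_ h0
              (fun v hv hv' => hflat v (by rw [inR_iff] at hv ⊢; omega) hv') hk.2 ?_]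
            · intro l hl
              rw [mem_union, mem_union]
              constructor
              · rintro ((h3 | h3) | h3)
                · exact absurd (BR_mono hrP.le hl) (hY l h3)
                · exact h3
                · exact absurd hl (mem_AL'.1 (h2 h3)).2.1
              · intro h3
                exact Or.inl (Or.inr h3)
            · intro v hv hW
              exact hk.1 ⟨v, hW, hv.symm⟩
          rw [e5]
          ring
        · rw [ind_false hk]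
          ring
      · rw [ind_false hZ]
        ring
    rw [e2, Ex_smul]
    have e6 : Ex hf (AL κ w r P) (fun ω2 => ind (Lk ζ ω2)) = L ζ := rfl
    rw [e6]
    by_cases hZ : Zg κ w ρ r b κ1 ζ
    · have h1 : α ≤ L ζ := hlink ζ hζ hZ
      have h2 : L ζ ≠ 0 := (hα.trans_le h1).ne'
      rw [ind_true hZ]
      field_simp
    · rw [ind_false hZ]
      ring

end Pool.Agent.H20.Q1
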