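import Mathlib
import Pool.Agent.H20.Q1.MxStep

set_option autoImplicit false
open Finset

/-!
# Mixing at a flat natural wall: the chain of blocks
-/

namespace Pool.Agent.H20.Q1

open Pool.Agent.H75.Perc Pool.Agent.H75.TwoArm Pool.Agent.H75.Four Pool.Agent.H49.Perc
open Pool.Agent.H99.NC Pool.Agent.H60.Q1

/-- states: wall vertices, open labels outside, base vertex -/
abbrev Sta : Type := (ℤ × ℤ → Prop) × Finset (ℤ × ℤ) × (ℤ × ℤ)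

/-- valid state at radius `P` -/
def VV (κ : ℤ) (w : ℤ × ℤ) (P : ℤ) (s : Sta) : Prop :=
  Flat κ w P s.1 ∧ (∀ l ∈ s.2.1, l ∉ BR w P) ∧ Far w P s.2.2

/-- alive state -/
def AA (w : ℤ × ℤ) (P : ℤ) (s : Sta) : Prop :=
  (∀ v, Co s.2.1 s.2.2 v → ¬ s.1 v) ∧ ∃ u, inR w P u ∧ Co s.2.1 s.2.2 u

/-- more labels -/
def nxS (s : Sta) (ω : Finset (ℤ × ℤ)) : Sta := (s.1, s.2.1 ∪ ω, s.2.2)

/-- expectation of `F (contacts)` from the state `s` -/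
noncomputable def fS (κ : ℤ) (w : ℤ × ℤ) (P : ℤ) (F : Set (ℤ × ℤ) → ℝ) (s : Sta) : ℝ :=
  fv κ w P F s.1 s.2.1 s.2.2

variable {κ : ℤ} {Wv : ℤ × ℤ → Prop} {η θ ω ω0 ω2 ω' fr 𝒜 L ζ Y z : Finset (ℤ × ℤ)}
  {w x y c0 xi : ℤ × ℤ} {a b m1 m2 ρ R M h r P m : ℤ} {F Γ : Set (ℤ × ℤ) → ℝ} {κ1 : ℝ} {s : Sta}

lemma Ex_abs_le {E : Finset (ℤ × ℤ)} {f g : Finset (ℤ × ℤ) → ℝ} (h : ∀ ω, ω ⊆ E → |f ω| ≤ g ω) :
    |Ex hf E f| ≤ Ex hf E g := by
  rw [abs_le]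
  constructor
  · have h1 : Ex hf E (fun ω => (-1 : ℝ) * g ω) ≤ Ex hf E f := Ex_mono hf_Pb fun ω hω => by
      have := (abs_le.1 (h ω hω)).1
      linarith
    rw [Ex_smul] at h1
    linarith
  · exact Ex_mono hf_Pb fun ω hω => (abs_le.1 (h ω hω)).2

lemma fS_abs (hF : ∀ S, |F S| ≤ Γ S) : |fS κ w P F s| ≤ fS κ w P Γ s :=
  Ex_abs_le fun _ _ => hF _

lemma VV_next (hρ : ρ ≤ P) (hV : VV κ w P s) (hω : ω ⊆ AL κ w ρ P) : VV κ w ρ (nxS s ω) := by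
  obtain ⟨h1, h2, h3⟩ := hV
  refine ⟨fun v hv hv' => h1 v (by rw [inR_iff] at hv ⊢; omega) hv', ?_, ?_⟩
  · intro l hl hl'
    rcases mem_union.1 hl with h4 | h4
    · exact h2 l h4 (BR_mono hρ hl')
    · exact (mem_AL'.1 (hω h4)).2.1 hl'
  · show Far w ρ s.2.2
    unfold Far at h3 ⊢
    omega

lemma fS_next (hρ : ρ ≤ P) : fS κ w P F s =
    ∑ ω ∈ (AL κ w ρ P).powerset, wt hf (AL κ w ρ P) ω * fS κ w ρ F (nxS s ω) := by
  unfold fS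
  rw [fv_level hρ]
  rfl

lemma fS_dead (hS : Sup w m xi F) (hm : m < P) (hxi : inR w m xi) (hV : VV κ w P s)
    (h : ¬ AA w P s) : fS κ w P F s = 0 := by
  unfold fS fv
  rw [← Ex_const hf (HL κ w P) 0]
  refine Ex_congr fun ω hω => ?_
  by_contra h1
  exact h (alive_of hS hm hV.1 hxi hV.2.1 hω hV.2.2 h1)

/-- lower bound for the mean over the good inner states -/
lemma U_lower {cN CN C3 ε c1 : ℝ} (hκ : κ = 0 ∨ κ = 1) (hD : Dcr xi Γ) (hS : Sup w m xi Γ)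
    (hm : m < ρ) (hρ : 1 ≤ ρ) (hρr : ρ < r) (hrb : r < b) (hxi : inR w m xi) (hxw : ht κ xi = ht κ w)
    (hCN : 0 < CN) (hC3 : 0 < C3) (hc1 : 0 < c1) (hε0 : 0 ≤ ε)
    (h3 : u3 κ w ρ r ≤ C3 * ((ρ : ℝ) / r) ^ 2) (h3' : u3 κ w r b ≤ C3 * ((r : ℝ) / b) ^ 2)
    (hTC : PrP hf (AL κ w ρ r) (TwoC κ w ρ r) ≤ ε * u3 κ w ρ r)
    (n1 : cN / (b : ℝ) ^ 2 ≤ NN κ w xi Γ b) (n2 : NN κ w xi Γ r ≤ CN / (r : ℝ) ^ 2)
    (n3 : NN κ w xi Γ ρ ≤ CN / (ρ : ℝ) ^ 2) (hc : c1 * CN ≤ cN / 4) (hε : ε * C3 ^ 2 * CN ≤ cN / 4) :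
    cN / (2 * (b : ℝ) ^ 2) ≤ UF κ w ρ r b (c1 * ((r : ℝ) / b) ^ 2) Γ := by
  have hρ0 : (0 : ℝ) < ρ := by exact_mod_cast (by omega : (0 : ℤ) < ρ)
  have hr0 : (0 : ℝ) < r := by exact_mod_cast (by omega : (0 : ℤ) < r)
  have hb0 : (0 : ℝ) < b := by exact_mod_cast (by omega : (0 : ℤ) < b)
  have h4 := Db1 (κ1 := c1 * ((r : ℝ) / b) ^ 2) hκ hD hS hm hρr hrb hxi hxw (by positivity)
  have h5 : c1 * ((r : ℝ) / b) ^ 2 * NN κ w xi Γ r ≤ cN / 4 / (b : ℝ) ^ 2 := by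
    have h6 := mul_le_mul_of_nonneg_left n2 (show 0 ≤ c1 * ((r : ℝ) / b) ^ 2 by positivity)
    refine h6.trans ?_
    have h7 : c1 * ((r : ℝ) / b) ^ 2 * (CN / (r : ℝ) ^ 2) = (c1 * CN) / (b : ℝ) ^ 2 := by
      field_simp
    rw [h7]
    exact div_le_div_of_nonneg_right hc (by positivity)
  have hN0 : 0 ≤ NN κ w xi Γ ρ := Ex_nonneg hf_Pb fun _ _ => mul_nonneg (hD.1 _) (ind_nonneg _)
  have h6 : PrP hf (AL κ w ρ r) (TwoC κ w ρ r) * (u3 κ w r b * NN κ w xi Γ ρ) ≤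
      cN / 4 / (b : ℝ) ^ 2 := by
    have h7 : PrP hf (AL κ w ρ r) (TwoC κ w ρ r) ≤ ε * (C3 * ((ρ : ℝ) / r) ^ 2) :=
      hTC.trans (mul_le_mul_of_nonneg_left h3 hε0)
    have h8 : u3 κ w r b * NN κ w xi Γ ρ ≤ C3 * ((r : ℝ) / b) ^ 2 * (CN / (ρ : ℝ) ^ 2) :=
      mul_le_mul h3' n3 hN0 (by positivity)
    have h9 := mul_le_mul h7 h8 (mul_nonneg u3_nonneg hN0) (by positivity)
    refine h9.trans ?_
    have h10 : ε * (C3 * ((ρ : ℝ) / r) ^ 2) * (C3 * ((r : ℝ) / b) ^ 2 * (CN / (ρ : ℝ) ^ 2)) =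
        (ε * C3 ^ 2 * CN) / (b : ℝ) ^ 2 := by
      field_simp
    rw [h10]
    exact div_le_div_of_nonneg_right hε (by positivity)
  have h7 : cN / (2 * (b : ℝ) ^ 2) = cN / (b : ℝ) ^ 2 - cN / 4 / (b : ℝ) ^ 2 - cN / 4 / (b : ℝ) ^ 2 := by
    field_simp
    ring
  rw [h7]
  linarith

/-- radii of a block -/
def aR (k1 k2 k3 : ℕ) (ρ : ℤ) : ℤ := 2 * (4 ^ k2 * (10 * (4 ^ k3 * (4 ^ k1 * ρ))))

/-- the ratio of a block -/
def Lm (k1 k2 k3 : ℕ) : ℤ := 512 * aR k1 k2 k3 1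

/-- mean over the good inner states of the block of inner radius `ρ` -/
noncomputable def Ub (κ : ℤ) (w : ℤ × ℤ) (k1 k2 k3 : ℕ) (c1 : ℝ) (ρ : ℤ)
    (F : Set (ℤ × ℤ) → ℝ) : ℝ :=
  UF κ w ρ (4 ^ k1 * ρ) (60 * aR k1 k2 k3 ρ)
    (c1 * (((4 ^ k1 * ρ : ℤ) : ℝ) / (60 * aR k1 k2 k3 ρ : ℤ)) ^ 2) F

lemma aR_mul (k1 k2 k3 : ℕ) (ρ : ℤ) : 512 * aR k1 k2 k3 ρ = Lm k1 k2 k3 * ρ := by
  unfold Lm aR
  ring

/-- hypothesis: two crossing clusters -/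
def TC (δ : ℝ) : Prop := ∀ (κ : ℤ), (κ = 0 ∨ κ = 1) → ∀ (w : ℤ × ℤ) (ρ : ℤ), 1 ≤ ρ → ∀ k : ℕ,
  (1 - δ) ^ k ≤ 1 / 2 → PrP hf (AL κ w ρ (4 ^ k * ρ)) (TwoC κ w ρ (4 ^ k * ρ)) ≤
    2 * (1 - δ) ^ k * u3 κ w ρ (4 ^ k * ρ)

/-- bounds for the mass -/
def NB (κ : ℤ) (w xi : ℤ × ℤ) (Γ : Set (ℤ × ℤ) → ℝ) (cN CN : ℝ) (m R : ℤ) : Prop :=
  ∀ r : ℤ, m < r → r ≤ R → cN / (r : ℝ) ^ 2 ≤ NN κ w xi Γ r ∧ NN κ w xi Γ r ≤ CN / (r : ℝ) ^ 2

lemma gd_in (hκ : κ = 0 ∨ κ = 1) (hρr : ρ < r) (hζ : ζ ⊆ AL κ w ρ r) (hG : Gd κ w ρ r ζ c0) :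
    inR w r c0 ∧ ht κ w ≤ ht κ c0 := by
  obtain ⟨hG1, ⟨u0, hG2, hG3⟩, -, -⟩ := hG
  obtain ⟨p0, hp1, hp2, -⟩ := end_in hG3 (near_ne_far hρr hG2 hG1)
  have h1 := mem_AL'.1 (hζ hp2)
  exact ⟨(BR_ends hp1 h1.1).2, (above_ends hκ hp1 h1.2.2).2⟩

lemma aR_ge (k1 k2 k3 : ℕ) {ρ : ℤ} (hρ : 1 ≤ ρ) : 20 * (4 ^ k1 * ρ) ≤ aR k1 k2 k3 ρ := by
  have h2 : (1 : ℤ) ≤ 4 ^ k2 := one_le_pow₀ (by norm_num)
  have h3 : (1 : ℤ) ≤ 4 ^ k3 := one_le_pow₀ (by norm_num)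
  have h1 : (1 : ℤ) ≤ 4 ^ k1 := one_le_pow₀ (by norm_num)
  set r := (4 : ℤ) ^ k1 * ρ with hr
  have hr0 : 0 < r := by positivity
  have h4 : r ≤ 4 ^ k3 * r := by nlinarith
  unfold aR
  rw [← hr]
  have h5 : (10 * (4 ^ k3 * r)) ≤ 4 ^ k2 * (10 * (4 ^ k3 * r)) := by nlinarith
  linarith

lemma num_W {CN C3 Λ ρ : ℝ} (J : ℕ) (hΛ : 0 < Λ) (hρ : 0 < ρ) :
    2 * (CN / ρ ^ 2) ^ 2 * (C3 / Λ ^ 2) ^ (2 * J) = 2 * CN ^ 2 * C3 ^ (2 * J) / (Λ ^ J * ρ) ^ 4 := by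
  have e1 : (Λ ^ J * ρ) ^ 4 = Λ ^ (2 * (2 * J)) * ρ ^ 4 := by
    rw [mul_pow, ← pow_mul]
    congr 2
    ring
  have e2 : (C3 / Λ ^ 2) ^ (2 * J) = C3 ^ (2 * J) / Λ ^ (2 * (2 * J)) := by
    rw [div_pow, ← pow_mul]
  rw [e1, e2]
  field_simp

/-- average over the inner states -/
lemma avg_ref {B c1 : ℝ} {k1 k2 k3 : ℕ} (hP1 : 1 ≤ P) (hB : 0 ≤ B)
    (hbd : ∀ s', VV κ w P s' →
      |fS κ w P F s * fS κ w P Γ s' - fS κ w P F s' * fS κ w P Γ s| ≤ B) :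
    |fS κ w P F s * Ub κ w k1 k2 k3 c1 P Γ - fS κ w P Γ s * Ub κ w k1 k2 k3 c1 P F| ≤ B := by
  have h41 : (1 : ℤ) ≤ 4 ^ k1 := one_le_pow₀ (by norm_num)
  unfold Ub UF
  generalize c1 * (((4 ^ k1 * P : ℤ) : ℝ) / (60 * aR k1 k2 k3 P : ℤ)) ^ 2 = κ1
  generalize 60 * aR k1 k2 k3 P = b
  have h3 : P ≤ 4 ^ k1 * P := by nlinarith
  generalize (4 : ℤ) ^ k1 * P = r at *
  rw [← Ex_smul, ← Ex_smul, ← Ex_sub, ← Ex_const hf (AL κ w P r) B]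
  refine Ex_abs_le fun ζ hζ => ?_
  by_cases hZ : Zg κ w P r b κ1 ζ
  · rw [ind_true hZ, one_mul, one_mul]
    have h1 := hbd (FW κ w, ζ, cG κ w P r ζ) ⟨fun v _ _ => Iff.rfl,
      fun l hl => (mem_AL'.1 (hζ hl)).2.1, by
        have h2 := hZ.1.1
        simp only
        unfold Far at h2 ⊢
        omega⟩
    have h2 : fS κ w P F s * fv κ w P Γ (FW κ w) ζ (cG κ w P r ζ) -
        fS κ w P Γ s * fv κ w P F (FW κ w) ζ (cG κ w P r ζ) =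
        fS κ w P F s * fS κ w P Γ (FW κ w, ζ, cG κ w P r ζ) -
        fS κ w P F (FW κ w, ζ, cG κ w P r ζ) * fS κ w P Γ s := by
      unfold fS
      ring
    rw [h2]
    exact h1
  · rw [ind_false hZ]
    simp only [zero_mul, mul_zero, sub_zero, abs_zero]
    exact hB

/-- **the chain** -/
theorem mix_core {δ cN CN : ℝ} (hδ0 : 0 < δ) (hδ1 : δ < 1) (hTC : TC δ) (hcN : 0 < cN)
    (hCN : 0 < CN) : ∃ (k1 k2 k3 : ℕ) (c1 lam : ℝ), 0 < lam ∧ lam < 1 ∧ 0 < c1 ∧ 1 ≤ k1 ∧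
    ∀ (κ : ℤ), (κ = 0 ∨ κ = 1) → ∀ (w xi : ℤ × ℤ) (m : ℤ) (Γ : Set (ℤ × ℤ) → ℝ), Dcr xi Γ →
      Sup w m xi Γ → inR w m xi → ht κ xi = ht κ w →
      (∀ ρ : ℤ, 1 ≤ ρ → m < ρ → NB κ w xi Γ cN CN m (Lm k1 k2 k3 * ρ) →
        cN / ((Lm k1 k2 k3 * ρ : ℤ) : ℝ) ^ 2 ≤ Ub κ w k1 k2 k3 c1 ρ Γ) ∧
      ∀ F : Set (ℤ × ℤ) → ℝ, (∀ S, |F S| ≤ Γ S) → ∀ (J : ℕ) (ρ P : ℤ), 1 ≤ ρ → m < ρ →
        P = Lm k1 k2 k3 ^ J * ρ → NB κ w xi Γ cN CN m (Lm k1 k2 k3 * P) → ∀ s, VV κ w P s →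
        |fS κ w P F s * Ub κ w k1 k2 k3 c1 P Γ - fS κ w P Γ s * Ub κ w k1 k2 k3 c1 P F| ≤
          6 * CN ^ 2 * lam ^ J / (P : ℝ) ^ 4 := by
  obtain ⟨C3', hC3', hu3'⟩ := u3_le
  set C3 := max C3' 1 with hC3d
  have hC31 : 1 ≤ C3 := le_max_right _ _
  have hC3 : 0 < C3 := by linarith
  have hu3 : ∀ κ : ℤ, (κ = 0 ∨ κ = 1) → ∀ (z : ℤ × ℤ) (ρ R : ℤ), 1 ≤ ρ → 1 ≤ R →
      u3 κ z ρ R ≤ C3 * ((ρ : ℝ) / R) ^ 2 := fun κ hκ z ρ R h1 h2 =>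
    (hu3' κ hκ z ρ R h1 h2).trans (mul_le_mul_of_nonneg_right (le_max_left _ _) (by positivity))
  set c1 := cN / (4 * CN) with hc1
  have hc10 : 0 < c1 := by positivity
  set τ := 1 / (2 * C3 ^ 2) with hτ
  have hτ0 : 0 < τ := by positivity
  have hτ1 : τ ≤ 1 := by
    rw [hτ, div_le_one (by positivity)]
    nlinarith
  set t := τ ^ 2 with ht'
  have ht0 : 0 < t := by positivity
  have ht1 : t ≤ 1 := by rw [ht']; exact pow_le_one₀ hτ0.le hτ1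
  obtain ⟨n1, hn1⟩ := exists_pow_lt_of_lt_one
    (show (0 : ℝ) < min (1 / 2) (cN / (8 * C3 ^ 2 * CN)) by positivity) (show 1 - δ < 1 by linarith)
  set k1 := n1 + 1 with hk1
  have hk1a : (1 - δ) ^ k1 ≤ min (1 / 2) (cN / (8 * C3 ^ 2 * CN)) := by
    rw [hk1, pow_succ]
    have h1 : 0 ≤ (1 - δ) ^ n1 := pow_nonneg (by linarith) _
    nlinarith
  have hk1b : (1 - δ) ^ k1 ≤ 1 / 2 := hk1a.trans (min_le_left _ _)
  have hk1c : (1 - δ) ^ k1 ≤ cN / (8 * C3 ^ 2 * CN) := hk1a.trans (min_le_right _ _)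
  obtain ⟨k2, k3, α, hα0, hα1, hlink⟩ := link (κa := t / 512 ^ 2) (c1 := c1) (by positivity) hc10
  have e41 : (4 : ℤ) ≤ 4 ^ k1 := four_pow_ge (by omega)
  set Λ : ℤ := Lm k1 k2 k3 with hΛ
  have hΛ1 : 10240 ≤ Λ := by
    have h1 := aR_ge k1 k2 k3 (le_refl (1 : ℤ))
    rw [hΛ]
    unfold Lm
    omega
  have hΛ0 : (0 : ℝ) < Λ := by exact_mod_cast (by omega : (0 : ℤ) < Λ)
  set θ := min 1 (α * cN / CN) with hθ
  have hθ0 : 0 < θ := lt_min one_pos (by positivity)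
  have hθ1 : θ ≤ 1 := min_le_left _ _
  set lam := max (1 - θ ^ 2 / 2) (1 / 2) with hlam
  have hlam0 : 0 < lam := lt_of_lt_of_le (by norm_num) (le_max_right _ _)
  have hlam2 : 1 / 2 ≤ lam := le_max_right _ _
  have hlam1 : lam < 1 := max_lt (by have := sq_pos_of_pos hθ0; linarith) (by norm_num)
  -- lower bound for the means
  have hUlow : ∀ (κ : ℤ), (κ = 0 ∨ κ = 1) → ∀ (w xi : ℤ × ℤ) (m : ℤ) (Γ : Set (ℤ × ℤ) → ℝ),
      Dcr xi Γ → Sup w m xi Γ → inR w m xi → ht κ xi = ht κ w →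
      (∀ ρ : ℤ, 1 ≤ ρ → m < ρ → NB κ w xi Γ cN CN m (Λ * ρ) →
        cN / ((Λ * ρ : ℤ) : ℝ) ^ 2 ≤ Ub κ w k1 k2 k3 c1 ρ Γ) := by
    intro κ hκ w xi m Γ hD hS hxi hxw ρ hρ hmρ hNB
    set r := (4 : ℤ) ^ k1 * ρ with hr
    set a := aR k1 k2 k3 ρ with ha
    have h20 : 20 * r ≤ a := aR_ge k1 k2 k3 hρ
    have hρr : 4 * ρ ≤ r := by rw [hr]; exact mul_le_mul_of_nonneg_right e41 (by omega)
    have hP : 512 * a = Λ * ρ := aR_mul k1 k2 k3 ρ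
    have n1 := hNB (60 * a) (by omega) (by rw [← hP]; omega)
    have n2 := hNB r (by omega) (by rw [← hP]; omega)
    have n3 := hNB ρ (by omega) (by rw [← hP]; omega)
    have hεp : 0 ≤ 2 * (1 - δ) ^ k1 := by
      have : 0 ≤ (1 - δ) ^ k1 := pow_nonneg (by linarith) _
      linarith
    have h1 := U_lower (ε := 2 * (1 - δ) ^ k1) hκ hD hS hmρ hρ (show ρ < r by omega)
      (show r < 60 * a by omega) hxi hxw hCN hC3 hc10 hεp
      (hu3 κ hκ w ρ r hρ (by omega)) (hu3 κ hκ w r (60 * a) (by omega) (by omega))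
      (hTC κ hκ w ρ hρ k1 hk1b) n1.1 n2.2 n3.2
      (by rw [hc1]; apply le_of_eq; field_simp)
      (by
        have h2 : 2 * (1 - δ) ^ k1 * C3 ^ 2 * CN ≤ 2 * (cN / (8 * C3 ^ 2 * CN)) * C3 ^ 2 * CN := by
          exact mul_le_mul_of_nonneg_right (mul_le_mul_of_nonneg_right
            (mul_le_mul_of_nonneg_left hk1c (by norm_num)) (sq_nonneg C3)) hCN.le
        refine h2.trans (le_of_eq ?_)
        field_simp
        norm_num)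
    refine le_trans ?_ h1
    refine div_le_div_of_nonneg_left hcN.le ?_ ?_
    · have : (0 : ℝ) < (60 * a : ℤ) := by exact_mod_cast (by omega : (0 : ℤ) < 60 * a)
      positivity
    · rw [← hP]
      push_cast
      nlinarith only [sq_nonneg (a : ℝ)]
  refine ⟨k1, k2, k3, c1, lam, hlam0, hlam1, hc10, by omega, ?_⟩
  intro κ hκ w xi m Γ hD hS hxi hxw
  refine ⟨hUlow κ hκ w xi m Γ hD hS hxi hxw, ?_⟩
  intro F hF J ρ P hρ hmρ hPJ hNB s hs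
  have hSF : Sup w m xi F := fun S hFS => hS S (by
    intro h
    have := hF S
    rw [h] at this
    exact hFS (abs_nonpos_iff.1 this))
  set Pf : ℕ → ℤ := fun j => Λ ^ (J - j) * ρ with hPf
  have hPf1 : ∀ j, ρ ≤ Pf j := by
    intro j
    have : (1 : ℤ) ≤ Λ ^ (J - j) := one_le_pow₀ (by omega)
    simp only [hPf]
    nlinarith only [this, hρ]
  have hPfle : ∀ j, Pf j ≤ P := by
    intro j
    simp only [hPf]
    rw [hPJ]
    refine mul_le_mul_of_nonneg_right ?_ (by omega)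
    exact pow_le_pow_right₀ (by omega) (by omega)
  have hPfs : ∀ j, j < J → Pf j = Λ * Pf (j + 1) := by
    intro j hj
    simp only [hPf]
    rw [← mul_assoc, ← pow_succ']
    congr 2
    omega
  have hPf0 : Pf 0 = P := by
    simp only [hPf]
    rw [hPJ, Nat.sub_zero]
  have hPfJ : Pf J = ρ := by
    simp only [hPf]
    simp
  have hP1 : 1 ≤ P := by have := hPf1 0; omega
  have hH : ∀ j s, VV κ w (Pf j) s → fS κ w (Pf j) Γ s ≤ CN / (Pf j : ℝ) ^ 2 := by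
    intro j s hs
    have h1 := hPf1 j
    refine (fv_le hD hS (by omega) hs.1 hxi hxw hκ hs.2.1 hs.2.2).trans
      (hNB (Pf j) (by omega) ?_).2
    have h2 := hPfle j
    nlinarith only [h2, hΛ1, hP1]
  set σ := C3 / (Λ : ℝ) ^ 2 with hσ
  have hmain := two_copy (S := Sta) J (fun j s => VV κ w (Pf j) s) (fun j s => AA w (Pf j) s)
    (fun j => (AL κ w (Pf (j + 1)) (Pf j)).powerset) (fun j ω => wt hf (AL κ w (Pf (j + 1)) (Pf j)) ω)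
    (fun _ s ω => nxS s ω) (fun j s => fS κ w (Pf j) F s) (fun j s => fS κ w (Pf j) Γ s)
    (H := fun j => CN / (Pf j : ℝ) ^ 2) (Uf := fun j => Ub κ w k1 k2 k3 c1 (Pf (j + 1)) F)
    (Ug := fun j => Ub κ w k1 k2 k3 c1 (Pf (j + 1)) Γ) (θ := θ) (σ := σ) (t := t)
    hθ0.le hθ1 (by positivity) ht0.le ht1 (fun j ω _ => wt_nonneg hf_Pb _ _)
    (fun j s hj hs ω hω => VV_next (by
      rw [hPfs j hj]
      have := hPf1 (j + 1)
      nlinarith only [this, hΛ1, hρ]) hs (mem_powerset.1 hω))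
    (fun j s hj hs => fS_next (by
      rw [hPfs j hj]
      have := hPf1 (j + 1)
      nlinarith only [this, hΛ1, hρ]))
    (fun j s hj hs => fS_next (by
      rw [hPfs j hj]
      have := hPf1 (j + 1)
      nlinarith only [this, hΛ1, hρ]))
    (fun j s _ _ => fS_abs hF) (fun j s _ hs => hH j s hs)
    (fun j s _ hs hal => fS_dead hS (by have := hPf1 j; omega) hxi hs hal)
    (by
      intro j s hj hs
      obtain ⟨Wv, Y, x⟩ := s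
      obtain ⟨hflat, hY, hx⟩ := hs
      simp only at hflat hY hx
      set ρ' := Pf (j + 1) with hρ'
      have hρ'1 : ρ ≤ ρ' := hPf1 (j + 1)
      set r := (4 : ℤ) ^ k1 * ρ' with hr
      set a := aR k1 k2 k3 ρ' with ha
      have h20 : 20 * r ≤ a := aR_ge k1 k2 k3 (by omega)
      have hρr : 4 * ρ' ≤ r := by rw [hr]; exact mul_le_mul_of_nonneg_right e41 (by omega)
      have hP : Pf j = 512 * a := by rw [hPfs j hj, ha, aR_mul]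
      have ha0 : (0 : ℝ) < a := by exact_mod_cast (by omega : (0 : ℤ) < a)
      have hρ0 : (0 : ℝ) < ρ' := by exact_mod_cast (by omega : (0 : ℤ) < ρ')
      have hΛr : (512 : ℝ) * a = Λ * ρ' := by exact_mod_cast aR_mul k1 k2 k3 ρ'
      have hPR : (Pf j : ℝ) = Λ * ρ' := by rw [hPfs j hj]; push_cast; ring
      rw [hP] at hflat hY hx
      have e1 : ∑ ω ∈ (AL κ w ρ' (Pf j)).powerset, wt hf (AL κ w ρ' (Pf j)) ω *
          ind (RK Wv Y x w ρ' ω) = PrP hf (AL κ w ρ' (Pf j)) (RK Wv Y x w ρ') := rfl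
      refine ⟨fun ω => ind (RK Wv Y x w ρ' ω), fun ω _ => ind_nonneg _, fun ω _ h => ?_, ?_, ?_⟩
      · show (1 : ℝ) ≤ ind (RK Wv Y x w ρ' ω)
        rw [ind_true (show RK Wv Y x w ρ' ω from h)]
      · rw [e1, hP]
        refine (surv hκ (by omega) hflat hY hx).trans ((hu3 κ hκ w ρ' (512 * a) (by omega)
          (by omega)).trans (le_of_eq ?_))
        rw [hσ]
        push_cast
        rw [hΛr]
        field_simp
      · by_cases hgood : t / 512 ^ 2 ≤ PrP hf (AL κ w a (512 * a)) (RK Wv Y x w a)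
        · right
          obtain ⟨rr, hr1, hr2⟩ := kernel (κ1 := c1 * ((r : ℝ) / (60 * a : ℤ)) ^ 2) (b := 60 * a)
            (x := x) hκ (show ρ' < r by omega) (show r < 512 * a by omega) hα0 hflat hY
            (fun ζ hζ hZ => by
              have hin := gd_in hκ (show ρ' < r by omega) hζ hZ.1
              exact hlink κ hκ w r a Wv Y ζ x (cG κ w ρ' r ζ) (by omega) rfl hflat hY hx
                (fun l hl => ⟨(mem_AL'.1 (hζ hl)).1, (mem_AL'.1 (hζ hl)).2.2⟩) hin.1 hin.2 hgood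
                hZ.2)
          rw [← hP] at hr1 hr2
          refine ⟨rr, α, hr1, hr2 F, hr2 Γ, ?_⟩
          have h5 := hUlow κ hκ w xi m Γ hD hS hxi hxw ρ' (by omega) (by omega) (fun r' h1 h2 =>
            hNB r' h1 (by
              have h3 : Λ * ρ' ≤ P := by rw [← hPfs j hj]; exact hPfle j
              nlinarith only [h1, h2, h3, hΛ1, hP1]))
          have h6 := mul_le_mul_of_nonneg_left h5 hα0.le
          refine le_trans ?_ h6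
          have h7 : θ * CN ≤ α * cN := by
            have h8 : θ ≤ α * cN / CN := min_le_right _ _
            rwa [le_div_iff₀ hCN] at h8
          rw [hPR]
          push_cast
          have h9 : θ * (CN / ((Λ : ℝ) * ρ') ^ 2) = (θ * CN) / ((Λ : ℝ) * ρ') ^ 2 := by ring
          have h10 : α * (cN / ((Λ : ℝ) * ρ') ^ 2) = (α * cN) / ((Λ : ℝ) * ρ') ^ 2 := by ring
          rw [h9, h10]
          exact div_le_div_of_nonneg_right h7 (by positivity)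
        · left
          rw [e1, hP]
          refine (surv_bad (a := a) hκ (by omega) (by omega) hflat hY hx).trans ?_
          have h5 := hu3 κ hκ w ρ' a (by omega) (by omega)
          have h6 := mul_le_mul h5 (not_le.1 hgood).le (PrP_nonneg hf_Pb _ _) (by positivity)
          refine h6.trans (le_of_eq ?_)
          rw [hσ]
          have h7 : (ρ' : ℝ) = 512 * a / Λ := by
            field_simp
            linarith
          rw [h7]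
          field_simp)
    J 0 (by omega) (J / 2)
  simp only [hPf0, hPfJ] at hmain
  have hρ0 : (0 : ℝ) < ρ := by exact_mod_cast (by omega : (0 : ℤ) < ρ)
  have hP0 : (0 : ℝ) < P := by exact_mod_cast (by omega : (0 : ℤ) < P)
  have hPR : (P : ℝ) = (Λ : ℝ) ^ J * ρ := by rw [hPJ]; push_cast; rfl
  have hbd : ∀ s', VV κ w P s' →
      |fS κ w P F s * fS κ w P Γ s' - fS κ w P F s' * fS κ w P Γ s| ≤
        6 * CN ^ 2 * lam ^ J / (P : ℝ) ^ 4 := by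
    intro s' hs'
    refine (hmain s s' hs hs').trans ?_
    have g1 : fS κ w P Γ s ≤ CN / (P : ℝ) ^ 2 := by
      have := hH 0 s (by rw [hPf0]; exact hs)
      rwa [hPf0] at this
    have g2 : fS κ w P Γ s' ≤ CN / (P : ℝ) ^ 2 := by
      have := hH 0 s' (by rw [hPf0]; exact hs')
      rwa [hPf0] at this
    have g3 : 0 ≤ fS κ w P Γ s := Ex_nonneg hf_Pb fun _ _ => hD.1 _
    have g4 : 0 ≤ fS κ w P Γ s' := Ex_nonneg hf_Pb fun _ _ => hD.1 _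
    have g5 : fS κ w P Γ s * fS κ w P Γ s' ≤ CN ^ 2 / (P : ℝ) ^ 4 := by
      have := mul_le_mul g1 g2 g4 (g3.trans g1)
      refine this.trans (le_of_eq ?_)
      field_simp
    have hθ2 : 0 ≤ 1 - θ ^ 2 := by nlinarith only [hθ0, hθ1]
    have g6 : (1 - θ ^ 2) ^ (J / 2) ≤ 2 * lam ^ J := by
      have h1 : 1 - θ ^ 2 ≤ lam ^ 2 := by
        have h2 : 1 - θ ^ 2 / 2 ≤ lam := le_max_left _ _
        have h3 : 0 ≤ 1 - θ ^ 2 / 2 := by linarith only [hθ2, sq_nonneg θ]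
        have h4 : (1 - θ ^ 2 / 2) ^ 2 ≤ lam ^ 2 := pow_le_pow_left₀ h3 h2 2
        nlinarith only [h4, sq_nonneg (θ ^ 2)]
      have h2 : (1 - θ ^ 2) ^ (J / 2) ≤ lam ^ (2 * (J / 2)) := by
        rw [pow_mul]
        exact pow_le_pow_left₀ hθ2 h1 _
      have h3 : lam ^ (2 * (J / 2)) * lam ≤ lam ^ J := by
        rw [← pow_succ]
        exact pow_le_pow_of_le_one hlam0.le hlam1.le (by omega)
      have h4 : 0 ≤ lam ^ (2 * (J / 2)) := by positivity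
      nlinarith only [h2, h3, h4, hlam2]
    have g7 : Wd (CN / (ρ : ℝ) ^ 2) σ t (J / 2) J ≤ 2 * CN ^ 2 * lam ^ J / (P : ℝ) ^ 4 := by
      unfold Wd
      split_ifs
      · positivity
      · have h1 : t ^ (J + 1 - J / 2) ≤ τ ^ J := by
          rw [ht', ← pow_mul]
          exact pow_le_pow_of_le_one hτ0.le hτ1 (by omega)
        have h2 : C3 ^ (2 * J) * τ ^ J = (1 / 2) ^ J := by
          rw [pow_mul, ← mul_pow, hτ]
          congr 1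
          field_simp
        have h3 : ((1 : ℝ) / 2) ^ J ≤ lam ^ J := pow_le_pow_left₀ (by norm_num) hlam2 J
        have h4 : 2 * (CN / (ρ : ℝ) ^ 2) ^ 2 * σ ^ (2 * J) = 2 * CN ^ 2 * C3 ^ (2 * J) / (P : ℝ) ^ 4 := by
          rw [hσ, hPR]
          exact num_W J hΛ0 hρ0
        rw [h4]
        have h5 : 2 * CN ^ 2 * C3 ^ (2 * J) / (P : ℝ) ^ 4 * t ^ (J + 1 - J / 2) ≤
            2 * CN ^ 2 * C3 ^ (2 * J) / (P : ℝ) ^ 4 * τ ^ J :=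
          mul_le_mul_of_nonneg_left h1 (by positivity)
        refine h5.trans ?_
        have h6 : 2 * CN ^ 2 * C3 ^ (2 * J) / (P : ℝ) ^ 4 * τ ^ J =
            2 * CN ^ 2 * (C3 ^ (2 * J) * τ ^ J) / (P : ℝ) ^ 4 := by ring
        rw [h6, h2]
        exact div_le_div_of_nonneg_right (mul_le_mul_of_nonneg_left h3 (by positivity))
          (by positivity)
    have g8 : (1 - θ ^ 2) ^ (J / 2) * (2 * (fS κ w P Γ s * fS κ w P Γ s')) ≤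
        (2 * lam ^ J) * (2 * (CN ^ 2 / (P : ℝ) ^ 4)) :=
      mul_le_mul g6 (mul_le_mul_of_nonneg_left g5 (by norm_num))
        (mul_nonneg (by norm_num) (mul_nonneg g3 g4)) (mul_nonneg (by norm_num) (pow_nonneg hlam0.le _))
    have g9 : (2 * lam ^ J) * (2 * (CN ^ 2 / (P : ℝ) ^ 4)) + 2 * CN ^ 2 * lam ^ J / (P : ℝ) ^ 4 =
        6 * CN ^ 2 * lam ^ J / (P : ℝ) ^ 4 := by ring
    linarith
  exact avg_ref hP1 (by positivity) hbd

end Pool.Agent.H20.Q1
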