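import Mathlib
import Pool.Agent.H20.Q1.MxCore

set_option autoImplicit false
open Finset

/-!
# Two crossing clusters, one of which does not meet the wall
-/

namespace Pool.Agent.H20.Q1

open Pool.Agent.H75.Perc Pool.Agent.H75.TwoArm Pool.Agent.H75.Four Pool.Agent.H49.Perc
open Pool.Agent.H99.NC Pool.Agent.H60.Q1

/-- the vertices of the box -/
noncomputable def Vb (w : ℤ × ℤ) (ρ : ℤ) : Finset (ℤ × ℤ) :=
  Finset.Icc (w.1 - ρ) (w.1 + ρ) ×ˢ Finset.Icc (w.2 - ρ) (w.2 + ρ)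

/-- `x` is the first vertex of a crossing cluster which does not meet the wall -/
def Ax (κ : ℤ) (w : ℤ × ℤ) (ρ R : ℤ) (x : ℤ × ℤ) (ω : Finset (ℤ × ℤ)) : Prop :=
  (∃ v, Far w R v ∧ Co (ω ∩ AL κ w ρ R) x v) ∧
  (∀ y, Co (ω ∩ AL κ w ρ R) x y → ht κ y ≠ ht κ w) ∧
  ∀ y ∈ Vb w ρ, Co (ω ∩ AL κ w ρ R) x y → Encodable.encode x ≤ Encodable.encode y

/-- another crossing cluster -/
def Ox (κ : ℤ) (w : ℤ × ℤ) (ρ R : ℤ) (x : ℤ × ℤ) (ω : Finset (ℤ × ℤ)) : Prop :=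
  ∃ u v, Near w ρ u ∧ Far w R v ∧ Co (ω ∩ AL κ w ρ R) u v ∧ ¬ Co (ω ∩ AL κ w ρ R) x u

variable {κ : ℤ} {ω ω' : Finset (ℤ × ℤ)} {w x y : ℤ × ℤ} {ρ R : ℤ}

lemma mem_Vb : x ∈ Vb w ρ ↔ Near w ρ x := by
  unfold Vb Near
  rw [mem_product, mem_Icc, mem_Icc, abs_le, abs_le]
  constructor
  · rintro ⟨h1, h2⟩; exact ⟨by omega, by omega⟩
  · rintro ⟨h1, h2⟩; exact ⟨by omega, by omega⟩

lemma Cl_self_iff {L : Finset (ℤ × ℤ)} {u : ℤ × ℤ} :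
    Cl (fun v => v = x) L ω u ↔ Co (ω ∩ L) x u := by
  unfold Cl
  constructor
  · rintro ⟨w0, rfl, h⟩; exact h
  · intro h; exact ⟨x, rfl, h⟩

lemma Co_mix_iff {L : Finset (ℤ × ℤ)} {u : ℤ × ℤ} :
    Co (mix (Ux (fun v => v = x) L ω) ω ω' ∩ L) x u ↔ Co (ω ∩ L) x u := by
  rw [← Cl_self_iff, ← Cl_self_iff, Cl_mix]

/-- given the first crossing cluster, another one is an arm of fresh labels -/
lemma AO_le {E : Finset (ℤ × ℤ)} {ε : ℝ} (hε : PrP hf E (Arm1 w ρ R) ≤ ε) :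
    PrP hf E (fun ω => Ox κ w ρ R x ω ∧ Ax κ w ρ R x ω) ≤ PrP hf E (Ax κ w ρ R x) * ε := by
  refine resampleP_le hf_Pb E (fun ω => Ux (fun v => v = x) (AL κ w ρ R) ω)
    (fun ω ω' _ _ => Ux_mix) _ _ (fun _ ω' => Arm1 w ρ R ω') ε ?_ (fun _ _ _ => hε) ?_
  · rintro ω ω' - - ⟨⟨v, h1, h2⟩, h3, h4⟩
    refine ⟨⟨v, h1, Co_mix_iff.1 h2⟩, fun y hy => h3 y (Co_mix_iff.2 hy),
      fun y hy hxy => h4 y hy (Co_mix_iff.2 hxy)⟩
  · rintro ω ω' - - - ⟨u, v, h1, h2, h3, h4⟩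
    rw [Co_mix_iff] at h4
    have h5 : ¬ Cl (fun v => v = x) (AL κ w ρ R) ω u := by rwa [Cl_self_iff]
    have h6 := (fresh_iff h5).1 h3
    exact ⟨u, v, h1.1, h1.2, h2, h6.mono inter_subset_left⟩

/-- **two crossing clusters** -/
theorem two_cross : ∃ δ : ℝ, 0 < δ ∧ δ < 1 ∧ TC δ := by
  classical
  obtain ⟨δ, h0, h1, hdec⟩ := open_arm_decay
  refine ⟨δ, h0, h1, ?_⟩
  intro κ hκ w ρ hρ k hk
  set R := (4 : ℤ) ^ k * ρ with hR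
  set L := AL κ w ρ R with hL
  set ε := (1 - δ) ^ k with hε
  have hε0 : 0 ≤ ε := pow_nonneg (by linarith) _
  have harm : PrP hf L (Arm1 w ρ R) ≤ ε := by
    rw [hf_Pr]
    exact hdec L AL_odd w ρ hρ k
  set S := ∑ x ∈ Vb w ρ, PrP hf L (Ax κ w ρ R x) with hS
  have hS0 : 0 ≤ S := sum_nonneg fun x _ => PrP_nonneg hf_Pb _ _
  have hAO : ∑ x ∈ Vb w ρ, PrP hf L (fun ω => Ox κ w ρ R x ω ∧ Ax κ w ρ R x ω) ≤ ε * S := by
    rw [hS, mul_sum]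
    refine sum_le_sum fun x _ => (AO_le harm).trans (le_of_eq (mul_comm _ _))
  have hone : ∑ x ∈ Vb w ρ, PrP hf L (fun ω => ¬ Ox κ w ρ R x ω ∧ Ax κ w ρ R x ω) ≤
      u3 κ w ρ R := by
    have e1 : u3 κ w ρ R = PrP hf L (U3 κ w ρ R) := by rw [hf_Pr]; rfl
    rw [e1]
    unfold PrP
    rw [← Ex_sum]
    refine Ex_mono hf_Pb fun ω _ => ?_
    by_cases hex : ∃ x ∈ Vb w ρ, ¬ Ox κ w ρ R x ω ∧ Ax κ w ρ R x ω
    · obtain ⟨x, hx, hx1, hx2⟩ := hex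
      have hU : U3 κ w ρ R ω := by
        obtain ⟨⟨v, h3, h4⟩, h5, -⟩ := hx2
        exact ⟨x, v, mem_Vb.1 hx, h3, h4, h5⟩
      rw [ind_true hU, sum_eq_single_of_mem x hx]
      · exact ind_le_one _
      · intro y hy hyx
        refine ind_false ?_
        rintro ⟨hy1, hy2⟩
        obtain ⟨⟨v, h3, h4⟩, h5, h6⟩ := hx2
        obtain ⟨⟨v', h3', h4'⟩, h5', h6'⟩ := hy2
        have h7 : Co (ω ∩ AL κ w ρ R) x y := by
          by_contra h8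
          exact hx1 ⟨y, v', mem_Vb.1 hy, h3', h4', h8⟩
        have h8 := h6 y hy h7
        have h9 := h6' x hx h7.symm
        exact hyx (Encodable.encode_injective (le_antisymm h9 h8))
    · rw [sum_eq_zero fun x hx => ind_false fun h => hex ⟨x, hx, h⟩]
      exact ind_nonneg _
  have hsum : S = ∑ x ∈ Vb w ρ, PrP hf L (fun ω => Ox κ w ρ R x ω ∧ Ax κ w ρ R x ω) +
      ∑ x ∈ Vb w ρ, PrP hf L (fun ω => ¬ Ox κ w ρ R x ω ∧ Ax κ w ρ R x ω) := by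
    rw [hS, ← sum_add_distrib]
    refine sum_congr rfl fun x _ => ?_
    rw [← PrP_add_disj fun ω _ h h' => h'.1 h.1]
    exact PrP_congr fun ω _ => by tauto
  have hS2 : S ≤ 2 * u3 κ w ρ R := by nlinarith
  have hTwo : PrP hf L (TwoC κ w ρ R) ≤
      ∑ x ∈ Vb w ρ, PrP hf L (fun ω => Ox κ w ρ R x ω ∧ Ax κ w ρ R x ω) := by
    refine le_trans (PrP_mono hf_Pb fun ω _ h => ?_) (PrP_exists_le hf_Pb L (Vb w ρ) _)
    obtain ⟨u, u', v, v', h2, h3, h4, h5, h6, h7, h8, h9⟩ := h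
    obtain ⟨x, hx, hmin⟩ := exists_min_image ((Vb w ρ).filter
      (fun y => Co (ω ∩ AL κ w ρ R) u y)) (fun y => Encodable.encode y)
      ⟨u, mem_filter.2 ⟨mem_Vb.2 h2, Co.refl _ _⟩⟩
    rw [mem_filter] at hx
    refine ⟨x, hx.1, ⟨u', v', h5, h6, h7, fun h10 => h8 (hx.2.trans h10)⟩,
      ⟨v, h3, hx.2.symm.trans h4⟩, fun y hy => h9 y (hx.2.trans hy), fun y hy hxy => ?_⟩
    exact hmin y (mem_filter.2 ⟨hy, hx.2.trans hxy⟩)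
  calc PrP hf L (TwoC κ w ρ R) ≤ ε * S := hTwo.trans hAO
    _ ≤ ε * (2 * u3 κ w ρ R) := mul_le_mul_of_nonneg_left hS2 hε0
    _ = 2 * ε * u3 κ w ρ R := by ring

end Pool.Agent.H20.Q1
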