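import Mathlib
import Pool.Agent.H20.Q1.MxTC

set_option autoImplicit false
open Finset

/-!
# Mixing at a flat natural wall

`mixing` : let `F`, `Γ1`, `Γ2` be functionals of the contact set of a cluster with a wall, supported on
sets near the point `xi`, `Γ1`, `Γ2` decreasing with mass `NN ~ 1 / r²`, `|F| ≤ Γ1`. Then, up to a
factor `((m + 1) / R) ^ γ`, the conditional expectations of `F` and of `Γ2` given the labels outside
the box of radius `R` are proportional, for ALL outer configurations, all base vertices and all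
surroundings of the box.
-/

namespace Pool.Agent.H20.Q1

open Pool.Agent.H75.Perc Pool.Agent.H75.TwoArm Pool.Agent.H75.Four Pool.Agent.H49.Perc
open Pool.Agent.H99.NC Pool.Agent.H60.Q1

variable {κ : ℤ} {w x y xi : ℤ × ℤ} {a b ρ R r P m : ℤ} {F Γ Γ1 Γ2 : Set (ℤ × ℤ) → ℝ} {κ1 : ℝ}
  {s : Sta}

lemma UF_abs (hF : ∀ S, |F S| ≤ Γ S) : |UF κ w ρ r b κ1 F| ≤ UF κ w ρ r b κ1 Γ := by
  unfold UF
  refine Ex_abs_le fun ζ _ => ?_
  rw [abs_mul, abs_of_nonneg (ind_nonneg _)]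
  exact mul_le_mul_of_nonneg_left (Ex_abs_le fun _ _ => hF _) (ind_nonneg _)

lemma UF_le (hD : Dcr xi Γ) (hS : Sup w m xi Γ) (hρr : ρ ≤ r) :
    UF κ w ρ r b κ1 Γ ≤ NN κ w xi Γ r := by
  refine le_trans ?_ (gd_le (κ := κ) hD hS hρr)
  unfold UF
  refine Ex_mono hf_Pb fun ζ _ => ?_
  refine mul_le_mul_of_nonneg_right (ind_mono fun h => h.1) ?_
  exact Ex_nonneg hf_Pb fun _ _ => hD.1 _

lemma NN_add : NN κ w xi (fun S => Γ1 S + Γ2 S) r = NN κ w xi Γ1 r + NN κ w xi Γ2 r := by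
  unfold NN
  rw [← Ex_add]
  exact Ex_congr fun ω _ => by ring

lemma fS_le (hD : Dcr xi Γ) (hS : Sup w m xi Γ) (hm : m < P) (hxi : inR w m xi)
    (hxw : ht κ xi = ht κ w) (hκ : κ = 0 ∨ κ = 1) (hs : VV κ w P s) :
    fS κ w P Γ s ≤ NN κ w xi Γ P := fv_le hD hS hm hs.1 hxi hxw hκ hs.2.1 hs.2.2

/-- **mixing at a flat natural wall** -/
theorem mixing {cN CN : ℝ} (hcN : 0 < cN) (hCN : 0 < CN) : ∃ C γ : ℝ, 1 ≤ C ∧ 0 < γ ∧
    ∀ (κ : ℤ), (κ = 0 ∨ κ = 1) → ∀ (w xi : ℤ × ℤ) (m R : ℤ) (F Γ1 Γ2 : Set (ℤ × ℤ) → ℝ),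
    Dcr xi Γ1 → Sup w m xi Γ1 → Dcr xi Γ2 → Sup w m xi Γ2 → inR w m xi → ht κ xi = ht κ w →
    m < R → NB κ w xi Γ1 cN CN m R → NB κ w xi Γ2 cN CN m R → (∀ S, |F S| ≤ Γ1 S) →
    ∃ q : ℝ, |q| ≤ C ∧ (F = Γ1 → 1 / C ≤ q) ∧ ∀ s : Sta, VV κ w R s →
      |fS κ w R F s - q * fS κ w R Γ2 s| ≤ C * (((m : ℝ) + 1) / R) ^ γ / (R : ℝ) ^ 2 := by
  obtain ⟨δ, hδ0, hδ1, hTC⟩ := two_cross
  obtain ⟨k1, k2, k3, c1, lam, hl0, hl1, hc10, hk1, hcore⟩ :=
    mix_core (cN := cN) (CN := 2 * CN) hδ0 hδ1 hTC hcN (by positivity)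
  set Λ : ℤ := Lm k1 k2 k3 with hΛ
  have hΛ1 : 10240 ≤ Λ := by
    have h1 := aR_ge k1 k2 k3 (le_refl (1 : ℤ))
    have e41 : (4 : ℤ) ≤ 4 ^ k1 := four_pow_ge hk1
    rw [hΛ]
    unfold Lm
    omega
  have hΛ0 : (0 : ℝ) < Λ := by exact_mod_cast (by omega : (0 : ℤ) < Λ)
  have hΛ1R : (1 : ℝ) < Λ := by exact_mod_cast (by omega : (1 : ℤ) < Λ)
  set γ : ℝ := -Real.log lam / Real.log Λ with hγ
  have hlogΛ : 0 < Real.log Λ := Real.log_pos hΛ1R
  have hγ0 : 0 < γ := by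
    rw [hγ]
    exact div_pos (neg_pos.2 (Real.log_neg hl0 hl1)) hlogΛ
  -- powers
  have hpow : ∀ n : ℕ, (1 / (Λ : ℝ) ^ n) ^ γ = lam ^ n := by
    intro n
    have h1 : (0 : ℝ) < 1 / (Λ : ℝ) ^ n := by positivity
    rw [Real.rpow_def_of_pos h1, one_div, Real.log_inv, Real.log_pow]
    have h2 : -(n * Real.log Λ) * γ = n * Real.log lam := by
      rw [hγ]
      field_simp
    rw [h2, mul_comm, Real.exp_mul, Real.exp_log hl0, Real.rpow_natCast]
  set C0 : ℝ := 2 * (6 * (2 * CN) ^ 2) * (Λ : ℝ) ^ 2 * (Λ : ℝ) ^ 4 / (cN * lam ^ 2) with hC0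
  set C1 : ℝ := 2 * CN * (Λ : ℝ) ^ 2 / cN with hC1
  set C2 : ℝ := 2 * CN / lam with hC2
  set C : ℝ := 1 + C0 + C1 + C2 with hC
  have hC00 : 0 < C0 := by positivity
  have hC10 : 0 < C1 := by positivity
  have hC20 : 0 < C2 := by positivity
  refine ⟨C, γ, by linarith, hγ0, ?_⟩
  intro κ hκ w xi m R F Γ1 Γ2 hD1 hS1 hD2 hS2 hxi hxw hmR hN1 hN2 hF
  have hm0 : 0 ≤ m := by
    rw [inR_iff] at hxi
    omega
  have hR0 : (0 : ℝ) < R := by exact_mod_cast (by omega : (0 : ℤ) < R)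
  have hm1 : (0 : ℝ) < (m : ℝ) + 1 := by
    have : (0 : ℝ) ≤ m := by exact_mod_cast hm0
    linarith
  by_cases hcase : R < Λ * (m + 1)
  · -- small ratio
    refine ⟨1, by rw [abs_one]; linarith, fun _ => ?_, fun s hs => ?_⟩
    · rw [div_le_one (by linarith)]
      linarith
    · have h1 : |fS κ w R F s| ≤ CN / (R : ℝ) ^ 2 :=
        (fS_abs hF).trans ((fS_le hD1 hS1 hmR hxi hxw hκ hs).trans (hN1 R hmR le_rfl).2)
      have h2 : |fS κ w R Γ2 s| ≤ CN / (R : ℝ) ^ 2 := by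
        rw [abs_of_nonneg (show 0 ≤ fS κ w R Γ2 s from Ex_nonneg hf_Pb fun _ _ => hD2.1 _)]
        exact (fS_le hD2 hS2 hmR hxi hxw hκ hs).trans (hN2 R hmR le_rfl).2
      have h3 : |fS κ w R F s - 1 * fS κ w R Γ2 s| ≤ 2 * CN / (R : ℝ) ^ 2 := by
        rw [one_mul]
        refine (abs_sub _ _).trans ?_
        have : 2 * CN / (R : ℝ) ^ 2 = CN / (R : ℝ) ^ 2 + CN / (R : ℝ) ^ 2 := by ring
        linarith
      refine h3.trans (div_le_div_of_nonneg_right ?_ (by positivity))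
      have h4 : 1 / (Λ : ℝ) ^ 1 ≤ ((m : ℝ) + 1) / R := by
        rw [pow_one, div_le_div_iff₀ hΛ0 hR0]
        have : (R : ℝ) ≤ Λ * (m + 1) := by exact_mod_cast hcase.le
        linarith
      have h5 : lam ≤ (((m : ℝ) + 1) / R) ^ γ := by
        have h6 := hpow 1
        rw [pow_one lam] at h6
        rw [← h6]
        exact Real.rpow_le_rpow (by positivity) h4 hγ0.le
      have h6 : 2 * CN = C2 * lam := by
        rw [hC2]
        field_simp
      rw [h6]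
      have h7 : C2 ≤ C := by linarith
      exact mul_le_mul h7 h5 hl0.le (by linarith)
  · push Not at hcase
    -- the number of blocks
    have hex : ∃ J : ℕ, Λ ^ (J + 1) * (m + 1) ≤ R ∧ R < Λ ^ (J + 2) * (m + 1) := by
      classical
      have hbig : ∃ n : ℕ, R < Λ ^ n * (m + 1) := by
        obtain ⟨n, hn⟩ := pow_unbounded_of_one_lt R (show (1 : ℤ) < Λ by omega)
        refine ⟨n, hn.trans_le ?_⟩
        have : (0 : ℤ) < Λ ^ n := by positivity
        nlinarith only [this, hm0]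
      have hn := Nat.find_spec hbig
      have hmin := fun k => Nat.find_min (H := hbig) (m := k)
      set n := Nat.find hbig with hnd
      have h2 : 2 ≤ n := by
        by_contra h3
        interval_cases n
        · simp only [pow_zero, one_mul] at hn
          omega
        · simp only [pow_one] at hn
          omega
      refine ⟨n - 2, ?_, ?_⟩
      · have h3 := hmin (n - 1) (by omega)
        rw [show n - 2 + 1 = n - 1 by omega]
        omega
      · rw [show n - 2 + 2 = n by omega]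
        exact hn
    obtain ⟨J, hJ1, hJ2⟩ := hex
    set P : ℤ := Λ ^ J * (m + 1) with hP
    have hPP : Λ * P = Λ ^ (J + 1) * (m + 1) := by rw [hP, pow_succ]; ring
    have hΛJ : (1 : ℤ) ≤ Λ ^ J := one_le_pow₀ (by omega)
    have hmP : m + 1 ≤ P := by
      rw [hP]
      exact le_mul_of_one_le_left (by omega) hΛJ
    have hPR : Λ * P ≤ R := by rw [hPP]; exact hJ1
    have hPR' : P ≤ R := by nlinarith only [hPR, hΛ1, hmP, hm0]
    have hP0 : (0 : ℝ) < P := by exact_mod_cast (by omega : (0 : ℤ) < P)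
    set Γ : Set (ℤ × ℤ) → ℝ := fun S => Γ1 S + Γ2 S with hΓ
    have hDΓ : Dcr xi Γ := ⟨fun S => add_nonneg (hD1.1 S) (hD2.1 S), fun S S' h h' =>
      add_le_add (hD1.2 S S' h h') (hD2.2 S S' h h')⟩
    have hSΓ : Sup w m xi Γ := by
      intro S hS
      by_cases h1 : Γ1 S = 0
      · refine hS2 S fun h2 => hS ?_
        simp only [hΓ]
        rw [h1, h2, add_zero]
      · exact hS1 S h1
    have nb : ∀ {G : Set (ℤ × ℤ) → ℝ}, NB κ w xi G cN CN m R → NB κ w xi G cN (2 * CN) m (Λ * P) := by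
      intro G hG r h1 h2
      have h3 := hG r h1 (h2.trans hPR)
      refine ⟨h3.1, h3.2.trans (div_le_div_of_nonneg_right (by linarith) (by positivity))⟩
    have nbΓ : NB κ w xi Γ cN (2 * CN) m (Λ * P) := by
      intro r h1 h2
      have h3 := hN1 r h1 (h2.trans hPR)
      have h4 := hN2 r h1 (h2.trans hPR)
      rw [hΓ, NN_add]
      have e1 : 2 * CN / (r : ℝ) ^ 2 = CN / (r : ℝ) ^ 2 + CN / (r : ℝ) ^ 2 := by ring
      have e2 : 0 ≤ cN / (r : ℝ) ^ 2 := by positivity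
      constructor <;> linarith [h3.1, h3.2, h4.1, h4.2]
    have hcΓ := hcore κ hκ w xi m Γ hDΓ hSΓ hxi hxw
    have hUΓ := hcΓ.1 P (by omega) (by omega) nbΓ
    have hU2 := (hcore κ hκ w xi m Γ2 hD2 hS2 hxi hxw).1 P (by omega) (by omega) (nb hN2)
    have hU1 := (hcore κ hκ w xi m Γ1 hD1 hS1 hxi hxw).1 P (by omega) (by omega) (nb hN1)
    have hFΓ : ∀ S, |F S| ≤ Γ S := fun S => (hF S).trans (by
      have := hD2.1 S
      simp only [hΓ]
      linarith)
    have h2Γ : ∀ S, |Γ2 S| ≤ Γ S := fun S => by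
      rw [abs_of_nonneg (hD2.1 S)]
      have := hD1.1 S
      simp only [hΓ]
      linarith
    set B : ℝ := 6 * (2 * CN) ^ 2 * lam ^ J / (P : ℝ) ^ 4 with hB
    have hB0 : 0 ≤ B := by positivity
    have kF := hcΓ.2 F hFΓ J (m + 1) P (by omega) (by omega) hP nbΓ
    have k2' := hcΓ.2 Γ2 h2Γ J (m + 1) P (by omega) (by omega) hP nbΓ
    set UΓ := Ub κ w k1 k2 k3 c1 P Γ with hUΓd
    set U2 := Ub κ w k1 k2 k3 c1 P Γ2 with hU2d
    set UF' := Ub κ w k1 k2 k3 c1 P F with hUFd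
    have hlow0 : 0 < cN / ((Λ * P : ℤ) : ℝ) ^ 2 := by
      push_cast
      positivity
    have hUΓ0 : 0 < UΓ := hlow0.trans_le hUΓ
    have hU20 : 0 < U2 := hlow0.trans_le hU2
    have u1 : |UF'| ≤ UΓ := UF_abs hFΓ
    have u2 : |U2| ≤ UΓ := UF_abs h2Γ
    have u2' : U2 ≤ UΓ := (le_abs_self _).trans u2
    have e41 : (4 : ℤ) ≤ 4 ^ k1 := four_pow_ge hk1
    have hup : ∀ {G : Set (ℤ × ℤ) → ℝ}, Dcr xi G → Sup w m xi G → NB κ w xi G cN (2 * CN) m (Λ * P) →
        Ub κ w k1 k2 k3 c1 P G ≤ 2 * CN / (P : ℝ) ^ 2 := by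
      intro G g1 g2 g3
      have h20 := aR_ge k1 k2 k3 (show 1 ≤ P by omega)
      have haP : 512 * aR k1 k2 k3 P = Λ * P := aR_mul k1 k2 k3 P
      set r : ℤ := 4 ^ k1 * P with hr
      have hrP : P ≤ r := by
        rw [hr]
        exact le_mul_of_one_le_left (by omega) (by linarith only [e41])
      refine (UF_le g1 g2 hrP).trans ((g3 r (by omega) (by omega)).2.trans ?_)
      refine div_le_div_of_nonneg_left (by positivity) (by positivity) ?_
      have : (P : ℝ) ≤ r := by exact_mod_cast hrP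
      exact pow_le_pow_left₀ hP0.le this 2
    refine ⟨UF' / U2, ?_, ?_, ?_⟩
    · rw [abs_div, abs_of_pos hU20, div_le_iff₀ hU20]
      have h1 : |UF'| ≤ 2 * CN / (P : ℝ) ^ 2 := u1.trans (hup hDΓ hSΓ nbΓ)
      refine h1.trans ?_
      have h2 : 2 * CN / (P : ℝ) ^ 2 = C1 * (cN / ((Λ * P : ℤ) : ℝ) ^ 2) := by
        rw [hC1]
        push_cast
        field_simp
      rw [h2]
      exact mul_le_mul (by linarith) hU2 hlow0.le (by linarith)
    · intro hFe
      have h1 : UF' = Ub κ w k1 k2 k3 c1 P Γ1 := by rw [hUFd, hFe]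
      rw [h1, div_le_div_iff₀ (by linarith) hU20, one_mul]
      have h2 : U2 ≤ 2 * CN / (P : ℝ) ^ 2 := hup hD2 hS2 (nb hN2)
      refine h2.trans ?_
      have h3 : 2 * CN / (P : ℝ) ^ 2 = (cN / ((Λ * P : ℤ) : ℝ) ^ 2) * C1 := by
        rw [hC1]
        push_cast
        field_simp
      rw [h3]
      exact mul_le_mul hU1 (by linarith) hC10.le (hlow0.le.trans hU1)
    · -- the bound at level P
      have hlev : ∀ s', VV κ w P s' →
          |fS κ w P F s' - UF' / U2 * fS κ w P Γ2 s'| ≤ 2 * B / U2 := by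
        intro s' hs'
        have g1 := kF s' hs'
        have g2 := k2' s' hs'
        set fF := fS κ w P F s'
        set f2 := fS κ w P Γ2 s'
        set fG := fS κ w P Γ s'
        have h1 : (fF * U2 - f2 * UF') * UΓ =
            (fF * UΓ - fG * UF') * U2 - (f2 * UΓ - fG * U2) * UF' := by ring
        have h2 : |(fF * U2 - f2 * UF') * UΓ| ≤ 2 * B * UΓ := by
          rw [h1]
          refine (abs_sub _ _).trans ?_
          rw [abs_mul, abs_mul]
          have h3 : |fF * UΓ - fG * UF'| * |U2| ≤ B * UΓ :=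
            mul_le_mul g1 u2 (abs_nonneg _) hB0
          have h4 : |f2 * UΓ - fG * U2| * |UF'| ≤ B * UΓ :=
            mul_le_mul g2 u1 (abs_nonneg _) hB0
          linarith
        rw [abs_mul, abs_of_pos hUΓ0] at h2
        have h3 := le_of_mul_le_mul_right h2 hUΓ0
        have h4 : fF - UF' / U2 * f2 = (fF * U2 - f2 * UF') / U2 := by
          field_simp
        rw [h4, abs_div, abs_of_pos hU20]
        exact div_le_div_of_nonneg_right h3 hU20.le
      intro s hs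
      have h1 : fS κ w R F s - UF' / U2 * fS κ w R Γ2 s =
          Ex hf (AL κ w P R) (fun ω => fS κ w P F (nxS s ω) - UF' / U2 * fS κ w P Γ2 (nxS s ω)) := by
        rw [Ex_sub, Ex_smul]
        have e1 : ∀ G, fS κ w R G s = Ex hf (AL κ w P R) (fun ω => fS κ w P G (nxS s ω)) :=
          fun G => fS_next hPR'
        rw [e1 F, e1 Γ2]
      rw [h1]
      have h2 : |Ex hf (AL κ w P R) (fun ω => fS κ w P F (nxS s ω) -
          UF' / U2 * fS κ w P Γ2 (nxS s ω))| ≤ 2 * B / U2 := by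
        rw [← Ex_const hf (AL κ w P R) (2 * B / U2)]
        exact Ex_abs_le fun ω hω => hlev _ (VV_next hPR' hs hω)
      refine h2.trans ?_
      have h3 : 2 * B / U2 ≤ 2 * B / (cN / ((Λ * P : ℤ) : ℝ) ^ 2) :=
        div_le_div_of_nonneg_left (mul_nonneg zero_le_two hB0) hlow0 hU2
      refine h3.trans ?_
      have h4 : 2 * B / (cN / ((Λ * P : ℤ) : ℝ) ^ 2) =
          (2 * (6 * (2 * CN) ^ 2) * (Λ : ℝ) ^ 2 / cN) * lam ^ J / (P : ℝ) ^ 2 := by
        rw [hB]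
        push_cast
        field_simp
      rw [h4]
      have hRP : (R : ℝ) ≤ (Λ : ℝ) ^ 2 * P := by
        have : R ≤ Λ ^ 2 * P := by
          rw [hP, ← mul_assoc, ← pow_add, add_comm 2 J]
          exact hJ2.le
        exact_mod_cast this
      have h5 : lam ^ (J + 2) ≤ (((m : ℝ) + 1) / R) ^ γ := by
        rw [← hpow (J + 2)]
        refine Real.rpow_le_rpow (by positivity) ?_ hγ0.le
        rw [div_le_div_iff₀ (by positivity) hR0]
        have : (R : ℝ) ≤ (Λ : ℝ) ^ (J + 2) * (m + 1) := by exact_mod_cast hJ2.le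
        linarith
      have h6 : (1 : ℝ) / (P : ℝ) ^ 2 ≤ (Λ : ℝ) ^ 4 / (R : ℝ) ^ 2 := by
        rw [div_le_div_iff₀ (by positivity) (by positivity)]
        have := pow_le_pow_left₀ hR0.le hRP 2
        calc 1 * (R : ℝ) ^ 2 = (R : ℝ) ^ 2 := one_mul _
          _ ≤ ((Λ : ℝ) ^ 2 * P) ^ 2 := this
          _ = (Λ : ℝ) ^ 4 * (P : ℝ) ^ 2 := by ring
      have h7 : (2 * (6 * (2 * CN) ^ 2) * (Λ : ℝ) ^ 2 / cN) * lam ^ J / (P : ℝ) ^ 2 =
          ((2 * (6 * (2 * CN) ^ 2) * (Λ : ℝ) ^ 2 / (cN * lam ^ 2)) * lam ^ (J + 2)) *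
            (1 / (P : ℝ) ^ 2) := by
        rw [pow_add]
        field_simp
      rw [h7]
      have hA0 : 0 ≤ 2 * (6 * (2 * CN) ^ 2) * (Λ : ℝ) ^ 2 / (cN * lam ^ 2) :=
        div_nonneg (mul_nonneg (mul_nonneg zero_le_two (mul_nonneg (by norm_num) (sq_nonneg _)))
          (sq_nonneg _)) (mul_nonneg hcN.le (sq_nonneg _))
      have h8 : ((2 * (6 * (2 * CN) ^ 2) * (Λ : ℝ) ^ 2 / (cN * lam ^ 2)) * lam ^ (J + 2)) *
            (1 / (P : ℝ) ^ 2) ≤
          ((2 * (6 * (2 * CN) ^ 2) * (Λ : ℝ) ^ 2 / (cN * lam ^ 2)) *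
            (((m : ℝ) + 1) / R) ^ γ) * ((Λ : ℝ) ^ 4 / (R : ℝ) ^ 2) :=
        mul_le_mul (mul_le_mul_of_nonneg_left h5 hA0) h6 (one_div_nonneg.2 (sq_nonneg _))
          (mul_nonneg hA0 (Real.rpow_nonneg (div_nonneg hm1.le hR0.le) _))
      refine h8.trans ?_
      have h9 : ((2 * (6 * (2 * CN) ^ 2) * (Λ : ℝ) ^ 2 / (cN * lam ^ 2)) *
            (((m : ℝ) + 1) / R) ^ γ) * ((Λ : ℝ) ^ 4 / (R : ℝ) ^ 2) =
          C0 * (((m : ℝ) + 1) / R) ^ γ / (R : ℝ) ^ 2 := by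
        rw [hC0]
        ring
      rw [h9]
      refine div_le_div_of_nonneg_right ?_ (by positivity)
      exact mul_le_mul_of_nonneg_right (by linarith) (Real.rpow_nonneg (div_nonneg hm1.le hR0.le) _)

end Pool.Agent.H20.Q1
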