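import Mathlib
import Pool.Agent.H20.Q1.MxCore

set_option autoImplicit false
open Finset

/-!
# Mixing with a second factor: pointwise part

`F` is a functional of the contact set of the cluster of `xi`, `D` is a functional of the whole
configuration which does not feel the inner box as long as the same cluster comes in.
-/

namespace Pool.Agent.H20.Q1

open Pool.Agent.H75.Perc Pool.Agent.H75.TwoArm Pool.Agent.H75.Four Pool.Agent.H49.Perc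
open Pool.Agent.H99.NC Pool.Agent.H60.Q1

variable {κ : ℤ} {Wv : ℤ × ℤ → Prop} {η θ ω ω0 ω2 ω' fr 𝒜 L ζ Y z B : Finset (ℤ × ℤ)}
  {w x y c0 xi : ℤ × ℤ} {a b m1 m2 ρ R h r P m : ℤ} {F Γ Γ1 Γ2 : Set (ℤ × ℤ) → ℝ} {κ1 M : ℝ}
  {D : Finset (ℤ × ℤ) → ℝ}

/-- the cluster of `xi` reaches distance `R` -/
def Rch (w xi : ℤ × ℤ) (R : ℤ) (ω : Finset (ℤ × ℤ)) : Prop := ∃ v, Far w R v ∧ Co ω xi v

/-- the crossing cluster is unique and does not meet the wall -/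
def GdC (κ : ℤ) (w : ℤ × ℤ) (ρ r : ℤ) (ω : Finset (ℤ × ℤ)) : Prop :=
  Gd κ w ρ r (ω ∩ AL κ w ρ r) (cG κ w ρ r (ω ∩ AL κ w ρ r))

/-- the surroundings of the half box -/
structure Env (κ : ℤ) (w : ℤ × ℤ) (R : ℤ) (B : Finset (ℤ × ℤ)) (Wv : ℤ × ℤ → Prop) : Prop where
  sub : HL κ w R ⊆ B
  abv : ∀ l ∈ B, l ∈ BR w R → 2 * ht κ w ≤ ht κ l
  flat : Flat κ w R Wv

/-- admissible second factors: bounded, zero unless the cluster of `xi` reaches distance `R`, and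
if the cluster of `xi` is the only cluster which crosses the half annulus `ρ, r`, not a function of
the labels of the half box of radius `ρ` -/
structure Adm (κ : ℤ) (w xi : ℤ × ℤ) (m R : ℤ) (B : Finset (ℤ × ℤ)) (Wv : ℤ × ℤ → Prop) (M : ℝ)
    (D : Finset (ℤ × ℤ) → ℝ) : Prop where
  nonneg : 0 ≤ M
  bd : ∀ ω, ω ⊆ B → |D ω| ≤ M
  far : ∀ ω, ω ⊆ B → D ω ≠ 0 → Rch w xi R ω
  loc : ∀ ρ r : ℤ, m < ρ → ρ < r → r ≤ R → ∃ Ψ : Finset (ℤ × ℤ) → ℝ, ∀ ω, ω ⊆ B →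
    ∀ c0, Gd κ w ρ r (ω ∩ AL κ w ρ r) c0 → Co ω xi c0 → Rch w xi R ω →
      (∀ v, Wv v → Co ω xi v → inR w m v) → D ω = Ψ (ω \ HL κ w ρ)

lemma HL_br {l : ℤ × ℤ} (h : l ∈ HL κ w R) : l ∈ BR w R := (mem_HL'.1 h).1

lemma Env.cap (hE : Env κ w R B Wv) (hω : ω ⊆ B) (hρR : ρ ≤ R) {l : ℤ × ℤ} (hl : l ∈ ω)
    (hb : l ∈ BR w ρ) : l ∈ HL κ w ρ :=
  mem_HL'.2 ⟨hb, hE.abv l (hω hl) (BR_mono hρR hb)⟩

lemma Env.abv' (hE : Env κ w R B Wv) (hω : ω ⊆ B) : Abv κ w R ω := fun l hl hb => hE.abv l (hω hl) hb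

/-- the vertices of a cluster of labels of the half box -/
lemma co_box (hκ : κ = 0 ∨ κ = 1) (hω : ω ⊆ HL κ w R) {u v : ℤ × ℤ} (h : Co ω u v) (hu : inR w R u)
    (hu' : ht κ w ≤ ht κ u) : inR w R v ∧ ht κ w ≤ ht κ v := by
  by_cases h1 : u = v
  · rw [← h1]; exact ⟨hu, hu'⟩
  · obtain ⟨p, h2, h3, -⟩ := end_in h h1
    have h4 := mem_HL'.1 (hω h3)
    exact ⟨(BR_ends h2 h4.1).2, (above_ends hκ h2 h4.2).2⟩

/-- comparison with the flat half box -/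
lemma to_flat (hκ : κ = 0 ∨ κ = 1) (hD : Dcr xi Γ) (hE : Env κ w R B Wv) (hxi : inR w m xi)
    (hmR : m < R) (hxw : ht κ xi = ht κ w) (hω : ω ⊆ B) :
    Γ (CS Wv ω xi) * ind (Rch w xi R ω) ≤
      Γ (CS (FW κ w) (ω ∩ HL κ w R) xi) * ind (Rch w xi R (ω ∩ HL κ w R)) := by
  have hxi' := hxi
  rw [inR_iff] at hxi'
  by_cases hr : Rch w xi R ω
  · obtain ⟨v, hv1, hv2⟩ := hr
    obtain ⟨v', h1, h2⟩ := open_exit hv2 (by rw [abs_lt, abs_lt]; omega :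
      |xi.1 - w.1| < R ∧ |xi.2 - w.2| < R) hv1
    have h3 : Co (ω ∩ HL κ w R) xi v' := h2.mono fun l hl => by
      obtain ⟨h4, h5⟩ := mem_inter.1 hl
      exact mem_inter.2 ⟨h4, hE.cap hω le_rfl h4 h5⟩
    rw [ind_true (show Rch w xi R ω from ⟨v, hv1, hv2⟩),
      ind_true (show Rch w xi R (ω ∩ HL κ w R) from ⟨v', h1, h3⟩), mul_one, mul_one]
    refine hD.2 _ _ ?_ ⟨hxw, Co.refl _ _⟩
    rintro u ⟨hu1, hu2⟩
    have h4 := co_box hκ inter_subset_right hu2 (by rw [inR_iff]; omega) (by omega)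
    exact ⟨(hE.flat u h4.1 h4.2).2 hu1, hu2.mono inter_subset_left⟩
  · rw [ind_false hr, mul_zero]
    exact mul_nonneg (hD.1 _) (ind_nonneg _)

/-- pointwise bound of the error -/
lemma err_pt (hκ : κ = 0 ∨ κ = 1) (hD : Dcr xi Γ) (hS : Sup w m xi Γ) (hm : m < ρ) (hρr : ρ < r)
    (hrR : r < R) (hxi : inR w m xi) (hxw : ht κ xi = ht κ w) (hE : Env κ w R B Wv) (hω : ω ⊆ B) :
    ind (¬ GdC κ w ρ r ω) * (Γ (CS Wv ω xi) * ind (Rch w xi R ω)) ≤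
      ind (TwoC κ w ρ r (ω ∩ AL κ w ρ r)) * (ind (U3 κ w r R (ω ∩ AL κ w r R)) *
        (Γ (CS (FW κ w) (ω ∩ HL κ w ρ) xi) * ind (Rch w xi ρ (ω ∩ HL κ w ρ)))) := by
  have hpos : 0 ≤ ind (TwoC κ w ρ r (ω ∩ AL κ w ρ r)) * (ind (U3 κ w r R (ω ∩ AL κ w r R)) *
        (Γ (CS (FW κ w) (ω ∩ HL κ w ρ) xi) * ind (Rch w xi ρ (ω ∩ HL κ w ρ)))) :=
    mul_nonneg (ind_nonneg _) (mul_nonneg (ind_nonneg _) (mul_nonneg (hD.1 _) (ind_nonneg _)))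
  by_cases hG : GdC κ w ρ r ω
  · rw [ind_false (not_not.2 hG), zero_mul]
    exact hpos
  rw [ind_true hG, one_mul]
  refine (to_flat hκ hD hE hxi (by omega) hxw hω).trans ?_
  by_cases hF : Γ (CS (FW κ w) (ω ∩ HL κ w R) xi) = 0
  · rw [hF, zero_mul]; exact hpos
  by_cases hr : Rch w xi R (ω ∩ HL κ w R)
  · rw [ind_true hr, mul_one]
    have e1 : ω ∩ HL κ w R = (ω ∩ AL κ w r R) ∪ ((ω ∩ AL κ w ρ r) ∪ (ω ∩ HL κ w ρ)) := by
      rw [HL_split hrR.le, HL_split hρr.le, inter_union_distrib_left, inter_union_distrib_left]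
    rw [e1] at hF hr ⊢
    rcases D1 hκ hD hS hm hρr hrR hxi hxw inter_subset_right inter_subset_right inter_subset_right
      hF hr with ⟨g1, -, -⟩ | ⟨g1, g2, g3, g4⟩
    · exact absurd g1 hG
    · rw [ind_true g1, ind_true g2, ind_true (show Rch w xi ρ (ω ∩ HL κ w ρ) from g3), one_mul,
        one_mul, mul_one]
      exact g4
  · rw [ind_false hr, mul_zero]; exact hpos

/-- **mean of the error** -/
lemma err_bd (hκ : κ = 0 ∨ κ = 1) (hD : Dcr xi Γ) (hS : Sup w m xi Γ) (hm : m < ρ) (hρr : ρ < r)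
    (hrR : r < R) (hxi : inR w m xi) (hxw : ht κ xi = ht κ w) (hE : Env κ w R B Wv) :
    Ex hf B (fun ω => ind (¬ GdC κ w ρ r ω) * (Γ (CS Wv ω xi) * ind (Rch w xi R ω))) ≤
      PrP hf (AL κ w ρ r) (TwoC κ w ρ r) * (u3 κ w r R * NN κ w xi Γ ρ) := by
  refine (Ex_mono hf_Pb fun ω hω => err_pt hκ hD hS hm hρr hrR hxi hxw hE hω).trans ?_
  have sB1 : AL κ w ρ r ⊆ B := fun l hl => hE.sub (by
    rw [HL_split hrR.le, HL_split hρr.le]
    exact mem_union_right _ (mem_union_left _ hl))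
  have sB2 : AL κ w r R ⊆ B := fun l hl => hE.sub (by
    rw [HL_split hrR.le]
    exact mem_union_left _ hl)
  have sB3 : HL κ w ρ ⊆ B := fun l hl => hE.sub (by
    rw [HL_split hrR.le, HL_split hρr.le]
    exact mem_union_right _ (mem_union_right _ hl))
  have hd : Disjoint (AL κ w ρ r) (AL κ w r R ∪ HL κ w ρ) := by
    rw [disjoint_union_right]
    exact ⟨AL_AL_disj, AL_HL_disj⟩
  have hd2 : Disjoint (AL κ w r R) (HL κ w ρ) := by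
    rw [disjoint_left]
    intro l h1 h2
    exact (mem_AL'.1 h1).2.1 (BR_mono hρr.le (HL_br h2))
  have e1 := Ex_indep hf sB1 (union_subset sB2 sB3) hd (fun ω => ind (TwoC κ w ρ r ω))
    (fun ω => ind (U3 κ w r R (ω ∩ AL κ w r R)) *
        (Γ (CS (FW κ w) (ω ∩ HL κ w ρ) xi) * ind (Rch w xi ρ (ω ∩ HL κ w ρ))))
  have e2 := Ex_indep hf (E := AL κ w r R ∪ HL κ w ρ) subset_union_left subset_union_right hd2
    (fun ω => ind (U3 κ w r R ω)) (fun ω => Γ (CS (FW κ w) ω xi) * ind (Rch w xi ρ ω))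
  have e3 : ∀ ω : Finset (ℤ × ℤ), ω ∩ (AL κ w r R ∪ HL κ w ρ) ∩ AL κ w r R = ω ∩ AL κ w r R :=
    fun ω => by rw [inter_assoc, inter_eq_right.2 subset_union_left]
  have e4 : ∀ ω : Finset (ℤ × ℤ), ω ∩ (AL κ w r R ∪ HL κ w ρ) ∩ HL κ w ρ = ω ∩ HL κ w ρ :=
    fun ω => by rw [inter_assoc, inter_eq_right.2 subset_union_right]
  have e5 : Ex hf (AL κ w r R) (fun ω => ind (U3 κ w r R ω)) = u3 κ w r R := by
    have : PrP hf (AL κ w r R) (U3 κ w r R) = u3 κ w r R := by rw [hf_Pr]; rfl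
    exact this
  refine le_of_eq ?_
  have e6 : Ex hf B (fun ω => ind (TwoC κ w ρ r (ω ∩ AL κ w ρ r)) *
      (ind (U3 κ w r R (ω ∩ AL κ w r R)) *
        (Γ (CS (FW κ w) (ω ∩ HL κ w ρ) xi) * ind (Rch w xi ρ (ω ∩ HL κ w ρ))))) =
      Ex hf B (fun ω => ind (TwoC κ w ρ r (ω ∩ AL κ w ρ r)) *
      (ind (U3 κ w r R (ω ∩ (AL κ w r R ∪ HL κ w ρ) ∩ AL κ w r R)) *
        (Γ (CS (FW κ w) (ω ∩ (AL κ w r R ∪ HL κ w ρ) ∩ HL κ w ρ) xi) *
          ind (Rch w xi ρ (ω ∩ (AL κ w r R ∪ HL κ w ρ) ∩ HL κ w ρ))))) :=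
    Ex_congr fun ω _ => by rw [e3, e4]
  rw [e6, e1, e2, e5]
  rfl

/-- small ratios -/
lemma triv_bd (hκ : κ = 0 ∨ κ = 1) (hD : Dcr xi Γ) (hm : m < R) (hxi : inR w m xi)
    (hxw : ht κ xi = ht κ w) (hE : Env κ w R B Wv) :
    Ex hf B (fun ω => Γ (CS Wv ω xi) * ind (Rch w xi R ω)) ≤ NN κ w xi Γ R := by
  refine (Ex_mono hf_Pb fun ω hω => to_flat hκ hD hE hxi hm hxw hω).trans ?_
  exact (Ex_restrict hf hE.sub
    (fun ω => Γ (CS (FW κ w) ω xi) * ind (Rch w xi R ω))).le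

/-- coefficient of the main term -/
noncomputable def Psi (κ : ℤ) (w : ℤ × ℤ) (ρ r R : ℤ) (M : ℝ) (Ψ : Finset (ℤ × ℤ) → ℝ)
    (z : Finset (ℤ × ℤ)) : ℝ :=
  ind (GdC κ w ρ r z ∧ U3 κ w ρ R z ∧ |Ψ z| ≤ M ∧
    ∃ v, Far w R v ∧ Co z (cG κ w ρ r (z ∩ AL κ w ρ r)) v) * Ψ z

lemma Psi_abs {Ψ : Finset (ℤ × ℤ) → ℝ} (hM : 0 ≤ M) :
    |Psi κ w ρ r R M Ψ z| ≤ M * ind (U3 κ w ρ R z) := by
  unfold Psi
  by_cases h : GdC κ w ρ r z ∧ U3 κ w ρ R z ∧ |Ψ z| ≤ M ∧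
    ∃ v, Far w R v ∧ Co z (cG κ w ρ r (z ∩ AL κ w ρ r)) v
  · rw [ind_true h, one_mul, ind_true h.2.1, mul_one]
    exact h.2.2.1
  · rw [ind_false h, zero_mul, abs_zero]
    exact mul_nonneg hM (ind_nonneg _)

lemma Psi_bad {Ψ : Finset (ℤ × ℤ) → ℝ} (h : ¬ GdC κ w ρ r z) : Psi κ w ρ r R M Ψ z = 0 := by
  unfold Psi
  rw [ind_false fun h1 => h h1.1, zero_mul]

lemma CS_congr {x y : ℤ × ℤ} (h : Co ω x y) : CS Wv ω x = CS Wv ω y := by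
  ext v
  constructor
  · rintro ⟨h1, h2⟩; exact ⟨h1, h.symm.trans h2⟩
  · rintro ⟨h1, h2⟩; exact ⟨h1, Co.trans h h2⟩

/-- the crossing part of a connection from the inner box to a far vertex -/
lemma far_cross (hρr : ρ < r) (hrR : r ≤ R) {c v : ℤ × ℤ} (hab : Abv κ w R z)
    (hω0 : ω0 ⊆ HL κ w ρ) (hG : Gd κ w ρ r (z ∩ AL κ w ρ r) c) (hv : Far w R v)
    (h : Co (z ∪ ω0) c v) : Co z c v := by
  rcases zeta_or hω0 h with h1 | ⟨p, h1, h2⟩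
  · exact h1
  · obtain ⟨u', v', g1, g2, g3, g4⟩ := cross_of (κ := κ) (b := R) (ρ := ρ) (R := r) h2 h1
      (by unfold Far at hv ⊢; omega) hρr hrR hab
    exact ((hG.2.2.2 u' v' g1 g2 g3).mono inter_subset_left).trans (g4.symm.trans h2)

/-- **pointwise form of the main term** -/
lemma main_pt (hκ : κ = 0 ∨ κ = 1) (hF : ∀ S, |F S| ≤ Γ S) (hS : Sup w m xi Γ) (hm : m < ρ)
    (hρr : ρ < r) (hrR : r ≤ R) (hxi : inR w m xi) (hE : Env κ w R B Wv)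
    {Ψ : Finset (ℤ × ℤ) → ℝ} (hbd : ∀ ω, ω ⊆ B → |D ω| ≤ M)
    (hfar : ∀ ω, ω ⊆ B → D ω ≠ 0 → Rch w xi R ω)
    (hloc : ∀ ω, ω ⊆ B → ∀ c0, Gd κ w ρ r (ω ∩ AL κ w ρ r) c0 → Co ω xi c0 → Rch w xi R ω →
      (∀ v, Wv v → Co ω xi v → inR w m v) → D ω = Ψ (ω \ HL κ w ρ))
    (hz : z ⊆ B \ HL κ w ρ) (h0 : ω0 ⊆ HL κ w ρ) :
    ind (GdC κ w ρ r (z ∪ ω0)) * (F (CS Wv (z ∪ ω0) xi) * D (z ∪ ω0)) =
      Psi κ w ρ r R M Ψ z * F (CS Wv (z ∪ ω0) (cG κ w ρ r (z ∩ AL κ w ρ r))) := by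
  have hsB : z ∪ ω0 ⊆ B := union_subset (fun l hl => (mem_sdiff.1 (hz hl)).1) fun l hl => hE.sub (by
    rw [HL_split (hρr.le.trans hrR)]; exact mem_union_right _ (h0 hl))
  have e1 : ∀ {r' : ℤ}, (z ∪ ω0) ∩ AL κ w ρ r' = z ∩ AL κ w ρ r' := by
    intro r'
    ext l
    rw [mem_inter, mem_inter, mem_union]
    constructor
    · rintro ⟨h1 | h1, h2⟩
      · exact ⟨h1, h2⟩
      · exact absurd (HL_br (h0 h1)) (mem_AL'.1 h2).2.1
    · rintro ⟨h1, h2⟩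
      exact ⟨Or.inl h1, h2⟩
  have e2 : (z ∪ ω0) \ HL κ w ρ = z := by
    ext l
    rw [mem_sdiff, mem_union]
    constructor
    · rintro ⟨h1 | h1, h2⟩
      · exact h1
      · exact absurd (h0 h1) h2
    · intro h1
      exact ⟨Or.inl h1, (mem_sdiff.1 (hz h1)).2⟩
  have eG : GdC κ w ρ r (z ∪ ω0) ↔ GdC κ w ρ r z := by
    unfold GdC
    rw [e1]
  rw [ind_congr eG]
  set c := cG κ w ρ r (z ∩ AL κ w ρ r) with hc
  set ω := z ∪ ω0 with hω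
  have hzω : z ⊆ ω := subset_union_left
  have hzab : Abv κ w R z := fun l hl hb => hE.abv l (hsB (hzω hl)) hb
  have hab : Abv κ w R ω := hE.abv' hsB
  by_cases hG : GdC κ w ρ r z
  swap
  · rw [ind_false hG, Psi_bad hG, zero_mul, zero_mul]
  rw [ind_true hG, one_mul]
  have hG' : Gd κ w ρ r (z ∩ AL κ w ρ r) c := hG
  have hGω : Gd κ w ρ r (ω ∩ AL κ w ρ r) c := by rw [e1]; exact hG'
  have hxi' := hxi
  rw [inR_iff] at hxi'
  -- reaching forces a connection with the crossing cluster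
  have hconn : Rch w xi R ω → Co ω xi c := by
    rintro ⟨v, hv1, hv2⟩
    obtain ⟨u', v', g1, g2, g3, g4⟩ := cross_of (κ := κ) (b := R) (ρ := ρ) (R := r) hv2
      (by rw [inR_iff]; omega) (by unfold Far at hv1 ⊢; omega) hρr hrR hab
    have h1 := hGω.2.2.2 u' v' g1 g2 g3
    exact g4.trans (h1.mono inter_subset_left).symm
  by_cases hF0 : F (CS Wv ω c) = 0
  · rw [hF0, mul_zero]
    by_contra h1
    have h2 : F (CS Wv ω xi) ≠ 0 := fun h3 => h1 (by rw [h3, zero_mul])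
    have h3 : D ω ≠ 0 := fun h3 => h1 (by rw [h3, mul_zero])
    apply h2
    rw [CS_congr (hconn (hfar ω hsB h3))]
    exact hF0
  · have hΓ0 : Γ (CS Wv ω c) ≠ 0 := fun h1 => hF0 (by
      have := hF (CS Wv ω c)
      rw [h1] at this
      exact abs_nonpos_iff.1 this)
    obtain ⟨h1, h2⟩ := hS _ hΓ0
    have hcx : Co ω xi c := Co.symm h1.2
    rw [CS_congr hcx, mul_comm]
    congr 1
    by_cases hr : Rch w xi R ω
    · have hcon : ∀ v, Wv v → Co ω xi v → inR w m v := fun v hv hv' =>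
        h2 v ⟨hv, hcx.symm.trans hv'⟩
      have hDΨ := hloc ω hsB c hGω hcx hr hcon
      rw [e2] at hDΨ
      have hU : U3 κ w ρ R z := by
        obtain ⟨v, hv1, hv2⟩ := hr
        obtain ⟨u', v', g1, g2, g3, g4⟩ := cross_of (κ := κ) (b := R) (ρ := ρ) (R := R) hv2
          (by rw [inR_iff]; omega) hv1 (by omega) le_rfl hab
        rw [e1] at g3
        refine ⟨u', v', g1, g2, g3, fun y hy hht => ?_⟩
        have hne : u' ≠ v' := near_ne_far (by omega) g1 g2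
        have hreg := (Co.reg hκ inter_subset_right g3 hne).2 y hy
        have h5 : inR w R y := near_iff.1 hreg.2.1
        have h6 : Co ω xi y := g4.trans (hy.mono (inter_subset_left.trans hzω))
        have h7 := hcon y ((hE.flat y h5 hreg.1).2 hht) h6
        have h8 := hreg.2.2
        rw [inR_iff] at h7
        rw [le_abs, le_abs] at h8
        omega
      have hv : ∃ v, Far w R v ∧ Co z c v := by
        obtain ⟨v, hv1, hv2⟩ := hr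
        exact ⟨v, hv1, far_cross hρr hrR hzab h0 hG' hv1 (hcx.symm.trans hv2)⟩
      unfold Psi
      rw [ind_true ⟨hG, hU, by rw [← hDΨ]; exact hbd ω hsB, hv⟩, one_mul]
      exact hDΨ
    · have h3 : D ω = 0 := by
        by_contra h3
        exact hr (hfar ω hsB h3)
      rw [h3]
      unfold Psi
      rw [ind_false, zero_mul]
      rintro ⟨-, -, -, v, hv1, hv2⟩
      exact hr ⟨v, hv1, hcx.trans (hv2.mono hzω)⟩

/-- **mean of the main term** -/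
lemma main_ex (hκ : κ = 0 ∨ κ = 1) (hF : ∀ S, |F S| ≤ Γ S) (hS : Sup w m xi Γ) (hm : m < ρ)
    (hρr : ρ < r) (hrR : r ≤ R) (hxi : inR w m xi) (hE : Env κ w R B Wv)
    {Ψ : Finset (ℤ × ℤ) → ℝ} (hbd : ∀ ω, ω ⊆ B → |D ω| ≤ M)
    (hfar : ∀ ω, ω ⊆ B → D ω ≠ 0 → Rch w xi R ω)
    (hloc : ∀ ω, ω ⊆ B → ∀ c0, Gd κ w ρ r (ω ∩ AL κ w ρ r) c0 → Co ω xi c0 → Rch w xi R ω →
      (∀ v, Wv v → Co ω xi v → inR w m v) → D ω = Ψ (ω \ HL κ w ρ)) :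
    Ex hf B (fun ω => ind (GdC κ w ρ r ω) * (F (CS Wv ω xi) * D ω)) =
      Ex hf (B \ HL κ w ρ) (fun z => Psi κ w ρ r R M Ψ z *
        fS κ w ρ F (Wv, z, cG κ w ρ r (z ∩ AL κ w ρ r))) := by
  have hsub : HL κ w ρ ⊆ B := fun l hl => hE.sub (by
    rw [HL_split (hρr.le.trans hrR)]; exact mem_union_right _ hl)
  have e1 : B = (B \ HL κ w ρ) ∪ HL κ w ρ := (sdiff_union_of_subset hsub).symm
  conv_lhs => rw [e1]
  rw [Ex_union hf sdiff_disjoint]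
  refine Ex_congr fun z hz => ?_
  unfold fS fv
  rw [← Ex_smul]
  refine Ex_congr fun ω0 h0 => ?_
  exact main_pt hκ hF hS hm hρr hrR hxi hE hbd hfar hloc hz h0

end Pool.Agent.H20.Q1
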