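import Mathlib
import Pool.Agent.H20.Q1.MxUa
import Pool.Agent.H20.Q1.MxMain

set_option autoImplicit false
open Finset

/-!
# Mixing with a second factor

`mixU` : `E [F (contacts) D] = q E [Γ2 (contacts) D] + O (M ((m + 1) / R) ^ γ / R ^ 2)` for all
admissible factors `D`, with the explicit ratio `q = NN F R / NN Γ2 R`.
-/

namespace Pool.Agent.H20.Q1

open Pool.Agent.H75.Perc Pool.Agent.H75.TwoArm Pool.Agent.H75.Four Pool.Agent.H49.Perc
open Pool.Agent.H99.NC Pool.Agent.H60.Q1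

variable {κ : ℤ} {Wv : ℤ × ℤ → Prop} {η θ ω ω0 ω2 ω' fr 𝒜 L ζ Y z B : Finset (ℤ × ℤ)}
  {w x y c0 xi : ℤ × ℤ} {a b m1 m2 ρ R h r P m : ℤ} {F Γ Γ1 Γ2 : Set (ℤ × ℤ) → ℝ} {κ1 M : ℝ}
  {D : Finset (ℤ × ℤ) → ℝ}

lemma u3_ex (κ : ℤ) (w : ℤ × ℤ) (ρ R : ℤ) :
    Ex hf (AL κ w ρ R) (fun ω => ind (U3 κ w ρ R ω)) = u3 κ w ρ R := by
  have : PrP hf (AL κ w ρ R) (U3 κ w ρ R) = u3 κ w ρ R := by rw [hf_Pr]; rfl
  exact this

lemma fd_abs (hM : 0 ≤ M) (hF : ∀ S, |F S| ≤ Γ S) (hbd : |D ω| ≤ M)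
    (hfar : D ω ≠ 0 → Rch w xi R ω) :
    |F (CS Wv ω xi) * D ω| ≤ M * (Γ (CS Wv ω xi) * ind (Rch w xi R ω)) := by
  have hΓ : 0 ≤ Γ (CS Wv ω xi) := (abs_nonneg _).trans (hF _)
  by_cases h : Rch w xi R ω
  · rw [ind_true h, mul_one, abs_mul, mul_comm M]
    exact mul_le_mul (hF _) hbd (abs_nonneg _) hΓ
  · have h1 : D ω = 0 := by
      by_contra h1
      exact h (hfar h1)
    rw [h1, mul_zero, abs_zero]
    exact mul_nonneg hM (mul_nonneg hΓ (ind_nonneg _))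

/-- the trivial bound -/
lemma triv_ex (hκ : κ = 0 ∨ κ = 1) (hF : ∀ S, |F S| ≤ Γ S) (hD : Dcr xi Γ) (hm : m < R)
    (hxi : inR w m xi) (hxw : ht κ xi = ht κ w) (hE : Env κ w R B Wv)
    (hA : Adm κ w xi m R B Wv M D) :
    |Ex hf B (fun ω => F (CS Wv ω xi) * D ω)| ≤ M * NN κ w xi Γ R := by
  refine (Ex_abs_le (g := fun ω => M * (Γ (CS Wv ω xi) * ind (Rch w xi R ω))) fun ω hω =>
    fd_abs hA.nonneg hF (hA.bd ω hω) (hA.far ω hω)).trans ?_
  rw [Ex_smul]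
  exact mul_le_mul_of_nonneg_left (triv_bd hκ hD hm hxi hxw hE) hA.nonneg

/-- main term and error -/
lemma split_ex (hκ : κ = 0 ∨ κ = 1) (hF : ∀ S, |F S| ≤ Γ S) (hD : Dcr xi Γ) (hS : Sup w m xi Γ)
    (hm : m < ρ) (hρr : ρ < r) (hrR : r < R) (hxi : inR w m xi) (hxw : ht κ xi = ht κ w)
    (hE : Env κ w R B Wv) (hA : Adm κ w xi m R B Wv M D) {Ψ : Finset (ℤ × ℤ) → ℝ}
    (hloc : ∀ ω, ω ⊆ B → ∀ c0, Gd κ w ρ r (ω ∩ AL κ w ρ r) c0 → Co ω xi c0 → Rch w xi R ω →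
      (∀ v, Wv v → Co ω xi v → inR w m v) → D ω = Ψ (ω \ HL κ w ρ)) :
    |Ex hf B (fun ω => F (CS Wv ω xi) * D ω) - Ex hf (B \ HL κ w ρ) (fun z => Psi κ w ρ r R M Ψ z *
        fS κ w ρ F (Wv, z, cG κ w ρ r (z ∩ AL κ w ρ r)))| ≤
      M * (PrP hf (AL κ w ρ r) (TwoC κ w ρ r) * (u3 κ w r R * NN κ w xi Γ ρ)) := by
  rw [← main_ex hκ hF hS hm hρr hrR.le hxi hE hA.bd hA.far hloc, ← Ex_sub]
  have h1 : ∀ ω, ω ⊆ B → |F (CS Wv ω xi) * D ω - ind (GdC κ w ρ r ω) * (F (CS Wv ω xi) * D ω)| ≤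
      M * (ind (¬ GdC κ w ρ r ω) * (Γ (CS Wv ω xi) * ind (Rch w xi R ω))) := by
    intro ω hω
    have h2 := fd_abs (Wv := Wv) hA.nonneg hF (hA.bd ω hω) (hA.far ω hω)
    by_cases hG : GdC κ w ρ r ω
    · rw [ind_true hG, ind_false (not_not.2 hG), one_mul, sub_self, abs_zero, zero_mul, mul_zero]
    · rw [ind_false hG, ind_true hG, zero_mul, sub_zero, one_mul]
      exact h2
  refine (Ex_abs_le h1).trans ?_
  rw [Ex_smul]
  exact mul_le_mul_of_nonneg_left (err_bd hκ hD hS hm hρr hrR hxi hxw hE) hA.nonneg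

/-- error of the main term -/
lemma main_err {ε q : ℝ} {Ψ : Finset (ℤ × ℤ) → ℝ} (hM : 0 ≤ M) (hρr : ρ < r) (hrR : r ≤ R)
    (hE : Env κ w R B Wv) (hε : 0 ≤ ε)
    (hmix : ∀ s, VV κ w ρ s → |fS κ w ρ F s - q * fS κ w ρ Γ2 s| ≤ ε) :
    |Ex hf (B \ HL κ w ρ) (fun z => Psi κ w ρ r R M Ψ z *
        fS κ w ρ F (Wv, z, cG κ w ρ r (z ∩ AL κ w ρ r))) -
      q * Ex hf (B \ HL κ w ρ) (fun z => Psi κ w ρ r R M Ψ z *
        fS κ w ρ Γ2 (Wv, z, cG κ w ρ r (z ∩ AL κ w ρ r)))| ≤ M * ε * u3 κ w ρ R := by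
  rw [← Ex_smul, ← Ex_sub]
  have h1 : ∀ z, z ⊆ B \ HL κ w ρ → |Psi κ w ρ r R M Ψ z *
        fS κ w ρ F (Wv, z, cG κ w ρ r (z ∩ AL κ w ρ r)) - q * (Psi κ w ρ r R M Ψ z *
        fS κ w ρ Γ2 (Wv, z, cG κ w ρ r (z ∩ AL κ w ρ r)))| ≤
      M * ε * ind (U3 κ w ρ R (z ∩ AL κ w ρ R)) := by
    intro z hz
    rw [← ind_congr (U3_local (κ := κ) (z := w) (ρ := ρ) (R := R) (ω := z))]
    have e1 : Psi κ w ρ r R M Ψ z * fS κ w ρ F (Wv, z, cG κ w ρ r (z ∩ AL κ w ρ r)) -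
        q * (Psi κ w ρ r R M Ψ z * fS κ w ρ Γ2 (Wv, z, cG κ w ρ r (z ∩ AL κ w ρ r))) =
        Psi κ w ρ r R M Ψ z * (fS κ w ρ F (Wv, z, cG κ w ρ r (z ∩ AL κ w ρ r)) -
        q * fS κ w ρ Γ2 (Wv, z, cG κ w ρ r (z ∩ AL κ w ρ r))) := by ring
    rw [e1, abs_mul]
    by_cases hG : GdC κ w ρ r z
    · have hG' : Gd κ w ρ r (z ∩ AL κ w ρ r) (cG κ w ρ r (z ∩ AL κ w ρ r)) := hG
      have hV : VV κ w ρ (Wv, z, cG κ w ρ r (z ∩ AL κ w ρ r)) := by
        refine ⟨fun v hv hv' => hE.flat v (by rw [inR_iff] at hv ⊢; omega) hv', ?_, ?_⟩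
        · intro l hl hb
          exact (mem_sdiff.1 (hz hl)).2 (hE.cap (fun l hl => (mem_sdiff.1 (hz hl)).1)
            (by omega) hl hb)
        · have := hG'.1
          show Far w ρ (cG κ w ρ r (z ∩ AL κ w ρ r))
          unfold Far at this ⊢
          omega
      have h2 := mul_le_mul (Psi_abs (κ := κ) (w := w) (ρ := ρ) (r := r) (R := R) (z := z) (Ψ := Ψ) hM)
        (hmix _ hV) (abs_nonneg _) (mul_nonneg hM (ind_nonneg _))
      linarith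
    · rw [Psi_bad hG, abs_zero, zero_mul]
      exact mul_nonneg (mul_nonneg hM hε) (ind_nonneg _)
  refine (Ex_abs_le h1).trans ?_
  rw [Ex_smul]
  have hsub : AL κ w ρ R ⊆ B \ HL κ w ρ := by
    intro l hl
    rw [mem_sdiff]
    refine ⟨hE.sub ?_, fun h2 => (mem_AL'.1 hl).2.1 (HL_br h2)⟩
    rw [HL_split (show ρ ≤ R by omega)]
    exact mem_union_left _ hl
  rw [Ex_restrict hf hsub (fun ω => ind (U3 κ w ρ R ω)), u3_ex]

/-- **mixing with a second factor**, implicit ratio -/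
theorem mixU0 {cN CN : ℝ} (hcN : 0 < cN) (hCN : 0 < CN) : ∃ C γ : ℝ, 1 ≤ C ∧ 0 < γ ∧
    ∀ (κ : ℤ), (κ = 0 ∨ κ = 1) → ∀ (w xi : ℤ × ℤ) (m R : ℤ) (F Γ1 Γ2 : Set (ℤ × ℤ) → ℝ),
    Dcr xi Γ1 → Sup w m xi Γ1 → Dcr xi Γ2 → Sup w m xi Γ2 → inR w m xi → ht κ xi = ht κ w →
    m < R → NB κ w xi Γ1 cN CN m R → NB κ w xi Γ2 cN CN m R → (∀ S, |F S| ≤ Γ1 S) →
    ∃ q : ℝ, |q| ≤ C ∧ ∀ (B : Finset (ℤ × ℤ)) (Wv : ℤ × ℤ → Prop) (M : ℝ)
      (D : Finset (ℤ × ℤ) → ℝ), Env κ w R B Wv → Adm κ w xi m R B Wv M D →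
      |Ex hf B (fun ω => F (CS Wv ω xi) * D ω) - q * Ex hf B (fun ω => Γ2 (CS Wv ω xi) * D ω)| ≤
        C * M * (((m : ℝ) + 1) / R) ^ γ / (R : ℝ) ^ 2 := by
  obtain ⟨Cm, γm, hCm, hγm, hmix⟩ := mixing hcN hCN
  obtain ⟨δ, hδ0, hδ1, hTC⟩ := two_cross
  obtain ⟨C3, hC3, hu3⟩ := u3_le
  set γ' : ℝ := -Real.log (1 - δ) / Real.log 16 with hγ'
  have hl16 : 0 < Real.log 16 := Real.log_pos (by norm_num)
  have hγ'0 : 0 < γ' := by
    rw [hγ']
    exact div_pos (neg_pos.2 (Real.log_neg (by linarith) (by linarith))) hl16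
  set γ : ℝ := min (γm / 2) γ' with hγ
  have hγ0 : 0 < γ := lt_min (by linarith) hγ'0
  set β : ℝ := (1 / 16 : ℝ) ^ γ with hβ
  have hβ0 : 0 < β := Real.rpow_pos_of_pos (by norm_num) _
  have hβ1 : β ≤ 1 := Real.rpow_le_one (by norm_num) (by norm_num) hγ0.le
  have hβm : (1 / 4 : ℝ) ^ γm ≤ β := by
    have h1 : (1 / 4 : ℝ) ^ γm = (1 / 16 : ℝ) ^ (γm / 2) := by
      rw [show (1 / 16 : ℝ) = (1 / 4 : ℝ) ^ (2 : ℝ) by
        rw [show (2 : ℝ) = ((2 : ℕ) : ℝ) by norm_num, Real.rpow_natCast]; norm_num,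
        ← Real.rpow_mul (by norm_num)]
      congr 1
      ring
    rw [h1, hβ]
    exact Real.rpow_le_rpow_of_exponent_ge (by norm_num) (by norm_num) (min_le_left _ _)
  have hβδ : 1 - δ ≤ β := by
    have h1 : (1 / 16 : ℝ) ^ γ' = 1 - δ := by
      rw [Real.rpow_def_of_pos (by norm_num), one_div, Real.log_inv]
      have h2 : -Real.log 16 * γ' = Real.log (1 - δ) := by
        rw [hγ']
        field_simp
      rw [h2, Real.exp_log (by linarith)]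
    rw [← h1, hβ]
    exact Real.rpow_le_rpow_of_exponent_ge (by norm_num) (by norm_num) (min_le_right _ _)
  have hpow : ∀ n : ℕ, ((1 / 16 : ℝ) ^ n) ^ γ = β ^ n := by
    intro n
    rw [hβ, ← Real.rpow_natCast, ← Real.rpow_natCast, ← Real.rpow_mul (by norm_num),
      ← Real.rpow_mul (by norm_num), mul_comm]
  obtain ⟨K0, hK0⟩ : ∃ n : ℕ, (1 - δ) ^ n < 1 / 2 := exists_pow_lt_of_lt_one (by norm_num) (by linarith)
  set K1 := K0 + 1 with hK1
  set C0 : ℝ := CN / β ^ K1 with hC0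
  set C1 : ℝ := (Cm * C3 + (1 + Cm) * (2 * C3 ^ 2 * CN)) / β with hC1
  set C : ℝ := Cm + C0 + C1 with hC
  have hC00 : 0 < C0 := by positivity
  have hC10 : 0 < C1 := by positivity
  refine ⟨C, γ, by linarith, hγ0, ?_⟩
  intro κ hκ w xi m R F Γ1 Γ2 hD1 hS1 hD2 hS2 hxi hxw hmR hN1 hN2 hF
  have hm0 : 0 ≤ m := by
    rw [inR_iff] at hxi
    omega
  have hR0 : (0 : ℝ) < R := by exact_mod_cast (by omega : (0 : ℤ) < R)
  have hmR0 : (0 : ℝ) ≤ m := by exact_mod_cast hm0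
  have hm1 : (0 : ℝ) < (m : ℝ) + 1 := by linarith
  -- lower bound of the ratio
  have hlow : ∀ n : ℕ, R ≤ 16 ^ n * (m + 1) → β ^ n ≤ (((m : ℝ) + 1) / R) ^ γ := by
    intro n hn
    rw [← hpow n]
    refine Real.rpow_le_rpow (by positivity) ?_ hγ0.le
    rw [one_div, inv_pow, inv_eq_one_div, div_le_div_iff₀ (by positivity) hR0]
    have : (R : ℝ) ≤ (16 : ℝ) ^ n * (m + 1) := by exact_mod_cast hn
    linarith
  have hX0 : 0 ≤ (((m : ℝ) + 1) / R) ^ γ := Real.rpow_nonneg (by positivity) _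
  by_cases hcase : R ≤ 16 ^ K1 * (m + 1)
  · refine ⟨0, by rw [abs_zero]; linarith, fun B Wv M D hE hA => ?_⟩
    rw [zero_mul, sub_zero]
    refine (triv_ex hκ hF hD1 hmR hxi hxw hE hA).trans ?_
    refine (mul_le_mul_of_nonneg_left (hN1 R hmR le_rfl).2 hA.nonneg).trans ?_
    rw [← mul_div_assoc]
    refine div_le_div_of_nonneg_right ?_ (by positivity)
    have h1 := hlow K1 hcase
    have h2 : CN = C0 * β ^ K1 := by
      rw [hC0]
      field_simp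
    have h3 : M * CN = C0 * M * β ^ K1 := by rw [h2]; ring
    rw [h3]
    exact mul_le_mul (mul_le_mul_of_nonneg_right (by linarith) hA.nonneg) h1 (by positivity)
      (mul_nonneg (by linarith) hA.nonneg)
  · push Not at hcase
    have hex : ∃ K : ℕ, K1 ≤ K ∧ 16 ^ K * (m + 1) < R ∧ R ≤ 16 ^ (K + 1) * (m + 1) := by
      classical
      have hbig : ∃ n : ℕ, R ≤ 16 ^ n * (m + 1) := by
        obtain ⟨n, hn⟩ := pow_unbounded_of_one_lt R (show (1 : ℤ) < 16 by omega)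
        refine ⟨n, hn.le.trans ?_⟩
        have : (0 : ℤ) < 16 ^ n := by positivity
        nlinarith
      have hn := Nat.find_spec hbig
      have hmin := fun k => Nat.find_min (H := hbig) (m := k)
      set n := Nat.find hbig with hnd
      have h2 : K1 < n := by
        by_contra h3
        push Not at h3
        have h4 : (16 : ℤ) ^ n ≤ 16 ^ K1 := pow_le_pow_right₀ (by norm_num) h3
        nlinarith
      refine ⟨n - 1, by omega, ?_, ?_⟩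
      · have h3 := hmin (n - 1) (by omega)
        omega
      · rw [show n - 1 + 1 = n by omega]
        exact hn
    obtain ⟨K, hK, hR1, hR2⟩ := hex
    have hKpos : 1 ≤ K := by omega
    have h4K : (4 : ℤ) ≤ 4 ^ K := four_pow_ge hKpos
    set ρ : ℤ := 4 ^ K * (m + 1) with hρ
    set r : ℤ := 4 ^ K * ρ with hr
    have hr16 : r = 16 ^ K * (m + 1) := by
      rw [hr, hρ, ← mul_assoc, ← mul_pow]
      norm_num
    have hρm : m < ρ := by nlinarith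
    have hρ1 : 1 ≤ ρ := by omega
    have hρr : ρ < r := by nlinarith
    have hrR : r < R := by rw [hr16]; exact hR1
    have hρR : ρ ≤ R := by omega
    have hρ0 : (0 : ℝ) < ρ := by exact_mod_cast (by omega : (0 : ℤ) < ρ)
    have hr0 : (0 : ℝ) < r := by exact_mod_cast (by omega : (0 : ℤ) < r)
    have nb : ∀ {G : Set (ℤ × ℤ) → ℝ}, NB κ w xi G cN CN m R → NB κ w xi G cN CN m ρ :=
      fun hG r h1 h2 => hG r h1 (h2.trans hρR)
    obtain ⟨q, hq, -, hmq⟩ := hmix κ hκ w xi m ρ F Γ1 Γ2 hD1 hS1 hD2 hS2 hxi hxw hρm (nb hN1)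
      (nb hN2) hF
    refine ⟨q, by linarith, fun B Wv M D hE hA => ?_⟩
    obtain ⟨Ψ, hloc⟩ := hA.loc ρ r hρm hρr hrR.le
    have hF2 : ∀ S, |Γ2 S| ≤ Γ2 S := fun S => (abs_of_nonneg (hD2.1 S)).le
    have s1 := split_ex hκ hF hD1 hS1 hρm hρr hrR hxi hxw hE hA hloc
    have s2 := split_ex hκ hF2 hD2 hS2 hρm hρr hrR hxi hxw hE hA hloc
    set ε : ℝ := Cm * (((m : ℝ) + 1) / ρ) ^ γm / (ρ : ℝ) ^ 2 with hε
    have hε0 : 0 ≤ ε := by positivity
    have s3 := main_err (Ψ := Ψ) hA.nonneg hρr hrR.le hE hε0 hmq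
    set I1 := Ex hf B (fun ω => F (CS Wv ω xi) * D ω)
    set I2 := Ex hf B (fun ω => Γ2 (CS Wv ω xi) * D ω)
    set J1 := Ex hf (B \ HL κ w ρ) (fun z => Psi κ w ρ r R M Ψ z *
        fS κ w ρ F (Wv, z, cG κ w ρ r (z ∩ AL κ w ρ r)))
    set J2 := Ex hf (B \ HL κ w ρ) (fun z => Psi κ w ρ r R M Ψ z *
        fS κ w ρ Γ2 (Wv, z, cG κ w ρ r (z ∩ AL κ w ρ r)))
    have hMn := hA.nonneg
    -- the probability of two crossings
    have hT : PrP hf (AL κ w ρ r) (TwoC κ w ρ r) ≤ 2 * (1 - δ) ^ K * u3 κ w ρ r := by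
      refine hTC κ hκ w ρ hρ1 K (le_trans ?_ hK0.le)
      exact pow_le_pow_of_le_one (by linarith) (by linarith) (by omega)
    have hu1 := hu3 κ hκ w ρ r hρ1 (by omega)
    have hu2 := hu3 κ hκ w r R (by omega) (by omega)
    have hu4 := hu3 κ hκ w ρ R hρ1 (by omega)
    have hδK : 0 ≤ (1 - δ) ^ K := pow_nonneg (by linarith) _
    have hu3n : 0 ≤ u3 κ w r R := by
      rw [← u3_ex]; exact Ex_nonneg hf_Pb fun _ _ => ind_nonneg _
    have hu3n' : 0 ≤ u3 κ w ρ R := by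
      rw [← u3_ex]; exact Ex_nonneg hf_Pb fun _ _ => ind_nonneg _
    have herr : ∀ {G : Set (ℤ × ℤ) → ℝ}, Dcr xi G → NB κ w xi G cN CN m R →
        M * (PrP hf (AL κ w ρ r) (TwoC κ w ρ r) * (u3 κ w r R * NN κ w xi G ρ)) ≤
          M * ((2 * C3 ^ 2 * CN) * (1 - δ) ^ K / (R : ℝ) ^ 2) := by
      intro G hG hGN
      refine mul_le_mul_of_nonneg_left ?_ hMn
      have h1 := (hGN ρ hρm hρR).2
      have h0 : 0 ≤ NN κ w xi G ρ := Ex_nonneg hf_Pb fun _ _ => mul_nonneg (hG.1 _) (ind_nonneg _)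
      have h2 : u3 κ w r R * NN κ w xi G ρ ≤ C3 * ((r : ℝ) / R) ^ 2 * (CN / (ρ : ℝ) ^ 2) :=
        mul_le_mul hu2 h1 h0 (by positivity)
      have h3 : PrP hf (AL κ w ρ r) (TwoC κ w ρ r) ≤
          2 * (1 - δ) ^ K * (C3 * ((ρ : ℝ) / r) ^ 2) :=
        hT.trans (mul_le_mul_of_nonneg_left hu1 (by positivity))
      refine (mul_le_mul h3 h2 (mul_nonneg hu3n h0) (by positivity)).trans (le_of_eq ?_)
      field_simp
    have e1 := s1.trans (herr hD1 hN1)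
    have e2 := s2.trans (herr hD2 hN2)
    set err : ℝ := M * ((2 * C3 ^ 2 * CN) * (1 - δ) ^ K / (R : ℝ) ^ 2) with herrd
    have h1 : I1 - q * I2 = (I1 - J1) - q * (I2 - J2) + (J1 - q * J2) := by ring
    rw [h1]
    refine (abs_add_le _ _).trans ?_
    have h2 : |(I1 - J1) - q * (I2 - J2)| ≤ err + Cm * err := by
      refine (abs_sub _ _).trans ?_
      rw [abs_mul]
      have h3 : |q| * |I2 - J2| ≤ Cm * err := mul_le_mul hq e2 (abs_nonneg _) (by linarith)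
      linarith
    have h3 : |J1 - q * J2| ≤ M * ((Cm * C3) * (((m : ℝ) + 1) / ρ) ^ γm / (R : ℝ) ^ 2) := by
      refine s3.trans ?_
      have h4 : M * ε * u3 κ w ρ R ≤ M * ε * (C3 * ((ρ : ℝ) / R) ^ 2) :=
        mul_le_mul_of_nonneg_left hu4 (mul_nonneg hMn hε0)
      refine h4.trans (le_of_eq ?_)
      rw [hε]
      field_simp
    -- comparison with the power of the ratio
    set X : ℝ := (((m : ℝ) + 1) / R) ^ γ with hX
    have hXK : β ^ (K + 1) ≤ X := hlow (K + 1) hR2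
    have hβK : β ^ K ≤ X / β := by
      rw [le_div_iff₀ hβ0, ← pow_succ]
      exact hXK
    have h4 : (((m : ℝ) + 1) / ρ) ^ γm ≤ X / β := by
      refine le_trans ?_ hβK
      have h5 : ((m : ℝ) + 1) / ρ = (1 / 4 : ℝ) ^ K := by
        rw [hρ]
        push_cast
        rw [one_div, inv_pow]
        field_simp
      rw [h5]
      have h6 : ((1 / 4 : ℝ) ^ K) ^ γm = ((1 / 4 : ℝ) ^ γm) ^ K := by
        rw [← Real.rpow_natCast, ← Real.rpow_natCast, ← Real.rpow_mul (by norm_num),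
          ← Real.rpow_mul (by norm_num), mul_comm]
      rw [h6]
      exact pow_le_pow_left₀ (Real.rpow_nonneg (by norm_num) _) hβm K
    have h5 : (1 - δ) ^ K ≤ X / β := (pow_le_pow_left₀ (by linarith) hβδ K).trans hβK
    have h6 : err ≤ M * ((2 * C3 ^ 2 * CN) * (X / β) / (R : ℝ) ^ 2) := by
      rw [herrd]
      refine mul_le_mul_of_nonneg_left ?_ hMn
      refine div_le_div_of_nonneg_right ?_ (by positivity)
      exact mul_le_mul_of_nonneg_left h5 (by positivity)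
    have h7 : |J1 - q * J2| ≤ M * ((Cm * C3) * (X / β) / (R : ℝ) ^ 2) := by
      refine h3.trans (mul_le_mul_of_nonneg_left ?_ hMn)
      refine div_le_div_of_nonneg_right ?_ (by positivity)
      exact mul_le_mul_of_nonneg_left h4 (by positivity)
    have h8 : |(I1 - J1) - q * (I2 - J2)| + |J1 - q * J2| ≤ C1 * (M * X / (R : ℝ) ^ 2) := by
      have h9 : err + Cm * err ≤ (1 + Cm) * (M * ((2 * C3 ^ 2 * CN) * (X / β) / (R : ℝ) ^ 2)) := by
        have : err + Cm * err = (1 + Cm) * err := by ring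
        rw [this]
        exact mul_le_mul_of_nonneg_left h6 (by linarith)
      have h10 : C1 * (M * X / (R : ℝ) ^ 2) =
          (1 + Cm) * (M * ((2 * C3 ^ 2 * CN) * (X / β) / (R : ℝ) ^ 2)) +
            M * ((Cm * C3) * (X / β) / (R : ℝ) ^ 2) := by
        rw [hC1]
        field_simp
        ring
      rw [h10]
      linarith
    refine h8.trans ?_
    have h9 : C * M * X / (R : ℝ) ^ 2 = C * (M * X / (R : ℝ) ^ 2) := by ring
    rw [h9]
    exact mul_le_mul_of_nonneg_right (by linarith) (by positivity)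

end Pool.Agent.H20.Q1
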