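import Mathlib
import Pool.Agent.H20.Q1.MxU
import Pool.Agent.Q1.ExC

set_option autoImplicit false
open Finset

/-!
# Mixing with a second factor: final forms

* `mixU` : explicit ratio `NN F R / NN Γ2 R`;
* `mixUL` : the cluster is the cluster of the labels of a set `La` (layer), the second factor sees
  all the labels;
* `mixUC` : complex functionals.
-/

namespace Pool.Agent.H20.Q1

open Pool.Agent.H75.Perc Pool.Agent.H75.TwoArm Pool.Agent.H75.Four Pool.Agent.H49.Perc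
open Pool.Agent.H99.NC Pool.Agent.H60.Q1 Pool.Agent.Q1

variable {κ : ℤ} {Wv : ℤ × ℤ → Prop} {η θ ω ω0 ω2 ω' fr 𝒜 L ζ Y z B La : Finset (ℤ × ℤ)}
  {w x y c0 xi : ℤ × ℤ} {a b m1 m2 ρ R h r P m : ℤ} {F Γ Γ1 Γ2 : Set (ℤ × ℤ) → ℝ} {κ1 M : ℝ}
  {D : Finset (ℤ × ℤ) → ℝ}

lemma env_flat : Env κ w R (HL κ w R) (FW κ w) :=
  ⟨subset_rfl, fun _ hl _ => (mem_HL'.1 hl).2, fun _ _ _ => Iff.rfl⟩

lemma adm_reach : Adm κ w xi m R B Wv 1 (fun ω => ind (Rch w xi R ω)) where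
  nonneg := zero_le_one
  bd := fun ω _ => by
    rw [abs_of_nonneg (ind_nonneg _)]
    exact ind_le_one _
  far := fun ω _ h => by
    by_contra h1
    exact h (ind_false h1)
  loc := fun _ _ _ _ _ => ⟨fun _ => 1, fun _ _ _ _ _ h _ => ind_true h⟩

/-- **mixing with a second factor** -/
theorem mixU {cN CN : ℝ} (hcN : 0 < cN) (hCN : 0 < CN) : ∃ C γ : ℝ, 1 ≤ C ∧ 0 < γ ∧
    ∀ (κ : ℤ), (κ = 0 ∨ κ = 1) → ∀ (w xi : ℤ × ℤ) (m R : ℤ) (F Γ1 Γ2 : Set (ℤ × ℤ) → ℝ),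
    Dcr xi Γ1 → Sup w m xi Γ1 → Dcr xi Γ2 → Sup w m xi Γ2 → inR w m xi → ht κ xi = ht κ w →
    m < R → NB κ w xi Γ1 cN CN m R → NB κ w xi Γ2 cN CN m R → (∀ S, |F S| ≤ Γ1 S) →
    |NN κ w xi F R / NN κ w xi Γ2 R| ≤ C ∧ ∀ (B : Finset (ℤ × ℤ)) (Wv : ℤ × ℤ → Prop) (M : ℝ)
      (D : Finset (ℤ × ℤ) → ℝ), Env κ w R B Wv → Adm κ w xi m R B Wv M D →
      |Ex hf B (fun ω => F (CS Wv ω xi) * D ω) -
          NN κ w xi F R / NN κ w xi Γ2 R * Ex hf B (fun ω => Γ2 (CS Wv ω xi) * D ω)| ≤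
        C * M * (((m : ℝ) + 1) / R) ^ γ / (R : ℝ) ^ 2 := by
  obtain ⟨C, γ, hC, hγ, hmix⟩ := mixU0 hcN hCN
  set C' : ℝ := C + C * CN / cN + CN / cN with hC'
  have hp1 : 0 < C * CN / cN := by positivity
  have hp2 : 0 < CN / cN := by positivity
  refine ⟨C', γ, by linarith, hγ, ?_⟩
  intro κ hκ w xi m R F Γ1 Γ2 hD1 hS1 hD2 hS2 hxi hxw hmR hN1 hN2 hF
  obtain ⟨q, hq, hmq⟩ := hmix κ hκ w xi m R F Γ1 Γ2 hD1 hS1 hD2 hS2 hxi hxw hmR hN1 hN2 hF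
  have hm0 : 0 ≤ m := by
    rw [inR_iff] at hxi
    omega
  have hR0 : (0 : ℝ) < R := by exact_mod_cast (by omega : (0 : ℤ) < R)
  have hF2 : ∀ S, |Γ2 S| ≤ Γ2 S := fun S => (abs_of_nonneg (hD2.1 S)).le
  have hlow := (hN2 R hmR le_rfl).1
  have hup := (hN2 R hmR le_rfl).2
  set N2 := NN κ w xi Γ2 R with hN2d
  set NF := NN κ w xi F R with hNFd
  have hc : 0 < cN / (R : ℝ) ^ 2 := by positivity
  have hN20 : 0 < N2 := hc.trans_le hlow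
  have h1 := hmq (HL κ w R) (FW κ w) 1 _ env_flat adm_reach
  have e1 : Ex hf (HL κ w R) (fun ω => F (CS (FW κ w) ω xi) * ind (Rch w xi R ω)) = NF := rfl
  have e2 : Ex hf (HL κ w R) (fun ω => Γ2 (CS (FW κ w) ω xi) * ind (Rch w xi R ω)) = N2 := rfl
  rw [e1, e2, mul_one] at h1
  set X : ℝ := (((m : ℝ) + 1) / R) ^ γ with hX
  have hX0 : 0 ≤ X := Real.rpow_nonneg (by
    have : (0 : ℝ) ≤ m := by exact_mod_cast hm0
    exact div_nonneg (by linarith) hR0.le) _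
  have h2 : |q - NF / N2| ≤ C / cN * X := by
    have e3 : q - NF / N2 = -(NF - q * N2) / N2 := by field_simp; ring
    rw [e3, abs_div, abs_neg, abs_of_pos hN20, div_le_iff₀ hN20]
    refine h1.trans ?_
    have e4 : C * X / (R : ℝ) ^ 2 = C / cN * X * (cN / (R : ℝ) ^ 2) := by field_simp
    rw [e4]
    exact mul_le_mul_of_nonneg_left hlow (mul_nonneg (div_nonneg (by linarith) hcN.le) hX0)
  refine ⟨?_, fun B Wv M D hE hA => ?_⟩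
  · have hNF : |NF| ≤ CN / (R : ℝ) ^ 2 := by
      refine (le_trans ?_ (hN1 R hmR le_rfl).2)
      refine Ex_abs_le fun ω _ => ?_
      rw [abs_mul, abs_of_nonneg (ind_nonneg _)]
      exact mul_le_mul_of_nonneg_right (hF _) (ind_nonneg _)
    rw [abs_div, abs_of_pos hN20, div_le_iff₀ hN20]
    refine hNF.trans ?_
    have e4 : CN / (R : ℝ) ^ 2 = CN / cN * (cN / (R : ℝ) ^ 2) := by field_simp
    rw [e4]
    exact mul_le_mul (by linarith) hlow hc.le (by linarith)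
  · have g1 := hmq B Wv M D hE hA
    have g2 := triv_ex hκ hF2 hD2 hmR hxi hxw hE hA
    set I1 := Ex hf B (fun ω => F (CS Wv ω xi) * D ω)
    set I2 := Ex hf B (fun ω => Γ2 (CS Wv ω xi) * D ω)
    have hMn := hA.nonneg
    have g3 : |I2| ≤ M * (CN / (R : ℝ) ^ 2) := g2.trans (mul_le_mul_of_nonneg_left hup hMn)
    have e5 : I1 - NF / N2 * I2 = (I1 - q * I2) + (q - NF / N2) * I2 := by ring
    rw [e5]
    refine (abs_add_le _ _).trans ?_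
    rw [abs_mul]
    have g4 : |q - NF / N2| * |I2| ≤ C / cN * X * (M * (CN / (R : ℝ) ^ 2)) :=
      mul_le_mul h2 g3 (abs_nonneg _) (mul_nonneg (div_nonneg (by linarith) hcN.le) hX0)
    refine (add_le_add g1 g4).trans ?_
    have e6 : C * M * X / (R : ℝ) ^ 2 + C / cN * X * (M * (CN / (R : ℝ) ^ 2)) =
        (C + C * CN / cN) * (M * X / (R : ℝ) ^ 2) := by field_simp
    have e7 : C' * M * X / (R : ℝ) ^ 2 = C' * (M * X / (R : ℝ) ^ 2) := by ring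
    rw [e6, e7]
    exact mul_le_mul_of_nonneg_right (by linarith) (div_nonneg (mul_nonneg hMn hX0) (sq_nonneg _))

/-- admissible second factors for the cluster of the labels of `La` -/
structure AdmL (κ : ℤ) (w xi : ℤ × ℤ) (m R : ℤ) (La B : Finset (ℤ × ℤ)) (Wv : ℤ × ℤ → Prop) (M : ℝ)
    (D : Finset (ℤ × ℤ) → ℝ) : Prop where
  nonneg : 0 ≤ M
  bd : ∀ ω, ω ⊆ B → |D ω| ≤ M
  far : ∀ ω, ω ⊆ B → D ω ≠ 0 → Rch w xi R (ω ∩ La)
  loc : ∀ ρ r : ℤ, m < ρ → ρ < r → r ≤ R → ∃ Ψ : Finset (ℤ × ℤ) → ℝ, ∀ ω, ω ⊆ B →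
    ∀ c0, Gd κ w ρ r (ω ∩ AL κ w ρ r) c0 → Co (ω ∩ La) xi c0 → Rch w xi R (ω ∩ La) →
      (∀ v, Wv v → Co (ω ∩ La) xi v → inR w m v) → D ω = Ψ (ω \ HL κ w ρ)

lemma AdmL.mean (hLB : La ⊆ B) (hE : Env κ w R La Wv) (hA : AdmL κ w xi m R La B Wv M D) :
    Adm κ w xi m R La Wv M (fun ω => Ex hf (B \ La) (fun ω' => D (ω ∪ ω'))) := by
  have hcap : ∀ {ω ω' : Finset (ℤ × ℤ)}, ω ⊆ La → ω' ⊆ B \ La → (ω ∪ ω') ∩ La = ω := by
    intro ω ω' h1 h2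
    ext l
    rw [mem_inter, mem_union]
    constructor
    · rintro ⟨h3 | h3, h4⟩
      · exact h3
      · exact absurd h4 (mem_sdiff.1 (h2 h3)).2
    · intro h3
      exact ⟨Or.inl h3, h1 h3⟩
  have hsub : ∀ {ω ω' : Finset (ℤ × ℤ)}, ω ⊆ La → ω' ⊆ B \ La → ω ∪ ω' ⊆ B :=
    fun h1 h2 => union_subset (h1.trans hLB) (h2.trans sdiff_subset)
  refine ⟨hA.nonneg, fun ω hω => ?_, fun ω hω h => ?_, fun ρ r h1 h2 h3 => ?_⟩
  · refine (Ex_abs_le (g := fun _ => M) fun ω' hω' => hA.bd _ (hsub hω hω')).trans ?_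
    rw [Ex_const]
  · by_contra h1
    apply h
    show Ex hf (B \ La) (fun ω' => D (ω ∪ ω')) = 0
    rw [← Ex_const hf (B \ La) 0]
    refine Ex_congr fun ω' hω' => ?_
    by_contra h2
    have h3 := hA.far _ (hsub hω hω') h2
    rw [hcap hω hω'] at h3
    exact h1 h3
  · obtain ⟨Ψ, hΨ⟩ := hA.loc ρ r h1 h2 h3
    refine ⟨fun z => Ex hf (B \ La) (fun ω' => Ψ (z ∪ ω')), fun ω hω c hG hc hr hcon => ?_⟩
    refine Ex_congr fun ω' hω' => ?_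
    have e1 : (ω ∪ ω') ∩ AL κ w ρ r = ω ∩ AL κ w ρ r := by
      ext l
      rw [mem_inter, mem_inter, mem_union]
      constructor
      · rintro ⟨h4 | h4, h5⟩
        · exact ⟨h4, h5⟩
        · refine absurd (hE.sub ?_) (mem_sdiff.1 (hω' h4)).2
          have h6 := mem_AL'.1 h5
          exact mem_HL'.2 ⟨BR_mono h3 h6.1, h6.2.2⟩
      · rintro ⟨h4, h5⟩
        exact ⟨Or.inl h4, h5⟩
    have e2 : (ω ∪ ω') \ HL κ w ρ = ω \ HL κ w ρ ∪ ω' := by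
      ext l
      rw [mem_sdiff, mem_union, mem_union, mem_sdiff]
      constructor
      · rintro ⟨h4 | h4, h5⟩
        · exact Or.inl ⟨h4, h5⟩
        · exact Or.inr h4
      · rintro (⟨h4, h5⟩ | h4)
        · exact ⟨Or.inl h4, h5⟩
        · refine ⟨Or.inr h4, fun h5 => ?_⟩
          refine (mem_sdiff.1 (hω' h4)).2 (hE.sub ?_)
          have h6 := mem_HL'.1 h5
          exact mem_HL'.2 ⟨BR_mono (by omega) h6.1, h6.2⟩
    rw [← e2]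
    have e3 := hcap hω hω'
    refine hΨ _ (hsub hω hω') c ?_ ?_ ?_ ?_
    · rw [e1]; exact hG
    · rw [e3]; exact hc
    · rw [e3]; exact hr
    · rw [e3]; exact hcon

lemma Ex_layer (hLB : La ⊆ B) (G : Finset (ℤ × ℤ) → ℝ) :
    Ex hf B (fun ω => G (ω ∩ La) * D ω) =
      Ex hf La (fun ω => G ω * Ex hf (B \ La) (fun ω' => D (ω ∪ ω'))) := by
  rw [Ex_split hf hLB]
  refine Ex_congr fun ω hω => ?_
  rw [← Ex_smul]
  refine Ex_congr fun ω' hω' => ?_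
  have : (ω ∪ ω') ∩ La = ω := by
    ext l
    rw [mem_inter, mem_union]
    constructor
    · rintro ⟨h3 | h3, h4⟩
      · exact h3
      · exact absurd h4 (mem_sdiff.1 (hω' h3)).2
    · intro h3
      exact ⟨Or.inl h3, hω h3⟩
  rw [this]

/-- **mixing with a second factor**, clusters of a layer -/
theorem mixUL {cN CN : ℝ} (hcN : 0 < cN) (hCN : 0 < CN) : ∃ C γ : ℝ, 1 ≤ C ∧ 0 < γ ∧
    ∀ (κ : ℤ), (κ = 0 ∨ κ = 1) → ∀ (w xi : ℤ × ℤ) (m R : ℤ) (F Γ1 Γ2 : Set (ℤ × ℤ) → ℝ),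
    Dcr xi Γ1 → Sup w m xi Γ1 → Dcr xi Γ2 → Sup w m xi Γ2 → inR w m xi → ht κ xi = ht κ w →
    m < R → NB κ w xi Γ1 cN CN m R → NB κ w xi Γ2 cN CN m R → (∀ S, |F S| ≤ Γ1 S) →
    |NN κ w xi F R / NN κ w xi Γ2 R| ≤ C ∧ ∀ (La B : Finset (ℤ × ℤ)) (Wv : ℤ × ℤ → Prop) (M : ℝ)
      (D : Finset (ℤ × ℤ) → ℝ), La ⊆ B → Env κ w R La Wv → AdmL κ w xi m R La B Wv M D →
      |Ex hf B (fun ω => F (CS Wv (ω ∩ La) xi) * D ω) -
          NN κ w xi F R / NN κ w xi Γ2 R * Ex hf B (fun ω => Γ2 (CS Wv (ω ∩ La) xi) * D ω)| ≤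
        C * M * (((m : ℝ) + 1) / R) ^ γ / (R : ℝ) ^ 2 := by
  obtain ⟨C, γ, hC, hγ, hmix⟩ := mixU hcN hCN
  refine ⟨C, γ, hC, hγ, ?_⟩
  intro κ hκ w xi m R F Γ1 Γ2 hD1 hS1 hD2 hS2 hxi hxw hmR hN1 hN2 hF
  obtain ⟨h1, h2⟩ := hmix κ hκ w xi m R F Γ1 Γ2 hD1 hS1 hD2 hS2 hxi hxw hmR hN1 hN2 hF
  refine ⟨h1, fun La B Wv M D hLB hE hA => ?_⟩
  rw [Ex_layer hLB (fun ω => F (CS Wv ω xi)), Ex_layer hLB (fun ω => Γ2 (CS Wv ω xi))]
  exact h2 La Wv M _ hE (hA.mean hLB hE)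

/-! ### complex functionals -/

/-- complex expectation at density `1/2` -/
noncomputable abbrev Eh (B : Finset (ℤ × ℤ)) (G : Finset (ℤ × ℤ) → ℂ) : ℂ :=
  Ec (fun _ => (1 / 2 : ℂ)) B G

lemma Eh_re_im (B : Finset (ℤ × ℤ)) (G : Finset (ℤ × ℤ) → ℂ) :
    Eh B G = (Ex hf B (fun ω => (G ω).re) : ℂ) + (Ex hf B (fun ω => (G ω).im) : ℂ) * Complex.I := by
  unfold Eh Ec Ex
  push_cast
  rw [sum_mul, ← sum_add_distrib]
  refine sum_congr rfl fun ω _ => ?_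
  have e1 : wtc (fun _ : ℤ × ℤ => (1 / 2 : ℂ)) B ω = ((wt hf B ω : ℝ) : ℂ) := by
    unfold wtc wt hf; push_cast; rfl
  have e2 : G ω = ((G ω).re : ℂ) + ((G ω).im : ℂ) * Complex.I := (Complex.re_add_im _).symm
  rw [e1]
  conv_lhs => rw [e2]
  ring

/-- mass with a complex functional -/
noncomputable def NNc (κ : ℤ) (w xi : ℤ × ℤ) (F : Set (ℤ × ℤ) → ℂ) (R : ℤ) : ℂ :=
  Eh (HL κ w R) (fun ω => F (CS (FW κ w) ω xi) * (ind (Rch w xi R ω) : ℂ))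

/-- admissible complex second factors for the cluster of the labels of `La` -/
structure AdmC (κ : ℤ) (w xi : ℤ × ℤ) (m R : ℤ) (La B : Finset (ℤ × ℤ)) (Wv : ℤ × ℤ → Prop) (M : ℝ)
    (D : Finset (ℤ × ℤ) → ℂ) : Prop where
  nonneg : 0 ≤ M
  bd : ∀ ω, ω ⊆ B → ‖D ω‖ ≤ M
  far : ∀ ω, ω ⊆ B → D ω ≠ 0 → Rch w xi R (ω ∩ La)
  loc : ∀ ρ r : ℤ, m < ρ → ρ < r → r ≤ R → ∃ Ψ : Finset (ℤ × ℤ) → ℂ, ∀ ω, ω ⊆ B →
    ∀ c0, Gd κ w ρ r (ω ∩ AL κ w ρ r) c0 → Co (ω ∩ La) xi c0 → Rch w xi R (ω ∩ La) →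
      (∀ v, Wv v → Co (ω ∩ La) xi v → inR w m v) → D ω = Ψ (ω \ HL κ w ρ)

lemma AdmC.re {D : Finset (ℤ × ℤ) → ℂ} (hA : AdmC κ w xi m R La B Wv M D) :
    AdmL κ w xi m R La B Wv M (fun ω => (D ω).re) where
  nonneg := hA.nonneg
  bd := fun ω hω => (Complex.abs_re_le_norm _).trans (hA.bd ω hω)
  far := fun ω hω h => hA.far ω hω fun h1 => h (by simp only [h1, Complex.zero_re])
  loc := fun ρ r h1 h2 h3 => by
    obtain ⟨Ψ, hΨ⟩ := hA.loc ρ r h1 h2 h3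
    exact ⟨fun z => (Ψ z).re, fun ω hω c g1 g2 g3 g4 => by
      simp only [hΨ ω hω c g1 g2 g3 g4]⟩

lemma AdmC.im {D : Finset (ℤ × ℤ) → ℂ} (hA : AdmC κ w xi m R La B Wv M D) :
    AdmL κ w xi m R La B Wv M (fun ω => (D ω).im) where
  nonneg := hA.nonneg
  bd := fun ω hω => (Complex.abs_im_le_norm _).trans (hA.bd ω hω)
  far := fun ω hω h => hA.far ω hω fun h1 => h (by simp only [h1, Complex.zero_im])
  loc := fun ρ r h1 h2 h3 => by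
    obtain ⟨Ψ, hΨ⟩ := hA.loc ρ r h1 h2 h3
    exact ⟨fun z => (Ψ z).im, fun ω hω c g1 g2 g3 g4 => by
      simp only [hΨ ω hω c g1 g2 g3 g4]⟩

/-- **mixing with a second factor**, complex functionals, clusters of a layer -/
theorem mixUC {cN CN : ℝ} (hcN : 0 < cN) (hCN : 0 < CN) : ∃ C γ : ℝ, 1 ≤ C ∧ 0 < γ ∧
    ∀ (κ : ℤ), (κ = 0 ∨ κ = 1) → ∀ (w xi : ℤ × ℤ) (m R : ℤ) (F : Set (ℤ × ℤ) → ℂ)
    (Γ1 Γ2 : Set (ℤ × ℤ) → ℝ),
    Dcr xi Γ1 → Sup w m xi Γ1 → Dcr xi Γ2 → Sup w m xi Γ2 → inR w m xi → ht κ xi = ht κ w →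
    m < R → NB κ w xi Γ1 cN CN m R → NB κ w xi Γ2 cN CN m R → (∀ S, ‖F S‖ ≤ Γ1 S) →
    ‖NNc κ w xi F R / (NN κ w xi Γ2 R : ℂ)‖ ≤ C ∧ ∀ (La B : Finset (ℤ × ℤ))
      (Wv : ℤ × ℤ → Prop) (M : ℝ) (D : Finset (ℤ × ℤ) → ℂ), La ⊆ B → Env κ w R La Wv →
      AdmC κ w xi m R La B Wv M D →
      ‖Eh B (fun ω => F (CS Wv (ω ∩ La) xi) * D ω) - NNc κ w xi F R / (NN κ w xi Γ2 R : ℂ) *
          Eh B (fun ω => (Γ2 (CS Wv (ω ∩ La) xi) : ℂ) * D ω)‖ ≤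
        C * M * (((m : ℝ) + 1) / R) ^ γ / (R : ℝ) ^ 2 := by
  obtain ⟨C, γ, hC, hγ, hmix⟩ := mixUL hcN hCN
  refine ⟨4 * C, γ, by linarith, hγ, ?_⟩
  intro κ hκ w xi m R F Γ1 Γ2 hD1 hS1 hD2 hS2 hxi hxw hmR hN1 hN2 hF
  obtain ⟨hr1, hr2⟩ := hmix κ hκ w xi m R (fun S => (F S).re) Γ1 Γ2 hD1 hS1 hD2 hS2 hxi hxw hmR hN1
    hN2 (fun S => (Complex.abs_re_le_norm _).trans (hF S))
  obtain ⟨hi1, hi2⟩ := hmix κ hκ w xi m R (fun S => (F S).im) Γ1 Γ2 hD1 hS1 hD2 hS2 hxi hxw hmR hN1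
    hN2 (fun S => (Complex.abs_im_le_norm _).trans (hF S))
  set N2 := NN κ w xi Γ2 R with hN2d
  set qr : ℝ := NN κ w xi (fun S => (F S).re) R / N2 with hqr
  set qi : ℝ := NN κ w xi (fun S => (F S).im) R / N2 with hqi
  have hq : NNc κ w xi F R / (N2 : ℂ) = (qr : ℂ) + (qi : ℂ) * Complex.I := by
    have h1 : NNc κ w xi F R = (NN κ w xi (fun S => (F S).re) R : ℂ) +
        (NN κ w xi (fun S => (F S).im) R : ℂ) * Complex.I := by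
      have g1 : Ex hf (HL κ w R) (fun ω => (F (CS (FW κ w) ω xi) * (ind (Rch w xi R ω) : ℂ)).re) =
          NN κ w xi (fun S => (F S).re) R := Ex_congr fun ω _ => by
        rw [Complex.re_mul_ofReal]
        rfl
      have g2 : Ex hf (HL κ w R) (fun ω => (F (CS (FW κ w) ω xi) * (ind (Rch w xi R ω) : ℂ)).im) =
          NN κ w xi (fun S => (F S).im) R := Ex_congr fun ω _ => by
        rw [Complex.im_mul_ofReal]
        rfl
      unfold NNc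
      rw [Eh_re_im, g1, g2]
    rw [h1, hqr, hqi]
    push_cast
    ring
  have tri : ∀ (a b c d : ℝ) {K : ℝ}, |a| ≤ K → |b| ≤ K → |c| ≤ K → |d| ≤ K →
      ‖(((a - b : ℝ) : ℂ) + ((c + d : ℝ) : ℂ) * Complex.I)‖ ≤ 4 * K := by
    intro a b c d K ha hb hc hd
    refine (norm_add_le _ _).trans ?_
    rw [norm_mul, Complex.norm_I, mul_one, Complex.norm_real, Complex.norm_real, Real.norm_eq_abs,
      Real.norm_eq_abs]
    have h1 := abs_sub a b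
    have h2 := abs_add_le c d
    linarith
  rw [hq]
  constructor
  · have h1 := tri qr 0 qi 0 (K := C) hr1 (by rw [abs_zero]; linarith) hi1
      (by rw [abs_zero]; linarith)
    rw [sub_zero, add_zero] at h1
    exact h1
  · intro La B Wv M D hLB hE hA
    set X : ℝ := C * M * (((m : ℝ) + 1) / R) ^ γ / (R : ℝ) ^ 2 with hX
    have b1 := hr2 La B Wv M _ hLB hE hA.re
    have b2 := hi2 La B Wv M _ hLB hE hA.im
    have b3 := hr2 La B Wv M _ hLB hE hA.im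
    have b4 := hi2 La B Wv M _ hLB hE hA.re
    have e1 : Eh B (fun ω => F (CS Wv (ω ∩ La) xi) * D ω) =
        ((Ex hf B (fun ω => (F (CS Wv (ω ∩ La) xi)).re * (D ω).re) -
          Ex hf B (fun ω => (F (CS Wv (ω ∩ La) xi)).im * (D ω).im) : ℝ) : ℂ) +
        ((Ex hf B (fun ω => (F (CS Wv (ω ∩ La) xi)).re * (D ω).im) +
          Ex hf B (fun ω => (F (CS Wv (ω ∩ La) xi)).im * (D ω).re) : ℝ) : ℂ) * Complex.I := by
      rw [Eh_re_im, ← Ex_sub, ← Ex_add]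
      rfl
    have e2 : Eh B (fun ω => (Γ2 (CS Wv (ω ∩ La) xi) : ℂ) * D ω) =
        (Ex hf B (fun ω => Γ2 (CS Wv (ω ∩ La) xi) * (D ω).re) : ℂ) +
        (Ex hf B (fun ω => Γ2 (CS Wv (ω ∩ La) xi) * (D ω).im) : ℂ) * Complex.I := by
      have g1 : Ex hf B (fun ω => ((Γ2 (CS Wv (ω ∩ La) xi) : ℂ) * D ω).re) =
          Ex hf B (fun ω => Γ2 (CS Wv (ω ∩ La) xi) * (D ω).re) := Ex_congr fun ω _ => by
        rw [Complex.re_ofReal_mul]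
      have g2 : Ex hf B (fun ω => ((Γ2 (CS Wv (ω ∩ La) xi) : ℂ) * D ω).im) =
          Ex hf B (fun ω => Γ2 (CS Wv (ω ∩ La) xi) * (D ω).im) := Ex_congr fun ω _ => by
        rw [Complex.im_ofReal_mul]
      rw [Eh_re_im, g1, g2]
    have h1 := tri _ _ _ _ (K := X) b1 b2 b3 b4
    have e3 : 4 * C * M * (((m : ℝ) + 1) / R) ^ γ / (R : ℝ) ^ 2 = 4 * X := by rw [hX]; ring
    rw [e3]
    refine le_trans (le_of_eq ?_) h1
    rw [e1, e2]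
    congr 1
    push_cast
    ring_nf
    rw [Complex.I_sq]
    ring

end Pool.Agent.H20.Q1
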