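import Mathlib
import Pool.Agent.H20.Q1.Sharp

set_option autoImplicit false
open Finset

/-!
# Three arms at a flat wall: lower bounds

`L1 κ w R` : `w` is the only wall vertex of its cluster in the half box of radius `R`, and this cluster
reaches the distance `R`. `l1_ge` : its probability is at least `c / R²`; `l1_le` : at most `C / R²`;
`u3_ge` : the annulus form, `c (ρ/R)² ≤ u3 κ z ρ R`.
-/

namespace Pool.Agent.H20.Q1

open Pool.Agent.H75.Perc Pool.Agent.H75.TwoArm Pool.Agent.H75.Four Pool.Agent.H49.Perc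
open Pool.Agent.H99.NC Pool.Agent.H60.Q1

/-- `w` is the only wall vertex of its cluster in the half box, which reaches distance `R` -/
def L1 (κ : ℤ) (w : ℤ × ℤ) (R : ℤ) (ω : Finset (ℤ × ℤ)) : Prop :=
  (∃ v, Far w R v ∧ Co (ω ∩ HL κ w R) w v) ∧
  ∀ y, Co (ω ∩ HL κ w R) w y → ht κ y = ht κ w → y = w

/-- `s` is a lowest vertex of a large cluster -/
def Lo (κ : ℤ) (R : ℤ) (s : ℤ × ℤ) (ω : Finset (ℤ × ℤ)) : Prop :=
  (∃ p q, 2 * R ≤ q.1 - p.1 ∧ Co ω s p ∧ Co ω s q) ∧ ∀ y, Co ω s y → ht κ s ≤ ht κ y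

/-- the four labels around `w` -/
noncomputable def F4 (w : ℤ × ℤ) : Finset (ℤ × ℤ) :=
  {(2 * w.1, 2 * w.2 + 1), (2 * w.1, 2 * w.2 - 1), (2 * w.1 + 1, 2 * w.2), (2 * w.1 - 1, 2 * w.2)}

lemma mem_F4 {w l : ℤ × ℤ} : l ∈ F4 w ↔ (l.1 = 2 * w.1 ∧ (l.2 = 2 * w.2 + 1 ∨ l.2 = 2 * w.2 - 1)) ∨
    (l.2 = 2 * w.2 ∧ (l.1 = 2 * w.1 + 1 ∨ l.1 = 2 * w.1 - 1)) := by
  unfold F4
  simp only [mem_insert, mem_singleton, Prod.ext_iff]
  tauto

lemma F4_card (w : ℤ × ℤ) : (F4 w).card ≤ 4 := by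
  unfold F4
  exact (card_insert_le _ _).trans (Nat.succ_le_succ ((card_insert_le _ _).trans
    (Nat.succ_le_succ ((card_insert_le _ _).trans (Nat.succ_le_succ (card_singleton _).le)))))

lemma add_mem_F4 {w y z : ℤ × ℤ} (h : IsUnit4 (z - y)) : y + z ∈ F4 w ↔ y = w ∨ z = w := by
  rw [mem_F4]
  have h1 := unit_cases h
  simp only [Prod.fst_add, Prod.snd_add, Prod.ext_iff]
  omega

variable {κ : ℤ} {E ω ω' : Finset (ℤ × ℤ)} {o w z : ℤ × ℤ} {N ρ R : ℤ}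

/-- the local modification -/
theorem L1_of_Lo (hκ : κ = 0 ∨ κ = 1) (hR : 1 ≤ R) (hωE : ω ⊆ E) (hω'E : ω' ⊆ E)
    (h : Lo κ R (w.1, w.2 + 1) ω) (hω' : ω' ∩ F4 w = {(2 * w.1, 2 * w.2 + 1)}) :
    L1 κ w R (mix (E \ F4 w) ω ω') := by
  set s : ℤ × ℤ := (w.1, w.2 + 1) with hs
  obtain ⟨⟨p, q, hpq, hp, hq⟩, hmin⟩ := h
  set η := mix (E \ F4 w) ω ω' with hη
  have hus : IsUnit4 (s - w) := by
    unfold IsUnit4
    simp only [hs, Prod.ext_iff, Prod.fst_sub, Prod.snd_sub]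
    omega
  have hsw : w + s = (2 * w.1, 2 * w.2 + 1) := by
    rw [hs]
    refine Prod.ext ?_ ?_
    · simp only [Prod.fst_add]; ring
    · simp only [Prod.snd_add]; ring
  have hts : ht κ s = ht κ w + 1 := by
    unfold ht
    rw [hs]
    ring
  have hmem : ∀ l, l ∈ F4 w → (l ∈ η ↔ l = (2 * w.1, 2 * w.2 + 1)) := by
    intro l hl
    rw [hη, mem_mix]
    have h1 : l ∉ E \ F4 w := fun h => (mem_sdiff.1 h).2 hl
    have h2 : l ∈ ω' ↔ l ∈ ω' ∩ F4 w := by rw [mem_inter]; tauto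
    rw [hω', mem_singleton] at h2
    tauto
  have hmem' : ∀ l, l ∉ F4 w → l ∈ ω → l ∈ η := by
    intro l hl hl'
    rw [hη, mem_mix]
    exact Or.inl ⟨hl', mem_sdiff.2 ⟨hωE hl', hl⟩⟩
  have hmem2 : ∀ l, l ∉ F4 w → l ∈ E → l ∈ η → l ∈ ω := by
    intro l hl hlE hl'
    rw [hη, mem_mix] at hl'
    rcases hl' with h1 | h1
    · exact h1.1
    · exact absurd (mem_sdiff.2 ⟨hlE, hl⟩) h1.2
  have hwT : ¬ Co ω s w := fun h => by
    have := hmin w h
    omega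
  have e0 : Co η w s := (Co.refl _ _).tail ⟨hus, (hmem _ (by rw [add_mem_F4 hus]; tauto)).2 hsw⟩
  -- the old cluster stays
  have e1 : ∀ y, Co ω s y → Co η s y := by
    intro y hy
    induction hy with
    | refl => exact Co.refl _ _
    | @tail y z hy hyz ih =>
      refine ih.tail ⟨hyz.1, hmem' _ ?_ hyz.2⟩
      rw [add_mem_F4 hyz.1]
      rintro (rfl | rfl)
      · exact hwT hy
      · exact hwT (hy.tail hyz)
  -- the labels of the new cluster are above the wall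
  have e2 : ∀ y, Co (η ∩ HL κ w R) w y → y = w ∨ Co ω s y := by
    intro y hy
    induction hy with
    | refl => exact Or.inl rfl
    | @tail y z _ hyz ih =>
      obtain ⟨g1, g2⟩ := mem_inter.1 hyz.2
      by_cases hl : y + z ∈ F4 w
      · have g3 := (hmem _ hl).1 g1
        rcases (add_mem_F4 hyz.1).1 hl with rfl | rfl
        · right
          have : z = s := by
            rw [← hsw] at g3
            exact add_left_cancel g3
          rw [this]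
          exact Co.refl _ _
        · exact Or.inl rfl
      · rcases ih with rfl | ih
        · exact absurd ((add_mem_F4 hyz.1).2 (Or.inl rfl)) hl
        · right
          refine ih.tail ⟨hyz.1, ?_⟩
          rw [hη, mem_mix] at g1
          rcases g1 with g1 | g1
          · exact g1.1
          · exact absurd (mem_sdiff.2 ⟨hω'E g1.1, hl⟩) g1.2
  refine ⟨?_, ?_⟩
  · have e3 : ∀ y, Co ω s y → Co (η.filter (fun l => 2 * ht κ w ≤ ht κ l)) w y := by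
      intro y hy
      induction hy with
      | refl =>
        refine (Co.refl _ _).tail ⟨hus, mem_filter.2 ⟨(hmem _ (by rw [add_mem_F4 hus]; tauto)).2 hsw, ?_⟩⟩
        have := (ht_step hκ hus).2.2
        omega
      | @tail y z hy hyz ih =>
        refine ih.tail ⟨hyz.1, mem_filter.2 ⟨hmem' _ ?_ hyz.2, ?_⟩⟩
        · rw [add_mem_F4 hyz.1]
          rintro (rfl | rfl)
          · exact hwT hy
          · exact hwT (hy.tail hyz)
        · have g1 := (ht_step hκ hyz.1).2.2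
          have g2 := hmin y hy
          have g3 := hmin z (hy.tail hyz)
          omega
    obtain ⟨p', hp', hfar⟩ : ∃ p', Co ω s p' ∧ R ≤ |p'.1 - w.1| := by
      rcases le_or_gt R |p.1 - w.1| with h1 | h1
      · exact ⟨p, hp, h1⟩
      · refine ⟨q, hq, ?_⟩
        rw [abs_lt] at h1
        rw [le_abs]
        omega
    obtain ⟨v', hv', h2⟩ := open_exit (o := w) (M := R) (e3 p' hp')
      (by rw [sub_self, sub_self, abs_zero]; omega) (Or.inl hfar)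
    refine ⟨v', hv', h2.mono ?_⟩
    intro l hl
    obtain ⟨g1, g2⟩ := mem_inter.1 hl
    obtain ⟨g3, g4⟩ := mem_filter.1 g1
    refine mem_inter.2 ⟨g3, ?_⟩
    unfold HL
    exact mem_filter.2 ⟨g2, g4⟩
  · intro y hy hty
    rcases e2 y hy with h1 | h1
    · exact h1
    · have := hmin y h1
      omega

lemma Pr_point {F : Finset (ℤ × ℤ)} {l0 : ℤ × ℤ} (hl : l0 ∈ F) (hc : F.card ≤ 4) :
    (1 / 16 : ℝ) ≤ Pr F (fun ω => ω = {l0}) := by
  classical
  rw [Pr_eq]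
  have h1 : F.powerset.filter (fun ω => ω = {l0}) = {{l0}} := by
    ext ω
    rw [mem_filter, mem_powerset, mem_singleton]
    constructor
    · exact fun h => h.2
    · rintro rfl
      exact ⟨singleton_subset_iff.2 hl, rfl⟩
  rw [h1, card_singleton, Nat.cast_one]
  have h2 : (2 : ℝ) ^ F.card ≤ 2 ^ 4 := pow_le_pow_right₀ (by norm_num) hc
  have h3 : (0 : ℝ) < 2 ^ F.card := by positivity
  rw [div_le_div_iff₀ (by norm_num) h3]
  linarith

theorem Lo_le (hκ : κ = 0 ∨ κ = 1) (hR : 1 ≤ R) (hF : F4 w ⊆ E) :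
    Pr E (Lo κ R (w.1, w.2 + 1)) * (1 / 16) ≤ Pr E (L1 κ w R) := by
  rw [← hf_Pr, ← hf_Pr]
  refine resampleP hf_Pb E (fun _ => E \ F4 w) (fun _ _ _ _ => rfl) _ _
    (fun _ ω' => ω' ∩ F4 w = {(2 * w.1, 2 * w.2 + 1)}) (1 / 16) ?_ ?_
  · intro _ _ _
    have h := PrP_restrict hf hF (fun ω => ω = {(2 * w.1, 2 * w.2 + 1)})
    rw [h, hf_Pr]
    exact Pr_point (by rw [mem_F4]; simp) (F4_card w)
  · intro ω ω' hω hω' h1 h2
    exact L1_of_Lo hκ hR hω hω' h1 h2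

/-! ### translation invariance -/

lemma HL_shift (t : ℤ × ℤ) (e : ℤ × ℤ) : e ∈ HL κ (z + t) R ↔ (syT t).G' e ∈ HL κ z R := by
  rw [mem_HL, mem_HL]
  simp only [syT, Prod.fst_add, Prod.snd_add]
  have h1 : 2 * (z.2 + t.2 + κ * (z.1 + t.1)) ≤ e.2 + κ * e.1 ↔
      2 * (z.2 + κ * z.1) ≤ e.2 - 2 * t.2 + κ * (e.1 - 2 * t.1) := by
    constructor <;> intro h <;> linarith
  rw [h1]
  have h2 : (e.1 + e.2) % 2 = 1 ↔ (e.1 - 2 * t.1 + (e.2 - 2 * t.2)) % 2 = 1 := by omega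
  rw [h2]
  constructor
  · rintro ⟨h3, h4⟩
    exact ⟨by omega, h4⟩
  · rintro ⟨h3, h4⟩
    exact ⟨by omega, h4⟩

lemma L1_shift (t : ℤ × ℤ) : L1 κ (z + t) R (ω.map (syT t).G) ↔ L1 κ z R ω := by
  unfold L1
  rw [(syT t).map_inter ω (HL_shift t)]
  have hg : ∀ u, (syT t).g u = u + t := fun u => rfl
  have hF : ∀ u, Far (z + t) R (u + t) ↔ Far z R u := fun u => by
    unfold Far
    simp only [Prod.fst_add, Prod.snd_add, add_sub_add_right_eq_sub]
  constructor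
  · rintro ⟨⟨v, h1, h2⟩, h3⟩
    refine ⟨⟨v - t, ?_, ?_⟩, ?_⟩
    · rw [← hF, sub_add_cancel]; exact h1
    · rw [← (syT t).co_iff, hg, hg, sub_add_cancel]; exact h2
    · intro y hy hty
      rw [← (syT t).co_iff, hg, hg] at hy
      have := h3 _ hy (by rw [ht_add, ht_add, hty])
      exact add_right_cancel this
  · rintro ⟨⟨v, h1, h2⟩, h3⟩
    refine ⟨⟨v + t, (hF v).2 h1, ?_⟩, ?_⟩
    · rw [← hg, ← hg, (syT t).co_iff]; exact h2
    · intro y hy hty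
      have h5 : Co (ω ∩ HL κ z R) z (y - t) := by
        rw [← (syT t).co_iff, hg, hg, sub_add_cancel]; exact hy
      have h7 := ht_add (κ := κ) (y - t) t
      rw [sub_add_cancel] at h7
      rw [ht_add] at hty
      have h6 := h3 _ h5 (by omega)
      rw [← h6, sub_add_cancel]

/-- the probability of a unique contact, unit scale -/
noncomputable def l1 (κ : ℤ) (z : ℤ × ℤ) (R : ℤ) : ℝ := Pr (HL κ z R) (L1 κ z R)

lemma L1_local {ω : Finset (ℤ × ℤ)} : L1 κ z R ω ↔ L1 κ z R (ω ∩ HL κ z R) := by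
  unfold L1
  rw [inter_assoc, inter_self]

lemma Pr_L1 {E : Finset (ℤ × ℤ)} (hE : HL κ z R ⊆ E) : Pr E (L1 κ z R) = l1 κ z R := by
  unfold l1
  rw [← Pr_restrict hE]
  exact Pr_congr fun ω _ => L1_local

lemma l1_shift (t : ℤ × ℤ) : l1 κ (z + t) R = l1 κ z R := by
  unfold l1
  rw [← hf_Pr, ← hf_Pr]
  have h := Sy_PrP (syT t) (1 / 2) (E1 := HL κ z R) (E2 := HL κ (z + t) R)
    (fun e => HL_shift t e) (L1 κ (z + t) R)
  refine h.trans ?_
  exact PrP_congr fun ω _ => L1_shift t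

lemma l1_eq (z z' : ℤ × ℤ) : l1 κ z R = l1 κ z' R := by
  have h := l1_shift (κ := κ) (z := z) (R := R) (z' - z)
  rw [← h]
  congr 1
  ring

/-! ### the macroscopic event -/

/-- a crossing of a box, sealed off -/
lemma Lo_of (h1 : HC (o.1 - R) (o.1 + R) (o.2 - R) (o.2 + R) ω) (h2 : Seal o R ω) :
    ∃ s ∈ WW o (4 * R), Lo κ R s ω := by
  classical
  obtain ⟨p, q, hp, hp1, hq1, hpq⟩ := h1
  have hpR : inR o R p := hp
  have hin : ∀ y, Co ω p y → inR o (4 * R) y := by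
    intro y hy
    by_contra h5
    have hcy : ¬ inR o R y := by rw [inR_iff] at h5 ⊢; omega
    obtain ⟨u', hu', h6⟩ := last_exit hy hpR hcy
    apply h2
    refine ⟨u', y, ?_, ?_, ?_, h6⟩
    · rw [inR_iff] at hu'; rw [abs_le]; omega
    · rw [inR_iff] at hu'; rw [abs_le]; omega
    · rw [inR_iff] at h5
      rw [le_abs, le_abs]
      omega
  obtain ⟨s, hs, hmin⟩ := exists_min_image ((WW o (4 * R)).filter (fun y => Co ω p y))
    (fun y => ht κ y) ⟨p, mem_filter.2 ⟨mem_WW.2 (hin p (Co.refl _ _)), Co.refl _ _⟩⟩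
  rw [mem_filter] at hs
  refine ⟨s, hs.1, ⟨p, q, by omega, hs.2.symm, ?_⟩, ?_⟩
  · exact hs.2.symm.trans (hpq.mono inter_subset_left)
  · intro y hy
    have h3 : Co ω p y := hs.2.trans hy
    exact hmin y (mem_filter.2 ⟨mem_WW.2 (hin y h3), h3⟩)

/-- **lower bound, unit scale** -/
theorem l1_ge : ∃ c : ℝ, 0 < c ∧ ∀ κ : ℤ, (κ = 0 ∨ κ = 1) → ∀ (z : ℤ × ℤ) (R : ℤ), 1 ≤ R →
    c / R ^ 2 ≤ l1 κ z R := by
  obtain ⟨δ, hδ0, hδ1, hdec⟩ := open_arm_decay
  obtain ⟨c, hc, hrsw⟩ := rsw_q 1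
  refine ⟨c * δ / 16 / 81, by positivity, fun κ hκ z R hR => ?_⟩
  have hRR : (1 : ℝ) ≤ R := by exact_mod_cast hR
  set E := BR z (8 * R) with hE
  have hEo : ∀ e ∈ E, (e.1 + e.2) % 2 = 1 := BR_odd
  have hsub : BR z R ⊆ E := BR_mono (by omega)
  -- the macroscopic event
  have h1 : c * δ ≤ Pr E (fun ω => HC (z.1 - R) (z.1 + R) (z.2 - R) (z.2 + R) ω ∧ Seal z R ω) := by
    have e1 := Pr_split hsub (HC (z.1 - R) (z.1 + R) (z.2 - R) (z.2 + R))
      (fun η => ¬ Arm1 z R (4 * R) η)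
    have e2 : Pr E (fun ω => HC (z.1 - R) (z.1 + R) (z.2 - R) (z.2 + R) ω ∧ Seal z R ω) =
        Pr E (fun ω => HC (z.1 - R) (z.1 + R) (z.2 - R) (z.2 + R) (ω ∩ BR z R) ∧
          ¬ Arm1 z R (4 * R) (ω \ BR z R)) :=
      Pr_congr fun ω _ => and_congr (HC_restrict _ _ _ _ ω) Iff.rfl
    rw [e2, e1]
    have e3 : c ≤ Pr (BR z R) (HC (z.1 - R) (z.1 + R) (z.2 - R) (z.2 + R)) := by
      rw [← hf_Pr]
      refine (hrsw hf hf_Qh (BR z R) (z.1 - R) (z.1 + R) (z.2 - R) (z.2 + R) (by omega) (by omega)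
        (subset_refl _)).1 ?_
      push_cast
      omega
    have e4 : δ ≤ Pr (E \ BR z R) (fun η => ¬ Arm1 z R (4 * R) η) := by
      have e5 := hdec (E \ BR z R) (fun e he => hEo e (mem_sdiff.1 he).1) z R hR 1
      rw [pow_one, pow_one] at e5
      rw [← hf_Pr, PrP_not, hf_Pr]
      unfold Arm1
      linarith
    exact mul_le_mul e3 e4 hδ0.le (Pr_nonneg _ _)
  have h2 : Pr E (fun ω => HC (z.1 - R) (z.1 + R) (z.2 - R) (z.2 + R) ω ∧ Seal z R ω) ≤
      ∑ s ∈ WW z (4 * R), Pr E (Lo κ R s) := by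
    have e1 := PrP_exists_le hf_Pb E (WW z (4 * R)) (fun s ω => Lo κ R s ω)
    simp only [hf_Pr] at e1
    exact (Pr_mono fun ω _ h => Lo_of h.1 h.2).trans e1
  have h3 : ∀ s ∈ WW z (4 * R), Pr E (Lo κ R s) ≤ 16 * l1 κ z R := by
    intro s hs
    rw [mem_WW, inR_iff] at hs
    have e1 := Lo_le (E := E) (w := (s.1, s.2 - 1)) hκ hR (by
      intro l hl
      rw [mem_F4] at hl
      simp only at hl
      rw [hE]
      unfold BR
      rw [mem_Bx]
      omega)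
    have e2 : ((s.1, s.2 - 1) : ℤ × ℤ).2 + 1 = s.2 := by simp
    rw [e2] at e1
    have e3 : Pr E (L1 κ (s.1, s.2 - 1) R) = l1 κ z R := by
      rw [Pr_L1, l1_eq (s.1, s.2 - 1) z]
      intro l hl
      rw [mem_HL] at hl
      simp only at hl
      rw [hE]
      unfold BR
      rw [mem_Bx]
      omega
    rw [e3] at e1
    linarith
  have h4 := h2.trans (sum_le_sum h3)
  rw [sum_const, nsmul_eq_mul, card_WW (by omega)] at h4
  push_cast at h4
  have h5 : (0 : ℝ) ≤ l1 κ z R := Pr_nonneg _ _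
  have h6 : (2 * (4 * (R : ℝ)) + 1) ^ 2 ≤ 81 * R ^ 2 := by nlinarith
  have h7 : c * δ ≤ 81 * R ^ 2 * (16 * l1 κ z R) :=
    (h1.trans h4).trans (mul_le_mul_of_nonneg_right h6 (by positivity))
  rw [div_le_iff₀ (by positivity)]
  have h8 : c * δ / 16 / 81 * (16 * 81) = c * δ := by ring
  nlinarith

/-! ### from the unit scale to annuli -/

lemma L1_mono (hρ : ρ ≤ R) (h0 : 1 ≤ ρ) (h : L1 κ w R ω) : L1 κ w ρ ω := by
  obtain ⟨⟨v, hv, h1⟩, h2⟩ := h
  have hsub : HL κ w ρ ⊆ HL κ w R := by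
    unfold HL
    exact filter_subset_filter _ (Bx_sub (by omega) (by omega) (by omega) (by omega))
  refine ⟨?_, fun y hy => h2 y (hy.mono (inter_subset_inter_left hsub))⟩
  have hv' : ρ ≤ |v.1 - w.1| ∨ ρ ≤ |v.2 - w.2| := by
    unfold Far at hv
    omega
  obtain ⟨v', hv1, hv2⟩ := open_exit (o := w) (M := ρ) h1
    (by rw [sub_self, sub_self, abs_zero]; omega) hv'
  refine ⟨v', hv1, hv2.mono ?_⟩
  intro l hl
  obtain ⟨g1, g2⟩ := mem_inter.1 hl
  obtain ⟨g3, g4⟩ := mem_inter.1 g1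
  refine mem_inter.2 ⟨g3, ?_⟩
  unfold HL at g4 ⊢
  exact mem_filter.2 ⟨g2, (mem_filter.1 g4).2⟩

lemma L1_U3 (h0 : 1 ≤ ρ) (hρ : ρ < R) (h : L1 κ w R ω) : U3 κ w ρ R ω := by
  obtain ⟨⟨v, hv, h1⟩, h2⟩ := h
  have hvw : ¬ inR w ρ v := by
    unfold Far at hv
    rw [le_abs, le_abs] at hv
    rw [inR_iff]
    omega
  obtain ⟨u, hu, h3⟩ := last_exit h1 (show inR w ρ w by rw [inR_iff]; omega) hvw
  have hsub : (ω ∩ HL κ w R) \ BR w ρ = ω ∩ AL κ w ρ R := by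
    unfold AL BR
    ext l
    rw [mem_sdiff, mem_inter, mem_inter, mem_sdiff]
    tauto
  rw [hsub] at h3
  have hsub2 : ω ∩ AL κ w ρ R ⊆ ω ∩ HL κ w R := inter_subset_inter_left AL_sub_HL
  have hwu : Co (ω ∩ HL κ w R) w u := h1.trans (h3.mono hsub2).symm
  have huv : u ≠ v := by
    rintro rfl
    exact hvw hu
  have hlab : ∀ y z : ℤ × ℤ, Ad (ω ∩ AL κ w ρ R) y z → y ≠ w ∧ z ≠ w := by
    intro y z hyz
    have g1 := (mem_AL.1 (mem_inter.1 hyz.2).2).2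
    have g2 := unit_cases hyz.1
    simp only [Prod.fst_add, Prod.snd_add] at g1
    constructor <;> rintro rfl <;> omega
  refine ⟨u, v, ?_, hv, h3, ?_⟩
  · rw [inR_iff] at hu
    unfold Near
    rw [abs_le, abs_le]
    omega
  · intro y hy hty
    have g1 := h2 y (hwu.trans (hy.mono hsub2)) hty
    subst g1
    rcases Relation.ReflTransGen.cases_tail hy with g2 | ⟨c, -, g2⟩
    · subst g2
      rcases Relation.ReflTransGen.cases_head h3 with g3 | ⟨c, g3, -⟩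
      · exact huv g3
      · exact (hlab _ _ g3).1 rfl
    · exact (hlab _ _ g2).2 rfl

/-- quasi-multiplicativity, the trivial half -/
theorem l1_mul (h0 : 1 ≤ ρ) (hρ : ρ < R) : l1 κ w R ≤ l1 κ w ρ * u3 κ w ρ R := by
  have hsub : HL κ w ρ ⊆ HL κ w R := by
    unfold HL
    exact filter_subset_filter _ (Bx_sub (by omega) (by omega) (by omega) (by omega))
  have hd : Disjoint (HL κ w ρ) (AL κ w ρ R) := by
    rw [disjoint_left]
    intro l h1 h2
    unfold AL at h2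
    unfold HL at h1
    exact (mem_sdiff.1 h2).2 (mem_filter.1 h1).1
  have h1 := Pr_indep hsub (AL_sub_HL (κ := κ) (z := w) (ρ := ρ) (R := R)) hd (L1 κ w ρ) (U3 κ w ρ R)
  unfold l1 u3
  rw [← h1]
  refine Pr_mono fun ω _ h => ⟨?_, ?_⟩
  · exact L1_local.1 (L1_mono hρ.le h0 h)
  · exact U3_local.1 (L1_U3 h0 hρ h)

/-- **upper bound, unit scale** -/
theorem l1_le : ∃ C : ℝ, 0 < C ∧ ∀ κ : ℤ, (κ = 0 ∨ κ = 1) → ∀ (z : ℤ × ℤ) (R : ℤ), 1 ≤ R →
    l1 κ z R ≤ C / R ^ 2 := by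
  obtain ⟨C, hC, h⟩ := u3_le
  refine ⟨C + 1, by positivity, fun κ hκ z R hR => ?_⟩
  have hRR : (1 : ℝ) ≤ R := by exact_mod_cast hR
  rw [le_div_iff₀ (by positivity)]
  rcases lt_or_eq_of_le hR with h1 | h1
  · have h2 := l1_mul (κ := κ) (w := z) le_rfl h1
    have h3 : l1 κ z 1 ≤ 1 := Pr_le_one _ _
    have h4 := h κ hκ z 1 R le_rfl hR
    have h5 := u3_nonneg (κ := κ) (z := z) (ρ := 1) (R := R)
    have h6 : l1 κ z R ≤ C * (1 / R) ^ 2 := by
      push_cast at h4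
      nlinarith
    rw [div_pow, one_pow, mul_one_div, le_div_iff₀ (by positivity)] at h6
    linarith
  · have h3 : l1 κ z R ≤ 1 := Pr_le_one _ _
    rw [← h1] at h3 ⊢
    push_cast
    linarith

/-- **three arms at a flat wall, annulus form, lower bound** -/
theorem u3_ge : ∃ c : ℝ, 0 < c ∧ ∀ κ : ℤ, (κ = 0 ∨ κ = 1) → ∀ (z : ℤ × ℤ) (ρ R : ℤ), 1 ≤ ρ →
    ρ < R → c * (ρ / R) ^ 2 ≤ u3 κ z ρ R := by
  obtain ⟨c, hc, h1⟩ := l1_ge
  obtain ⟨C, hC, h2⟩ := l1_le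
  refine ⟨c / C, by positivity, fun κ hκ z ρ R hρ hρR => ?_⟩
  have hρ' : (1 : ℝ) ≤ ρ := by exact_mod_cast hρ
  have hR' : (1 : ℝ) ≤ R := by exact_mod_cast (by omega : 1 ≤ R)
  have e1 := h1 κ hκ z R (by omega)
  have e2 := h2 κ hκ z ρ hρ
  have e3 := l1_mul (κ := κ) (w := z) hρ hρR
  have e4 := u3_nonneg (κ := κ) (z := z) (ρ := ρ) (R := R)
  have e5 : c / R ^ 2 ≤ C / ρ ^ 2 * u3 κ z ρ R :=
    (e1.trans e3).trans (mul_le_mul_of_nonneg_right e2 e4)
  have e6 : c / C * (ρ / R) ^ 2 = (c / R ^ 2) * (ρ ^ 2 / C) := by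
    field_simp
  rw [e6]
  calc (c / R ^ 2) * (ρ ^ 2 / C) ≤ (C / ρ ^ 2 * u3 κ z ρ R) * (ρ ^ 2 / C) :=
        mul_le_mul_of_nonneg_right e5 (by positivity)
    _ = u3 κ z ρ R := by field_simp

end Pool.Agent.H20.Q1
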