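import Mathlib
import Pool.Agent.H59.Q1.MassAll
import Pool.Agent.H20.Q1.MxV
import Pool.Agent.H25.Q1.Series
import Pool.Agent.Q1.M6f.Holo

set_option autoImplicit false
open Finset

/-!
# The response of a flat wall as a function of the weight of a tie

`Fc s x m` : weight `s ^ |S|` of a contact set `S` with leftmost point `x`, inside the box of radius
`m` around `x`. `pk κ x m r k` : probability that the cluster of `x` in the half box of radius `r`
reaches its boundary and has exactly `k` contacts, `x` being the leftmost one, all within distance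
`m`. `DR κ m r s = (∑ pk s^k) / (∑ pk (1/4)^k)`.
-/

namespace Pool.Agent.H20.Q1

open Pool.Agent.H75.Perc Pool.Agent.H75.TwoArm Pool.Agent.H75.Four Pool.Agent.H49.Perc
open Pool.Agent.H99.NC Pool.Agent.H60.Q1 Pool.Agent.Q1
open Pool.Agent.H59.Q1 (GmF mass_NB tdall Dcr_GmF Sup_GmF hf_pb)

/-- the extreme condition -/
def Xt (x : ℤ × ℤ) (m : ℤ) (S : Set (ℤ × ℤ)) : Prop := x ∈ S ∧ ∀ v ∈ S, inR x m v ∧ 0 ≤ v.1 - x.1

/-- weight of a contact set -/
noncomputable def Fc (s : ℂ) (x : ℤ × ℤ) (m : ℤ) (S : Set (ℤ × ℤ)) : ℂ :=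
  s ^ S.ncard * ((ind (Xt x m S) : ℝ) : ℂ)

/-- the cluster of `x` reaches distance `r` and has exactly `k` contacts, `x` being the leftmost one -/
def AK (κ : ℤ) (x : ℤ × ℤ) (m r : ℤ) (k : ℕ) (ω : Finset (ℤ × ℤ)) : Prop :=
  (Xt x m (CS (FW κ x) ω x) ∧ Rch x x r ω) ∧ (CS (FW κ x) ω x).ncard = k

/-- probability of `AK` -/
noncomputable def pk (κ : ℤ) (x : ℤ × ℤ) (m r : ℤ) (k : ℕ) : ℝ :=
  Ex hf (HL κ x r) (fun ω => ind (AK κ x m r k ω))

/-- bound for the number of contacts -/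
def nb (m : ℤ) : ℕ := (2 * m + 1).toNat * (2 * m + 1).toNat + 1

/-- the total weight -/
noncomputable def dN (κ : ℤ) (m r : ℤ) (σ : ℝ) : ℝ := ∑ k ∈ range (nb m), pk κ 0 m r k * σ ^ k

/-- response of a flat wall, normalised by its value for one natural row -/
noncomputable def DR (κ : ℤ) (m r : ℤ) (s : ℂ) : ℂ :=
  (∑ k ∈ range (nb m), (pk κ 0 m r k : ℂ) * s ^ k) / (dN κ m r (1 / 4) : ℂ)

variable {κ : ℤ} {x : ℤ × ℤ} {m r : ℤ} {k : ℕ} {s : ℂ} {σ a : ℝ} {ω : Finset (ℤ × ℤ)}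
  {S : Set (ℤ × ℤ)}

lemma pk_nonneg : 0 ≤ pk κ x m r k := Ex_nonneg hf_pb fun _ _ => ind_nonneg _

lemma dN_nonneg (h : 0 ≤ σ) : 0 ≤ dN κ m r σ :=
  sum_nonneg fun _ _ => mul_nonneg pk_nonneg (pow_nonneg h _)

lemma dN_mono {σ σ' : ℝ} (h : 0 ≤ σ) (h' : σ ≤ σ') : dN κ m r σ ≤ dN κ m r σ' :=
  sum_le_sum fun k _ => mul_le_mul_of_nonneg_left (pow_le_pow_left₀ h h' k) pk_nonneg

lemma ncard_lt (h : Xt x m S) : S.ncard < nb m := by
  have h1 : S ⊆ ((Icc (x.1 - m) (x.1 + m) ×ˢ Icc (x.2 - m) (x.2 + m) : Finset (ℤ × ℤ)) :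
      Set (ℤ × ℤ)) := fun y hy => by
    have h3 := (h.2 y hy).1
    rw [inR_iff] at h3
    rw [mem_coe, mem_product, mem_Icc, mem_Icc]
    omega
  have h2 := Set.ncard_le_ncard h1 (Finset.finite_toSet _)
  rw [Set.ncard_coe_finset, card_product, Int.card_Icc, Int.card_Icc] at h2
  unfold nb
  have e1 : x.1 + m + 1 - (x.1 - m) = 2 * m + 1 := by ring
  have e2 : x.2 + m + 1 - (x.2 - m) = 2 * m + 1 := by ring
  rw [e1, e2] at h2
  omega

/-- expansion of the weight in powers of `s` -/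
lemma Fc_expand : Fc s x m (CS (FW κ x) ω x) * ((ind (Rch x x r ω) : ℝ) : ℂ) =
    ∑ k ∈ range (nb m), ((ind (AK κ x m r k ω) : ℝ) : ℂ) * s ^ k := by
  classical
  set T := CS (FW κ x) ω x with hT
  unfold Fc
  by_cases h1 : Xt x m T
  · by_cases h2 : Rch x x r ω
    · rw [ind_true h1, ind_true h2]
      rw [Finset.sum_eq_single_of_mem T.ncard (mem_range.2 (ncard_lt h1))]
      · have : ind (AK κ x m r T.ncard ω) = 1 := ind_true ⟨⟨h1, h2⟩, rfl⟩
        rw [this]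
        push_cast
        ring
      · intro k _ hk
        have : ind (AK κ x m r k ω) = 0 := ind_false fun h => hk h.2.symm
        rw [this]
        push_cast
        ring
    · rw [ind_false h2]
      rw [Finset.sum_eq_zero]
      · push_cast; ring
      · intro k _
        have : ind (AK κ x m r k ω) = 0 := ind_false fun h => h2 h.1.2
        rw [this]
        push_cast; ring
  · rw [ind_false h1]
    rw [Finset.sum_eq_zero]
    · push_cast; ring
    · intro k _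
      have : ind (AK κ x m r k ω) = 0 := ind_false fun h => h1 h.1.1
      rw [this]
      push_cast; ring

lemma Eh_ofReal (B : Finset (ℤ × ℤ)) (f : Finset (ℤ × ℤ) → ℝ) :
    Eh B (fun ω => ((f ω : ℝ) : ℂ)) = ((Ex hf B f : ℝ) : ℂ) := by
  rw [Eh_re_im]
  have h1 : Ex hf B (fun ω => ((f ω : ℝ) : ℂ).re) = Ex hf B f :=
    Ex_congr fun ω _ => Complex.ofReal_re _
  have h2 : Ex hf B (fun ω => ((f ω : ℝ) : ℂ).im) = 0 := by
    rw [← Ex_const hf B 0]
    exact Ex_congr fun ω _ => Complex.ofReal_im _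
  rw [h1, h2]
  push_cast
  ring

lemma NNc_Fc : NNc κ x x (Fc s x m) r = ∑ k ∈ range (nb m), (pk κ x m r k : ℂ) * s ^ k := by
  unfold NNc
  have h1 : Eh (HL κ x r) (fun ω => Fc s x m (CS (FW κ x) ω x) * ((ind (Rch x x r ω) : ℝ) : ℂ)) =
      Eh (HL κ x r) (fun ω => ∑ k ∈ range (nb m), ((ind (AK κ x m r k ω) : ℝ) : ℂ) * s ^ k) :=
    Ec_congr fun ω _ => Fc_expand
  rw [h1]
  refine (Ec_sum _ _ _ _).trans (sum_congr rfl fun k _ => ?_)
  have h2 : Eh (HL κ x r) (fun ω => ((ind (AK κ x m r k ω) : ℝ) : ℂ) * s ^ k) =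
      s ^ k * Eh (HL κ x r) (fun ω => ((ind (AK κ x m r k ω) : ℝ) : ℂ)) := by
    rw [← Ec_smul]
    exact Ec_congr fun ω _ => mul_comm _ _
  refine h2.trans ?_
  rw [Eh_ofReal]
  unfold pk
  ring

lemma GmF_eq : ((GmF σ a x m S : ℝ) : ℂ) = Fc (σ : ℂ) x m S / (a : ℂ) := by
  unfold GmF Fc Xt
  push_cast
  ring

lemma NN_eq_NNc {F : Set (ℤ × ℤ) → ℝ} {w xi : ℤ × ℤ} :
    ((NN κ w xi F r : ℝ) : ℂ) = NNc κ w xi (fun S => (F S : ℂ)) r := by
  unfold NN NNc
  rw [← Eh_ofReal]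
  refine Ec_congr fun ω _ => ?_
  push_cast
  rfl

lemma NNc_div {F : Set (ℤ × ℤ) → ℂ} {w xi : ℤ × ℤ} {c : ℂ} :
    NNc κ w xi (fun S => F S / c) r = NNc κ w xi F r / c := by
  unfold NNc
  rw [div_eq_inv_mul]
  rw [← Ec_smul]
  refine Ec_congr fun ω _ => ?_
  ring

lemma NN_GmF_eq : NN κ x x (GmF σ a x m) r = (∑ k ∈ range (nb m), pk κ x m r k * σ ^ k) / a := by
  have h1 : ((NN κ x x (GmF σ a x m) r : ℝ) : ℂ) =
      (((∑ k ∈ range (nb m), pk κ x m r k * σ ^ k) / a : ℝ) : ℂ) := by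
    rw [NN_eq_NNc]
    have h2 : NNc κ x x (fun S => ((GmF σ a x m S : ℝ) : ℂ)) r =
        NNc κ x x (fun S => Fc (σ : ℂ) x m S / (a : ℂ)) r := by
      congr 1
      funext S
      exact GmF_eq
    rw [h2, NNc_div, NNc_Fc]
    push_cast
    rfl
  exact_mod_cast h1

/-- translation invariance -/
lemma pk_shift : pk κ x m r k = pk κ 0 m r k := by
  unfold pk
  have hg : (syT x).g 0 = x := by simp [syT]
  have hgt : ∀ y, (syT x).g y = y + x := fun y => rfl
  have hgt' : ∀ y, (syT x).g' y = y - x := fun y => rfl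
  have hH : ∀ e, e ∈ HL κ x r ↔ (syT x).G' e ∈ HL κ 0 r := by
    have h := HL_shift (κ := κ) (z := 0) (R := r) x
    rwa [zero_add] at h
  rw [Pool.Agent.H59.Q1.Ex_sym (syT x) hH]
  refine Ex_congr fun ω _ => ind_congr ?_
  have hCS : CS (FW κ x) (ω.map (syT x).G) x = (syT x).g '' CS (FW κ 0) ω 0 := by
    ext y
    constructor
    · rintro ⟨h1, h2⟩
      refine ⟨y - x, ⟨?_, ?_⟩, ?_⟩
      · unfold FW ht at h1 ⊢
        simp only [Prod.fst_sub, Prod.snd_sub, Prod.fst_zero, Prod.snd_zero, mul_sub, mul_zero]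
        omega
      · rw [← (syT x).co_iff, hg, hgt, sub_add_cancel]; exact h2
      · rw [hgt, sub_add_cancel]
    · rintro ⟨y', ⟨h1, h2⟩, rfl⟩
      refine ⟨?_, ?_⟩
      · rw [hgt]
        unfold FW ht at h1 ⊢
        simp only [Prod.fst_add, Prod.snd_add, Prod.fst_zero, Prod.snd_zero, mul_add,
          mul_zero] at h1 ⊢
        omega
      · have := ((syT x).co_iff (ω := ω) 0 y').2 h2
        rwa [hg] at this
  have hinj : Function.Injective (syT x).g := fun p q h => by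
    rw [hgt, hgt] at h
    exact add_right_cancel h
  unfold AK
  rw [hCS, Set.ncard_image_of_injective _ hinj]
  refine and_congr (and_congr ?_ ?_) Iff.rfl
  · unfold Xt
    constructor
    · rintro ⟨h1, h2⟩
      refine ⟨⟨rfl, Co.refl _ _⟩, fun v hv => ?_⟩
      have h3 := h2 (v + x) ⟨v, hv, rfl⟩
      rw [inR_iff] at h3 ⊢
      simp only [Prod.fst_add, Prod.snd_add, Prod.fst_zero, Prod.snd_zero] at h3 ⊢
      omega
    · rintro ⟨h1, h2⟩
      refine ⟨⟨0, h1, hg⟩, ?_⟩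
      rintro _ ⟨v, hv, rfl⟩
      have h3 := h2 v hv
      rw [hgt]
      rw [inR_iff] at h3 ⊢
      simp only [Prod.fst_add, Prod.snd_add, Prod.fst_zero, Prod.snd_zero] at h3 ⊢
      omega
  · unfold Rch
    constructor
    · rintro ⟨v, h1, h2⟩
      refine ⟨v - x, ?_, ?_⟩
      · unfold Far at h1 ⊢
        simp only [Prod.fst_sub, Prod.snd_sub, Prod.fst_zero, Prod.snd_zero, sub_zero]
        exact h1
      · rw [← (syT x).co_iff, hg, hgt, sub_add_cancel]; exact h2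
    · rintro ⟨v, h1, h2⟩
      refine ⟨v + x, ?_, ?_⟩
      · unfold Far at h1 ⊢
        simpa using h1
      · have := ((syT x).co_iff (ω := ω) 0 v).2 h2
        rwa [hg] at this

lemma NN_GmF_dN : NN κ x x (GmF σ a x m) r = dN κ m r σ / a := by
  rw [NN_GmF_eq]
  unfold dN
  congr 1
  exact sum_congr rfl fun k _ => by rw [pk_shift]

lemma NNc_Fc_DR (h : dN κ m r (1 / 4) ≠ 0) :
    NNc κ x x (Fc s x m) r = DR κ m r s * (dN κ m r (1 / 4) : ℂ) := by
  rw [NNc_Fc]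
  unfold DR
  rw [div_mul_cancel₀ _ (by exact_mod_cast h)]
  exact sum_congr rfl fun k _ => by rw [pk_shift]

/-- the weight of a real tie -/
lemma DR_ofReal : DR κ m r (σ : ℂ) = ((dN κ m r σ / dN κ m r (1 / 4) : ℝ) : ℂ) := by
  unfold DR dN
  push_cast
  rfl

lemma DR_quarter (h : dN κ m r (1 / 4) ≠ 0) : DR κ m r (1 / 4) = 1 := by
  have h1 := DR_ofReal (κ := κ) (m := m) (r := r) (σ := 1 / 4)
  rw [div_self h] at h1
  push_cast at h1
  exact h1

lemma norm_DR_le (s : ℂ) : ‖DR κ m r s‖ ≤ dN κ m r ‖s‖ / dN κ m r (1 / 4) := by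
  unfold DR
  have h1 : ‖(dN κ m r (1 / 4) : ℂ)‖ = dN κ m r (1 / 4) := by
    rw [Complex.norm_real, Real.norm_of_nonneg (dN_nonneg (by norm_num))]
  rw [norm_div, h1]
  refine div_le_div_of_nonneg_right ?_ (dN_nonneg (by norm_num))
  refine (norm_sum_le _ _).trans (sum_le_sum fun k _ => ?_)
  rw [norm_mul, norm_pow, Complex.norm_real, Real.norm_of_nonneg pk_nonneg]

end Pool.Agent.H20.Q1
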