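import Mathlib
import Pool.Agent.H20.Q1.DRes

set_option autoImplicit false
open Finset

/-!
# Bounds for the response of a flat wall

`scales` : the normalisations; `DR_bd` : both bounds; `ghyp_DR` : the hypotheses of the closing lemma.
-/

namespace Pool.Agent.H20.Q1

open Pool.Agent.H75.Perc Pool.Agent.H75.TwoArm Pool.Agent.H75.Four Pool.Agent.H49.Perc
open Pool.Agent.H99.NC Pool.Agent.H60.Q1 Pool.Agent.Q1
open Pool.Agent.H59.Q1 (GmF mass_NB tdall Dcr_GmF Sup_GmF hf_pb)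

variable {κ : ℤ} {x : ℤ × ℤ} {m r : ℤ} {k : ℕ} {s : ℂ} {σ a : ℝ} {ω : Finset (ℤ × ℤ)}

lemma exists_a0 {K t : ℝ} (hK : 0 < K) (ht : 0 < t) (ht1 : t ≤ 1) :
    ∃ a0 : ℤ, 2 ≤ a0 ∧ K ≤ t * a0 ∧ t * a0 ≤ K + 3 := by
  refine ⟨⌈K / t⌉ + 2, ?_, ?_, ?_⟩
  · have : 0 ≤ ⌈K / t⌉ := Int.ceil_nonneg (by positivity)
    omega
  · push_cast
    have h1 := Int.le_ceil (K / t)
    have h2 : t * (K / t) = K := by field_simp
    nlinarith
  · push_cast
    have h1 := (Int.ceil_lt_add_one (K / t)).le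
    have h2 : t * (K / t) = K := by field_simp
    nlinarith

lemma t_le_one (h1 : 1 / 4 ≤ σ) (h2 : σ < 1) : (1 - σ) ^ ((3 : ℝ) / 2) ≤ 1 :=
  Real.rpow_le_one (by linarith) (by linarith) (by norm_num)

lemma t_pos (h2 : σ < 1) : 0 < (1 - σ) ^ ((3 : ℝ) / 2) := Real.rpow_pos_of_pos (by linarith) _

lemma t_quarter : (1 / 2 : ℝ) ≤ (1 - 1 / 4) ^ ((3 : ℝ) / 2) := by
  have h1 : (1 - 1 / 4 : ℝ) ^ (2 : ℝ) ≤ (1 - 1 / 4) ^ ((3 : ℝ) / 2) :=
    Real.rpow_le_rpow_of_exponent_ge (by norm_num) (by norm_num) (by norm_num)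
  have h2 : (1 - 1 / 4 : ℝ) ^ (2 : ℝ) = 9 / 16 := by norm_num
  linarith

/-- **the normalisations** -/
theorem scales : ∃ K K1 K2 cN CN : ℝ, 0 < K ∧ 0 < K1 ∧ 0 < K2 ∧ 0 < cN ∧ 0 < CN ∧ ∀ κ : ℤ,
    (κ = 0 ∨ κ = 1) → ∀ σ : ℝ, 1 / 4 ≤ σ → σ < 1 → ∀ m : ℤ, K ≤ (1 - σ) ^ ((3 : ℝ) / 2) * m →
    ∃ a0 a1 : ℤ, 2 ≤ a0 ∧ 2 ≤ a1 ∧ K1 ≤ (1 - σ) ^ ((3 : ℝ) / 2) * a0 ∧
      (1 - σ) ^ ((3 : ℝ) / 2) * a0 ≤ K2 ∧ (a1 : ℝ) ≤ K2 ∧ ∀ (x : ℤ × ℤ) (R : ℤ),
        NB κ x x (GmF σ a0 x m) cN CN m R ∧ NB κ x x (GmF (1 / 4) a1 x m) cN CN m R := by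
  obtain ⟨K1, hK1, h⟩ := mass_NB tdall
  obtain ⟨k0, cN, CN, hcN, hCN, hNB⟩ := h (K1 + 3)
  refine ⟨128 * 2 ^ k0 * (K1 + 3), K1, 2 * (K1 + 3), cN, CN, by positivity, hK1, by positivity, hcN,
    hCN, ?_⟩
  intro κ hκ σ h1 h2 m hm
  have ht := t_pos h2
  have ht1 := t_le_one h1 h2
  have hq := t_quarter
  set t := (1 - σ) ^ ((3 : ℝ) / 2) with htd
  set t' := (1 - 1 / 4 : ℝ) ^ ((3 : ℝ) / 2) with htd'
  have ht1' : t' ≤ 1 := t_le_one (σ := 1 / 4) le_rfl (by norm_num)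
  have ht' : 0 < t' := by linarith
  obtain ⟨a0, g1, g2, g3⟩ := exists_a0 hK1 ht ht1
  obtain ⟨a1, g4, g5, g6⟩ := exists_a0 hK1 ht' ht1'
  have hm0 : (0 : ℝ) ≤ m := by
    by_contra hcon
    push Not at hcon
    have : t * m ≤ 0 := by nlinarith
    have h3 : 0 < 128 * 2 ^ k0 * (K1 + 3) := by positivity
    linarith
  have hp : (0 : ℝ) < 2 ^ k0 := by positivity
  have hma0 : 64 * (2 ^ k0 * a0) ≤ m := by
    have h3 : t * (64 * (2 ^ k0 * a0)) ≤ t * (m : ℝ) := by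
      have : 64 * 2 ^ k0 * (t * a0) ≤ 64 * 2 ^ k0 * (K1 + 3) :=
        mul_le_mul_of_nonneg_left g3 (by positivity)
      nlinarith
    have h4 := le_of_mul_le_mul_left h3 ht
    exact_mod_cast h4
  have ha1 : (a1 : ℝ) ≤ 2 * (K1 + 3) := by
    have h3 : (0 : ℝ) ≤ a1 := by exact_mod_cast (by omega : (0 : ℤ) ≤ a1)
    nlinarith
  have hma1 : 64 * (2 ^ k0 * a1) ≤ m := by
    have h3 : (64 * (2 ^ k0 * a1) : ℝ) ≤ m := by
      have h4 : (128 * 2 ^ k0 * (K1 + 3) : ℝ) ≤ m := by nlinarith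
      have h5 : (64 * (2 ^ k0 * a1) : ℝ) ≤ 64 * (2 ^ k0 * (2 * (K1 + 3))) := by
        have := mul_le_mul_of_nonneg_left ha1 hp.le
        linarith
      linarith
    exact_mod_cast h3
  refine ⟨a0, a1, g1, g4, g2, by linarith, ha1, fun x R => ⟨?_, ?_⟩⟩
  · exact hNB κ hκ σ h1 h2 a0 g1 g2 g3 x m R hma0
  · exact hNB κ hκ (1 / 4) le_rfl (by norm_num) a1 g4 g5 g6 x m R hma1

/-- **both bounds for the response** -/
theorem DR_bd : ∃ K c C : ℝ, 0 < K ∧ 0 < c ∧ 0 < C ∧ ∀ κ : ℤ, (κ = 0 ∨ κ = 1) → ∀ σ : ℝ,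
    1 / 4 ≤ σ → σ < 1 → ∀ m r : ℤ, K ≤ (1 - σ) ^ ((3 : ℝ) / 2) * m → m < r →
    0 < dN κ m r (1 / 4) ∧
      c ≤ dN κ m r σ / dN κ m r (1 / 4) * (1 - σ) ^ ((3 : ℝ) / 2) ∧
      dN κ m r σ / dN κ m r (1 / 4) * (1 - σ) ^ ((3 : ℝ) / 2) ≤ C := by
  obtain ⟨K, K1, K2, cN, CN, hK, hK1, hK2, hcN, hCN, h⟩ := scales
  refine ⟨K, K1 * cN / (K2 * CN), K2 * CN / cN, hK, by positivity, by positivity, ?_⟩
  intro κ hκ σ h1 h2 m r hm hmr
  obtain ⟨a0, a1, g1, g2, g3, g4, g5, g6⟩ := h κ hκ σ h1 h2 m hm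
  obtain ⟨g7, g8⟩ := g6 0 r
  obtain ⟨e1, e2⟩ := g7 r hmr le_rfl
  obtain ⟨e3, e4⟩ := g8 r hmr le_rfl
  rw [NN_GmF_dN] at e1 e2 e3 e4
  have ht := t_pos h2
  set t := (1 - σ) ^ ((3 : ℝ) / 2) with htd
  have ha0 : (0 : ℝ) < a0 := by exact_mod_cast (by omega : (0 : ℤ) < a0)
  have ha1 : (2 : ℝ) ≤ a1 := by exact_mod_cast g2
  have hm0 : (0 : ℝ) ≤ m := by
    by_contra hcon
    push Not at hcon
    have : t * m ≤ 0 := by nlinarith
    linarith
  have hr0 : (0 : ℝ) < r := by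
    have : (m : ℝ) < r := by exact_mod_cast hmr
    linarith
  have hr2 : (0 : ℝ) < (r : ℝ) ^ 2 := by positivity
  rw [div_le_div_iff₀ hr2 ha0] at e1
  rw [div_le_div_iff₀ ha0 hr2] at e2
  rw [div_le_div_iff₀ hr2 (by linarith)] at e3
  rw [div_le_div_iff₀ (by linarith) hr2] at e4
  have hq : 0 < dN κ m r (1 / 4) := by
    by_contra hcon
    push Not at hcon
    have : 0 < cN * (a1 : ℝ) := by positivity
    nlinarith
  refine ⟨hq, ?_, ?_⟩
  · rw [div_mul_eq_mul_div, div_le_div_iff₀ (by positivity) hq]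
    -- K1 cN dq ≤ dσ t K2 CN
    have s1 : dN κ m r (1 / 4) * (r : ℝ) ^ 2 ≤ CN * K2 := by
      refine e4.trans (mul_le_mul_of_nonneg_left g5 hCN.le)
    have s2 : cN * K1 ≤ t * (dN κ m r σ * (r : ℝ) ^ 2) := by
      have := mul_le_mul_of_nonneg_left e1 ht.le
      nlinarith
    have s3 : K1 * cN * (dN κ m r (1 / 4) * (r : ℝ) ^ 2) ≤ K1 * cN * (CN * K2) :=
      mul_le_mul_of_nonneg_left s1 (by positivity)
    have s4 : K1 * cN * (CN * K2) ≤ t * (dN κ m r σ * (r : ℝ) ^ 2) * (CN * K2) := by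
      have := mul_le_mul_of_nonneg_right s2 (show 0 ≤ CN * K2 by positivity)
      linarith
    have s5 : (K1 * cN * dN κ m r (1 / 4)) * (r : ℝ) ^ 2 ≤
        (dN κ m r σ * t * (K2 * CN)) * (r : ℝ) ^ 2 := by
      calc _ = K1 * cN * (dN κ m r (1 / 4) * (r : ℝ) ^ 2) := by ring
        _ ≤ _ := s3.trans s4
        _ = _ := by ring
    exact le_of_mul_le_mul_right s5 hr2
  · rw [div_mul_eq_mul_div, div_le_div_iff₀ hq hcN]
    have s1 : cN * 1 ≤ dN κ m r (1 / 4) * (r : ℝ) ^ 2 := by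
      refine le_trans (mul_le_mul_of_nonneg_left (by linarith) hcN.le) e3
    have s2 : t * (dN κ m r σ * (r : ℝ) ^ 2) ≤ CN * K2 := by
      have := mul_le_mul_of_nonneg_left e2 ht.le
      have h3 : t * (CN * a0) = CN * (t * a0) := by ring
      rw [h3] at this
      exact this.trans (mul_le_mul_of_nonneg_left g4 hCN.le)
    have s3 : (dN κ m r σ * t * cN) * (r : ℝ) ^ 2 ≤ (K2 * CN * dN κ m r (1 / 4)) * (r : ℝ) ^ 2 := by
      calc _ = (t * (dN κ m r σ * (r : ℝ) ^ 2)) * cN := by ring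
        _ ≤ CN * K2 * cN := mul_le_mul_of_nonneg_right s2 hcN.le
        _ = K2 * CN * (cN * 1) := by ring
        _ ≤ K2 * CN * (dN κ m r (1 / 4) * (r : ℝ) ^ 2) :=
          mul_le_mul_of_nonneg_left s1 (by positivity)
        _ = _ := by ring
    exact le_of_mul_le_mul_right s3 hr2

/-! ### the hypotheses of the closing lemma -/

open Pool.Agent.H25.Q1.Close Pool.Agent.Q1.M6f

/-- the response as a function of the rapidity -/
noncomputable def GD (κ : ℤ) (m r : ℤ) (y₀ : ℝ) (z : ℂ) : ℂ :=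
  (Real.exp (-y₀) : ℂ) * DR κ m r (sw (z + (y₀ : ℂ) * Complex.I))

/-- the coefficients of the response -/
noncomputable def nuD (κ : ℤ) (m r : ℤ) (k : ℕ) : ℝ :=
  if k < nb m then pk κ 0 m r k / dN κ m r (1 / 4) else 0

lemma nuD_nonneg : 0 ≤ nuD κ m r k := by
  unfold nuD
  split_ifs
  · exact div_nonneg pk_nonneg (dN_nonneg (by norm_num))
  · exact le_rfl

lemma DR_tsum : DR κ m r s = ∑' k, (nuD κ m r k : ℂ) * s ^ k := by
  rw [tsum_eq_sum (s := range (nb m))]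
  · unfold DR
    rw [sum_div]
    refine sum_congr rfl fun k hk => ?_
    unfold nuD
    rw [if_pos (mem_range.1 hk)]
    push_cast
    ring
  · intro k hk
    unfold nuD
    rw [if_neg fun h => hk (mem_range.2 h)]
    push_cast
    ring

lemma nuD_summable (ρ : ℝ) : Summable fun k => nuD κ m r k * ρ ^ k := by
  refine summable_of_ne_finset_zero (s := range (nb m)) fun k hk => ?_
  unfold nuD
  rw [if_neg fun h => hk (mem_range.2 h), zero_mul]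

lemma GD_eq (y₀ : ℝ) : GD κ m r y₀ = gs (nuD κ m r) y₀ := by
  funext z
  unfold GD gs
  rw [DR_tsum]

lemma UY_re {z : ℂ} {Y : ℝ} (hz : z ∈ UY Y) : 0 ≤ z.re ∧ z.re ≤ Real.pi := by
  obtain ⟨⟨h1, h2⟩, -⟩ := hz
  have := Real.pi_pos
  constructor <;> linarith

/-- **the hypotheses of the closing lemma hold for the response** -/
theorem ghyp_DR : ∃ C c K : ℝ, 0 < C ∧ 0 < c ∧ 0 < K ∧ ∀ κ : ℤ, (κ = 0 ∨ κ = 1) →
    ∀ (Y y₀ : ℝ) (m r : ℤ), 0 ≤ Y → Y ≤ y₀ → K * Real.exp (y₀ + Y) ≤ m → m < r →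
      GHyp C c Y (GD κ m r y₀) := by
  obtain ⟨K, c, C, hK, hc, hC, h⟩ := DR_bd
  have h32 : (0 : ℝ) < (32 / 9) ^ ((3 : ℝ) / 2) := Real.rpow_pos_of_pos (by norm_num) _
  refine ⟨(C + 1) * (32 / 9) ^ ((3 : ℝ) / 2), c / 6, K * (32 / 9) ^ ((3 : ℝ) / 2), by positivity,
    by positivity, by positivity, ?_⟩
  intro κ hκ Y y₀ m r hY hYy hm hmr
  have h9 : (9 / 32 : ℝ) ^ (3 / 2 : ℝ) * (32 / 9) ^ (3 / 2 : ℝ) = 1 := by
    rw [← Real.mul_rpow (by norm_num) (by norm_num)]; norm_num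
  have h9p : (0 : ℝ) < (9 / 32) ^ (3 / 2 : ℝ) := Real.rpow_pos_of_pos (by norm_num) _
  -- the scale
  have hscale : ∀ {z : ℂ}, z ∈ UY Y → ∀ σ : ℝ, σ ≤ ‖sw (z + (y₀ : ℂ) * Complex.I)‖ →
      K ≤ (1 - σ) ^ ((3 : ℝ) / 2) * m := by
    intro z hz σ hσ
    obtain ⟨g1, g2⟩ := UY_re hz
    have hz1 : 0 ≤ (z + (y₀ : ℂ) * Complex.I).re := by rw [re_shift]; exact g1
    have hz2 : (z + (y₀ : ℂ) * Complex.I).re ≤ Real.pi := by rw [re_shift]; exact g2
    have hle := norm_sw_le hz1 hz2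
    have him := abs_lt.1 hz.2
    rw [im_shift, abs_of_nonneg (by linarith)] at hle
    have h1 : 9 / 32 * Real.exp (-(2 * (y₀ + Y) / 3)) ≤ 1 - σ := by
      have h2 : Real.exp (-(2 * (y₀ + Y) / 3)) ≤ Real.exp (-(2 * (z.im + y₀) / 3)) :=
        Real.exp_le_exp.2 (by linarith)
      linarith
    have h2 : (9 / 32 * Real.exp (-(2 * (y₀ + Y) / 3))) ^ (3 / 2 : ℝ) ≤ (1 - σ) ^ (3 / 2 : ℝ) :=
      Real.rpow_le_rpow (by positivity) h1 (by norm_num)
    have h3 : (9 / 32 * Real.exp (-(2 * (y₀ + Y) / 3))) ^ (3 / 2 : ℝ) =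
        (9 / 32) ^ (3 / 2 : ℝ) * Real.exp (-(y₀ + Y)) := by
      rw [Real.mul_rpow (by norm_num) (Real.exp_pos _).le, ← Real.exp_mul]
      congr 2
      ring
    rw [h3] at h2
    have hE : Real.exp (-(y₀ + Y)) * Real.exp (y₀ + Y) = 1 := by
      rw [← Real.exp_add]; simp
    calc K = (9 / 32) ^ (3 / 2 : ℝ) * Real.exp (-(y₀ + Y)) *
          (K * (32 / 9) ^ ((3 : ℝ) / 2) * Real.exp (y₀ + Y)) := by
          calc K = K * ((9 / 32 : ℝ) ^ (3 / 2 : ℝ) * (32 / 9) ^ (3 / 2 : ℝ)) *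
                (Real.exp (-(y₀ + Y)) * Real.exp (y₀ + Y)) := by rw [h9, hE]; ring
            _ = _ := by ring
      _ ≤ (9 / 32) ^ (3 / 2 : ℝ) * Real.exp (-(y₀ + Y)) * m :=
          mul_le_mul_of_nonneg_left hm (by positivity)
      _ ≤ (1 - σ) ^ ((3 : ℝ) / 2) * m := by
          refine mul_le_mul_of_nonneg_right h2 ?_
          have : 0 ≤ K * (32 / 9) ^ ((3 : ℝ) / 2) * Real.exp (y₀ + Y) := by positivity
          linarith
  refine ⟨?_, ?_, ?_, ?_⟩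
  · intro z hz
    rw [GD_eq]
    exact (differentiableAt_gs (fun _ => nuD_nonneg) (fun ρ _ _ => nuD_summable ρ) y₀
      hz.1).differentiableWithinAt
  · intro z hz
    obtain ⟨g1, g2⟩ := UY_re hz
    have hz1 : 0 ≤ (z + (y₀ : ℂ) * Complex.I).re := by rw [re_shift]; exact g1
    have hz2 : (z + (y₀ : ℂ) * Complex.I).re ≤ Real.pi := by rw [re_shift]; exact g2
    set s := sw (z + (y₀ : ℂ) * Complex.I) with hs
    have hs1 : ‖s‖ < 1 := norm_sw_lt_one hz1 hz2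
    have him := abs_lt.1 hz.2
    have hle := norm_sw_le hz1 hz2
    rw [im_shift, abs_of_nonneg (by linarith)] at hle
    set σ := max (1 / 4) ‖s‖ with hσ
    have hσ1 : 1 / 4 ≤ σ := le_max_left _ _
    have hσ2 : σ < 1 := max_lt (by norm_num) hs1
    have hE1 : Real.exp (-(2 * (z.im + y₀) / 3)) ≤ 1 := Real.exp_le_one_iff.2 (by linarith)
    have hσ3 : 9 / 32 * Real.exp (-(2 * (z.im + y₀) / 3)) ≤ 1 - σ := by
      rw [hσ]
      rcases max_cases (1 / 4) ‖s‖ with h1 | h1 <;> rw [h1.1] <;> linarith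
    have hKm : K ≤ (1 - σ) ^ ((3 : ℝ) / 2) * m := by
      rcases max_cases (1 / 4) ‖s‖ with h1 | h1
      · rw [hσ, h1.1]
        -- `σ = 1/4`
        have h2 := hscale hz ‖s‖ le_rfl
        have h3 : (1 - ‖s‖) ^ ((3 : ℝ) / 2) ≤ 1 := Real.rpow_le_one (by linarith)
          (by linarith [norm_nonneg s]) (by norm_num)
        have hEm : (1 : ℝ) ≤ Real.exp (y₀ + Y) := Real.one_le_exp (by linarith)
        have h4 : 2 ≤ (32 / 9 : ℝ) ^ ((3 : ℝ) / 2) := by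
          have h5 : (32 / 9 : ℝ) ^ (1 : ℝ) ≤ (32 / 9) ^ ((3 : ℝ) / 2) :=
            Real.rpow_le_rpow_of_exponent_le (by norm_num) (by norm_num)
          rw [Real.rpow_one] at h5
          linarith
        have h6 : K * 2 ≤ (m : ℝ) := by
          refine le_trans ?_ hm
          have h7 : K * 2 ≤ K * (32 / 9) ^ ((3 : ℝ) / 2) := mul_le_mul_of_nonneg_left h4 hK.le
          have h8 : K * (32 / 9) ^ ((3 : ℝ) / 2) * 1 ≤
              K * (32 / 9) ^ ((3 : ℝ) / 2) * Real.exp (y₀ + Y) :=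
            mul_le_mul_of_nonneg_left hEm (by positivity)
          linarith
        have h7 := t_quarter
        nlinarith
      · rw [hσ, h1.1]
        exact hscale hz ‖s‖ le_rfl
    obtain ⟨hq, -, hup⟩ := h κ hκ σ hσ1 hσ2 m r hKm hmr
    have hD : ‖DR κ m r s‖ ≤ dN κ m r σ / dN κ m r (1 / 4) :=
      (norm_DR_le s).trans (div_le_div_of_nonneg_right (dN_mono (norm_nonneg _)
        (le_max_right _ _)) hq.le)
    set T := dN κ m r σ / dN κ m r (1 / 4) with hT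
    have hT0 : 0 ≤ T := div_nonneg (dN_nonneg (by linarith)) hq.le
    set E := Real.exp (-(2 * (z.im + y₀) / 3)) with hE
    have hE0 : 0 < E := Real.exp_pos _
    have hpow : (9 / 32 * E) ^ (3 / 2 : ℝ) ≤ (1 - σ) ^ (3 / 2 : ℝ) :=
      Real.rpow_le_rpow (by positivity) hσ3 (by norm_num)
    have hEpow : E ^ (3 / 2 : ℝ) = Real.exp (-(z.im + y₀)) := by
      rw [hE, ← Real.exp_mul]; congr 1; ring
    have hT2 : T * (9 / 32 * E) ^ (3 / 2 : ℝ) ≤ C :=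
      (mul_le_mul_of_nonneg_left hpow hT0).trans hup
    rw [Real.mul_rpow (by norm_num) hE0.le, hEpow] at hT2
    have hT3 : T ≤ C * (32 / 9) ^ (3 / 2 : ℝ) * Real.exp (z.im + y₀) := by
      have e1 := mul_le_mul_of_nonneg_right hT2 (mul_nonneg h32.le (Real.exp_pos (z.im + y₀)).le)
      have e2 : T * ((9 / 32) ^ (3 / 2 : ℝ) * Real.exp (-(z.im + y₀))) *
          ((32 / 9) ^ (3 / 2 : ℝ) * Real.exp (z.im + y₀)) = T := by
        have e3 : Real.exp (-(z.im + y₀)) * Real.exp (z.im + y₀) = 1 := by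
          rw [← Real.exp_add]; simp
        calc _ = T * ((9 / 32 : ℝ) ^ (3 / 2 : ℝ) * (32 / 9) ^ (3 / 2 : ℝ)) *
              (Real.exp (-(z.im + y₀)) * Real.exp (z.im + y₀)) := by ring
          _ = T := by rw [h9, e3]; ring
      rw [e2] at e1
      linarith
    unfold GD
    rw [← hs, norm_mul, Complex.norm_real, Real.norm_of_nonneg (Real.exp_pos _).le]
    calc Real.exp (-y₀) * ‖DR κ m r s‖ ≤ Real.exp (-y₀) * T :=
          mul_le_mul_of_nonneg_left hD (Real.exp_pos _).le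
      _ ≤ Real.exp (-y₀) * (C * (32 / 9) ^ (3 / 2 : ℝ) * Real.exp (z.im + y₀)) :=
          mul_le_mul_of_nonneg_left hT3 (Real.exp_pos _).le
      _ = C * (32 / 9) ^ (3 / 2 : ℝ) * Real.exp z.im := by
          have e3 : Real.exp (-y₀) * Real.exp (z.im + y₀) = Real.exp z.im := by
            rw [← Real.exp_add]; congr 1; ring
          calc _ = C * (32 / 9) ^ (3 / 2 : ℝ) * (Real.exp (-y₀) * Real.exp (z.im + y₀)) := by ring
            _ = _ := by rw [e3]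
      _ ≤ (C + 1) * (32 / 9) ^ ((3 : ℝ) / 2) * Real.exp z.im := by
          have := Real.exp_pos z.im
          have h1 : C * (32 / 9) ^ ((3 : ℝ) / 2) ≤ (C + 1) * (32 / 9) ^ ((3 : ℝ) / 2) := by
            nlinarith
          exact mul_le_mul_of_nonneg_right h1 this.le
  · intro z hz
    rw [GD_eq]
    exact gs_sym _ _ hz.1
  · rw [GD_eq]
    refine norm_gs_ge (fun _ => nuD_nonneg) ?_
    have hs4 : 1 / 4 ≤ s₀ y₀ := by
      unfold s₀
      have hch := Real.one_le_cosh (y₀ / 3)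
      have h1 : 3 / (4 * Real.cosh (y₀ / 3) ^ 2) ≤ 3 / 4 :=
        div_le_div_of_nonneg_left (by norm_num) (by norm_num) (by nlinarith)
      linarith
    have hs1 := s₀_lt_one y₀
    have hKm : K ≤ (1 - s₀ y₀) ^ ((3 : ℝ) / 2) * m := by
      have hpi : ((Real.pi / 2 : ℝ) : ℂ) ∈ UY (Y + 1) := by
        refine ⟨⟨?_, ?_⟩, ?_⟩
        · rw [Complex.ofReal_re]
          have := Real.pi_pos
          linarith
        · rw [Complex.ofReal_re]
          have := Real.pi_pos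
          linarith
        · rw [Complex.ofReal_im, abs_zero]
          linarith
      have hz1 : 0 ≤ (((Real.pi / 2 : ℝ) : ℂ) + (y₀ : ℂ) * Complex.I).re := by
        rw [re_shift]; exact (UY_re hpi).1
      have hz2 : (((Real.pi / 2 : ℝ) : ℂ) + (y₀ : ℂ) * Complex.I).re ≤ Real.pi := by
        rw [re_shift]; exact (UY_re hpi).2
      have hle := norm_sw_le hz1 hz2
      rw [im_shift, Complex.ofReal_im, zero_add, abs_of_nonneg (by linarith), sw_centre,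
        Complex.norm_real, Real.norm_of_nonneg (s₀_nonneg y₀)] at hle
      have h1 : 9 / 32 * Real.exp (-(2 * (y₀ + Y) / 3)) ≤ 1 - s₀ y₀ := by
        have h2 : Real.exp (-(2 * (y₀ + Y) / 3)) ≤ Real.exp (-(2 * y₀ / 3)) :=
          Real.exp_le_exp.2 (by linarith)
        linarith
      have h2 : (9 / 32 * Real.exp (-(2 * (y₀ + Y) / 3))) ^ (3 / 2 : ℝ) ≤
          (1 - s₀ y₀) ^ (3 / 2 : ℝ) :=
        Real.rpow_le_rpow (by positivity) h1 (by norm_num)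
      have h3 : (9 / 32 * Real.exp (-(2 * (y₀ + Y) / 3))) ^ (3 / 2 : ℝ) =
          (9 / 32) ^ (3 / 2 : ℝ) * Real.exp (-(y₀ + Y)) := by
        rw [Real.mul_rpow (by norm_num) (Real.exp_pos _).le, ← Real.exp_mul]
        congr 2
        ring
      rw [h3] at h2
      have hE : Real.exp (-(y₀ + Y)) * Real.exp (y₀ + Y) = 1 := by
        rw [← Real.exp_add]; simp
      calc K = (9 / 32) ^ (3 / 2 : ℝ) * Real.exp (-(y₀ + Y)) *
            (K * (32 / 9) ^ ((3 : ℝ) / 2) * Real.exp (y₀ + Y)) := by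
            calc K = K * ((9 / 32 : ℝ) ^ (3 / 2 : ℝ) * (32 / 9) ^ (3 / 2 : ℝ)) *
                  (Real.exp (-(y₀ + Y)) * Real.exp (y₀ + Y)) := by rw [h9, hE]; ring
              _ = _ := by ring
        _ ≤ (9 / 32) ^ (3 / 2 : ℝ) * Real.exp (-(y₀ + Y)) * m :=
            mul_le_mul_of_nonneg_left hm (by positivity)
        _ ≤ (1 - s₀ y₀) ^ ((3 : ℝ) / 2) * m := by
            refine mul_le_mul_of_nonneg_right h2 ?_
            have : 0 ≤ K * (32 / 9) ^ ((3 : ℝ) / 2) * Real.exp (y₀ + Y) := by positivity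
            linarith
    obtain ⟨hq, hlow, -⟩ := h κ hκ (s₀ y₀) hs4 hs1 m r hKm hmr
    have hts : ∑' k, nuD κ m r k * s₀ y₀ ^ k = dN κ m r (s₀ y₀) / dN κ m r (1 / 4) := by
      have h1 := DR_tsum (κ := κ) (m := m) (r := r) (s := (s₀ y₀ : ℂ))
      rw [DR_ofReal] at h1
      have h2 : ∑' k, (nuD κ m r k : ℂ) * (s₀ y₀ : ℂ) ^ k =
          ((∑' k, nuD κ m r k * s₀ y₀ ^ k : ℝ) : ℂ) := by
        rw [Complex.ofReal_tsum]
        exact tsum_congr fun k => by push_cast; rfl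
      rw [h2] at h1
      exact_mod_cast h1.symm
    rw [hts]
    exact hlow

end Pool.Agent.H20.Q1
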