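import Mathlib
import Pool.Agent.H20.Q1.DNum
import Pool.Agent.H39.Q1.FlatW

set_option autoImplicit false
open Finset

/-!
# Mixing for one tie at a flat wall

`FTm` : the functional of `Multi.first`, restricted to contact sets inside the box of radius `m`
around the tie. `tie_mix` : the main term of a tie with the weights `s` is `DR 1 m R s` times the
main term of this tie with the weights `1/4`, up to an error with an extra factor `((m+1)/R)^γ`.
`flat_sum` : the sum over a set of ties.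
-/

namespace Pool.Agent.H20.Q1

open Pool.Agent.H75.Perc Pool.Agent.H75.TwoArm Pool.Agent.H75.Four Pool.Agent.H49.Perc
open Pool.Agent.H99.NC Pool.Agent.H60.Q1 Pool.Agent.Q1 Pool.Agent.H39.Q1
open Pool.Agent.H59.Q1 (GmF mass_NB tdall Dcr_GmF Sup_GmF hf_pb)

open Classical in
/-- the functional of the contact set, restricted to the box of radius `m` around the tie -/
noncomputable def FTm (T : Finset (ℤ × ℤ)) (b : ℤ × ℤ → ℤ × ℤ) (rk : ℤ × ℤ → ℤ)
    (s : ℤ × ℤ → ℂ) (e : ℤ × ℤ) (m : ℤ) (S : Set (ℤ × ℤ)) : ℂ :=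
  if ∀ v ∈ S, inR (b e) m v then FT T b rk s e S else 0

variable {ι : Type*} [DecidableEq ι] {X : Pool.Agent.Q1.Env} {W Bb B TT Cs ω : Finset (ℤ × ℤ)}
  {fm : ℤ × ℤ → ι} {co : ι → Bool} {Wl La : ι → Finset (ℤ × ℤ)}
  {b o : ℤ × ℤ → ℤ × ℤ} {a : ℤ × ℤ → ℂ} {s s' : ℤ × ℤ → ℂ} {e e' : ℤ × ℤ} {m R : ℤ}
  {ε : Bool × Bool} {δ : ℤ × ℤ} {rk : ℤ × ℤ → ℤ} {s0 : ℂ}

/-- the ties near `e` are in the box -/
lemma lm_mem (h : Multi X W Bb B TT fm co Wl La b o) (he' : e' ∈ TF TT fm (fm e)) {w : ℤ × ℤ}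
    (hb : inR w m (b e')) : lm (co (fm e)) ε e' ∈ BR (gm ε w) (m + 1) := by
  have hends : o e' + b e' = e' + Pool.Agent.H39.Q1.tc (co (fm e)) ∧ IsUnit4 (b e' - o e') := by
    rcases hco : co (fm e) with _ | _
    · refine ⟨?_, (h.tC _ hco).unit e' he'⟩
      unfold Pool.Agent.H39.Q1.tc; rw [if_neg Bool.false_ne_true]
      exact (h.tC _ hco).ends e' he'
    · refine ⟨?_, (h.tO _ hco).unit e' he'⟩
      unfold Pool.Agent.H39.Q1.tc; rw [if_pos rfl]
      have : e' + (0, 0) = e' := add_zero e'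
      rw [this]
      exact (h.tO _ hco).ends e' he'
  rw [lm_apply, ← hends.1, mem_BR_gm, gm_gm]
  exact tie_box (m := m) (by omega) hends.2 hb

/-- the inner end determines the tie -/
lemma b_inj (h : Multi X W Bb B TT fm co Wl La b o)
    (hF : FlatL W Bb TT (TF TT fm (fm e)) (Wl (fm e)) (La (fm e)) b o (co (fm e)) ε δ (b e) (R + 1))
    (hmR : m + 1 ≤ R + 1) {e1 e2 : ℤ × ℤ} (h1 : e1 ∈ TF TT fm (fm e)) (h2 : e2 ∈ TF TT fm (fm e))
    (hb1 : inR (b e) m (b e1)) (hb : b e1 = b e2) : e1 = e2 := by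
  have g1 : lm (co (fm e)) ε e1 ∈ BR (gm ε (b e)) (R + 1) := BR_mono' hmR (lm_mem h h1 hb1)
  have g2 : lm (co (fm e)) ε e2 ∈ BR (gm ε (b e)) (R + 1) :=
    BR_mono' hmR (lm_mem h h2 (by rw [← hb]; exact hb1))
  have t1 := (hF.tie_ends h1 g1).1.2
  have t2 := (hF.tie_ends h2 g2).1.2
  rw [hb, ← t2] at t1
  exact (lm (co (fm e)) ε).injective (add_right_cancel t1)

/-- the functional in the coordinates of the mixing theorem -/
lemma FTm_eq (h : Multi X W Bb B TT fm co Wl La b o) (he : e ∈ TT)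
    (hF : FlatL W Bb TT (TF TT fm (fm e)) (Wl (fm e)) (La (fm e)) b o (co (fm e)) ε δ (b e) (R + 1))
    (hmR : m + 1 ≤ R + 1)
    (hs : ∀ e' ∈ TF TT fm (fm e), inR (b e) m (b e') → s e' = s0)
    (hrk : ∀ e' ∈ TF TT fm (fm e), inR (b e) m (b e') →
      (rk e ≤ rk e' ↔ (gm ε (b e)).1 ≤ (gm ε (b e')).1)) :
    FTm (TF TT fm (fm e)) b rk s e m (SM TT fm co La b e ω) =
      Fc s0 (gm ε (b e)) m {v | gm ε v ∈ SM TT fm co La b e ω} := by
  classical
  set T := TF TT fm (fm e) with hT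
  set S := SM TT fm co La b e ω with hS
  set S' : Set (ℤ × ℤ) := {v | gm ε v ∈ S} with hS'
  have heT : e ∈ T := mem_TF.2 ⟨he, rfl⟩
  have hbS : b e ∈ S := ⟨⟨e, heT, rfl⟩, Co.refl _ _⟩
  have hSsub : ∀ v ∈ S, ∃ e' ∈ T, b e' = v := fun v hv => hv.1
  have himg : S' = gm ε '' S := by
    ext v
    constructor
    · intro hv
      exact ⟨gm ε v, hv, gm_gm v⟩
    · rintro ⟨u, hu, rfl⟩
      show gm ε (gm ε u) ∈ S
      rw [gm_gm]; exact hu
  unfold FTm
  by_cases hin : ∀ v ∈ S, inR (b e) m v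
  · rw [if_pos hin]
    -- the ties of the class
    set F := T.filter (fun e' => b e' ∈ S) with hFd
    have hcard : S'.ncard = F.card := by
      rw [himg, Set.ncard_image_of_injective _ gm_inj]
      have h1 : S = ((F.image b : Finset (ℤ × ℤ)) : Set (ℤ × ℤ)) := by
        ext v
        rw [mem_coe, mem_image]
        constructor
        · intro hv
          obtain ⟨e', he', rfl⟩ := hSsub v hv
          exact ⟨e', mem_filter.2 ⟨he', hv⟩, rfl⟩
        · rintro ⟨e', he', rfl⟩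
          exact (mem_filter.1 he').2
      rw [h1, Set.ncard_coe_finset, card_image_of_injOn]
      intro e1 h2 e2 h3 h4
      have h2' := mem_filter.1 (mem_coe.1 h2)
      have h3' := mem_filter.1 (mem_coe.1 h3)
      exact b_inj h hF hmR h2'.1 h3'.1 (hin _ h2'.2) h4
    have hprod : ∏ e' ∈ F, s e' = s0 ^ S'.ncard := by
      rw [hcard, ← prod_const]
      refine prod_congr rfl fun e' he' => ?_
      obtain ⟨g1, g2⟩ := mem_filter.1 he'
      exact hs e' g1 (hin _ g2)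
    have hcond : (∀ e' ∈ T, b e' ∈ S → rk e ≤ rk e') ↔ Xt (gm ε (b e)) m S' := by
      unfold Xt
      constructor
      · intro g
        refine ⟨?_, fun v hv => ?_⟩
        · show gm ε (gm ε (b e)) ∈ S
          rw [gm_gm]; exact hbS
        · have hv' : gm ε v ∈ S := hv
          obtain ⟨e', he', hbe⟩ := hSsub _ hv'
          have g1 : inR (b e) m (b e') := by rw [hbe]; exact hin _ hv'
          have g2 := (hrk e' he' g1).1 (g e' he' (by rw [hbe]; exact hv'))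
          rw [hbe, gm_gm] at g2
          refine ⟨?_, by omega⟩
          rw [inR_gm', ← hbe]
          exact g1
      · rintro ⟨-, g⟩ e' he' hb'
        have g1 : inR (b e) m (b e') := hin _ hb'
        rw [hrk e' he' g1]
        have g2 := (g (gm ε (b e')) (by
          show gm ε (gm ε (b e')) ∈ S
          rw [gm_gm]; exact hb')).2
        omega
    unfold FT Fc
    by_cases hc : ∀ e' ∈ T, b e' ∈ S → rk e ≤ rk e'
    · rw [if_pos hc, ind_true (hcond.1 hc)]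
      push_cast
      rw [mul_one]
      exact hprod
    · rw [if_neg hc, ind_false fun g => hc (hcond.2 g)]
      push_cast
      rw [mul_zero]
  · rw [if_neg hin]
    unfold Fc
    rw [ind_false]
    · push_cast
      rw [mul_zero]
    · intro g
      apply hin
      intro v hv
      have g2 := (g.2 (gm ε v) (by
        show gm ε (gm ε v) ∈ S
        rw [gm_gm]; exact hv)).1
      rw [inR_gm] at g2
      exact g2

/-- **Mixing for one tie at a flat wall.** -/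
theorem tie_mix : ∃ K C γ : ℝ, 0 < K ∧ 0 < C ∧ 0 < γ ∧
    ∀ {ι : Type} [DecidableEq ι] (X : Pool.Agent.Q1.Env) (W Bb B TT Cs : Finset (ℤ × ℤ))
      (fm : ℤ × ℤ → ι) (co : ι → Bool) (Wl La : ι → Finset (ℤ × ℤ)) (b o : ℤ × ℤ → ℤ × ℤ)
      (a : ℤ × ℤ → ℂ) (rk : ℤ × ℤ → ℤ) (e δ : ℤ × ℤ) (ε : Bool × Bool) (m R : ℤ) (M σ : ℝ)
      (s0 : ℂ) (s s' : ℤ × ℤ → ℂ),
      Multi X W Bb B TT fm co Wl La b o → (∀ c ∈ Cs, FarM X TT fm co Wl La b o c) → e ∈ TT →
      FlatL W Bb TT (TF TT fm (fm e)) (Wl (fm e)) (La (fm e)) b o (co (fm e)) ε δ (b e) (R + 1) →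
      lab X.c0 ∉ bx (co (fm e)) (b e) R → (∀ c ∈ Cs, lab c ∉ bx (co (fm e)) (b e) R) →
      (∀ ω ⊆ B, ∀ P ⊆ TT, ‖VM X Cs a Bb B TT fm co ω P‖ ≤ M) →
      (∀ e' ∈ TF TT fm (fm e), inR (b e) m (b e') → s e' = s0) →
      (∀ e' ∈ TF TT fm (fm e), inR (b e) m (b e') → s' e' = 1 / 4) →
      (∀ e' ∈ TF TT fm (fm e), inR (b e) m (b e') →
        (rk e ≤ rk e' ↔ (gm ε (b e)).1 ≤ (gm ε (b e')).1)) →
      1 / 4 ≤ σ → σ < 1 → ‖s0‖ ≤ σ → K ≤ (1 - σ) ^ ((3 : ℝ) / 2) * m → m + 1 < R →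
      ‖Eh B (fun ω => FTm (TF TT fm (fm e)) b rk s e m (SM TT fm co La b e ω) *
            DM X Cs a Bb B TT fm co La b e ω) -
          DR 1 m R s0 * Eh B (fun ω => FTm (TF TT fm (fm e)) b rk s' e m
            (SM TT fm co La b e ω) * DM X Cs a Bb B TT fm co La b e ω)‖ ≤
        C * M * (((m : ℝ) + 1) / R) ^ γ / ((1 - σ) ^ ((3 : ℝ) / 2) * (R : ℝ) ^ 2) := by
  obtain ⟨K, K1, K2, cN, CN, hK, hK1, hK2, hcN, hCN, hsc⟩ := scales
  obtain ⟨C, γ, hC, hγ, hmix⟩ := mixUC hcN hCN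
  refine ⟨K, C * 2 * K2, γ, hK, by positivity, hγ, ?_⟩
  intro ι _ X W Bb B TT Cs fm co Wl La b o a rk e δ ε m R M σ s0 s s' h hFar he hF hroot hCs hM hs
    hs' hrk hσ1 hσ2 hsσ hm hmR
  obtain ⟨a0, a1, g1, g2, g3, g4, g5, g6⟩ := hsc 1 (Or.inr rfl) σ hσ1 hσ2 m hm
  have htp := t_pos hσ2
  set t := (1 - σ) ^ ((3 : ℝ) / 2) with htd
  set x := gm ε (b e) with hx
  obtain ⟨hN1, hN2⟩ := g6 x R
  have hm0' : (0 : ℝ) ≤ m := by
    by_contra hcon
    push Not at hcon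
    have : t * m ≤ 0 := by nlinarith
    linarith
  have hm0 : 0 ≤ m := by exact_mod_cast hm0'
  have hσ0 : 0 ≤ σ := by linarith
  have ha0 : (0 : ℝ) < a0 := by exact_mod_cast (by omega : (0 : ℤ) < a0)
  have ha1 : (0 : ℝ) < a1 := by exact_mod_cast (by omega : (0 : ℤ) < a1)
  have hxin : inR x m x := by
    rw [inR_iff]; omega
  have hbin : inR (b e) m (b e) := by
    rw [inR_iff]; omega
  have hW := wallG_of_flat h he hF hm0 hmR hbin hroot
  have habv : ∀ l ∈ B, l ∈ bx (co (fm e)) (b e) R →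
      2 * ht 1 x ≤ ht 1 (lm (co (fm e)) ε l) := by
    intro l hl hlb
    have h1 : lm (co (fm e)) ε l ∈ BR (gm ε (b e)) (R + 1) := by
      rw [mem_BR_gm, lm_apply, gm_gm]
      rw [mem_bx] at hlb
      exact BR_mono' (by omega) hlb
    have h2 := hF.xe l (mem_union_left _ (h.bB hl)) h1
    rw [← hx] at h2
    unfold hg at h2
    unfold ht
    omega
  have hA := h.admC (a := a) hFar hW he hCs hM habv
  have hE := env_of_flat h hF
  obtain ⟨-, hmx⟩ := hmix 1 (Or.inr rfl) x x m R (fun S => Fc s0 x m S / (a0 : ℂ))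
    (GmF σ a0 x m) (GmF (1 / 4) a1 x m) (Dcr_GmF hσ0 hσ2.le ha0) Sup_GmF
    (Dcr_GmF (by norm_num) (by norm_num) ha1) Sup_GmF hxin rfl (by omega) hN1 hN2 (fun S => by
      unfold Fc GmF
      rw [norm_div, norm_mul, norm_pow, Complex.norm_real, Real.norm_of_nonneg (ind_nonneg _)]
      have h1 : ‖((a0 : ℤ) : ℂ)‖ = (a0 : ℝ) := by
        rw [Complex.norm_intCast, abs_of_pos ha0]
      rw [h1]
      refine div_le_div_of_nonneg_right ?_ ha0.le
      exact mul_le_mul_of_nonneg_right (pow_le_pow_left₀ (norm_nonneg _) hsσ _) (ind_nonneg _))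
  have hmap : (La (fm e)).map (lm (co (fm e)) ε) ⊆ B.map (lm (co (fm e)) ε) :=
    map_subset_map.2 (h.la _)
  have key := hmx _ _ _ _ _ hmap hE hA
  -- the ratio
  have hdq : 0 < dN 1 m R (1 / 4) := by
    have e3 := (hN2 R (by omega) le_rfl).1
    rw [NN_GmF_dN] at e3
    have hR0 : (0 : ℝ) < R := by exact_mod_cast (by omega : 0 < R)
    have h1 : 0 < cN / (R : ℝ) ^ 2 := by positivity
    have h2 := h1.trans_le e3
    exact (div_pos_iff_of_pos_right ha1).1 h2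
  have hdq' : ((dN 1 m R (1 / 4) : ℝ) : ℂ) ≠ 0 := by exact_mod_cast hdq.ne'
  have ha0c : ((a0 : ℤ) : ℂ) ≠ 0 := by exact_mod_cast ha0.ne'
  have ha1c : ((a1 : ℤ) : ℂ) ≠ 0 := by exact_mod_cast ha1.ne'
  have hratio : NNc 1 x x (fun S => Fc s0 x m S / (a0 : ℂ)) R / (NN 1 x x (GmF (1 / 4) a1 x m) R : ℂ) =
      DR 1 m R s0 * (a1 : ℂ) / (a0 : ℂ) := by
    rw [NNc_div, NNc_Fc_DR hdq.ne', NN_GmF_dN]
    push_cast
    field_simp
  -- change of coordinates
  set c := co (fm e) with hc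
  set D : Finset (ℤ × ℤ) → ℂ := fun ω => DM X Cs a Bb B TT fm co La b e ω with hD
  have hpush : ∀ (s1 : ℂ), Eh (B.map (lm c ε)) (fun ω =>
      Fc s1 x m (CS (fun v => WV (TF TT fm (fm e)) b (gm ε v)) (ω ∩ (La (fm e)).map (lm c ε)) x) *
        DM X Cs a Bb B TT fm co La b e (pull c ε B ω)) =
      Eh B (fun ω => Fc s1 x m {v | gm ε v ∈ SM TT fm co La b e ω} * D ω) := by
    intro s1
    rw [Eh_push]
    refine Ec_congr fun ω hω => ?_
    have h1 := push_CS (fm := fm) (co := co) (TT := TT) (b := b) (ε := ε) (e := e) (h.la (fm e)) hω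
    rw [← hc, ← hx] at h1
    rw [h1, pull_push hω]
  have hI1 : Eh (B.map (lm c ε)) (fun ω =>
      (fun S => Fc s0 x m S / (a0 : ℂ))
        (CS (fun v => WV (TF TT fm (fm e)) b (gm ε v)) (ω ∩ (La (fm e)).map (lm c ε)) x) *
        DM X Cs a Bb B TT fm co La b e (pull c ε B ω)) =
      (a0 : ℂ)⁻¹ * Eh B (fun ω => FTm (TF TT fm (fm e)) b rk s e m (SM TT fm co La b e ω) *
        D ω) := by
    have h1 : Eh B (fun ω => FTm (TF TT fm (fm e)) b rk s e m (SM TT fm co La b e ω) * D ω) =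
        Eh B (fun ω => Fc s0 x m {v | gm ε v ∈ SM TT fm co La b e ω} * D ω) :=
      Ec_congr fun ω _ => by rw [FTm_eq h he hF (by omega) hs hrk]
    rw [h1, ← hpush s0, ← Ec_smul]
    refine Ec_congr fun ω _ => ?_
    ring
  have hI2 : Eh (B.map (lm c ε)) (fun ω =>
      ((GmF (1 / 4) a1 x m
        (CS (fun v => WV (TF TT fm (fm e)) b (gm ε v)) (ω ∩ (La (fm e)).map (lm c ε)) x) : ℝ) : ℂ) *
        DM X Cs a Bb B TT fm co La b e (pull c ε B ω)) =
      (a1 : ℂ)⁻¹ * Eh B (fun ω => FTm (TF TT fm (fm e)) b rk s' e m (SM TT fm co La b e ω) *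
        D ω) := by
    have h1 : Eh B (fun ω => FTm (TF TT fm (fm e)) b rk s' e m (SM TT fm co La b e ω) * D ω) =
        Eh B (fun ω => Fc (1 / 4) x m {v | gm ε v ∈ SM TT fm co La b e ω} * D ω) :=
      Ec_congr fun ω _ => by rw [FTm_eq h he hF (by omega) hs' hrk]
    rw [h1, ← hpush (1 / 4), ← Ec_smul]
    refine Ec_congr fun ω _ => ?_
    rw [GmF_eq]
    push_cast
    ring
  rw [hratio] at key
  rw [hI1, hI2] at key
  set I1 := Eh B (fun ω => FTm (TF TT fm (fm e)) b rk s e m (SM TT fm co La b e ω) * D ω)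
  set I2 := Eh B (fun ω => FTm (TF TT fm (fm e)) b rk s' e m (SM TT fm co La b e ω) * D ω)
  have e1 : (a0 : ℂ)⁻¹ * I1 - DR 1 m R s0 * (a1 : ℂ) / (a0 : ℂ) * ((a1 : ℂ)⁻¹ * I2) =
      (a0 : ℂ)⁻¹ * (I1 - DR 1 m R s0 * I2) := by
    field_simp
  rw [e1, norm_mul, norm_inv, Complex.norm_intCast, abs_of_pos ha0] at key
  have hR0 : (0 : ℝ) < R := by exact_mod_cast (by omega : 0 < R)
  have hXn : 0 ≤ (((m : ℝ) + 1) / R) ^ γ := Real.rpow_nonneg (by positivity) _
  have hMn : 0 ≤ M := (norm_nonneg _).trans (hM ∅ (empty_subset _) ∅ (empty_subset _))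
  rw [inv_mul_le_iff₀ ha0] at key
  refine key.trans ?_
  rw [le_div_iff₀ (by positivity)]
  have e2 : (a0 : ℝ) * (C * (2 * M) * (((m : ℝ) + 1) / R) ^ γ / (R : ℝ) ^ 2) * (t * (R : ℝ) ^ 2) =
      (t * a0) * (C * 2 * M * (((m : ℝ) + 1) / R) ^ γ) := by
    field_simp
  rw [e2]
  have e3 : C * 2 * K2 * M * (((m : ℝ) + 1) / R) ^ γ =
      K2 * (C * 2 * M * (((m : ℝ) + 1) / R) ^ γ) := by ring
  rw [e3]
  exact mul_le_mul_of_nonneg_right g4 (by positivity)

end Pool.Agent.H20.Q1
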