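import Pool.Agent.H20.Q1.BDe
import Pool.Agent.Q1.M6b.ABdef
import Pool.Agent.Q1.M6e.ApXL

set_option autoImplicit false
open Finset

/-!
# Uniform bound for complex weights near one: the 45 degree rectangles, potentials

`BD45` : for `|z| ≤ Z` the potential differences with the weights `aT (z R^(-2/3))`, `bT (z R^(-2/3))`
are at most `M R^(2/3)` at distance `η R` from the boundary.
-/

namespace Pool.Agent.H20.Q1

open Pool.Agent.H75.Perc Pool.Agent.H75.TwoArm Pool.Agent.H75.Four Pool.Agent.H49.Perc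
open Pool.Agent.H99.NC Pool.Agent.H60.Q1 Pool.Agent.Q1 Pool.Agent.H39.Q1 Pool.Agent.H33.Q1
open Pool.Agent.H69.Q1 Pool.Agent.H74.R45 Pool.Agent.H13.Q1 Pool.Agent.H13.R45
open Pool.Agent.Q1.M6e (OFar Inn inc2 LC La TotL TotU sL sU LC_sub Ec_norm_le norm_q_low norm_q_up
  card_RRL card_RRU low_Tot up_Tot VM_XL VM_XU)
open Pool.Agent.H95.R45 (Sc PotJ)
open Pool.Agent.H40.R45 (aT bT lamT norm_lamT w6_mem norm_w6 norm_w6_inv norm_bT norm_one_sub_bT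
  norm_aT)

/-- a weight near the critical one is bounded -/
lemma near_bd {a : ℂ} (h : ‖1 - a * (1 - a)‖ ≤ 1) : ‖a‖ ≤ 2 ∧ ‖1 - a‖ ≤ 2 := by
  have h1 : ‖a * (1 - a)‖ ≤ 2 := by
    have e1 : a * (1 - a) = 1 - (1 - a * (1 - a)) := by ring
    rw [e1]
    refine (norm_sub_le _ _).trans ?_
    rw [norm_one]; linarith
  rw [norm_mul] at h1
  have h2 : ‖a‖ - 1 ≤ ‖1 - a‖ := by
    have := norm_sub_norm_le a 1
    rw [norm_one, norm_sub_rev] at this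
    exact this
  have h3 : ‖1 - a‖ - 1 ≤ ‖a‖ := by
    have := norm_sub_le (1 : ℂ) a
    rw [norm_one] at this
    linarith
  have h4 := norm_nonneg a
  have h5 := norm_nonneg (1 - a)
  constructor
  · by_contra hc
    push Not at hc
    nlinarith
  · by_contra hc
    push Not at hc
    nlinarith

lemma rpow_small {Z : ℝ} (hZ : 0 ≤ Z) : ∃ R0 : ℝ, ∀ R : ℝ, R0 ≤ R → 0 < R ∧
    Z * R ^ (-(2 / 3) : ℝ) ≤ 1 := by
  refine ⟨(Z + 1) ^ (3 / 2 : ℝ), fun R hR => ?_⟩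
  have h1 : 0 < (Z + 1) ^ (3 / 2 : ℝ) := by positivity
  have h2 : 0 < R := h1.trans_le hR
  refine ⟨h2, ?_⟩
  have h3 : (Z + 1) ≤ R ^ (2 / 3 : ℝ) := by
    have := Real.rpow_le_rpow h1.le hR (by norm_num : (0 : ℝ) ≤ 2 / 3)
    rw [← Real.rpow_mul (by linarith)] at this
    norm_num at this
    exact this
  rw [Real.rpow_neg h2.le, ← div_eq_mul_inv, div_le_one (by positivity)]
  linarith

/-- the bound of the conditional means -/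
lemma vm_both {η : ℝ} (hη : 0 < η) : ∃ (C : ℝ) (R0 : ℕ), 0 < C ∧ ∀ R : ℕ, R0 ≤ R →
    ∀ (w h : ℤ) (O : Out w h), Sc η R O →
      ∀ p q : ℤ × ℤ, Inn w h (η * R) p → Inn w h (η * R) q →
      (∀ S (hS : S ⊆ RRL h), ∀ ω ⊆ BLo w h ⌊η * R / 4⌋, ∀ P ⊆ TTL w h,
        ‖VM (XL O S hS) (LC p.1 p.2 q.1 q.2) (La p.1 p.2 q.1 q.2) (RT 0 w 0 h)
          (BLo w h ⌊η * R / 4⌋) (TTL w h) fmL id ω P‖ ≤ C * (R : ℝ) ^ (2 / 3 : ℝ)) ∧
      (∀ S (hS : S ⊆ RRU w h), ∀ ω ⊆ BUp w h ⌊η * R / 4⌋, ∀ P ⊆ TTU w h,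
        ‖VM (XU O S hS) (LC p.1 p.2 q.1 q.2) (La p.1 p.2 q.1 q.2) (RT 0 w (-1) (h - 1))
          (BUp w h ⌊η * R / 4⌋) (TTU w h) (fmU w) id ω P‖ ≤ C * (R : ℝ) ^ (2 / 3 : ℝ)) := by
  obtain ⟨C1, hC1, R1, H1⟩ := VM_XL hη
  obtain ⟨C2, hC2, R2, H2⟩ := VM_XU hη
  refine ⟨max C1 C2, max (max R1 R2) ⌈8 / η⌉₊, lt_max_of_lt_left hC1, ?_⟩
  intro R hR w h O hSc p q hp hq
  have hR1 : R1 ≤ R := (le_max_left _ _).trans ((le_max_left _ _).trans hR)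
  have hR2 : R2 ≤ R := (le_max_right _ _).trans ((le_max_left _ _).trans hR)
  have hR3 : 8 ≤ η * R := by
    have := Nat.ceil_le.1 ((le_max_right _ _).trans hR)
    rw [div_le_iff₀ hη] at this
    linarith
  have m1 : ((⌊η * R / 4⌋ : ℤ) : ℝ) ≤ η * R / 4 := Int.floor_le _
  have m2 : (0 : ℤ) ≤ ⌊η * R / 4⌋ := by rw [Int.le_floor]; push_cast; linarith
  have w1 : ⌊η * R / 4⌋ + 1 ≤ w := by
    have : ((⌊η * R / 4⌋ : ℤ) : ℝ) + 1 ≤ w := by linarith [hSc.w1]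
    exact_mod_cast this
  have h1 : ⌊η * R / 4⌋ + 1 ≤ h := by
    have : ((⌊η * R / 4⌋ : ℤ) : ℝ) + 1 ≤ h := by linarith [hSc.h1]
    exact_mod_cast this
  have hRp : 0 ≤ (R : ℝ) ^ (2 / 3 : ℝ) := by positivity
  constructor
  · intro S hS ω hω P _
    exact (H1 R hR1 w h O hSc.w2 hSc.h2 S hS _ m2 m1 (BLo w h ⌊η * R / 4⌋) (BLo_sub w1 h1)
      (Subset.refl _) p q hp hq ω hω P).trans
      (mul_le_mul_of_nonneg_right (le_max_left _ _) hRp)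
  · intro S hS ω hω P _
    exact (H2 R hR2 w h O hSc.w2 hSc.h2 S hS _ m2 m1 (BUp w h ⌊η * R / 4⌋) (BUp_sub w1 h1)
      (Subset.refl _) p q hp hq ω hω P).trans
      (mul_le_mul_of_nonneg_right (le_max_right _ _) hRp)

/-- **Uniform bound**: weights `a`, `b` with `‖1 - a (1 - a)‖, ‖1 - b (1 - b)‖ ≤ Z R^(-2/3)`. -/
theorem bd_pot {η Z : ℝ} (hη : 0 < η) (hZ : 0 ≤ Z) :
    ∃ (M : ℝ) (R0 : ℕ), ∀ R : ℕ, R0 ≤ R → ∀ (w h : ℤ) (O : Out w h), Sc η R O →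
      ∀ (top : Bool) (a b : ℂ), ‖1 - a * (1 - a)‖ ≤ Z * (R : ℝ) ^ (-(2 / 3) : ℝ) →
      ‖1 - b * (1 - b)‖ ≤ Z * (R : ℝ) ^ (-(2 / 3) : ℝ) → ∀ H, PotJ O top a b H →
      ∀ p q, Inn w h (η * R) p → Inn w h (η * R) q →
      ‖inc2 H p q‖ ≤ M * (R : ℝ) ^ (2 / 3 : ℝ) := by
  obtain ⟨C, R1, hC, hVM⟩ := vm_both hη
  obtain ⟨K, R2, hK, htot⟩ := bd_tot hη hZ
  obtain ⟨R3, hsm⟩ := rpow_small hZ
  refine ⟨(2 * 2) ^ 2 * (C * K), max (max R1 R2) (max ⌈R3⌉₊ ⌈4 / η⌉₊), ?_⟩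
  intro R hR w h O hSc top a b ha hb H hH p q hp hq
  have hR1 : R1 ≤ R := (le_max_left _ _).trans ((le_max_left _ _).trans hR)
  have hR2 : R2 ≤ R := (le_max_right _ _).trans ((le_max_left _ _).trans hR)
  have hR3 : R3 ≤ R := Nat.ceil_le.1 ((le_max_left _ _).trans ((le_max_right _ _).trans hR))
  have hR4 : 4 ≤ η * R := by
    have := Nat.ceil_le.1 ((le_max_right _ _).trans ((le_max_right _ _).trans hR))
    rw [div_le_iff₀ hη] at this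
    linarith
  obtain ⟨hR0, hZ1⟩ := hsm R hR3
  obtain ⟨g1, g2⟩ := hVM R hR1 w h O hSc p q hp hq
  have ha' := near_bd (ha.trans hZ1)
  have hb' := near_bd (hb.trans hZ1)
  have hL : (3 : ℤ) ≤ ⌊η * R⌋ := by rw [Int.le_floor]; push_cast; linarith
  have hin : ∀ p : ℤ × ℤ, Inn w h (η * R) p → (1 ≤ p.1 ∧ p.1 ≤ w) ∧ (1 ≤ p.2 ∧ p.2 + 1 ≤ h) := by
    rintro p ⟨p1, p2, p3, p4⟩
    have a1 : (1 : ℝ) ≤ p.1 := by linarith
    have a2 : (1 : ℝ) ≤ p.2 := by linarith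
    have a3 : (p.1 : ℝ) ≤ w := by linarith
    have a4 : (p.2 : ℝ) + 1 ≤ h := by linarith
    exact ⟨⟨by exact_mod_cast a1, by exact_mod_cast a3⟩, by exact_mod_cast a2,
      by exact_mod_cast a4⟩
  obtain ⟨⟨i1, i2⟩, i3, i4⟩ := hin p hp
  obtain ⟨⟨j1, j2⟩, j3, j4⟩ := hin q hq
  have hh := O.hh
  have hM0 : 0 ≤ C * (R : ℝ) ^ (2 / 3 : ℝ) * K := by positivity
  have fin : ∀ n : ℕ, n ≤ 2 → (2 * (2 : ℝ)) ^ n * (C * (R : ℝ) ^ (2 / 3 : ℝ) * K) ≤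
      (2 * 2) ^ 2 * (C * K) * (R : ℝ) ^ (2 / 3 : ℝ) := by
    intro n hn
    have h1 : (2 * (2 : ℝ)) ^ n ≤ (2 * 2) ^ 2 := pow_le_pow_right₀ (by norm_num) hn
    refine (mul_le_mul_of_nonneg_right h1 hM0).trans (le_of_eq ?_)
    ring
  unfold PotJ at hH
  unfold inc2
  cases top
  · rw [if_neg Bool.false_ne_true, if_neg Bool.false_ne_true, if_neg Bool.false_ne_true] at hH
    rw [low_Tot (root_PT le_rfl (by omega) hSc.far hL) hH (by omega) i2 (by omega) (by omega)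
      (by omega) j2 (by omega) (by omega)]
    refine (Ec_norm_le (C := 2) (M := C * (R : ℝ) ^ (2 / 3 : ℝ) * K)
      (fun e he => (norm_q_low O hb'.1 hb'.2 e he).1)
      (fun e he => (norm_q_low O hb'.1 hb'.2 e he).2) (by norm_num) fun S hS => ?_).trans
      (fin _ card_RRL)
    refine (htot R hR2 w h O hSc (sL a b) (fun e => ?_) p q hp hq _).1 S hS (g1 S hS)
    unfold sL
    split_ifs
    · exact hb
    · exact ha
  · rw [if_pos rfl, if_pos rfl, if_pos rfl] at hH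
    rw [up_Tot (root_PT (by omega) le_rfl hSc.far hL) hH (by omega) i2 (by omega) (by omega)
      (by omega) j2 (by omega) (by omega)]
    refine (Ec_norm_le (C := 2) (M := C * (R : ℝ) ^ (2 / 3 : ℝ) * K)
      (fun e he => (norm_q_up O ha'.1 ha'.2 e he).1)
      (fun e he => (norm_q_up O ha'.1 ha'.2 e he).2) (by norm_num) fun S hS => ?_).trans
      (fin _ card_RRU)
    refine (htot R hR2 w h O hSc (sU w a b) (fun e => ?_) p q hp hq _).2 S hS (g2 S hS)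
    unfold sU
    split_ifs
    · exact hb
    · exact ha

/-- the weights near `t = 0` -/
lemma near_aT {t : ℂ} (ht : t ∈ Metric.ball (0 : ℂ) (1 / 2)) :
    ‖1 - aT t * (1 - aT t)‖ ≤ 16 * ‖t‖ ∧ ‖1 - bT t * (1 - bT t)‖ ≤ 16 * ‖t‖ := by
  refine ⟨?_, norm_lamT ht⟩
  have h1 : w6⁻¹ * t ∈ Metric.ball (0 : ℂ) (1 / 2) := by
    rw [mem_ball_zero_iff] at ht ⊢
    rwa [norm_mul, norm_w6_inv, one_mul]
  have h2 := norm_lamT h1
  unfold lamT bT at h2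
  rw [← mul_assoc, mul_inv_cancel₀ Pool.Agent.H40.R45.w6_ne, one_mul, norm_mul, norm_w6_inv, one_mul] at h2
  exact h2

/-- **(BD)** -/
theorem bd45 : Pool.Agent.Q1.M6b.AB.BD45 := by
  intro η hη Z
  obtain ⟨M, R0, h⟩ := bd_pot (Z := 16 * |Z|) hη (by positivity)
  obtain ⟨R1, hsm⟩ := rpow_small (Z := 4 * |Z|) (by positivity)
  refine ⟨M, max R0 ⌈R1⌉₊, ?_⟩
  intro R hR w h' O hSc top z hz H hH p q hp hq
  have hR0 : R0 ≤ R := (le_max_left _ _).trans hR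
  have hR1 : R1 ≤ R := Nat.ceil_le.1 ((le_max_right _ _).trans hR)
  obtain ⟨hRp, h2⟩ := hsm R hR1
  have hz' : ‖z‖ ≤ |Z| := hz.trans (le_abs_self Z)
  have hr0 : 0 ≤ (R : ℝ) ^ (-(2 / 3) : ℝ) := by positivity
  have hn : ‖z * (((R : ℝ) ^ (-(2 / 3) : ℝ) : ℝ) : ℂ)‖ ≤ |Z| * (R : ℝ) ^ (-(2 / 3) : ℝ) := by
    rw [norm_mul, Complex.norm_real, Real.norm_of_nonneg hr0]
    exact mul_le_mul_of_nonneg_right hz' hr0
  have hball : z * (((R : ℝ) ^ (-(2 / 3) : ℝ) : ℝ) : ℂ) ∈ Metric.ball (0 : ℂ) (1 / 2) := by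
    rw [mem_ball_zero_iff]
    linarith
  obtain ⟨g1, g2⟩ := near_aT hball
  refine h R hR0 w h' O hSc top _ _ (g1.trans ?_) (g2.trans ?_) H hH p q hp hq
  · linarith
  · linarith

end Pool.Agent.H20.Q1
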