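import Pool.Agent.H20.Q1.BDd
import Pool.Agent.Q1.M6e.PathP
import Pool.Agent.H95.R45.Stmt

set_option autoImplicit false
open Finset

/-!
# Uniform bound for complex weights near one: the 45 degree rectangles

`bd_num` : the choice of the length of the runs. `bd_low`, `bd_up` : the totals of the lower and of the
upper environment are at most `K` times the bound of the conditional means.
-/

namespace Pool.Agent.H20.Q1

open Pool.Agent.H75.Perc Pool.Agent.H75.TwoArm Pool.Agent.H75.Four Pool.Agent.H49.Perc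
open Pool.Agent.H99.NC Pool.Agent.H60.Q1 Pool.Agent.Q1 Pool.Agent.H39.Q1 Pool.Agent.H33.Q1
open Pool.Agent.H69.Q1 Pool.Agent.H74.R45 Pool.Agent.H13.Q1 Pool.Agent.H13.R45
open Pool.Agent.H46.G1 Pool.Agent.Q1.M6b
open Pool.Agent.Q1.M6e (OFar Inn inc2 LC La TotL TotU sL sU LC_sub)
open Pool.Agent.H95.R45 (Sc PotJ)

/-- the choice of the runs -/
lemma bd_num {η Z C : ℝ} (hη : 0 < η) (hZ : 0 ≤ Z) (hC : 0 ≤ C) : ∃ (J : ℕ) (R0 : ℝ),
    ∀ R : ℝ, R0 ≤ R → 16 ≤ η * R ∧ 0 < R ∧ ∃ Lr : ℕ, (Lr : ℤ) + 2 ≤ ⌊η * R / 4⌋ ∧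
      R / η ≤ J * Lr ∧ C * (Z * R ^ (-(2 / 3) : ℝ)) * cr ((Lr + 1 : ℕ) : ℝ) ^ 2 ≤ 1 := by
  set D := C * Z + 1 with hD
  have hD1 : 1 ≤ D := by have := mul_nonneg hC hZ; linarith
  have hD0 : 0 < D := by linarith
  set δ := min (η / 8) (D ^ (-(3 / 2) : ℝ)) with hδ
  have hδ0 : 0 < δ := lt_min (by positivity) (by positivity)
  have hδ1 : δ ≤ η / 8 := min_le_left _ _
  have hδ2 : δ ≤ D ^ (-(3 / 2) : ℝ) := min_le_right _ _
  refine ⟨⌈2 / (η * δ)⌉₊, max (32 / η) (4 / δ), fun R hR => ?_⟩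
  have h1 : 32 ≤ η * R := by
    have := (le_max_left _ _).trans hR
    rw [div_le_iff₀ hη] at this; linarith
  have h2 : 4 ≤ δ * R := by
    have := (le_max_right _ _).trans hR
    rw [div_le_iff₀ hδ0] at this; linarith
  have hR0 : 0 < R := by
    by_contra hc
    push Not at hc
    have := mul_nonpos_of_nonneg_of_nonpos hη.le hc
    linarith
  refine ⟨by linarith, hR0, ⌊δ * R⌋₊ - 1, ?_, ?_, ?_⟩
  · have a1 : ((⌊δ * R⌋₊ : ℕ) : ℝ) ≤ δ * R := Nat.floor_le (by linarith)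
    have a2 : 1 ≤ ⌊δ * R⌋₊ := by rw [Nat.one_le_floor_iff]; linarith
    rw [Int.le_floor]
    push_cast [Nat.cast_sub a2]
    have a3 : δ * R ≤ η / 8 * R := mul_le_mul_of_nonneg_right hδ1 hR0.le
    linarith
  · have a1 : δ * R < (⌊δ * R⌋₊ : ℕ) + 1 := Nat.lt_floor_add_one _
    have a2 : 1 ≤ ⌊δ * R⌋₊ := by rw [Nat.one_le_floor_iff]; linarith
    have a3 : δ * R / 2 ≤ ((⌊δ * R⌋₊ - 1 : ℕ) : ℝ) := by
      push_cast [Nat.cast_sub a2]
      linarith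
    have a4 : 2 / (η * δ) ≤ (⌈2 / (η * δ)⌉₊ : ℕ) := Nat.le_ceil _
    have a5 := mul_le_mul a4 a3 (by positivity) (by positivity)
    refine le_trans (le_of_eq ?_) a5
    field_simp
  · have a1 : ((⌊δ * R⌋₊ : ℕ) : ℝ) ≤ δ * R := Nat.floor_le (by linarith)
    have a2 : 1 ≤ ⌊δ * R⌋₊ := by rw [Nat.one_le_floor_iff]; linarith
    have a3 : (((⌊δ * R⌋₊ - 1 + 1 : ℕ)) : ℝ) ≤ δ * R := by
      rw [Nat.sub_add_cancel a2]; exact a1
    have a4 : cr (((⌊δ * R⌋₊ - 1 + 1 : ℕ)) : ℝ) ^ 2 ≤ (δ * R) ^ (2 / 3 : ℝ) := by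
      have b1 : cr (((⌊δ * R⌋₊ - 1 + 1 : ℕ)) : ℝ) ≤ cr (δ * R) := cr_mono (by positivity) a3
      have b2 := pow_le_pow_left₀ (cr_nonneg (by positivity)) b1 2
      refine b2.trans (le_of_eq ?_)
      unfold cr
      rw [← Real.rpow_natCast, ← Real.rpow_mul (by positivity)]
      norm_num
    have a5 : (δ * R) ^ (2 / 3 : ℝ) = δ ^ (2 / 3 : ℝ) * R ^ (2 / 3 : ℝ) :=
      Real.mul_rpow hδ0.le hR0.le
    have a6 : δ ^ (2 / 3 : ℝ) ≤ D⁻¹ := by
      refine (Real.rpow_le_rpow hδ0.le hδ2 (by norm_num)).trans (le_of_eq ?_)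
      rw [← Real.rpow_mul hD0.le, ← Real.rpow_neg_one]
      norm_num
    have a7 : R ^ (-(2 / 3) : ℝ) * R ^ (2 / 3 : ℝ) = 1 := by
      rw [← Real.rpow_add hR0]; norm_num
    calc C * (Z * R ^ (-(2 / 3) : ℝ)) * cr (((⌊δ * R⌋₊ - 1 + 1 : ℕ)) : ℝ) ^ 2
        ≤ C * (Z * R ^ (-(2 / 3) : ℝ)) * (δ ^ (2 / 3 : ℝ) * R ^ (2 / 3 : ℝ)) := by
          rw [← a5]
          exact mul_le_mul_of_nonneg_left a4 (by positivity)
      _ = C * Z * δ ^ (2 / 3 : ℝ) * (R ^ (-(2 / 3) : ℝ) * R ^ (2 / 3 : ℝ)) := by ring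
      _ = C * Z * δ ^ (2 / 3 : ℝ) := by rw [a7, mul_one]
      _ ≤ C * Z * D⁻¹ := mul_le_mul_of_nonneg_left a6 (by positivity)
      _ ≤ 1 := by
          rw [← div_eq_mul_inv, div_le_one hD0, hD]
          linarith

variable {w h : ℤ} {m : ℤ}

/-- the layers near the left wall and the floor -/
noncomputable def BLo (w h m : ℤ) : Finset (ℤ × ℤ) := RT 0 (m + 1) 0 h ∪ RT 0 w 0 (m + 1)

/-- the layers near the right wall and the ceiling -/
noncomputable def BUp (w h m : ℤ) : Finset (ℤ × ℤ) :=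
  RT (w - m - 1) w (-1) (h - 1) ∪ RT 0 w (h - 2 - m) (h - 1)

lemma BLo_sub (h1 : m + 1 ≤ w) (h2 : m + 1 ≤ h) : BLo w h m ⊆ RT 0 w 0 h := by
  intro l hl
  rcases mem_union.1 hl with h3 | h3
  · obtain ⟨x, y, rfl⟩ := exists_lt (odd_RT h3)
    rw [lt_mem_RT] at h3 ⊢
    omega
  · obtain ⟨x, y, rfl⟩ := exists_lt (odd_RT h3)
    rw [lt_mem_RT] at h3 ⊢
    omega

lemma BUp_sub (h1 : m + 1 ≤ w) (h2 : m + 1 ≤ h) : BUp w h m ⊆ RT 0 w (-1) (h - 1) := by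
  intro l hl
  rcases mem_union.1 hl with h3 | h3
  · obtain ⟨x, y, rfl⟩ := exists_lt (odd_RT h3)
    rw [lt_mem_RT] at h3 ⊢
    omega
  · obtain ⟨x, y, rfl⟩ := exists_lt (odd_RT h3)
    rw [lt_mem_RT] at h3 ⊢
    omega

/-- corners of the path -/
lemma path_low {d : ℝ} {p q : ℤ × ℤ} (hm : (m : ℝ) < d) (hd : 0 < d) (hp : Inn w h d p)
    (hq : Inn w h d q)
    {c : ℤ × ℤ} (hc : c ∈ LC p.1 p.2 q.1 q.2) {g : ℤ × ℤ} (hg : Ag g c) : RcL w h m g := by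
  obtain ⟨p1, p2, p3, p4⟩ := hp
  obtain ⟨q1, q2, q3, q4⟩ := hq
  have a1 : m < p.1 := by exact_mod_cast hm.trans_le p1
  have a2 : m < p.2 := by exact_mod_cast hm.trans_le p3
  have a3 : m < q.1 := by exact_mod_cast hm.trans_le q1
  have a4 : m < q.2 := by exact_mod_cast hm.trans_le q3
  have b1 : p.1 ≤ w := by exact_mod_cast (by linarith : (p.1 : ℝ) ≤ w)
  have b2 : p.2 ≤ h := by exact_mod_cast (by linarith : (p.2 : ℝ) ≤ h)
  have b3 : q.1 ≤ w := by exact_mod_cast (by linarith : (q.1 : ℝ) ≤ w)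
  have b4 : q.2 ≤ h := by exact_mod_cast (by linarith : (q.2 : ℝ) ≤ h)
  unfold RcL
  rcases LC_sub (x0 := m + 1) (x1 := w) (y0 := m + 1) (y1 := h) (by omega) b1 (by omega) b2
    (by omega) b3 (by omega) b4 hc with ⟨x, y, rfl, h5⟩ | ⟨x, y, rfl, h5⟩
  · rcases ag_he.1 hg with rfl | rfl <;> simp only <;> omega
  · rcases ag_ve.1 hg with rfl | rfl <;> simp only <;> omega

/-- corners of the path -/
lemma path_up {d : ℝ} {p q : ℤ × ℤ} (hm : (m : ℝ) + 2 < d) (hd : 0 < d) (hp : Inn w h d p)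
    (hq : Inn w h d q)
    {c : ℤ × ℤ} (hc : c ∈ LC p.1 p.2 q.1 q.2) {g : ℤ × ℤ} (hg : Ag g c) : RcU w h m g := by
  obtain ⟨p1, p2, p3, p4⟩ := hp
  obtain ⟨q1, q2, q3, q4⟩ := hq
  have a1 : 0 < p.1 := by exact_mod_cast (by linarith : (0 : ℝ) < p.1)
  have a2 : 0 < p.2 := by exact_mod_cast (by linarith : (0 : ℝ) < p.2)
  have a3 : 0 < q.1 := by exact_mod_cast (by linarith : (0 : ℝ) < q.1)
  have a4 : 0 < q.2 := by exact_mod_cast (by linarith : (0 : ℝ) < q.2)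
  have b1 : p.1 + m + 2 < w := by exact_mod_cast (by linarith : (p.1 : ℝ) + m + 2 < w)
  have b2 : p.2 + m + 2 < h := by exact_mod_cast (by linarith : (p.2 : ℝ) + m + 2 < h)
  have b3 : q.1 + m + 2 < w := by exact_mod_cast (by linarith : (q.1 : ℝ) + m + 2 < w)
  have b4 : q.2 + m + 2 < h := by exact_mod_cast (by linarith : (q.2 : ℝ) + m + 2 < h)
  unfold RcU
  rcases LC_sub (x0 := 0) (x1 := w - m - 1) (y0 := -1) (y1 := h - m - 2) (by omega) (by omega)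
    (by omega) (by omega) (by omega) (by omega) (by omega) (by omega) hc with
    ⟨x, y, rfl, h5⟩ | ⟨x, y, rfl, h5⟩
  · rcases ag_he.1 hg with rfl | rfl <;> simp only <;> omega
  · rcases ag_ve.1 hg with rfl | rfl <;> simp only <;> omega

/-- **The totals of the lower and the upper environment, weights near one.** -/
theorem bd_tot {η Z : ℝ} (hη : 0 < η) (hZ : 0 ≤ Z) : ∃ (K : ℝ) (R0 : ℕ), 0 < K ∧ ∀ R : ℕ,
    R0 ≤ R → ∀ (w h : ℤ) (O : Out w h), Sc η R O → ∀ s : ℤ × ℤ → ℂ,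
    (∀ e, ‖1 - s e‖ ≤ Z * (R : ℝ) ^ (-(2 / 3) : ℝ)) → ∀ p q : ℤ × ℤ, Inn w h (η * R) p →
    Inn w h (η * R) q → ∀ M : ℝ,
    (∀ S (hS : S ⊆ RRL h),
      (∀ ω ⊆ BLo w h ⌊η * R / 4⌋, ∀ P ⊆ TTL w h, ‖VM (XL O S hS) (LC p.1 p.2 q.1 q.2)
        (La p.1 p.2 q.1 q.2) (RT 0 w 0 h) (BLo w h ⌊η * R / 4⌋) (TTL w h) fmL id ω P‖ ≤ M) →
      ‖TotL O (LC p.1 p.2 q.1 q.2) (La p.1 p.2 q.1 q.2) s S‖ ≤ M * K) ∧
    (∀ S (hS : S ⊆ RRU w h),
      (∀ ω ⊆ BUp w h ⌊η * R / 4⌋, ∀ P ⊆ TTU w h, ‖VM (XU O S hS) (LC p.1 p.2 q.1 q.2)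
        (La p.1 p.2 q.1 q.2) (RT 0 w (-1) (h - 1)) (BUp w h ⌊η * R / 4⌋) (TTU w h) (fmU w) id
          ω P‖ ≤ M) →
      ‖TotU O (LC p.1 p.2 q.1 q.2) (La p.1 p.2 q.1 q.2) s S‖ ≤ M * K) := by
  obtain ⟨C, hC, hbd⟩ := tot_bd
  obtain ⟨J, R0, hnum⟩ := bd_num (Z := Z) (C := C * 4 ^ 2) hη hZ (by positivity)
  refine ⟨2 * 2 ^ J, ⌈R0⌉₊, by positivity, ?_⟩
  intro R hR w h O hSc s hs p q hp hq M
  obtain ⟨h16, hR0, Lr, k1, k2, k3⟩ := hnum R (Nat.ceil_le.1 hR)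
  set m : ℤ := ⌊η * R / 4⌋ with hm
  set L : ℤ := ⌊η * R⌋ with hL
  have m1 : (m : ℝ) ≤ η * R / 4 := Int.floor_le _
  have m2 : (4 : ℤ) ≤ m := by rw [hm, Int.le_floor]; push_cast; linarith
  have L1 : (16 : ℤ) ≤ L := by rw [hL, Int.le_floor]; push_cast; linarith
  have L2 : 4 * m ≤ L := by
    rw [hL, Int.le_floor]; push_cast; linarith
  have w1 : L ≤ w := by
    have : (L : ℝ) ≤ w := (Int.floor_le _).trans hSc.w1
    exact_mod_cast this
  have h1 : L ≤ h := by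
    have : (L : ℝ) ≤ h := (Int.floor_le _).trans hSc.h1
    exact_mod_cast this
  have hO := hSc.far
  rw [← hL] at hO
  have hwJ : w ≤ J * Lr := by
    have : (w : ℝ) ≤ J * Lr := hSc.w2.trans k2
    exact_mod_cast this
  have hhJ : h ≤ J * Lr := by
    have : (h : ℝ) ≤ J * Lr := hSc.h2.trans k2
    exact_mod_cast this
  have hRF := rootFr_of hO (by omega)
  have hWF := wFar_of hO
  constructor
  · intro S hS hM
    unfold TotL
    rw [dif_pos hS]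
    have hK : Disjoint (RT 0 w (-(L - 1)) (-1)) O.Wo :=
      hWF.floor (by omega) (by omega) (by omega) (by omega)
    have hMul := multiL (O := O) (H := m) (B := BLo w h m) hS (x0 := 0) (x1 := w)
      (y0 := -(L - 1)) le_rfl le_rfl (by omega) hK (Subset.refl _)
      (BLo_sub (by omega) (by omega)) (by omega)
    have key := hbd (XL O S hS) (WL' O S) (RT 0 w 0 h) (BLo w h m) (TTL w h)
      (LC p.1 p.2 q.1 q.2) fmL id (WlL h S (RT 0 w (-(L - 1)) (-1))) (LaL w h m) bL oL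
      (La p.1 p.2 q.1 q.2) s Lr J M (Z * (R : ℝ) ^ (-(2 / 3) : ℝ)) ⟨true⟩ hMul ?_ ?_
      (by positivity) hM (fun e _ => hs e) ?_
    · rw [Fintype.card_bool] at key
      exact_mod_cast key
    · intro c hc
      refine farL hS (by omega) (by omega) (by omega) hRF (by omega) (by omega) (by omega)
        (fun i => la_low) fun g hg => ?_
      exact path_low (by linarith) (by linarith) hp hq hc hg
    · intro i
      cases i
      · exact runs_floor k1 (by omega) le_rfl le_rfl (by omega) hwJ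
      · exact runs_left hS hO k1 (by omega) (by omega) hhJ
    · rw [Fintype.card_bool]
      exact_mod_cast k3
  · intro S hS hM
    unfold TotU
    rw [dif_pos hS]
    have hK : Disjoint (RT (-1) w h (h + (L - 1))) O.Wo :=
      hWF.ceil (by omega) (by omega) (by omega) (by omega)
    have hMul := multiU (O := O) (H := m) (B := BUp w h m) hS (x0 := -1) (x1 := w)
      (y1 := h + (L - 1)) le_rfl le_rfl (by omega) hK (Subset.refl _)
      (BUp_sub (by omega) (by omega)) (by omega)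
    have key := hbd (XU O S hS) (WU' O S) (RT 0 w (-1) (h - 1)) (BUp w h m) (TTU w h)
      (LC p.1 p.2 q.1 q.2) (fmU w) id (WlU w h S (RT (-1) w h (h + (L - 1)))) (LaU w h m) (bU w)
      (oU w) (La p.1 p.2 q.1 q.2) s Lr J M (Z * (R : ℝ) ^ (-(2 / 3) : ℝ)) ⟨true⟩ hMul ?_ ?_
      (by positivity) hM (fun e _ => hs e) ?_
    · rw [Fintype.card_bool] at key
      exact_mod_cast key
    · intro c hc
      refine farU hS (by omega) (by omega) (by omega) hRF (by omega) (by omega) (by omega)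
        (fun i => la_up) fun g hg => ?_
      exact path_up (by linarith) (by linarith) hp hq hc hg
    · intro i
      cases i
      · exact runs_ceil k1 (by omega) (by omega) le_rfl (by omega) hwJ
      · exact runs_right hS hO k1 (by omega) (by omega) hhJ
    · rw [Fintype.card_bool]
      exact_mod_cast k3

end Pool.Agent.H20.Q1
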