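import Pool.Agent.H20.Q1.BDi
import Pool.Agent.Q1.M6e.ApWin

set_option autoImplicit false
open Finset

/-!
# The a priori bound for linked points at all distances

`VM_lkl` : the bound `C max (1, |p - q|) ^ (2/3)` of the conditional means for linked points.
-/

namespace Pool.Agent.H20.Q1

open Pool.Agent.H75.Perc Pool.Agent.H75.TwoArm Pool.Agent.H33.Q1 Pool.Agent.H74.R45
open Pool.Agent.H99.NC Pool.Agent.H39.Q1 Pool.Agent.Q1 Pool.Agent.Q1.M6c
open Pool.Agent.Q1.M6e (LC La Lk VM_lk)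

/-- **The a priori bound for linked points**, at all distances. `B` : a layer at distance `≤ n` from the
outside of `T`. -/
theorem VM_lkl {η : ℝ} (hη : 0 < η) : ∃ C : ℝ, 0 < C ∧ ∃ R0 : ℝ, ∀ X, PlaneK X →
    ∀ (Bb B TT : Finset (ℤ × ℤ)), Bb ⊆ X.E → Disjoint Bb TT → TT ⊆ X.E → B ⊆ Bb →
    ∀ {ι : Type} [DecidableEq ι] (fm : ℤ × ℤ → ι) (co : ι → Bool)
    (T : ℤ → ℤ → Prop) (n : ℤ) (p q : ℤ × ℤ) (R : ℝ), R0 ≤ R →
    (∀ x y, T x y → lt (x, y) ∈ Bb) →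
    (∀ x y, lt (x, y) ∈ B → ∃ x' y', ¬ T x' y' ∧ |x - x'| ≤ n ∧ |y - y'| ≤ n) →
    2 * (n : ℝ) ≤ η * R →
    |((p.1 : ℝ) - q.1)| ≤ R / η → |((p.2 : ℝ) - q.2)| ≤ R / η → Lk T (η * R) p q →
    ∀ ω ⊆ B, ∀ P, ‖VM X (LC p.1 p.2 q.1 q.2) (La p.1 p.2 q.1 q.2) Bb B TT fm co ω P‖ ≤
      C * (max 1 (|(p.1 : ℝ) - q.1| + |(p.2 : ℝ) - q.2|)) ^ (2 / 3 : ℝ) := by
  obtain ⟨C1, hC1, H1⟩ := VM_loc
  obtain ⟨C2, hC2, R2, H2⟩ := VM_lk hη
  refine ⟨C1 + C2 * (2 / η) ^ (2 / 3 : ℝ), by positivity, max R2 1, ?_⟩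
  intro X hX Bb B TT b1 b2 b3 b4 ι _ fm co T n p q R hR hT hB hn h1 h2 hL ω hω P
  have hR2 : R2 ≤ R := (le_max_left _ _).trans hR
  have hR1 : 1 ≤ R := (le_max_right _ _).trans hR
  set D : ℝ := max 1 (|(p.1 : ℝ) - q.1| + |(p.2 : ℝ) - q.2|) with hD
  have hD1 : 1 ≤ D := le_max_left _ _
  have hDp : 0 ≤ D ^ (2 / 3 : ℝ) := by positivity
  set r : ℤ := max 1 (max |p.1 - q.1| |p.2 - q.2|) with hr
  have r1 : 1 ≤ r := le_max_left _ _
  have r2 : |p.1 - q.1| ≤ r := (le_max_left _ _).trans (le_max_right _ _)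
  have r3 : |p.2 - q.2| ≤ r := (le_max_right _ _).trans (le_max_right _ _)
  have c1 : ((|p.1 - q.1| : ℤ) : ℝ) = |(p.1 : ℝ) - q.1| := by push_cast; rfl
  have c2 : ((|p.2 - q.2| : ℤ) : ℝ) = |(p.2 : ℝ) - q.2| := by push_cast; rfl
  have rD : (r : ℝ) ≤ D := by
    rw [hr, hD]
    push_cast
    refine max_le (le_max_left _ _) ((max_le ?_ ?_).trans (le_max_right _ _))
    · have := abs_nonneg ((p.2 : ℝ) - q.2)
      linarith
    · have := abs_nonneg ((p.1 : ℝ) - q.1)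
      linarith
  by_cases hc : 2 * (r : ℝ) ≤ η * R
  · have key := H1 X hX Bb B TT b1 b2 b3 b4 fm co p.1 p.2 q.1 q.2 r r1 r2 r3 ?_ ω hω P
    · refine key.trans ?_
      have e1 : (r : ℝ) ^ (2 / 3 : ℝ) ≤ D ^ (2 / 3 : ℝ) :=
        Real.rpow_le_rpow (by exact_mod_cast (by omega : 0 ≤ r)) rD (by norm_num)
      have e2 := mul_le_mul_of_nonneg_left e1 hC1.le
      have e3 : 0 ≤ C2 * (2 / η) ^ (2 / 3 : ℝ) * D ^ (2 / 3 : ℝ) := by positivity
      rw [add_mul]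
      linarith
    · intro u v u1 u2 v1 v2
      have hk : ((r + max n 0 : ℤ) : ℝ) ≤ η * R := by
        push_cast
        have : max (n : ℝ) 0 ≤ η * R / 2 := by
          refine max_le (by linarith) ?_
          have : (1 : ℝ) ≤ r := by exact_mod_cast r1
          linarith
        linarith
      refine mem_sdiff.2 ⟨hT u v (hL.int hk (by omega) (by omega) (by omega) (by omega)),
        fun h5 => ?_⟩
      obtain ⟨x', y', h6, h7, h8⟩ := hB u v h5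
      rw [abs_le] at h7 h8
      exact h6 (hL.int hk (by omega) (by omega) (by omega) (by omega))
  · push Not at hc
    have key := H2 X hX Bb B TT b1 b2 b3 b4 fm co T n p q R hR2 hT hB hn h1 h2 hL ω hω P
    refine key.trans ?_
    have e0 : R ≤ 2 / η * D := by
      have h3 : η * R ≤ 2 * D := by linarith
      rw [div_mul_eq_mul_div, le_div_iff₀ hη]
      linarith
    have e1 : R ^ (2 / 3 : ℝ) ≤ (2 / η) ^ (2 / 3 : ℝ) * D ^ (2 / 3 : ℝ) := by
      rw [← Real.mul_rpow (by positivity) (by linarith)]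
      exact Real.rpow_le_rpow (by linarith) e0 (by norm_num)
    have e2 := mul_le_mul_of_nonneg_left e1 hC2.le
    have e3 : 0 ≤ C1 * D ^ (2 / 3 : ℝ) := by positivity
    rw [add_mul]
    linarith

end Pool.Agent.H20.Q1
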