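import Pool.Agent.H20.Q1.BDg

set_option autoImplicit false
open Finset

/-!
# Uniform bound for complex weights near one: a finite set of families

`tot_bdF` : `‖Tot‖ ≤ M (1 + |I| K 2 ^ J)` if all ties belong to the families of the finite set `I`.
-/

namespace Pool.Agent.H20.Q1

open Pool.Agent.H75.Perc Pool.Agent.H75.TwoArm Pool.Agent.H75.Four Pool.Agent.H49.Perc
open Pool.Agent.H99.NC Pool.Agent.H60.Q1 Pool.Agent.Q1 Pool.Agent.H39.Q1 Pool.Agent.H25.Q1.Add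
open Pool.Agent.H46.G1 Pool.Agent.Q1.M6b Pool.Agent.Q1.M6c
open Pool.Agent.H59.Q1 (W1)
open Pool.Agent.H69.Q1

variable {ι : Type*} [DecidableEq ι] {W TT ω : Finset (ℤ × ℤ)}
  {fm : ℤ × ℤ → ι} {co : ι → Bool} {Wl La : ι → Finset (ℤ × ℤ)} {b o : ℤ × ℤ → ℤ × ℤ}

/-- a product is at most the sum of the powers -/
lemma prod_le_sumF (I : Finset ι) (x : ι → ℝ) (h0 : ∀ i ∈ I, 1 ≤ x i) :
    ∏ i ∈ I, x i ≤ 1 + ∑ i ∈ I, x i ^ I.card := by
  classical
  rcases I.eq_empty_or_nonempty with rfl | hne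
  · simp
  obtain ⟨m, hm, hm'⟩ := Finset.exists_max_image I x hne
  have h1 : ∏ i ∈ I, x i ≤ ∏ _i ∈ I, x m :=
    prod_le_prod (fun i hi => by linarith [h0 i hi]) fun i hi => hm' i hi
  rw [prod_const] at h1
  have h2 := single_le_sum (f := fun i => x i ^ I.card)
    (fun i hi => pow_nonneg (by linarith [h0 i hi]) _) hm
  linarith

/-- the ties which are not free, by families -/
lemma card_nfrF {I : Finset ι} (hI : ∀ e ∈ TT, fm e ∈ I) :
    (nfr W TT fm co Wl La b o ω).card = ∑ i ∈ I, (nfi W TT fm co Wl La b o i ω).card := by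
  classical
  rw [card_eq_sum_card_fiberwise (f := fm) (t := I) (fun e he => by
    unfold nfr at he
    exact mem_coe.2 (hI e (mem_filter.1 (mem_coe.1 he)).1))]
  refine sum_congr rfl fun i _ => congrArg card ?_
  ext l
  unfold nfr nfi
  rw [mem_filter, mem_filter, mem_filter, mem_TF]
  tauto

/-- **Uniform bound for complex weights near one**, a finite set of families with several walls. -/
theorem tot_bdF : ∃ C : ℝ, 1 ≤ C ∧ ∀ {ι : Type} [DecidableEq ι]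
    (X : Pool.Agent.Q1.Env) (W Bb B TT Cs : Finset (ℤ × ℤ)) (fm : ℤ × ℤ → ι) (co : ι → Bool)
    (Wl La : ι → Finset (ℤ × ℤ)) (b o : ℤ × ℤ → ℤ × ℤ) (a : ℤ × ℤ → ℂ) (s : ℤ × ℤ → ℂ)
    (L J K N : ℕ) (M θ : ℝ) (I : Finset ι), (∀ e ∈ TT, fm e ∈ I) → I.card ≤ N → 1 ≤ K →
    Multi X W Bb B TT fm co Wl La b o → (∀ c ∈ Cs, FarM X TT fm co Wl La b o c) →
    (∀ i, RunsK W Bb TT (TF TT fm i) (Wl i) (La i) b o (co i) L J K) → 0 ≤ θ →
    (∀ ω ⊆ B, ∀ P ⊆ TT, ‖VM X Cs a Bb B TT fm co ω P‖ ≤ M) →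
    (∀ e ∈ TT, Nr θ (s e)) →
    C * 4 ^ N * 2 ^ K * θ * cr ((L + 1 : ℕ) : ℝ) ^ 2 ≤ 1 →
    ‖Tot X Cs a Bb TT fm co s‖ ≤ M * (1 + N * (K * 2 ^ J)) := by
  classical
  obtain ⟨C, hC, harm⟩ := fam_expK
  refine ⟨C, hC, ?_⟩
  intro ι _ X W Bb B TT Cs fm co Wl La b o a s L J K N M θ I hI hN hK h hFar hR hθ hM hs hsm
  have hM0 : 0 ≤ M := (norm_nonneg _).trans (hM ∅ (empty_subset _) ∅ (empty_subset _))
  have hcr1 : 1 ≤ cr ((L + 1 : ℕ) : ℝ) ^ 2 := by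
    refine one_le_pow₀ ?_
    unfold cr
    exact Real.one_le_rpow (by exact_mod_cast (by omega : 1 ≤ L + 1)) (by norm_num)
  have h4 : (1 : ℝ) ≤ 4 ^ N := one_le_pow₀ (by norm_num)
  have h2K : (1 : ℝ) ≤ 2 ^ K := one_le_pow₀ (by norm_num)
  have hθ1 : θ ≤ 1 := by
    have h1 : θ ≤ C * 4 ^ N * 2 ^ K * θ * cr ((L + 1 : ℕ) : ℝ) ^ 2 := by
      have h2 : 1 ≤ C * 4 ^ N := by nlinarith
      have h2' : 1 ≤ C * 4 ^ N * 2 ^ K := by nlinarith
      have h3 : θ ≤ C * 4 ^ N * 2 ^ K * θ := by nlinarith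
      nlinarith
    linarith
  refine (tot_leN h hFar hθ hM hs).trans (mul_le_mul_of_nonneg_left ?_ hM0)
  have hpt : ∀ ω, ω ⊆ B → ((1 + θ) ^ 2) ^ (nfr W TT fm co Wl La b o ω).card ≤
      1 + ∑ i ∈ I, (1 + 4 ^ N * θ) ^ (nfi W TT fm co Wl La b o i ω).card := by
    intro ω _
    rw [card_nfrF hI, ← prod_pow_eq_pow_sum]
    refine (prod_le_sumF I _ (fun i _ => one_le_pow₀ (one_le_pow₀ (by linarith)))).trans ?_
    refine add_le_add le_rfl (sum_le_sum fun i _ => ?_)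
    rw [← pow_mul, ← pow_mul]
    have e1 : 2 * ((nfi W TT fm co Wl La b o i ω).card * I.card) =
        (2 * I.card) * (nfi W TT fm co Wl La b o i ω).card := by ring
    rw [e1, pow_mul]
    refine pow_le_pow_left₀ (by positivity) ?_ _
    have h6 : (1 + θ) ^ (2 * I.card) ≤ (1 + θ) ^ (2 * N) :=
      pow_le_pow_right₀ (by linarith) (by omega)
    have h5 := pow_near hθ hθ1 (2 * N)
    have e2 : (2 : ℝ) ^ (2 * N) = 4 ^ N := by rw [pow_mul]; norm_num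
    rw [e2] at h5
    nlinarith
  refine (Ex_mono hf_Pb hpt).trans ?_
  rw [Ex_add, Ex_const, Ex_sum]
  have hN' : (I.card : ℝ) ≤ N := by exact_mod_cast hN
  have h7 : ∑ i ∈ I, Ex hf B (fun ω => (1 + 4 ^ N * θ) ^ (nfi W TT fm co Wl La b o i ω).card) ≤
      ∑ _i ∈ I, ((K : ℝ) * 2 ^ J) :=
    sum_le_sum fun i _ => harm X W Bb B TT fm co Wl La b o i L J K (4 ^ N * θ) hK h (hR i)
      (by positivity) (by
        have e3 : C * 2 ^ K * (4 ^ N * θ) = C * 4 ^ N * 2 ^ K * θ := by ring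
        rw [e3]
        exact hsm)
  rw [sum_const, nsmul_eq_mul] at h7
  have h8 : (I.card : ℝ) * ((K : ℝ) * 2 ^ J) ≤ N * ((K : ℝ) * 2 ^ J) :=
    mul_le_mul_of_nonneg_right hN' (by positivity)
  linarith

end Pool.Agent.H20.Q1
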