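import Mathlib
import Pool.Agent.H46.G1.WSum
import Pool.Agent.H59.Q1.Arm1
import Pool.Agent.H20.Q1.MxCore

set_option autoImplicit false
open Finset

/-!
# Exponential moment of the number of wall points with an arm

The wall is cut in runs. `wall_exp` : sum over all sets of points; `arms_exp` : the exponential moment
is at most `2 ^ (number of runs)` if the weight is small for one run.
-/

namespace Pool.Agent.H20.Q1

open Pool.Agent.H75.Perc Pool.Agent.H75.TwoArm Pool.Agent.H75.Four Pool.Agent.H49.Perc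
open Pool.Agent.H99.NC Pool.Agent.H60.Q1 Pool.Agent.Q1 Pool.Agent.H46.G1 Pool.Agent.Q1.M6b
open Pool.Agent.H59.Q1 (W1 W1_local Pr_W1 a1 a1_bd a1_nonneg)

section wall

variable {κ : Type*} [Fintype κ] [DecidableEq κ]

lemma geom_two {x : ℝ} (h0 : 0 ≤ x) (h1 : x ≤ 1 / 2) (n : ℕ) : ∑ m ∈ range n, x ^ m ≤ 2 := by
  have h2 : ∑ m ∈ range n, x ^ m ≤ ∑ m ∈ range n, (1 / 2 : ℝ) ^ m :=
    sum_le_sum fun m _ => pow_le_pow_left₀ h0 h1 m
  refine h2.trans ?_
  have h3 : ∀ n : ℕ, ∑ m ∈ range n, (1 / 2 : ℝ) ^ m = 2 - 2 * (1 / 2) ^ n := by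
    intro n
    induction n with
    | zero => simp
    | succ n ih => rw [sum_range_succ, ih, pow_succ]; ring
  rw [h3]
  have : (0 : ℝ) < (1 / 2) ^ n := by positivity
  linarith

/-- one segment, all sets of points -/
lemma seg_exp {N : ℕ} {L : ℕ} (hN : N ≤ L) {η : ℝ} (h0 : 0 ≤ η)
    (h : 6 * η * cr ((L + 1 : ℕ) : ℝ) ^ 2 ≤ 1 / 2) :
    ∑ v ∈ (Finset.Ico (0 : ℤ) N).powerset, ∏ t ∈ v, (η * (cr (gap1 (N : ℤ) v t : ℝ))⁻¹) ≤ 2 := by
  classical
  have e1 : (Finset.Ico (0 : ℤ) N).powerset = (range (N + 1)).biUnion fun m =>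
      powersetCard m (Finset.Ico (0 : ℤ) N) := by
    ext v
    rw [mem_powerset, mem_biUnion]
    constructor
    · intro h1
      have h2 := card_le_card h1
      rw [Int.card_Ico] at h2
      exact ⟨v.card, mem_range.2 (by omega), mem_powersetCard.2 ⟨h1, rfl⟩⟩
    · rintro ⟨m, _, h1⟩
      exact (mem_powersetCard.1 h1).1
  rw [e1, sum_biUnion (by
    intro m _ m' _ hne
    rw [Function.onFun, disjoint_left]
    intro v h1 h2
    exact hne ((mem_powersetCard.1 h1).2.symm.trans (mem_powersetCard.1 h2).2))]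
  have hL : (0 : ℝ) < ((L + 1 : ℕ) : ℝ) := by positivity
  have hNp : (0 : ℝ) ≤ ((N + 1 : ℕ) : ℝ) := by positivity
  have hcr : cr ((N + 1 : ℕ) : ℝ) ^ 2 ≤ cr ((L + 1 : ℕ) : ℝ) ^ 2 :=
    pow_le_pow_left₀ (cr_nonneg hNp) (cr_mono hNp (by exact_mod_cast (by omega : N + 1 ≤ L + 1))) 2
  have h1 : ∀ m ∈ range (N + 1), ∑ v ∈ powersetCard m (Finset.Ico (0 : ℤ) N),
      ∏ t ∈ v, (η * (cr (gap1 (N : ℤ) v t : ℝ))⁻¹) ≤ (6 * η * cr ((L + 1 : ℕ) : ℝ) ^ 2) ^ m := by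
    intro m _
    have e2 : ∑ v ∈ powersetCard m (Finset.Ico (0 : ℤ) N),
        ∏ t ∈ v, (η * (cr (gap1 (N : ℤ) v t : ℝ))⁻¹) = η ^ m *
        ∑ v ∈ powersetCard m (Finset.Ico (0 : ℤ) N), ∏ t ∈ v, (cr (gap1 (N : ℤ) v t : ℝ))⁻¹ := by
      rw [mul_sum]
      refine sum_congr rfl fun v hv => ?_
      rw [prod_mul_distrib, prod_const, (mem_powersetCard.1 hv).2]
    rw [e2]
    calc η ^ m * ∑ v ∈ powersetCard m (Finset.Ico (0 : ℤ) N),
          ∏ t ∈ v, (cr (gap1 (N : ℤ) v t : ℝ))⁻¹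
        ≤ η ^ m * (6 * cr ((N + 1 : ℕ) : ℝ) ^ 2) ^ m :=
          mul_le_mul_of_nonneg_left (wall1 N m) (pow_nonneg h0 m)
      _ = (6 * η * cr ((N + 1 : ℕ) : ℝ) ^ 2) ^ m := by rw [← mul_pow]; congr 1; ring
      _ ≤ _ := pow_le_pow_left₀ (by positivity)
          (mul_le_mul_of_nonneg_left hcr (by positivity)) m
  refine (sum_le_sum h1).trans ?_
  exact geom_two (by positivity) h _

/-- several segments, all sets of points -/
theorem wall_exp {N : κ → ℕ} {L : ℕ} (hN : ∀ a, N a ≤ L) {η : ℝ} (h0 : 0 ≤ η)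
    (h : 6 * η * cr ((L + 1 : ℕ) : ℝ) ^ 2 ≤ 1 / 2) :
    ∑ w ∈ (Wp N).powerset, ∏ x ∈ w, (η * (cr (gw N w x : ℝ))⁻¹) ≤ 2 ^ Fintype.card κ := by
  classical
  set F : κ → Finset ℤ → ℝ := fun a v => ∏ t ∈ v, (η * (cr (gap1 (N a : ℤ) v t : ℝ))⁻¹) with hF
  set V : κ → Finset (Finset ℤ) := fun a => (Finset.Ico (0 : ℤ) (N a)).powerset with hV
  have hF0 : ∀ a, ∀ v ∈ V a, 0 ≤ F a v := by
    intro a v hv
    have hv1 := mem_powerset.1 hv
    refine prod_nonneg fun t ht => mul_nonneg h0 (inv_nonneg.2 (cr_nonneg ?_))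
    have h1 := Finset.mem_Ico.1 (hv1 ht)
    have := gap1_pos (v := v) h1.1 h1.2
    exact_mod_cast (by omega : (0 : ℤ) ≤ _)
  have hterm : ∀ w ∈ (Wp N).powerset, ∏ x ∈ w, (η * (cr (gw N w x : ℝ))⁻¹) =
      ∏ a, F a (slice w a) := by
    intro w _
    unfold gw
    rw [prod_slices w (fun a t => (η * (cr (gap1 (N a : ℤ) (slice w a) t : ℝ))⁻¹))]
  rw [sum_congr rfl hterm]
  have hinj : Set.InjOn (fun w : Finset (κ × ℤ) => fun a => slice w a)
      ((Wp N).powerset : Set (Finset (κ × ℤ))) := by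
    intro w _ w' _ h
    ext ⟨a, t⟩
    rw [← Pool.Agent.H46.G1.mem_slice, ← Pool.Agent.H46.G1.mem_slice]
    have := congrFun h a
    simp only at this
    rw [this]
  have step : ∑ w ∈ (Wp N).powerset, ∏ a, F a (slice w a) ≤
      ∑ ψ ∈ Fintype.piFinset V, ∏ a, F a (ψ a) := by
    rw [← sum_image (f := fun ψ : κ → Finset ℤ => ∏ a, F a (ψ a)) hinj]
    refine sum_le_sum_of_subset_of_nonneg ?_ fun ψ hψ _ =>
      prod_nonneg fun a _ => hF0 a _ (Fintype.mem_piFinset.1 hψ a)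
    intro ψ hψ
    obtain ⟨w, hw, rfl⟩ := mem_image.1 hψ
    have hw1 := mem_powerset.1 hw
    rw [Fintype.mem_piFinset]
    intro a
    exact mem_powerset.2 fun t ht => Finset.mem_Ico.2 (mem_Wp.1 (hw1 (mem_slice.1 ht)))
  refine step.trans ?_
  rw [← Finset.prod_univ_sum V F]
  refine (prod_le_prod (fun a _ => sum_nonneg fun v hv => hF0 a v hv) fun a _ =>
    seg_exp (hN a) h0 h).trans (le_of_eq ?_)
  rw [prod_const, card_univ]

end wall

/-! ### independent events -/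

/-- product formula for events on disjoint blocks -/
lemma Ex_prod_indep {α β : Type*} [DecidableEq α] [DecidableEq β] (q : α → ℝ) (w : Finset β)
    (F : β → Finset α) (D : β → Finset α → ℝ) :
    ∀ E : Finset α, (∀ x ∈ w, F x ⊆ E) → (∀ x ∈ w, ∀ y ∈ w, x ≠ y → Disjoint (F x) (F y)) →
      (∀ x ∈ w, ∀ ω, D x ω = D x (ω ∩ F x)) →
      Ex q E (fun ω => ∏ x ∈ w, D x ω) = ∏ x ∈ w, Ex q (F x) (D x) := by
  induction w using Finset.induction_on with
  | empty =>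
    intro E _ _ _
    simp
  | insert x w hx ih =>
    intro E hE hd hloc
    set F' := w.biUnion F with hF'
    have hF'E : F' ⊆ E := by
      intro l hl
      obtain ⟨y, hy, hl'⟩ := mem_biUnion.1 hl
      exact hE y (mem_insert_of_mem hy) hl'
    have hdis : Disjoint (F x) F' := by
      rw [disjoint_left]
      intro l h1 h2
      obtain ⟨y, hy, h3⟩ := mem_biUnion.1 h2
      exact disjoint_left.1 (hd x (mem_insert_self _ _) y (mem_insert_of_mem hy)
        (fun h => hx (h ▸ hy))) h1 h3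
    have key := Ex_indep q (hE x (mem_insert_self _ _)) hF'E hdis (D x)
      (fun ω => ∏ y ∈ w, D y ω)
    have e1 : Ex q E (fun ω => ∏ y ∈ insert x w, D y ω) =
        Ex q E (fun ω => D x (ω ∩ F x) * ∏ y ∈ w, D y (ω ∩ F')) := by
      refine Ex_congr fun ω _ => ?_
      rw [prod_insert hx, ← hloc x (mem_insert_self _ _)]
      congr 1
      refine prod_congr rfl fun y hy => ?_
      have h1 : (ω ∩ F') ∩ F y = ω ∩ F y := by
        ext l
        simp only [mem_inter]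
        constructor
        · rintro ⟨⟨g1, _⟩, g2⟩; exact ⟨g1, g2⟩
        · rintro ⟨g1, g2⟩; exact ⟨⟨g1, mem_biUnion.2 ⟨y, hy, g2⟩⟩, g2⟩
      rw [hloc y (mem_insert_of_mem hy) ω, hloc y (mem_insert_of_mem hy) (ω ∩ F'), h1]
    rw [e1, key, prod_insert hx]
    congr 1
    exact ih F' (fun y hy => subset_biUnion_of_mem F hy)
      (fun y hy z hz => hd y (mem_insert_of_mem hy) z (mem_insert_of_mem hz))
      (fun y hy => hloc y (mem_insert_of_mem hy))

/-! ### the arms -/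

variable {κ : ℤ}

/-- the wall point at position `p` -/
def wpt (κ : ℤ) (z : ℤ × ℤ) (p : ℤ) : ℤ × ℤ := (z.1 + p, z.2 - κ * p)

lemma ht_wpt (κ : ℤ) (z : ℤ × ℤ) (p : ℤ) : ht κ (wpt κ z p) = ht κ z := by
  unfold ht wpt
  simp only
  ring

/-- arm event at `x` with radius `ρ` (always true if `ρ ≤ 0`) -/
noncomputable def armI (κ : ℤ) (x : ℤ × ℤ) (ρ : ℤ) (ω : Finset (ℤ × ℤ)) : ℝ :=
  if ρ ≤ 0 then 1 else ind (W1 κ x ρ ω)

/-- its labels -/
noncomputable def armF (κ : ℤ) (x : ℤ × ℤ) (ρ : ℤ) : Finset (ℤ × ℤ) :=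
  if ρ ≤ 0 then ∅ else HL κ x ρ

lemma armI_local (κ : ℤ) (x : ℤ × ℤ) (ρ : ℤ) (ω : Finset (ℤ × ℤ)) :
    armI κ x ρ ω = armI κ x ρ (ω ∩ armF κ x ρ) := by
  unfold armI armF
  split_ifs with h
  · rfl
  · exact ind_congr W1_local

lemma armI_nonneg (κ : ℤ) (x : ℤ × ℤ) (ρ : ℤ) (ω : Finset (ℤ × ℤ)) : 0 ≤ armI κ x ρ ω := by
  unfold armI
  split_ifs
  · exact zero_le_one
  · exact ind_nonneg _

/-- one arm -/
lemma armI_le : ∃ C : ℝ, 1 ≤ C ∧ ∀ κ : ℤ, (κ = 0 ∨ κ = 1) → ∀ (x : ℤ × ℤ) (g : ℤ), 1 ≤ g →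
    Ex hf (armF κ x ((g - 1) / 2)) (armI κ x ((g - 1) / 2)) ≤ C * (cr (g : ℝ))⁻¹ := by
  obtain ⟨c, C, hc, hc1, hC, h⟩ := a1_bd
  refine ⟨2 * C, by linarith, fun κ hκ x g hg => ?_⟩
  have hg0 : (0 : ℝ) < g := by exact_mod_cast (by omega : (0 : ℤ) < g)
  unfold armF armI
  split_ifs with h0
  · rw [Ex_const]
    have h2 : (g : ℝ) ≤ 8 := by exact_mod_cast (by omega : g ≤ 8)
    have h3 : cr (g : ℝ) ≤ 2 := by
      have h4 := cr_mono hg0.le h2
      have h5 : cr (8 : ℝ) = 2 := by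
        unfold cr
        rw [show (8 : ℝ) = 2 ^ (3 : ℝ) by norm_num, ← Real.rpow_mul (by norm_num)]
        norm_num
      linarith
    have h4 := cr_pos hg0
    rw [← div_eq_mul_inv, le_div_iff₀ h4]
    nlinarith
  · set ρ := (g - 1) / 2 with hρ
    have hρ1 : 1 ≤ ρ := by omega
    have e1 : Ex hf (HL κ x ρ) (fun ω => ind (W1 κ x ρ ω)) = a1 κ ρ := by
      rw [← Pr_W1 (κ := κ) (z := x) (R := ρ) (Finset.Subset.refl _), ← hf_Pr]
      rfl
    rw [e1]
    refine (h κ hκ ρ hρ1).2.trans ?_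
    have hρ0 : (0 : ℝ) < ρ := by exact_mod_cast (by omega : (0 : ℤ) < ρ)
    have h2 : (g : ℝ) ≤ 8 * ρ := by exact_mod_cast (by omega : g ≤ 8 * ρ)
    have h3 : cr (g : ℝ) ≤ 2 * cr (ρ : ℝ) := by
      have h4 := cr_mono hg0.le h2
      have h5 : cr (8 * (ρ : ℝ)) = 2 * cr (ρ : ℝ) := by
        unfold cr
        rw [Real.mul_rpow (by norm_num) hρ0.le, show (8 : ℝ) = 2 ^ (3 : ℝ) by norm_num,
          ← Real.rpow_mul (by norm_num)]
        norm_num
      linarith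
    have h4 := cr_pos hg0
    have h5 := cr_pos hρ0
    have e2 : (ρ : ℝ) ^ (-(1 / 3) : ℝ) = (cr (ρ : ℝ))⁻¹ := by
      unfold cr
      rw [← Real.rpow_neg hρ0.le]
    rw [e2]
    have h6 : (cr (ρ : ℝ))⁻¹ ≤ 2 * (cr (g : ℝ))⁻¹ := by
      rw [← div_eq_mul_inv, inv_eq_one_div, div_le_div_iff₀ h5 h4]
      linarith
    have := mul_le_mul_of_nonneg_left h6 (by linarith : 0 ≤ C)
    linarith

/-- boxes at a distance are disjoint -/
lemma armF_disj (κ : ℤ) (z : ℤ × ℤ) {p p' ρ ρ' : ℤ} (h : ρ + ρ' < |p - p'|) :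
    Disjoint (armF κ (wpt κ z p) ρ) (armF κ (wpt κ z p') ρ') := by
  unfold armF
  split_ifs with h1 h2 h2
  · exact disjoint_empty_left _
  · exact disjoint_empty_left _
  · exact disjoint_empty_right _
  · rw [disjoint_left]
    intro l h3 h4
    have h5 := (mem_HL'.1 h3).1
    have h6 := (mem_HL'.1 h4).1
    unfold BR at h5 h6
    rw [mem_Bx] at h5 h6
    unfold wpt at h5 h6
    simp only at h5 h6
    rcases abs_cases (p - p') with h7 | h7 <;> omega

section exp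

variable {β : Type*} [Fintype β] [DecidableEq β] [LinearOrder β]

/-- **exponential moment of the number of armed points** -/
theorem arms_exp : ∃ C : ℝ, 1 ≤ C ∧ ∀ κ : ℤ, (κ = 0 ∨ κ = 1) → ∀ (J : ℕ) (z : ℤ × ℤ)
    (N : Fin J → ℕ) (off : Fin J → ℤ) (L : ℕ) (θ : ℝ) (E : Finset (ℤ × ℤ))
    (A : Finset (ℤ × ℤ) → Finset (Fin J × ℤ)),
    (∀ a, N a ≤ L) → (∀ a a', a < a' → off a + N a ≤ off a') → 0 ≤ θ →
    C * θ * cr ((L + 1 : ℕ) : ℝ) ^ 2 ≤ 1 →
    (∀ x ∈ Wp N, ∀ ρ : ℤ, 1 ≤ ρ → 2 * ρ ≤ x.2 → 2 * ρ < N x.1 - x.2 →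
      HL κ (wpt κ z (off x.1 + x.2)) ρ ⊆ E) →
    (∀ ω, ω ⊆ E → A ω ⊆ Wp N ∧ ∀ x ∈ A ω, ∀ ρ : ℤ, 1 ≤ ρ → 2 * ρ ≤ x.2 → 2 * ρ < N x.1 - x.2 →
      W1 κ (wpt κ z (off x.1 + x.2)) ρ ω) →
    Ex hf E (fun ω => (1 + θ) ^ (A ω).card) ≤ 2 ^ J := by
  obtain ⟨C, hC, harm⟩ := armI_le
  refine ⟨12 * C, by linarith, ?_⟩
  intro κ hκ J z N off L θ E A hN hoff hθ hsm hE hA
  classical
  -- expansion
  set pos : Fin J × ℤ → ℤ := fun x => off x.1 + x.2 with hpos
  set ρ : Finset (Fin J × ℤ) → Fin J × ℤ → ℤ := fun w x => (gw N w x - 1) / 2 with hρ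
  have hgw : ∀ w ⊆ Wp N, ∀ x ∈ w, 1 ≤ gw N w x ∧ gw N w x ≤ x.2 + 1 ∧
      gw N w x ≤ N x.1 - x.2 := by
    intro w hw x hx
    have h1 := mem_Wp.1 (hw hx)
    unfold gw
    exact ⟨gap1_pos h1.1 h1.2, gap1_le_left (by omega), gap1_le_right (by omega)⟩
  have hpt : ∀ ω, ω ⊆ E → (1 + θ) ^ (A ω).card ≤
      ∑ w ∈ (Wp N).powerset, θ ^ w.card * ∏ x ∈ w, armI κ (wpt κ z (pos x)) (ρ w x) ω := by
    intro ω hω
    obtain ⟨hA1, hA2⟩ := hA ω hω
    have e1 : (1 + θ) ^ (A ω).card = ∑ w ∈ (A ω).powerset, θ ^ w.card := by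
      rw [add_comm, ← Finset.sum_pow_mul_eq_add_pow]
      exact sum_congr rfl fun w _ => by rw [one_pow, mul_one]
    rw [e1]
    have h2 : (A ω).powerset ⊆ (Wp N).powerset := powerset_mono.2 hA1
    refine le_trans ?_ (sum_le_sum_of_subset_of_nonneg h2 fun w _ _ =>
      mul_nonneg (pow_nonneg hθ _) (prod_nonneg fun x _ => armI_nonneg _ _ _ _))
    refine sum_le_sum fun w hw => ?_
    have hwA := mem_powerset.1 hw
    have h3 : ∏ x ∈ w, armI κ (wpt κ z (pos x)) (ρ w x) ω = 1 := by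
      refine prod_eq_one fun x hx => ?_
      unfold armI
      split_ifs with h4
      · rfl
      · have h5 := hgw w (hwA.trans hA1) x hx
        simp only [hρ] at h4 ⊢
        exact ind_true (hA2 x (hwA hx) _ (by omega) (by omega) (by omega))
    rw [h3, mul_one]
  refine (Ex_mono hf_Pb hpt).trans ?_
  rw [Ex_sum]
  have hterm : ∀ w ∈ (Wp N).powerset, Ex hf E (fun ω => θ ^ w.card *
      ∏ x ∈ w, armI κ (wpt κ z (pos x)) (ρ w x) ω) ≤
      ∏ x ∈ w, ((C * θ) * (cr (gw N w x : ℝ))⁻¹) := by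
    intro w hw
    have hw' := mem_powerset.1 hw
    rw [Ex_smul, Ex_prod_indep hf w (fun x => armF κ (wpt κ z (pos x)) (ρ w x))
      (fun x => armI κ (wpt κ z (pos x)) (ρ w x))]
    · rw [← prod_const, ← prod_mul_distrib]
      refine prod_le_prod (fun x _ => mul_nonneg hθ (Ex_nonneg hf_Pb fun _ _ =>
        armI_nonneg _ _ _ _)) fun x hx => ?_
      have h1 := harm κ hκ (wpt κ z (pos x)) (gw N w x) (hgw w hw' x hx).1
      have h2 := mul_le_mul_of_nonneg_left h1 hθ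
      calc _ ≤ θ * (C * (cr (gw N w x : ℝ))⁻¹) := h2
        _ = _ := by ring
    · intro x hx
      have h5 := hgw w hw' x hx
      unfold armF
      split_ifs with h6
      · exact empty_subset _
      · simp only [hρ] at h6 ⊢
        exact hE x (hw' hx) _ (by omega) (by omega) (by omega)
    · intro x hx y hy hxy
      refine armF_disj κ z ?_
      have g1 := hgw w hw' x hx
      have g2 := hgw w hw' y hy
      simp only [hρ, hpos]
      rcases lt_trichotomy x.1 y.1 with h | h | h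
      · have h1 := hoff _ _ h
        rcases abs_cases (off x.1 + x.2 - (off y.1 + y.2)) with h7 | h7 <;> omega
      · have hne : x.2 ≠ y.2 := fun h' => hxy (Prod.ext h h')
        have h1 : gw N w x ≤ |x.2 - y.2| := by
          refine gw_le_of_mem (a := x.1) (t := x.2) (s := y.2) ?_ hne.symm
          rw [h]; exact hy
        have h2 : gw N w y ≤ |x.2 - y.2| := by
          rw [abs_sub_comm]
          refine gw_le_of_mem (a := y.1) (t := y.2) (s := x.2) ?_ hne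
          rw [← h]; exact hx
        rw [h]
        have e3 : off y.1 + x.2 - (off y.1 + y.2) = x.2 - y.2 := by ring
        rw [e3]
        omega
      · have h1 := hoff _ _ h
        rcases abs_cases (off x.1 + x.2 - (off y.1 + y.2)) with h7 | h7 <;> omega
    · intro x _ ω
      exact armI_local _ _ _ _
  refine (sum_le_sum hterm).trans ?_
  have hCθ : 0 ≤ C * θ := by positivity
  have := wall_exp (κ := Fin J) (N := N) (L := L) hN hCθ (by nlinarith)
  rwa [Fintype.card_fin] at this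

end exp

end Pool.Agent.H20.Q1
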