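import Mathlib
import Pool.Agent.H39.Q1.FlatW

set_option autoImplicit false
open Finset

/-!
# Uniform bound for complex weights near one

`tot_le` : if all weights satisfy `‖1 - s e‖ ≤ θ`, then `‖Tot‖ ≤ M E (1 + θ) ^ (2 N)`, `N` the number of
ties which are not free.
-/

namespace Pool.Agent.H20.Q1

open Pool.Agent.H75.Perc Pool.Agent.H75.TwoArm Pool.Agent.H75.Four Pool.Agent.H49.Perc
open Pool.Agent.H99.NC Pool.Agent.H60.Q1 Pool.Agent.Q1 Pool.Agent.H39.Q1 Pool.Agent.H25.Q1.Add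

/-- products of numbers close to one -/
lemma prod_near {α : Type*} [DecidableEq α] {s : α → ℂ} {k : Finset α} {θ : ℝ} (hθ : 0 ≤ θ)
    (h : ∀ e ∈ k, ‖1 - s e‖ ≤ θ) :
    ‖∏ e ∈ k, s e‖ ≤ (1 + θ) ^ k.card ∧ ‖1 - ∏ e ∈ k, s e‖ ≤ (1 + θ) ^ k.card - 1 := by
  induction k using Finset.induction_on with
  | empty => simp
  | insert a k ha ih =>
    obtain ⟨h1, h2⟩ := ih fun e he => h e (mem_insert_of_mem he)
    have h3 := h a (mem_insert_self _ _)
    have h4 : ‖s a‖ ≤ 1 + θ := by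
      have e1 : s a = 1 - (1 - s a) := by ring
      rw [e1]
      refine (norm_sub_le _ _).trans ?_
      rw [norm_one]
      linarith
    rw [prod_insert ha, card_insert_of_notMem ha, pow_succ]
    set P := ∏ e ∈ k, s e
    have hp : 0 ≤ (1 + θ) ^ k.card := pow_nonneg (by linarith) _
    constructor
    · rw [norm_mul, mul_comm]
      exact mul_le_mul h1 h4 (norm_nonneg _) hp
    · have e1 : 1 - s a * P = (1 - s a) * P + (1 - P) := by ring
      rw [e1]
      refine (norm_add_le _ _).trans ?_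
      rw [norm_mul]
      have h5 : ‖1 - s a‖ * ‖P‖ ≤ θ * (1 + θ) ^ k.card :=
        mul_le_mul h3 h1 (norm_nonneg _) hθ
      nlinarith

/-- total variation of one class -/
lemma tv_class {α : Type*} [DecidableEq α] {s : α → ℂ} {k : Finset α} {θ : ℝ} (hθ : 0 ≤ θ)
    (h : ∀ e ∈ k, ‖1 - s e‖ ≤ θ) :
    ‖∏ e ∈ k, s e‖ + ‖1 - ∏ e ∈ k, s e‖ ≤ ((1 + θ) ^ 2) ^ k.card := by
  obtain ⟨h1, h2⟩ := prod_near hθ h
  rw [← pow_mul, mul_comm, pow_mul]
  nlinarith [sq_nonneg ((1 + θ) ^ k.card - 1)]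

variable {ι : Type*} [DecidableEq ι] {X : Pool.Agent.Q1.Env} {W Bb B TT Cs ω : Finset (ℤ × ℤ)}
  {fm : ℤ × ℤ → ι} {co : ι → Bool} {Wl La : ι → Finset (ℤ × ℤ)}
  {b o : ℤ × ℤ → ℤ × ℤ} {a : ℤ × ℤ → ℂ} {s : ℤ × ℤ → ℂ} {e e1 : ℤ × ℤ} {i : ι}

/-- a tie of the class of a free tie is free -/
lemma fre_cls (h : Multi X W Bb B TT fm co Wl La b o) (he : e ∈ TT)
    (hf : fre W TT fm co Wl La b o ω e) (h1 : e1 ∈ cls TT fm co La b ω e) :
    fre W TT fm co Wl La b o ω e1 := by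
  obtain ⟨⟨h2, h3⟩, h4⟩ := mem_cls.1 h1
  have he1F : e1 ∈ TF TT fm (fm e) := mem_TF.2 ⟨h2, h3⟩
  have heF : e ∈ TF TT fm (fm e) := mem_TF.2 ⟨he, rfl⟩
  unfold fre at hf ⊢
  rw [h3]
  unfold gr at h4
  split_ifs at hf h4 ⊢ with hco
  · have h4' : Co ((ω ∪ (W \ Wl (fm e))) ∩ La (fm e)) (b e) (b e1) := by rw [h.capO']; exact h4
    rcases hf with h5 | h5
    · left
      intro x y h6 h7 h8
      refine h5 x y (Co.trans ?_ h6) h7 h8
      rw [h.capO2]; exact h4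
    · right
      have h6 : Co ((ω ∪ (W \ Wl (fm e))) ∩ La (fm e) ∪ Wl (fm e)) (o e1) (o e) :=
        ((h.tO _ hco).conn e1 he1F e heF).mono subset_union_right
      exact (h6.trans h5).trans (h4'.mono subset_union_left)
  · have hco' : co (fm e) = false := by simpa using hco
    have h4' : Co (du (La (fm e)) (ω ∪ W)) (b e) (b e1) := by rw [h.duC']; exact h4
    rcases hf with h5 | h5
    · left
      intro x y h6 h7 h8
      exact h5 x y (h4'.trans h6) h7 h8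
    · right
      have h6 : Co (du (La (fm e)) (ω ∪ W) ∪ du (Wl (fm e)) ∅) (o e1) (o e) :=
        ((h.tC _ hco').conn e1 he1F e heF).mono subset_union_right
      exact (h6.trans h5).trans (h4'.mono subset_union_left)

open Classical in
/-- the ties which are not free -/
noncomputable def nfr (W TT : Finset (ℤ × ℤ)) (fm : ℤ × ℤ → ι) (co : ι → Bool)
    (Wl La : ι → Finset (ℤ × ℤ)) (b o : ℤ × ℤ → ℤ × ℤ) (ω : Finset (ℤ × ℤ)) :
    Finset (ℤ × ℤ) := TT.filter fun e => ¬ fre W TT fm co Wl La b o ω e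

/-- the total number of ties of the classes which are not free -/
lemma sum_card_le (h : Multi X W Bb B TT fm co Wl La b o) :
    ∑ k ∈ JM W TT fm co Wl La b o ω, k.card ≤ (nfr W TT fm co Wl La b o ω).card := by
  classical
  have hdisj : ∀ k ∈ JM W TT fm co Wl La b o ω, ∀ k' ∈ JM W TT fm co Wl La b o ω, k ≠ k' →
      Disjoint k k' := by
    intro k hk k' hk' hne
    unfold JM at hk hk'
    obtain ⟨e, he, rfl⟩ := mem_image.1 hk
    obtain ⟨e', he', rfl⟩ := mem_image.1 hk'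
    rw [disjoint_left]
    intro l h1 h2
    exact hne ((cls_eq_of h1).symm.trans (cls_eq_of h2))
  rw [← card_biUnion hdisj]
  refine card_le_card fun l hl => ?_
  obtain ⟨k, hk, hlk⟩ := mem_biUnion.1 hl
  unfold JM at hk
  obtain ⟨e, he, rfl⟩ := mem_image.1 hk
  obtain ⟨he1, he2⟩ := mem_filter.1 he
  unfold nfr
  refine mem_filter.2 ⟨cls_sub hlk, fun hf => he2 ?_⟩
  have hlT : l ∈ TT := cls_sub hlk
  refine fre_cls h hlT hf ?_
  rw [cls_eq_of hlk]
  exact self_cls he1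

/-- **uniform bound for complex weights near one** -/
theorem tot_le (h : Multi X W Bb B TT fm co Wl La b o)
    (hc : ∀ c ∈ Cs, FarM X TT fm co Wl La b o c) {M θ : ℝ} (hθ : 0 ≤ θ)
    (hM : ∀ ω ⊆ B, ∀ P ⊆ TT, ‖VM X Cs a Bb B TT fm co ω P‖ ≤ M)
    (hs : ∀ e ∈ TT, ‖1 - s e‖ ≤ θ) :
    ‖Tot X Cs a Bb TT fm co s‖ ≤
      M * Ex hf B (fun ω => ((1 + θ) ^ 2) ^ (nfr W TT fm co Wl La b o ω).card) := by
  classical
  have e1 : Tot X Cs a Bb TT fm co s = Eh B (fun ω =>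
      cE (fun k => ∏ e ∈ k, s e) (JM W TT fm co Wl La b o ω)
        (fun A => VM X Cs a Bb B TT fm co ω (unc TT fm co La b ω A))) := by
    unfold Tot
    refine (Ec_split _ h.bB _).trans (Ec_congr fun ω hω => ?_)
    rw [← h.classes hc hω]
    exact Ec_swap (fun _ => (1 / 2 : ℂ)) (fun e => 1 - s e) (Bb \ B) TT
      (fun ω' P => U X Cs a (ω ∪ ω' ∪ opn TT fm co P))
  rw [e1]
  have hM0 : 0 ≤ M := (norm_nonneg _).trans (hM ∅ (empty_subset _) ∅ (empty_subset _))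
  have hb : ∀ ω, ω ⊆ B → ‖cE (fun k => ∏ e ∈ k, s e) (JM W TT fm co Wl La b o ω)
        (fun A => VM X Cs a Bb B TT fm co ω (unc TT fm co La b ω A))‖ ≤
      M * ((1 + θ) ^ 2) ^ (nfr W TT fm co Wl La b o ω).card := by
    intro ω hω
    refine (norm_cE_le (M := M) fun A _ => hM ω hω _ (filter_subset _ _)).trans ?_
    refine mul_le_mul_of_nonneg_left ?_ hM0
    unfold tv
    have h1 : ∀ k ∈ JM W TT fm co Wl La b o ω, ‖∏ e ∈ k, s e‖ + ‖1 - ∏ e ∈ k, s e‖ ≤
        ((1 + θ) ^ 2) ^ k.card := by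
      intro k hk
      unfold JM at hk
      obtain ⟨e, he, rfl⟩ := mem_image.1 hk
      exact tv_class hθ fun e' he' => hs e' (cls_sub he')
    refine (prod_le_prod (fun k _ => by positivity) h1).trans ?_
    rw [prod_pow_eq_pow_sum]
    have h2 : (1 : ℝ) ≤ (1 + θ) ^ 2 := one_le_pow₀ (by linarith)
    exact pow_le_pow_right₀ h2 (sum_card_le h)
  refine (Ec_half_norm hb).trans (le_of_eq ?_)
  exact Ex_smul _ _ _ _

end Pool.Agent.H20.Q1
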