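import Mathlib
import Pool.Agent.H20.Q1.BDa
import Pool.Agent.H20.Q1.BDb
import Pool.Agent.H20.Q1.DRes

set_option autoImplicit false
open Finset

/-!
# Uniform bound for complex weights near one: several families with flat walls

`nfr_arm` : a tie which is not free has an arm. `Runs` : the ties of a family, cut in runs.
`tot_bd` : `‖Tot‖ ≤ M (number of families) 2 ^ J` if `C 4 ^ (number of families) θ L ^ (2/3) ≤ 1`.
-/

namespace Pool.Agent.H20.Q1

open Pool.Agent.H75.Perc Pool.Agent.H75.TwoArm Pool.Agent.H75.Four Pool.Agent.H49.Perc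
open Pool.Agent.H99.NC Pool.Agent.H60.Q1 Pool.Agent.Q1 Pool.Agent.H39.Q1 Pool.Agent.H25.Q1.Add
open Pool.Agent.H46.G1 Pool.Agent.Q1.M6b Pool.Agent.Q1.M6c
open Pool.Agent.H59.Q1 (W1)
open Pool.Agent.H69.Q1

variable {ι : Type*} [DecidableEq ι] {X : Pool.Agent.Q1.Env} {W Bb B TT Cs ω : Finset (ℤ × ℤ)}
  {fm : ℤ × ℤ → ι} {co : ι → Bool} {Wl La : ι → Finset (ℤ × ℤ)}
  {b o : ℤ × ℤ → ℤ × ℤ} {a : ℤ × ℤ → ℂ} {s : ℤ × ℤ → ℂ} {e w : ℤ × ℤ} {R : ℤ}
  {ε : Bool × Bool} {δ : ℤ × ℤ}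

/-- a class which is not free goes far -/
lemma nfr_far (h : Multi X W Bb B TT fm co Wl La b o)
    (hF : FlatL W Bb TT (TF TT fm (fm e)) (Wl (fm e)) (La (fm e)) b o (co (fm e)) ε δ w (R + 1))
    (hω : ω ⊆ B) (hf : ¬ fre W TT fm co Wl La b o ω e) :
    ∃ v, Far w R v ∧ Co (gr co La (fm e) ω) (b e) v := by
  have hbox : ∀ {l : ℤ × ℤ}, l ∈ bx (co (fm e)) w R →
      lm (co (fm e)) ε l ∈ BR (gm ε w) (R + 1) := by
    intro l hl
    rw [mem_BR_gm, lm_apply, gm_gm]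
    rw [mem_bx] at hl
    exact BR_mono' (by omega) hl
  have hinb : ∀ l ∈ Bb ∪ (TT \ TF TT fm (fm e)), l ∈ bx (co (fm e)) w R → l ∈ La (fm e) :=
    fun l hl hlb => (hF.la l (hbox hlb)).2 (hF.xe l hl (hbox hlb))
  unfold fre at hf
  unfold gr
  rcases hco : co (fm e) with _ | _
  · rw [hco] at hf hbox hinb hF
    rw [if_neg Bool.false_ne_true] at hf ⊢
    unfold FreeC at hf
    rw [not_or] at hf
    have h1 := hf.1
    unfold SmallC at h1
    push Not at h1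
    obtain ⟨x, y, h2, h3, h4, h5⟩ := h1
    rw [h.duC'] at h2
    refine ⟨x, ?_, h2⟩
    rw [far_iff]
    intro h6
    have h7 : x + y - (1, 1) ∈ bx false w R := by
      rw [mem_bx]
      unfold Pool.Agent.H39.Q1.tc
      rw [if_neg Bool.false_ne_true]
      have e1 : x + y - (1, 1) + (1, 1) = x + y := by
        refine Prod.ext ?_ ?_ <;> simp
      rw [e1]
      have h8 := unit_cases h3
      rw [inR_iff] at h6
      refine BR_of_ends h3 ?_ ?_
      · rw [inR_iff]; omega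
      · rw [inR_iff]; omega
    have g1 := hbox h7
    have g2 := FlatL.hgodd g1
    set l := x + y - (1, 1) with hl
    have h9 : l ∈ La (fm e) ∪ TF TT fm (fm e) ∪ Wl (fm e) ∪ W := by
      rw [mem_union, mem_union, mem_union]
      by_cases k3 : 1 ≤ hg (gm ε w) (lm false ε l)
      · exact Or.inl (Or.inl (Or.inl ((hF.la l g1).2 k3)))
      · by_cases k4 : hg (gm ε w) (lm false ε l) = -1
        · by_cases k5 : l ∈ TF TT fm (fm e)
          · exact Or.inl (Or.inl (Or.inr k5))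
          · right
            have := hF.w l g1
            rw [if_neg Bool.false_ne_true] at this
            exact this k4 k5
        · exact Or.inl (Or.inr (hF.wf rfl l g1 (by omega)))
    simp only [mem_union] at h4 h9
    tauto
  · rw [hco] at hf hbox hinb hF
    rw [if_pos rfl] at hf ⊢
    rw [not_or] at hf
    have h1 := hf.1
    unfold SmallO at h1
    push Not at h1
    obtain ⟨x, y, h2, h3, h4, h5⟩ := h1
    rw [h.capO2] at h2
    refine ⟨x, ?_, h2⟩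
    rw [far_iff]
    intro h6
    have h7 : x + y ∈ bx true w R := by
      rw [mem_bx]
      unfold Pool.Agent.H39.Q1.tc
      rw [if_pos rfl]
      have e1 : x + y + (0, 0) = x + y := add_zero _
      rw [e1]
      have h8 := unit_cases h3
      rw [inR_iff] at h6
      refine BR_of_ends h3 ?_ ?_
      · rw [inR_iff]; omega
      · rw [inR_iff]; omega
    rcases mem_union.1 h4 with h8 | h8
    · exact h5 (hinb _ (mem_union_left _ (h.bB (hω h8))) h7)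
    · rcases mem_union.1 h8 with h8 | h8
      · have := hF.w _ (hbox h7)
        rw [if_pos rfl] at this
        exact (mem_sdiff.1 h8).2 (this (mem_sdiff.1 h8).1)
      · exact h5 (hinb _ (mem_union_right _ h8) h7)

/-- a tie which is not free has an arm -/
lemma nfr_arm (h : Multi X W Bb B TT fm co Wl La b o) {ρ : ℤ}
    (hF : FlatL W Bb TT (TF TT fm (fm e)) (Wl (fm e)) (La (fm e)) b o (co (fm e)) ε δ (b e)
      (ρ + 1))
    (hρ : 1 ≤ ρ) (hω : ω ⊆ B) (hf : ¬ fre W TT fm co Wl La b o ω e) :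
    W1 1 (gm ε (b e)) ρ (push (co (fm e)) ε B ω) := by
  obtain ⟨v, h1, h2⟩ := nfr_far h hF hω hf
  have hE := env_of_flat h hF
  have h3 := Co_gm (ε := ε) h2
  rw [← push_gr (h.la _) hω] at h3
  have h4 : Far (gm ε (b e)) ρ (gm ε v) := by rw [Far_gm, gm_gm]; exact h1
  obtain ⟨v', h5, h6⟩ := open_exit h3 (by rw [abs_lt, abs_lt]; omega :
      |(gm ε (b e)).1 - (gm ε (b e)).1| < ρ ∧ |(gm ε (b e)).2 - (gm ε (b e)).2| < ρ) h4
  refine ⟨v', h5, h6.mono fun l hl => ?_⟩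
  obtain ⟨h7, h8⟩ := mem_inter.1 hl
  obtain ⟨h9, h10⟩ := mem_inter.1 h7
  exact mem_inter.2 ⟨h9, hE.cap (inter_subset_right (s₁ := push (co (fm e)) ε B ω)) le_rfl h7 h8⟩

/-- The ties `T` of one family, cut in `J` runs of length at most `L`. -/
def Runs (W Bb TT T Wi Li : Finset (ℤ × ℤ)) (b o : ℤ × ℤ → ℤ × ℤ) (c : Bool) (L J : ℕ) : Prop :=
  ∃ (ε : Bool × Bool) (δ z : ℤ × ℤ) (N : Fin J → ℕ) (off : Fin J → ℤ)
    (tie : Fin J × ℤ → ℤ × ℤ),
    (∀ a, N a ≤ L) ∧ (∀ a a', a < a' → off a + N a ≤ off a') ∧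
    (∀ e ∈ T, ∃ x ∈ Wp N, tie x = e) ∧
    ∀ x ∈ Wp N, tie x ∈ T ∧ gm ε (b (tie x)) = wpt 1 z (off x.1 + x.2) ∧
      ∀ ρ : ℤ, 1 ≤ ρ → 2 * ρ ≤ x.2 → 2 * ρ < N x.1 - x.2 →
        FlatL W Bb TT T Wi Li b o c ε δ (b (tie x)) (ρ + 1)

/-- the expectation in the new coordinates, real valued -/
lemma Ex_push {c : Bool} (B : Finset (ℤ × ℤ)) (f : Finset (ℤ × ℤ) → ℝ) :
    Ex hf (B.map (lm c ε)) f = Ex hf B (fun ω => f (push c ε B ω)) := by
  have h1 := Eh_push (c := c) (ε := ε) B (fun ω => ((f ω : ℝ) : ℂ))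
  rw [Eh_ofReal] at h1
  have h2 := Eh_ofReal B (fun ω => f (push c ε B ω))
  rw [h2] at h1
  exact_mod_cast h1

open Classical in
/-- the ties of one family which are not free -/
noncomputable def nfi (W TT : Finset (ℤ × ℤ)) (fm : ℤ × ℤ → ι) (co : ι → Bool)
    (Wl La : ι → Finset (ℤ × ℤ)) (b o : ℤ × ℤ → ℤ × ℤ) (i : ι) (ω : Finset (ℤ × ℤ)) :
    Finset (ℤ × ℤ) := (TF TT fm i).filter fun e => ¬ fre W TT fm co Wl La b o ω e

/-- **one family** -/
theorem fam_exp : ∃ C : ℝ, 1 ≤ C ∧ ∀ {ι : Type} [DecidableEq ι] (X : Pool.Agent.Q1.Env)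
    (W Bb B TT : Finset (ℤ × ℤ)) (fm : ℤ × ℤ → ι) (co : ι → Bool)
    (Wl La : ι → Finset (ℤ × ℤ)) (b o : ℤ × ℤ → ℤ × ℤ) (i : ι) (L J : ℕ) (θ : ℝ),
    Multi X W Bb B TT fm co Wl La b o →
    Runs W Bb TT (TF TT fm i) (Wl i) (La i) b o (co i) L J → 0 ≤ θ →
    C * θ * cr ((L + 1 : ℕ) : ℝ) ^ 2 ≤ 1 →
    Ex hf B (fun ω => (1 + θ) ^ (nfi W TT fm co Wl La b o i ω).card) ≤ 2 ^ J := by
  classical
  obtain ⟨C, hC, harm⟩ := arms_exp
  refine ⟨C, hC, ?_⟩
  intro ι _ X W Bb B TT fm co Wl La b o i L J θ h hR hθ hsm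
  obtain ⟨ε, δ, z, N, off, tie, hN, hoff, hcov, hx⟩ := hR
  set c := co i with hc
  set A : Finset (ℤ × ℤ) → Finset (Fin J × ℤ) := fun ω =>
    (Wp N).filter fun x => ¬ fre W TT fm co Wl La b o (pull c ε B ω) (tie x) with hA
  have key := harm 1 (Or.inr rfl) J z N off L θ (B.map (lm c ε)) A hN hoff hθ hsm
    (by
      intro x hxm ρ h1 h2 h3
      obtain ⟨g1, g2, g3⟩ := hx x hxm
      have hF := g3 ρ h1 h2 h3
      have hfm : fm (tie x) = i := (mem_TF.1 g1).2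
      have hE := env_of_flat h hF
      rw [← g2]
      refine hE.sub.trans ?_
      exact map_subset_map.2 (h.la i))
    (by
      intro ω hω
      refine ⟨filter_subset _ _, fun x hxA ρ h1 h2 h3 => ?_⟩
      obtain ⟨hxm, hnf⟩ := mem_filter.1 hxA
      obtain ⟨g1, g2, g3⟩ := hx x hxm
      have hF := g3 ρ h1 h2 h3
      have hfm : fm (tie x) = i := (mem_TF.1 g1).2
      have h4 := nfr_arm (e := tie x) (ε := ε) (δ := δ) (ρ := ρ) h (by rw [hfm]; exact hF) h1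
        (pull_sub (c := c) (ε := ε) (B := B) (ω := ω)) hnf
      rw [g2, hfm, ← hc, push_pull hω] at h4
      exact h4)
  rw [Ex_push] at key
  refine le_trans ?_ key
  refine Ex_mono hf_Pb fun ω hω => ?_
  have h1 : (nfi W TT fm co Wl La b o i ω).card ≤ (A (push c ε B ω)).card := by
    have h2 : nfi W TT fm co Wl La b o i ω ⊆ (A (push c ε B ω)).image tie := by
      intro e he
      obtain ⟨h3, h4⟩ := mem_filter.1 he
      obtain ⟨x, h5, h6⟩ := hcov e h3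
      refine mem_image.2 ⟨x, mem_filter.2 ⟨h5, ?_⟩, h6⟩
      rw [pull_push hω, h6]
      exact h4
    exact (card_le_card h2).trans card_image_le
  exact pow_le_pow_right₀ (by linarith) h1

/-- a product is at most the sum of the powers -/
lemma prod_le_sum {κ : Type*} [Fintype κ] (x : κ → ℝ) (h0 : ∀ i, 1 ≤ x i)
    (hne : Nonempty κ) : ∏ i, x i ≤ ∑ i, x i ^ Fintype.card κ := by
  classical
  obtain ⟨m, -, hm⟩ := Finset.exists_max_image univ x ⟨hne.some, mem_univ _⟩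
  have h1 : ∏ i, x i ≤ ∏ _i : κ, x m :=
    prod_le_prod (fun i _ => by linarith [h0 i]) fun i _ => hm i (mem_univ _)
  rw [prod_const, card_univ] at h1
  refine h1.trans (single_le_sum (f := fun i => x i ^ Fintype.card κ)
    (fun i _ => pow_nonneg (by linarith [h0 i]) _) (mem_univ m))

/-- powers of a number close to one -/
lemma pow_near {θ : ℝ} (h0 : 0 ≤ θ) (h1 : θ ≤ 1) (n : ℕ) :
    (1 + θ) ^ n ≤ 1 + (2 ^ n - 1) * θ := by
  induction n with
  | zero => simp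
  | succ n ih =>
    have h2 : (1 : ℝ) ≤ 2 ^ n := one_le_pow₀ (by norm_num)
    have h3 := mul_le_mul_of_nonneg_right ih (by linarith : 0 ≤ 1 + θ)
    have h4 := mul_nonneg (by linarith : (0 : ℝ) ≤ 2 ^ n - 1) (mul_nonneg h0 (by linarith : 0 ≤ 1 - θ))
    rw [pow_succ, pow_succ]
    nlinarith

/-- the ties which are not free, by families -/
lemma card_nfr [Fintype ι] : (nfr W TT fm co Wl La b o ω).card =
    ∑ i, (nfi W TT fm co Wl La b o i ω).card := by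
  classical
  rw [card_eq_sum_card_fiberwise (f := fm) (t := univ) (fun _ _ => mem_coe.2 (mem_univ _))]
  refine sum_congr rfl fun i _ => congrArg card ?_
  ext l
  unfold nfr nfi
  rw [mem_filter, mem_filter, mem_filter, mem_TF]
  tauto

/-- **Uniform bound for complex weights near one**, several families of ties with flat walls. -/
theorem tot_bd : ∃ C : ℝ, 1 ≤ C ∧ ∀ {ι : Type} [Fintype ι] [DecidableEq ι]
    (X : Pool.Agent.Q1.Env) (W Bb B TT Cs : Finset (ℤ × ℤ)) (fm : ℤ × ℤ → ι) (co : ι → Bool)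
    (Wl La : ι → Finset (ℤ × ℤ)) (b o : ℤ × ℤ → ℤ × ℤ) (a : ℤ × ℤ → ℂ) (s : ℤ × ℤ → ℂ)
    (L J : ℕ) (M θ : ℝ), Nonempty ι →
    Multi X W Bb B TT fm co Wl La b o → (∀ c ∈ Cs, FarM X TT fm co Wl La b o c) →
    (∀ i, Runs W Bb TT (TF TT fm i) (Wl i) (La i) b o (co i) L J) → 0 ≤ θ →
    (∀ ω ⊆ B, ∀ P ⊆ TT, ‖VM X Cs a Bb B TT fm co ω P‖ ≤ M) →
    (∀ e ∈ TT, ‖1 - s e‖ ≤ θ) →
    C * 4 ^ Fintype.card ι * θ * cr ((L + 1 : ℕ) : ℝ) ^ 2 ≤ 1 →
    ‖Tot X Cs a Bb TT fm co s‖ ≤ M * (Fintype.card ι * 2 ^ J) := by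
  classical
  obtain ⟨C, hC, harm⟩ := fam_exp
  refine ⟨C, hC, ?_⟩
  intro ι _ _ X W Bb B TT Cs fm co Wl La b o a s L J M θ hne h hFar hR hθ hM hs hsm
  set k := Fintype.card ι with hk
  have hM0 : 0 ≤ M := (norm_nonneg _).trans (hM ∅ (empty_subset _) ∅ (empty_subset _))
  have hcr1 : 1 ≤ cr ((L + 1 : ℕ) : ℝ) ^ 2 := by
    refine one_le_pow₀ ?_
    unfold cr
    exact Real.one_le_rpow (by exact_mod_cast (by omega : 1 ≤ L + 1)) (by norm_num)
  have h4 : (1 : ℝ) ≤ 4 ^ k := one_le_pow₀ (by norm_num)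
  have hθ1 : θ ≤ 1 := by
    have h1 : θ ≤ C * 4 ^ k * θ * cr ((L + 1 : ℕ) : ℝ) ^ 2 := by
      have h2 : 1 ≤ C * 4 ^ k := by nlinarith
      have h3 : θ ≤ C * 4 ^ k * θ := by nlinarith
      nlinarith
    linarith
  refine (tot_le h hFar hθ hM hs).trans (mul_le_mul_of_nonneg_left ?_ hM0)
  have hpt : ∀ ω, ω ⊆ B → ((1 + θ) ^ 2) ^ (nfr W TT fm co Wl La b o ω).card ≤
      ∑ i : ι, (1 + 4 ^ k * θ) ^ (nfi W TT fm co Wl La b o i ω).card := by
    intro ω _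
    rw [card_nfr, ← prod_pow_eq_pow_sum]
    refine (prod_le_sum _ (fun i => one_le_pow₀ (one_le_pow₀ (by linarith))) hne).trans ?_
    refine sum_le_sum fun i _ => ?_
    rw [← hk, ← pow_mul, ← pow_mul]
    have e1 : 2 * ((nfi W TT fm co Wl La b o i ω).card * k) =
        (2 * k) * (nfi W TT fm co Wl La b o i ω).card := by ring
    rw [e1, pow_mul]
    refine pow_le_pow_left₀ (by positivity) ?_ _
    have h5 := pow_near hθ hθ1 (2 * k)
    have e2 : (2 : ℝ) ^ (2 * k) = 4 ^ k := by rw [pow_mul]; norm_num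
    rw [e2] at h5
    nlinarith
  refine (Ex_mono hf_Pb hpt).trans ?_
  rw [Ex_sum]
  refine (sum_le_sum fun i _ => harm X W Bb B TT fm co Wl La b o i L J (4 ^ k * θ) h (hR i)
    (by positivity) (by nlinarith)).trans (le_of_eq ?_)
  rw [sum_const, card_univ, nsmul_eq_mul]

/-- **Runs of a flat wall** -/
theorem Runs.mk' {T Wi Li : Finset (ℤ × ℤ)} {c : Bool} {L J n : ℕ} {z : ℤ × ℤ}
    (tie : ℤ → ℤ × ℤ) (hn : n ≤ J * L) (hcov : ∀ e ∈ T, ∃ p : ℤ, (0 ≤ p ∧ p < n) ∧ tie p = e)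
    (hx : ∀ p : ℤ, 0 ≤ p → p < n → tie p ∈ T ∧ gm ε (b (tie p)) = wpt 1 z p)
    (hflat : ∀ p ρ : ℤ, 1 ≤ ρ → 2 * ρ ≤ p → 2 * ρ < n - p → 2 * ρ < L →
      FlatL W Bb TT T Wi Li b o c ε δ (b (tie p)) (ρ + 1)) :
    Runs W Bb TT T Wi Li b o c L J := by
  classical
  have hmem : ∀ x : Fin J × ℤ, x ∈ Wp (fun a : Fin J => min L (n - a * L)) →
      (0 ≤ x.2 ∧ x.2 < L) ∧ (0 ≤ (x.1 : ℕ) * (L : ℤ) + x.2 ∧ (x.1 : ℕ) * (L : ℤ) + x.2 < n) ∧
      ((min L (n - x.1 * L) : ℕ) : ℤ) ≤ n - (x.1 : ℕ) * (L : ℤ) := by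
    intro x hx1
    have h1 := mem_Wp.1 hx1
    have h2 : (0 : ℤ) ≤ (x.1 : ℕ) * (L : ℤ) := by positivity
    have h3 : ((x.1 : ℕ) * L : ℕ) = (x.1 : ℕ) * (L : ℤ) := by push_cast; ring
    omega
  refine ⟨ε, δ, z, fun a => min L (n - a * L), fun a => (a : ℕ) * (L : ℤ),
    fun x => tie ((x.1 : ℕ) * (L : ℤ) + x.2), fun a => min_le_left _ _, ?_, ?_, ?_⟩
  · intro a a' haa
    have h1 : (a : ℕ) + 1 ≤ a' := haa
    have h2 : ((a : ℕ) + 1) * L ≤ (a' : ℕ) * L := Nat.mul_le_mul_right _ h1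
    have h3 : (((a : ℕ) + 1) * L : ℕ) = (a : ℕ) * (L : ℤ) + L := by push_cast; ring
    have h4 : (((a' : ℕ) * L : ℕ) : ℤ) = (a' : ℕ) * (L : ℤ) := by push_cast; ring
    simp only
    rw [← h4]
    generalize ((a : ℕ) : ℤ) * (L : ℤ) = A at h3 ⊢
    generalize (a' : ℕ) * L = A' at h2 ⊢
    generalize ((a : ℕ) + 1) * L = A'' at h2 h3
    omega
  · intro e he
    obtain ⟨p, ⟨h1, h2⟩, h3⟩ := hcov e he
    have hL : 0 < L := by
      rcases Nat.eq_zero_or_pos L with h4 | h4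
      · rw [h4, mul_zero] at hn; omega
      · exact h4
    obtain ⟨q, hq⟩ : ∃ q : ℕ, (q : ℤ) = p := ⟨p.toNat, by omega⟩
    have hqn : q < n := by omega
    have h5 : q / L < J := by
      rw [Nat.div_lt_iff_lt_mul hL]
      omega
    have h6 : q / L * L + q % L = q := Nat.div_add_mod' q L
    have h7 : q % L < L := Nat.mod_lt _ hL
    refine ⟨(⟨q / L, h5⟩, ((q % L : ℕ) : ℤ)), mem_Wp.2 ?_, ?_⟩
    · simp only
      generalize q / L * L = A at h6 ⊢
      generalize q % L = r at h6 h7 ⊢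
      omega
    · simp only
      have h8 : (((q / L * L + q % L : ℕ)) : ℤ) = (q / L : ℕ) * (L : ℤ) + (q % L : ℕ) := by
        push_cast; ring
      rw [← h8, h6, hq, h3]
  · intro x hx1
    have h1 := hmem x hx1
    obtain ⟨h2, h3⟩ := hx _ h1.2.1.1 h1.2.1.2
    refine ⟨h2, h3, fun ρ h4 h5 h6 => hflat _ ρ h4 ?_ ?_ ?_⟩
    · have h7 : (0 : ℤ) ≤ (x.1 : ℕ) * (L : ℤ) := by positivity
      omega
    · have := h1.2.2
      simp only at h6
      omega
    · omega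

end Pool.Agent.H20.Q1
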