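import Pool.Agent.H20.Q1.BDc
import Pool.Agent.H13.R45.OFarI

set_option autoImplicit false
open Finset

/-!
# Runs of the four walls of the 45 degree rectangles

`runs_left`, `runs_floor`, `runs_right`, `runs_ceil` : the ties of the four walls, cut in runs.
-/

namespace Pool.Agent.H20.Q1

open Pool.Agent.H75.Perc Pool.Agent.H75.TwoArm Pool.Agent.H75.Four Pool.Agent.H49.Perc
open Pool.Agent.H99.NC Pool.Agent.H60.Q1 Pool.Agent.Q1 Pool.Agent.H39.Q1 Pool.Agent.H33.Q1
open Pool.Agent.H69.Q1 Pool.Agent.H74.R45 Pool.Agent.H13.Q1 Pool.Agent.H13.R45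
open Pool.Agent.Q1.M6e (OFar Inn inc2)

variable {w h : ℤ} {O : Out w h} {L : ℤ}

/-! ### The runs -/

variable {S : Finset (ℤ × ℤ)} {m : ℤ} {Lr J : ℕ}

/-- **left wall** -/
theorem runs_left (hS : S ⊆ RRL h) (hO : OFar O L) (h1 : (Lr : ℤ) + 2 ≤ m) (h2 : m ≤ w)
    (h3 : (Lr : ℤ) + 2 < L) (hJ : h ≤ J * Lr) {Kf : Finset (ℤ × ℤ)} :
    Runs (WL' O S) (RT 0 w 0 h) (TTL w h) (TF (TTL w h) fmL true) (WlL h S Kf true)
      (LaL w h m true) bL oL true Lr J := by
  have hh := O.hh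
  have hh2 := O.h2
  have key : ∀ p : ℤ, gm (false, false) (bL (lt (-1, h - 2 - 2 * p))) =
      wpt 1 (gp (0, h - 2)) p := by
    intro p
    have e1 : bL (lt (-1, h - 2 - 2 * p)) = gp (0, h - 2 - 2 * p) := by
      unfold bL
      rw [tt_lt, if_pos rfl, pt_lt]
      congr 1
      refine Prod.ext ?_ ?_ <;> simp only <;> omega
    rw [e1]
    unfold gm sgb wpt gp
    simp only [Bool.false_eq_true, if_false, Prod.mk.injEq]
    omega
  refine Runs.mk' (n := (h / 2 - 1).toNat) (ε := (false, false)) (δ := (1, 0))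
    (z := gp (0, h - 2)) (fun p => lt (-1, h - 2 - 2 * p)) ?_ ?_ ?_ ?_
  · zify
    omega
  · intro e he
    rw [TF_L_true] at he
    obtain ⟨x, y, rfl⟩ := exists_lt (odd_TiL he)
    rw [mem_TiL] at he
    refine ⟨(h - 2 - y) / 2, by omega, ?_⟩
    show lt _ = lt _
    congr 1
    refine Prod.ext ?_ ?_ <;> simp only <;> omega
  · intro p hp1 hp2
    refine ⟨?_, key p⟩
    rw [TF_L_true, mem_TiL]
    omega
  · intro p ρ k1 k2 k3 k4
    have e1 : bL (lt (-1, h - 2 - 2 * p)) = gp (0, h - 2 - 2 * p) := by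
      unfold bL
      rw [tt_lt, if_pos rfl, pt_lt]
      congr 1
      refine Prod.ext ?_ ?_ <;> simp only <;> omega
    rw [e1]
    exact flat_left hS (wFar_of hO) (by omega) (by omega) (by omega) (by omega) (by omega)
      (by omega)

/-- **floor** -/
theorem runs_floor (h1 : (Lr : ℤ) + 2 ≤ m) (h2 : m ≤ h) {x0 x1 y0 : ℤ} (hx0 : x0 ≤ 0)
    (hx1 : w ≤ x1) (hy0 : y0 ≤ -m) (hJ : w ≤ J * Lr) :
    Runs (WL' O S) (RT 0 w 0 h) (TTL w h) (TF (TTL w h) fmL false)
      (WlL h S (RT x0 x1 y0 (-1)) false) (LaL w h m false) bL oL false Lr J := by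
  have hw := O.hw
  have hw2 := O.w2
  have e1 : ∀ p : ℤ, 0 ≤ w - 2 - 2 * p → bL (lt (w - 2 - 2 * p, -1)) =
      gp (w - 1 - 2 * p, 0) := by
    intro p hp
    unfold bL
    rw [tt_lt, if_neg (by simp only; omega), pt_lt]
    congr 1
    refine Prod.ext ?_ ?_ <;> simp only <;> omega
  refine Runs.mk' (n := (w / 2).toNat) (ε := (true, false)) (δ := (0, 1))
    (z := gm (true, false) (gp (w - 1, 0))) (fun p => lt (w - 2 - 2 * p, -1)) ?_ ?_ ?_ ?_
  · zify
    omega
  · intro e he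
    rw [TF_L_false] at he
    obtain ⟨x, y, rfl⟩ := exists_lt (odd_TiF he)
    rw [mem_TiF] at he
    refine ⟨(w - 2 - x) / 2, by omega, ?_⟩
    show lt _ = lt _
    congr 1
    refine Prod.ext ?_ ?_ <;> simp only <;> omega
  · intro p hp1 hp2
    refine ⟨?_, ?_⟩
    · rw [TF_L_false, mem_TiF]
      omega
    · rw [e1 p (by omega)]
      unfold gm sgb wpt gp
      simp only [Bool.false_eq_true, if_false, if_true, Prod.mk.injEq]
      omega
  · intro p ρ k1 k2 k3 k4
    rw [e1 p (by omega)]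
    exact flat_floor hx0 hx1 (by omega) (by omega) (by omega) (by omega) (by omega) (by omega)

/-- **right wall** -/
theorem runs_right (hS : S ⊆ RRU w h) (hO : OFar O L) (h1 : (Lr : ℤ) + 2 ≤ m) (h2 : m ≤ w)
    (h3 : (Lr : ℤ) + 2 < L) (hJ : h ≤ J * Lr) {Kf : Finset (ℤ × ℤ)} :
    Runs (WU' O S) (RT 0 w (-1) (h - 1)) (TTU w h) (TF (TTU w h) (fmU w) true)
      (WlU w h S Kf true) (LaU w h m true) (bU w) (oU w) true Lr J := by
  have hh := O.hh
  have hh2 := O.h2
  have hw2 := O.w2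
  have e1 : ∀ p : ℤ, bU w (lt (w, -1 + 2 * p)) = gp (w, 2 * p) := by
    intro p
    unfold bU
    rw [tt_lt, if_pos rfl, pt_lt]
    congr 1
    refine Prod.ext ?_ ?_ <;> simp only <;> omega
  refine Runs.mk' (n := (h / 2).toNat) (ε := (true, true)) (δ := (1, 0))
    (z := gm (true, true) (gp (w, 0))) (fun p => lt (w, -1 + 2 * p)) ?_ ?_ ?_ ?_
  · zify
    omega
  · intro e he
    rw [TF_U_true] at he
    obtain ⟨x, y, rfl⟩ := exists_lt (odd_TiR he)
    rw [mem_TiR] at he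
    refine ⟨(y + 1) / 2, by omega, ?_⟩
    show lt _ = lt _
    congr 1
    refine Prod.ext ?_ ?_ <;> simp only <;> omega
  · intro p hp1 hp2
    refine ⟨?_, ?_⟩
    · rw [TF_U_true, mem_TiR]
      omega
    · rw [e1 p]
      unfold gm sgb wpt gp
      simp only [if_true, Prod.mk.injEq]
      omega
  · intro p ρ k1 k2 k3 k4
    rw [e1 p]
    exact flat_right hS (wFar_of hO) (by omega) (by omega) (by omega) (by omega) (by omega)
      (by omega)

/-- **ceiling** -/
theorem runs_ceil (h1 : (Lr : ℤ) + 2 ≤ m) (h2 : m ≤ h) {x0 x1 y1 : ℤ} (hx0 : x0 ≤ 0)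
    (hx1 : w ≤ x1) (hy1 : h + m ≤ y1) (hJ : w ≤ J * Lr) :
    Runs (WU' O S) (RT 0 w (-1) (h - 1)) (TTU w h) (TF (TTU w h) (fmU w) false)
      (WlU w h S (RT x0 x1 h y1) false) (LaU w h m false) (bU w) (oU w) false Lr J := by
  have hw := O.hw
  have hw2 := O.w2
  have e1 : ∀ p : ℤ, 2 + 2 * p < w → bU w (lt (2 + 2 * p, h - 1)) = gp (2 + 2 * p, h - 1) := by
    intro p hp
    unfold bU
    rw [tt_lt, if_neg (by simp only; omega), pt_lt]
    congr 1
    refine Prod.ext ?_ ?_ <;> simp only <;> omega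
  refine Runs.mk' (n := (w / 2 - 1).toNat) (ε := (false, true)) (δ := (0, 1))
    (z := gm (false, true) (gp (2, h - 1))) (fun p => lt (2 + 2 * p, h - 1)) ?_ ?_ ?_ ?_
  · zify
    omega
  · intro e he
    rw [TF_U_false] at he
    obtain ⟨x, y, rfl⟩ := exists_lt (odd_TiU he)
    rw [mem_TiU] at he
    refine ⟨(x - 2) / 2, by omega, ?_⟩
    show lt _ = lt _
    congr 1
    refine Prod.ext ?_ ?_ <;> simp only <;> omega
  · intro p hp1 hp2
    refine ⟨?_, ?_⟩
    · rw [TF_U_false, mem_TiU]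
      omega
    · rw [e1 p (by omega)]
      unfold gm sgb wpt gp
      simp only [Bool.false_eq_true, if_false, if_true, Prod.mk.injEq]
      omega
  · intro p ρ k1 k2 k3 k4
    rw [e1 p (by omega)]
    exact flat_ceil hx0 hx1 (by omega) (by omega) (by omega) (by omega) (by omega) (by omega)

end Pool.Agent.H20.Q1
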