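import Pool.Agent.Q1.M6e.ApRect

set_option autoImplicit false
open Finset

/-!
# The local a priori bound

`VM_loc` : the bound `C r ^ (2/3)` for the L-shaped path between two points at distance `≤ r`, if all tiles
at distance `≤ r` of the path are random and not frozen.
-/

namespace Pool.Agent.H20.Q1

open Pool.Agent.H75.Perc Pool.Agent.H75.TwoArm Pool.Agent.H33.Q1 Pool.Agent.H74.R45
open Pool.Agent.H99.NC Pool.Agent.H39.Q1 Pool.Agent.Q1 Pool.Agent.Q1.M6c
open Pool.Agent.Q1.M6e (LC La Dp VM_bound VM_eq norm_La)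

lemma card_LC {x y x' y' r : ℤ} (h1 : |x - x'| ≤ r) (h2 : |y - y'| ≤ r) :
    ((LC x y x' y').card : ℝ) ≤ 2 * r := by
  have hr : 0 ≤ r := (abs_nonneg _).trans h1
  have h3 : (LC x y x' y').card ≤ (Ico (min x x') (max x x')).card +
      (Ico (min y y') (max y y')).card := by
    unfold LC
    exact (card_union_le _ _).trans (add_le_add card_image_le card_image_le)
  rw [Int.card_Ico, Int.card_Ico] at h3
  have h4 := abs_le.1 h1
  have h5 := abs_le.1 h2
  have h6 : ((LC x y x' y').card : ℤ) ≤ 2 * r := by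
    refine (Int.ofNat_le.2 h3).trans ?_
    push_cast
    rw [Int.toNat_of_nonneg (by omega), Int.toNat_of_nonneg (by omega)]
    omega
  exact_mod_cast h6

/-- **The local a priori bound.** -/
theorem VM_loc : ∃ C : ℝ, 0 < C ∧ ∀ X, PlaneK X →
    ∀ (Bb B TT : Finset (ℤ × ℤ)), Bb ⊆ X.E → Disjoint Bb TT → TT ⊆ X.E → B ⊆ Bb →
    ∀ {ι : Type} [DecidableEq ι] (fm : ℤ × ℤ → ι) (co : ι → Bool) (x y x' y' r : ℤ), 1 ≤ r →
    |x - x'| ≤ r → |y - y'| ≤ r →
    (∀ u v, min x x' - r ≤ u → u < max x x' + r → min y y' - r ≤ v → v < max y y' + r →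
      lt (u, v) ∈ Bb \ B) → ∀ ω ⊆ B, ∀ P,
    ‖VM X (LC x y x' y') (La x y x' y') Bb B TT fm co ω P‖ ≤ C * (r : ℝ) ^ (2 / 3 : ℝ) := by
  obtain ⟨C, hC, R0, H⟩ := VM_bound (η := 1 / 3) (by norm_num)
  refine ⟨C + 2 * |R0|, by positivity, ?_⟩
  intro X hX Bb B TT h1 h2 h3 h4 ι _ fm co x y x' y' r hr hx hy hE ω hω P
  have hr1 : (1 : ℝ) ≤ r := by exact_mod_cast hr
  have hrp : (1 : ℝ) ≤ (r : ℝ) ^ (2 / 3 : ℝ) := Real.one_le_rpow hr1 (by norm_num)
  have ax := abs_le.1 hx
  have ay := abs_le.1 hy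
  by_cases hR : R0 ≤ r
  · have key := H X hX Bb B TT h1 h2 h3 h4 fm co (min x x' - r) (max x x' + r) (min y y' - r)
      (max y y' + r) (r : ℝ) hR hE ?_ ?_ x y x' y' ?_ ?_ ω hω P
    · refine key.trans ?_
      have : 0 ≤ 2 * |R0| := by positivity
      nlinarith
    · have : (max x x' + r - (min x x' - r) : ℤ) ≤ 3 * r := by omega
      have h5 : ((max x x' + r : ℤ) : ℝ) - ((min x x' - r : ℤ) : ℝ) ≤ ((3 * r : ℤ) : ℝ) := by
        rw [← Int.cast_sub]; exact_mod_cast this
      refine h5.trans (le_of_eq ?_)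
      push_cast; ring
    · have : (max y y' + r - (min y y' - r) : ℤ) ≤ 3 * r := by omega
      have h5 : ((max y y' + r : ℤ) : ℝ) - ((min y y' - r : ℤ) : ℝ) ≤ ((3 * r : ℤ) : ℝ) := by
        rw [← Int.cast_sub]; exact_mod_cast this
      refine h5.trans (le_of_eq ?_)
      push_cast; ring
    · have c1 : ((min x x' - r : ℤ) : ℝ) + r ≤ x := by
        have : min x x' - r + r ≤ x := by omega
        exact_mod_cast this
      have c2 : (x : ℝ) + r ≤ ((max x x' + r : ℤ) : ℝ) := by
        have : x + r ≤ max x x' + r := by omega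
        exact_mod_cast this
      have c3 : ((min y y' - r : ℤ) : ℝ) + r ≤ y := by
        have : min y y' - r + r ≤ y := by omega
        exact_mod_cast this
      have c4 : (y : ℝ) + r ≤ ((max y y' + r : ℤ) : ℝ) := by
        have : y + r ≤ max y y' + r := by omega
        exact_mod_cast this
      exact ⟨⟨by linarith, by linarith⟩, by linarith, by linarith⟩
    · have c1 : ((min x x' - r : ℤ) : ℝ) + r ≤ x' := by
        have : min x x' - r + r ≤ x' := by omega
        exact_mod_cast this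
      have c2 : (x' : ℝ) + r ≤ ((max x x' + r : ℤ) : ℝ) := by
        have : x' + r ≤ max x x' + r := by omega
        exact_mod_cast this
      have c3 : ((min y y' - r : ℤ) : ℝ) + r ≤ y' := by
        have : min y y' - r + r ≤ y' := by omega
        exact_mod_cast this
      have c4 : (y' : ℝ) + r ≤ ((max y y' + r : ℤ) : ℝ) := by
        have : y' + r ≤ max y y' + r := by omega
        exact_mod_cast this
      exact ⟨⟨by linarith, by linarith⟩, by linarith, by linarith⟩
  · push Not at hR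
    rw [VM_eq h1 h2 h3 h4 hω]
    have k1 : ‖∑ c ∈ LC x y x' y', La x y x' y' c *
        (X.freeze (Bb \ B) (ω ∪ opn TT fm co P)).inc c‖ ≤ (LC x y x' y').card := by
      refine (norm_sum_le _ _).trans ?_
      have : ∀ c ∈ LC x y x' y', ‖La x y x' y' c *
          (X.freeze (Bb \ B) (ω ∪ opn TT fm co P)).inc c‖ ≤ 1 := by
        intro c _
        rw [norm_mul, norm_La, one_mul]
        exact Env.inc_norm_le_one _ _
      refine (sum_le_sum this).trans (le_of_eq ?_)
      simp
    refine (k1.trans (card_LC hx hy)).trans ?_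
    have k2 : (r : ℝ) ≤ |R0| := hR.le.trans (le_abs_self R0)
    have k3 : 0 ≤ |R0| := abs_nonneg _
    nlinarith

end Pool.Agent.H20.Q1
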